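import Pool.Agent.REG10.SDefs

/-!
REG10: set-valued part B, statements of the modules.  Recipes: /team-store/MP_d26ff6_REG10S.md
-/

set_option autoImplicit false

namespace Pool.Agent.REG10

open Module CommonSlot
open Pool.Agent.Helper58.PLine (QData)
open scoped BigOperators

/-! ## Linkage -/

/-- SSTR: the fundamental consequence of linkage. Uses nothing. -/
def Stmt_SSTR : Prop := ∀ (V Q : Type) [AddCommGroup V] [Module (ZMod 2) V] (S : QData V Q),
  S.e = 0 → ∀ x v y s v', S.q x v = S.q y s → S.q y v' = S.z →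
    ∃ a g, S.q x a = S.z ∧ S.q x g = S.z ∧ S.q (v' + a) (v + g) = S.z

/-- SASC: associativity of the representation of ternary forms. Uses nothing. -/
def Stmt_SASC : Prop := ∀ (V Q : Type) [AddCommGroup V] [Module (ZMod 2) V] (S : QData V Q),
  S.e = 0 → ∀ z a b c d, S.q (z + a) (a + d) = S.z → S.q (d + b) (b + c) = S.z →
    ∃ g, S.q (g + a) (a + b) = S.z ∧ S.q (z + c) (g + c) = S.z

/-- SDGR: the elements represented by a 2-fold Pfister form. Uses SASC. -/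
def Stmt_SDGR : Prop := ∀ (V Q : Type) [AddCommGroup V] [Module (ZMod 2) V] (S : QData V Q),
  S.e = 0 → ∀ x w v₁ v₂, S.q w v₁ = S.z → S.q (x + w) v₂ = S.z →
    ∃ y s, S.q x w = S.q y s ∧ S.q y (v₁ + v₂) = S.z

/-! ## Regular elements -/

/-- basic facts on a regular element (module SBAS) -/
structure SBas {V Q : Type} [AddCommGroup V] [Module (ZMod 2) V] (S : QData V Q) (x : V) :
    Prop where
  ker_le : ∀ u, S.q x u = S.z → u ∈ SW S x
  self : x ∈ SW S x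
  mem : ∀ s, ta S x s ∈ SC S x → s ∈ SW S x
  /-- (a) -/
  a : ∀ w ∈ SW S x, ∀ v, ∃ s, S.q w s = S.q w v ∧ S.q x s = S.q w v
  /-- (b) -/
  b : ∀ w ∈ SW S x, ∀ v z, S.q (x + w) v = S.z → S.q w z = S.z → InQ S x v z
  /-- (c) -/
  c : ∀ w ∈ SW S x, ∀ w' ∈ SW S x, vl S x w w' ∈ SC S x
  /-- (e) -/
  e : ∀ C' ≤ SC S x, ∀ a ∈ SQI S x C', ∀ v, ∃ s ∈ SW S x, S.q a s = S.q a v

/-- SBAS. Uses SSTR. -/
def Stmt_SBAS : Prop := ∀ (V Q : Type) [AddCommGroup V] [Module (ZMod 2) V] (S : QData V Q)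
  (x : V), S.e = 0 → SRg S x → SBas S x

/-- SCHW: decomposition of `V / W` by characters. Uses SBAS. -/
def Stmt_SCHW : Prop := ∀ (V Q : Type) [AddCommGroup V] [Module (ZMod 2) V] [Finite V]
  (S : QData V Q) (x : V), S.e = 0 → SRg S x → ∃ k, Nonempty (SCW S x k)

/-- SFUW: every element is a sum of three full elements. Uses SBAS, SCHW. -/
def Stmt_SFUW : Prop := ∀ (V Q : Type) [AddCommGroup V] [Module (ZMod 2) V] [Finite V]
  (S : QData V Q) (x : V), S.e = 0 → SRg S x →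
  ∀ y, ∃ y₁ y₂, SFull S x y₁ ∧ SFull S x y₂ ∧ SFull S x (y + y₁ + y₂)

/-- SWUX: `W = V_x + X`. Uses SSTR, SBAS, SDGR, SFUW. -/
def Stmt_SWUX : Prop := ∀ (V Q : Type) [AddCommGroup V] [Module (ZMod 2) V] [Finite V]
  (S : QData V Q) (x : V), S.e = 0 → SRg S x →
  ∀ w ∈ SW S x, ∃ u, S.q x u = S.z ∧ w + u ∈ SQI S x (SC S x)

/-- SPIR: the property (PI) for regular elements. Uses SBAS, SFUW. -/
def Stmt_SPIR : Prop := ∀ (V Q : Type) [AddCommGroup V] [Module (ZMod 2) V] [Finite V]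
  (S : QData V Q) (x : V), S.e = 0 → SRg S x → ∀ C', SStb S x (SC S x) C' → SPI S x C'

/-- SSTC: a minimal stable subspace. Uses nothing. -/
def Stmt_SSTC : Prop := ∀ (V Q : Type) [AddCommGroup V] [Module (ZMod 2) V] [Finite V]
  (S : QData V Q) (x : V) (C : Submodule (ZMod 2) (BX S x)), S.e = 0 → C ≠ ⊥ →
  (∀ c ∈ C, ∃ a ∈ SQI S x C, ta S x a = c) →
  (∀ C', SStb S x C C' → C' ≠ ⊥ → SPI S x C') →
  SRk1 S ∨ ∃ C' : Submodule (ZMod 2) (BX S x), C' ≠ ⊥ ∧ FR (bet S x C') x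

/-- SRNK: rank one element by saturation (`ETCR.sat_N`). Uses ENA. -/
def Stmt_SRNK : Prop := ∀ (V Q : Type) [AddCommGroup V] [Module (ZMod 2) V] [Finite V]
  (S : QData V Q) (x : V) (C' : Submodule (ZMod 2) (BX S x)), S.e = 0 → C' ≠ ⊥ →
  FR (bet S x C') x → SRk1 S

/-- SGNR: **the general theorem** (remark (i) of note 1659). Uses SSTC, SRNK. -/
def Stmt_SGNR : Prop := ∀ (V Q : Type) [AddCommGroup V] [Module (ZMod 2) V] [Finite V]
  (S : QData V Q) (x : V) (C : Submodule (ZMod 2) (BX S x)), S.e = 0 → C ≠ ⊥ →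
  (∀ c ∈ C, ∃ a ∈ SQI S x C, ta S x a = c) →
  (∀ C', SStb S x C C' → C' ≠ ⊥ → SPI S x C') → SRk1 S

/-! ## Regular elements with totally isotropic `V_x` (note 1587 B) -/

/-- SCHD: decomposition of `V / V_x` by characters. Uses SCHW. -/
def Stmt_SCHD : Prop := ∀ (V Q : Type) [AddCommGroup V] [Module (ZMod 2) V] [Finite V]
  (S : QData V Q) (x : V), S.e = 0 → SRg S x → SIso S x → (∀ w ∈ SW S x, S.q x w = S.z) →
  ∃ k, Nonempty (SCD S x k)

/-- SSCA: cross terms are scalar. Uses SSTR. -/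
def Stmt_SSCA : Prop := ∀ (V Q : Type) [AddCommGroup V] [Module (ZMod 2) V] [Finite V]
  (S : QData V Q) (x : V) (k : ℕ), S.e = 0 → SRg S x → SIso S x → ∀ C : SCD S x k,
  ∃ α : Fin k → Fin k → (V →ₗ[ZMod 2] ZMod 2), (∀ i j v, α i j (C.P j v) = α i j v) ∧
    ∀ i j v z, i ≠ j →
      S.q (C.P i v) (C.P j z) = S.q x (α i j z • C.P i v + α j i v • C.P j z)

/-- SCMP: values inside one component. Uses nothing. -/
def Stmt_SCMP : Prop := ∀ (V Q : Type) [AddCommGroup V] [Module (ZMod 2) V] [Finite V]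
  (S : QData V Q) (x : V) (k : ℕ), S.e = 0 → SRg S x → SIso S x →
  ∀ (C : SCD S x k) (i : Fin k) (y y' z : V), S.q x z = S.q (C.P i y) (C.P i y') →
    ∃ z', S.q x (C.P i z') = S.q (C.P i y) (C.P i y')

/-- SIND: independence of the components. Uses SSTR. -/
def Stmt_SIND : Prop := ∀ (V Q : Type) [AddCommGroup V] [Module (ZMod 2) V] [Finite V]
  (S : QData V Q) (x : V) (k : ℕ), S.e = 0 → SRg S x → SIso S x →
  ∀ (C : SCD S x k) (v z : V), InQ S x v z → ∀ i, InQ S x (C.P i v) (C.P i z)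

/-- SCLO: the set of the vectors `(χ_i(u))_i` is closed under products. Uses SSCA. -/
def Stmt_SCLO : Prop := ∀ (V Q : Type) [AddCommGroup V] [Module (ZMod 2) V] [Finite V]
  (S : QData V Q) (x : V) (k : ℕ), S.e = 0 → SRg S x → SIso S x →
  ∀ (C : SCD S x k) (u w : V), S.q x u = S.z → S.q x w = S.z →
  ∃ u', S.q x u' = S.z ∧ ∀ i, C.χ i u' = C.χ i u * C.χ i w

/-- SALL: every vector is a `(χ_i(u))_i`. Uses SCLO. -/
def Stmt_SALL : Prop := ∀ (V Q : Type) [AddCommGroup V] [Module (ZMod 2) V] [Finite V]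
  (S : QData V Q) (x : V) (k : ℕ), S.e = 0 → SRg S x → SIso S x →
  ∀ (C : SCD S x k) (ε : Fin k → ZMod 2), ∃ u, S.q x u = S.z ∧ ∀ i, C.χ i u = ε i

/-- SRFF: the decomposition. Uses SSCA, SCMP, SIND, SALL. -/
def Stmt_SRFF : Prop := ∀ (V Q : Type) [AddCommGroup V] [Module (ZMod 2) V] [Finite V]
  (S : QData V Q) (x : V) (k : ℕ), S.e = 0 → SNd S → SRg S x → SIso S x → SCD S x k →
  SHasOS S

/-! ## The theorem -/

/-- SRGX: **the theorem on regular elements**, set-valued. Uses SBAS, SWUX, SPIR, SGNR, SCHD,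
SRFF. -/
def Stmt_SRGX : Prop := ∀ (V Q : Type) [AddCommGroup V] [Module (ZMod 2) V] [Finite V]
  (S : QData V Q) (x : V), S.e = 0 → SNd S → SRg S x → SHasOS S ∨ SRk1 S

end Pool.Agent.REG10
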