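import Pool.Agent.REG10.RK
import Pool.Agent.REG10.SStmts

/-!
# REG10: final assembly for quaternionic structures (from `Stmt_SRGX` and `rk1`)
-/

set_option autoImplicit false
set_option linter.unusedSimpArgs false
set_option linter.unnecessarySeqFocus false
set_option linter.unusedSectionVars false
set_option linter.unusedVariables false

namespace Pool.Agent.REG10

open QS
open Pool.Agent.ETCR (ext_of_rigid decomp_of_sub)
open Pool.Agent.Helper58.PLine (QData)
open Pool.Agent.ETCP

/-- the linked subgroup `U` has a regular element `x`: `q(w, v)` is of the form `q(x, z)` for all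
`w` with `q(x, w) = 0` (everything in `U`) -/
def HasReg (S : QStruct) (U : Subgroup S.G) : Prop :=
  ∃ x ∈ U, ∀ w ∈ U, S.q x w = S.zero → ∀ v ∈ U, ∃ z ∈ U, S.q x z = S.q w v

/-- every linked subgroup has a regular element -/
def HReg (S : QStruct) : Prop := ∀ U : Subgroup S.G, Lsub S U → HasReg S U

/-- some `q(x, ·)` has exactly one nonzero value -/
def HasRk (S : QStruct) : Prop :=
  ∃ (x : S.G) (c : S.Q), c ≠ S.zero ∧ (∀ y, S.q x y = S.zero ∨ S.q x y = c) ∧ ∃ y, S.q x y = c

theorem lsub_top (S : QStruct) : Lsub S ⊤ := by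
  intro a _ b _ c _ d _ h
  obtain ⟨x, h1, h2⟩ := S.qs4 _ _ _ _ h
  exact ⟨x, Subgroup.mem_top x, h1, h2⟩

/-! ### Embeddings -/

/-- `T` embeds into `S` by `ι` -/
structure Emb (T S : QStruct) (ι : T.G →* S.G) : Prop where
  inj : Function.Injective ι
  q : ∀ a b c d, T.q a b = T.q c d ↔ S.q (ι a) (ι b) = S.q (ι c) (ι d)

theorem Emb.zero {T S : QStruct} {ι : T.G →* S.G} (h : Emb T S ι) (a b : T.G) :
    T.q a b = T.zero ↔ S.q (ι a) (ι b) = S.zero := by
  have h1 := h.q a b 1 1
  rwa [T.q_one, map_one, S.q_one] at h1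

theorem Emb.lsub {T S : QStruct} {ι : T.G →* S.G} (h : Emb T S ι) {U : Subgroup T.G}
    (hU : Lsub T U) : Lsub S (U.map ι) := by
  rintro _ ⟨a, ha, rfl⟩ _ ⟨b, hb, rfl⟩ _ ⟨c, hc, rfl⟩ _ ⟨d, hd, rfl⟩ e
  obtain ⟨x, hx, h1, h2⟩ := hU a ha b hb c hc d hd ((h.q _ _ _ _).2 e)
  exact ⟨ι x, ⟨x, hx, rfl⟩, (h.q _ _ _ _).1 h1, (h.q _ _ _ _).1 h2⟩

theorem Emb.hreg {T S : QStruct} {ι : T.G →* S.G} (h : Emb T S ι) (hS : HReg S) : HReg T := by
  intro U hU
  obtain ⟨_, ⟨x, hx, rfl⟩, h1⟩ := hS _ (h.lsub hU)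
  refine ⟨x, hx, fun w hw hxw v hv => ?_⟩
  obtain ⟨_, ⟨z, hz, rfl⟩, h2⟩ := h1 _ ⟨w, hw, rfl⟩ ((h.zero _ _).1 hxw) _ ⟨v, hv, rfl⟩
  exact ⟨z, hz, (h.q _ _ _ _).2 h2⟩

theorem emb_sub (S : QStruct) (hneg : S.neg = 1) (U : Subgroup S.G) (h4 : Lsub S U) :
    Emb (ESL.PRODRECX.sub S hneg U h4) S U.subtype := by
  refine ⟨Subtype.coe_injective, fun a b c d => ?_⟩
  exact Subtype.ext_iff

theorem Emb.lrange {T S : QStruct} {ι : T.G →* S.G} (h : Emb T S ι) : Lsub S ι.range := by
  have := h.lsub (lsub_top T)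
  rwa [← MonoidHom.range_eq_map] at this

theorem Emb.iso {T S : QStruct} {ι : T.G →* S.G} (h : Emb T S ι) (hneg : S.neg = 1)
    (hT : T.neg = 1) : Iso (ESL.PRODRECX.sub S hneg ι.range h.lrange) T := by
  have h0 : Iso T (ESL.PRODRECX.sub S hneg ι.range h.lrange) := by
    refine ⟨MonoidHom.ofInjective h.inj, ?_, fun a b c d => ?_⟩
    · rw [hT, map_one]; rfl
    · rw [h.q]
      exact ((emb_sub S hneg ι.range h.lrange).q (MonoidHom.ofInjective h.inj a)
        (MonoidHom.ofInjective h.inj b) (MonoidHom.ofInjective h.inj c)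
        (MonoidHom.ofInjective h.inj d)).symm
  obtain ⟨φ, h1, h2⟩ := h0
  refine ⟨φ.symm, ?_, ?_⟩
  · rw [← h1, MulEquiv.symm_apply_apply]
  · intro a b c d
    have h4 := h2 (φ.symm a) (φ.symm b) (φ.symm c) (φ.symm d)
    simp only [MulEquiv.apply_symm_apply] at h4
    exact h4.symm

theorem Emb.elem {T S : QStruct} {ι : T.G →* S.G} (h : Emb T S ι) (hneg : S.neg = 1)
    (hT : T.neg = 1) (hr : ι.range ≠ ⊤)
    (hU : ∀ (U : Subgroup S.G) (h4 : Lsub S U), U ≠ ⊤ → ElemType (ESL.PRODRECX.sub S hneg U h4)) :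
    ElemType T :=
  ElemType.iso _ _ (h.iso hneg hT) (hU _ _ hr)

/-- the residue structure of a group extension embeds -/
theorem emb_ext (T : QStruct) : Emb T (ext T) (MonoidHom.inl T.G (Multiplicative (ZMod 2))) := by
  refine ⟨fun a b h => congrArg Prod.fst h, fun a b c d => ?_⟩
  have h1 : (ext T).q ((a, 1) : T.G × Multiplicative (ZMod 2))
      ((b, 1) : T.G × Multiplicative (ZMod 2)) = (ext T).q ((c, 1) : T.G × Multiplicative (ZMod 2))
      ((d, 1) : T.G × Multiplicative (ZMod 2)) ↔ extMap T (a, 1) (b, 1) = extMap T (c, 1) (d, 1) :=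
    Subtype.ext_iff
  rw [extMap_one_one, extMap_one_one] at h1
  constructor
  · intro h
    exact h1.2 (by rw [h])
  · intro h
    exact congrArg Prod.fst (h1.1 h)

theorem emb_left (A B : QStruct) : Emb A (QS.prod A B) (MonoidHom.inl A.G B.G) := by
  refine ⟨fun a b h => congrArg Prod.fst h, fun a b c d => ?_⟩
  show _ ↔ (A.q a b, B.q 1 1) = (A.q c d, B.q 1 1)
  rw [Prod.mk.injEq]
  exact ⟨fun h => ⟨h, rfl⟩, fun h => h.1⟩

theorem emb_right (A B : QStruct) : Emb B (QS.prod A B) (MonoidHom.inr A.G B.G) := by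
  refine ⟨fun a b h => congrArg Prod.snd h, fun a b c d => ?_⟩
  show _ ↔ (A.q 1 1, B.q a b) = (A.q 1 1, B.q c d)
  rw [Prod.mk.injEq]
  exact ⟨fun h => ⟨rfl, h⟩, fun h => h.2⟩

theorem Emb.comp {T S R : QStruct} {ι : T.G →* S.G} (h : Emb T S ι) (φ : S.G ≃* R.G)
    (hφ : ∀ a b c d, S.q a b = S.q c d ↔ R.q (φ a) (φ b) = R.q (φ c) (φ d)) :
    Emb T R (φ.toMonoidHom.comp ι) := by
  refine ⟨fun a b e => h.inj (φ.injective e), fun a b c d => ?_⟩
  rw [h.q, hφ]
  rfl

theorem range_ne {A : Type} {G H : Type} [Group A] [Group G] [Group H] (ι : A →* G) (φ : G ≃* H)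
    (g : G) (hg : g ∉ ι.range) : (φ.toMonoidHom.comp ι).range ≠ ⊤ := by
  intro e
  have : φ g ∈ (φ.toMonoidHom.comp ι).range := by rw [e]; exact Subgroup.mem_top _
  obtain ⟨a, ha⟩ := this
  apply hg
  exact ⟨a, φ.injective ha⟩

/-- group extensions and products -/
theorem elem_of_ed (S : QStruct) [Finite S.G] (hneg : S.neg = 1)
    (hU : ∀ (U : Subgroup S.G) (h4 : Lsub S U), U ≠ ⊤ → ElemType (ESL.PRODRECX.sub S hneg U h4))
    (h : (∃ T : QStruct, Iso S (ext T)) ∨ Decomp S) : ElemType S := by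
  have inv : ∀ {S T : QStruct}, Iso S T → Iso T S := by
    rintro S T ⟨φ, h1, h2⟩
    refine ⟨φ.symm, ?_, ?_⟩
    · rw [← h1, MulEquiv.symm_apply_apply]
    · intro a b c d
      have h4 := h2 (φ.symm a) (φ.symm b) (φ.symm c) (φ.symm d)
      simp only [MulEquiv.apply_symm_apply] at h4
      exact h4.symm
  rcases h with ⟨T, hi⟩ | ⟨A, B, hA, hB, hA2, hB2, hi⟩
  · have hT : T.neg = 1 := by
      obtain ⟨φ, h1, -⟩ := hi
      rw [hneg, map_one] at h1
      exact (congrArg Prod.fst h1).symm
    refine ElemType.iso _ _ (inv hi) (ElemType.ext T ?_)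
    obtain ⟨φ, h1, h2⟩ := inv hi
    refine ((emb_ext T).comp φ h2).elem hneg hT (range_ne _ φ
      ((1, Multiplicative.ofAdd 1) : T.G × Multiplicative (ZMod 2)) ?_) hU
    rintro ⟨a, ha⟩
    have h3 : (1 : Multiplicative (ZMod 2)) = Multiplicative.ofAdd 1 := congrArg Prod.snd ha
    exact absurd h3 (by decide)
  · have hfG : ∀ {G : Type} [Group G], 2 ≤ Nat.card G → ∃ g : G, g ≠ 1 := by
      intro G _ h2
      by_contra hno
      push Not at hno
      have : Nat.card G ≤ 1 := by
        have hs : Subsingleton G := ⟨fun a b => by rw [hno a, hno b]⟩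
        exact Finite.card_le_one_iff_subsingleton.2 hs
      omega
    obtain ⟨φ, h1, h2⟩ := hi
    refine ElemType.iso _ _ ⟨φ, h1, h2⟩ (ElemType.prod A B ?_ ?_)
    · obtain ⟨g, hg⟩ := hfG hB2
      refine ((emb_left A B).comp φ h2).elem hneg hA (range_ne _ φ ((1, g) : A.G × B.G) ?_) hU
      rintro ⟨a, ha⟩
      exact hg (congrArg Prod.snd ha).symm
    · obtain ⟨g, hg⟩ := hfG hA2
      refine ((emb_right A B).comp φ h2).elem hneg hB (range_ne _ φ ((g, 1) : A.G × B.G) ?_) hU
      rintro ⟨a, ha⟩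
      exact hg (congrArg Prod.fst ha).symm

/-! ### The decomposition given by `SHasOS` -/

theorem os_cases (S : QStruct) [Finite S.G] (hneg : S.neg = 1)
    (hnd : ∀ a, (∀ b, S.q a b = S.zero) → a = 1) (h : SHasOS (ETC.toData S)) :
    (∀ g : S.G, g = 1) ∨ (∃ T : QStruct, Iso S (ext T)) ∨ Decomp S ∨ HasRk S := by
  obtain ⟨k, E, hOS⟩ := h
  have hV : ∀ v : Additive S.G, v = ∑ j, E.p j v := by
    intro v
    exact eo (hnd (Additive.toMul _) (fun b => E.rad v (Additive.ofMul b)))
  rcases Nat.lt_or_ge 1 k with hk | hk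
  · -- product
    right; right; left
    obtain ⟨i0, i1, hne⟩ : ∃ i0 i1 : Fin k, i0 ≠ i1 :=
      ⟨⟨0, by omega⟩, ⟨1, hk⟩, fun e => absurd (congrArg Fin.val e) (by simp)⟩
    have hA : IsCompl (LinearMap.range (E.p i0)) (LinearMap.ker (E.p i0)) := by
      constructor
      · rw [Submodule.disjoint_def]
        rintro _ ⟨v, rfl⟩ h2
        rw [LinearMap.mem_ker, E.idem] at h2
        exact h2
      · rw [codisjoint_iff, eq_top_iff]
        intro v _
        refine Submodule.mem_sup.2 ⟨E.p i0 v, ⟨v, rfl⟩, v + E.p i0 v, ?_, ?_⟩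
        · rw [LinearMap.mem_ker, map_add, E.idem, ZModModule.add_self]
        · rw [add_comm v, ← add_assoc, ZModModule.add_self, zero_add]
    have hc1 : ∀ a ∈ LinearMap.range (E.p i0), ∀ b ∈ LinearMap.ker (E.p i0),
        C (ETC.toData S) a b := by
      rintro _ ⟨v, rfl⟩ b hb
      have h1 := E.perp i0 v b
      rw [LinearMap.mem_ker.1 hb, add_zero] at h1
      exact h1
    have hpr : ∀ a ∈ LinearMap.range (E.p i0), ∀ b ∈ LinearMap.ker (E.p i0),
        E.p i0 (a + b) = a := by
      rintro _ ⟨v, rfl⟩ b hb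
      rw [map_add, E.idem, LinearMap.mem_ker.1 hb, add_zero]
    apply decomp_of_sub S hneg hA hc1
    · intro a ha b hb a' ha' b' hb' hC
      have h1 : C (ETC.toData S) a a' := by
        have := E.ind _ _ hC i0
        rw [hpr a ha b hb, hpr a' ha' b' hb'] at this
        exact this
      refine ⟨h1, ?_⟩
      -- C (a + b) (a' + b'), C a (a' + b'), so C b (a' + b'), C b a', C b b'
      have h2 : C (ETC.toData S) a (a' + b') := h1.add (hc1 a ha b' hb')
      have h3 : C (ETC.toData S) b (a' + b') := by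
        have := h2.add' hC
        rwa [← add_assoc, ZModModule.add_self, zero_add] at this
      have h4 : C (ETC.toData S) b a' := (hc1 a' ha' b hb).symm
      have := h4.add h3
      rwa [← add_assoc, ZModModule.add_self, zero_add] at this
    · obtain ⟨v, hv⟩ := E.ne i0
      exact ⟨_, ⟨v, rfl⟩, hv⟩
    · obtain ⟨v, hv⟩ := E.ne i1
      exact ⟨E.p i1 v, E.orth i0 i1 hne v, hv⟩
  · have hk2 : k = 0 ∨ k = 1 := by omega
    rcases hk2 with rfl | rfl
    · left
      intro g
      have := hV (Additive.ofMul g)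
      rw [Finset.univ_eq_empty, Finset.sum_empty] at this
      exact this
    · have hV' : ∀ v : Additive S.G, E.p 0 v = v := by
        intro v
        have := hV v
        rw [Fin.sum_univ_one] at this
        exact this.symm
      obtain ⟨v, hv⟩ := E.ne 0
      rw [hV'] at hv
      rcases hOS 0 with h1 | ⟨t, -, ht0, h1⟩
      · right; right; right
        have h2 : ∃ w : S.G, S.q (Additive.toMul v) w ≠ S.zero := by
          by_contra hno
          push Not at hno
          exact hv (hnd _ hno)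
        obtain ⟨w, hw⟩ := h2
        refine ⟨Additive.toMul v, S.q (Additive.toMul v) w, hw, fun y => ?_, w, rfl⟩
        have h3 := h1 v (Additive.ofMul w) (Additive.ofMul y)
        rw [hV'] at h3
        rcases h3 with h4 | h4 | h4
        · exact absurd h4 hw
        · exact Or.inl h4
        · right
          have h5 : C (ETC.toData S) v (Additive.ofMul w + Additive.ofMul y) := h4
          exact (q_eq h5).symm
      · right; left
        refine ext_of_rigid S hneg (r := Additive.toMul t) ht0 ?_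
        intro y hy
        have h2 := h1 (Additive.ofMul y)
        rw [hV'] at h2
        exact h2 hy

/-! ### Main theorems -/

/-- structure theorem -/
theorem struct_thm (hS : Stmt_SRGX) (S : QStruct) [Finite S.G] (hneg : S.neg = 1) (x : S.G)
    (hx : ∀ w v, S.q x w = S.zero → ∃ z, S.q x z = S.q w v) :
    (∀ g : S.G, g = 1) ∨ (∃ T : QStruct, Iso S (ext T)) ∨ Decomp S ∨ HasRk S := by
  by_cases hnd : ∀ a, (∀ b, S.q a b = S.zero) → a = 1
  · have hfin : Finite (Additive S.G) := (inferInstance : Finite S.G)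
    have he : (ETC.toData S).e = 0 := by
      show Additive.ofMul S.neg = 0
      rw [hneg]; rfl
    rcases hS (Additive S.G) S.Q (ETC.toData S) (Additive.ofMul x) he
      (fun v hv => hnd (Additive.toMul v) (fun b => hv (Additive.ofMul b)))
      (fun w v hw => by
        obtain ⟨z, hz⟩ := hx (Additive.toMul w) (Additive.toMul v) hw
        exact ⟨Additive.ofMul z, hz.symm⟩) with h | ⟨p, c, h1, h2, h3⟩
    · exact os_cases S hneg hnd h
    · right; right; right
      obtain ⟨v, hv⟩ := h3
      exact ⟨Additive.toMul p, c, h1, fun y => h2 (Additive.ofMul y), Additive.toMul v, hv⟩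
  · push Not at hnd
    obtain ⟨r, hr, hr1⟩ := hnd
    by_cases hg : ∃ g : S.G, g ≠ 1 ∧ g ≠ r
    · obtain ⟨g, hg1, hg2⟩ := hg
      exact Or.inr (Or.inr (Or.inl (decomp_of_degenerate S hneg hr1 hr hg1 hg2)))
    · push Not at hg
      have h4 : Nat.card {x // S.q r x = S.zero} ≤ 4 := by
        have h2 : Nat.card S.G ≤ 2 := by
          classical
          have hs : Function.Surjective (fun b : Bool => if b then (1 : S.G) else r) := by
            intro g
            by_cases h1 : g = 1
            · exact ⟨true, by simp [h1]⟩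
            · exact ⟨false, by simp [hg g h1]⟩
          calc Nat.card S.G ≤ Nat.card Bool := Nat.card_le_card_of_surjective _ hs
            _ = 2 := by simp
        exact (Finite.card_subtype_le _).trans (by omega)
      rcases small S hneg hr1 h4 with h | h
      · exact Or.inr (Or.inl h)
      · exact Or.inr (Or.inr (Or.inl h))

/-- small structures -/
theorem card_four (S : QStruct) [Finite S.G] (hneg : S.neg = 1) (h8 : ¬ 8 ≤ Nat.card S.G)
    {p : S.G} (hp : p ≠ 1) : (∃ T : QStruct, Iso S (ext T)) ∨ Decomp S := by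
  obtain ⟨n, hn⟩ := ETCC.card_V_pow (S := S) ⊤
  have hn' : Nat.card S.G = 2 ^ n := by
    rw [← hn]
    exact (Subgroup.card_top).symm
  have h4 : Nat.card S.G ≤ 4 := by
    rw [hn'] at h8 ⊢
    have : n < 3 := by
      by_contra hno
      apply h8
      calc 8 = 2 ^ 3 := by norm_num
        _ ≤ 2 ^ n := Nat.pow_le_pow_right (by norm_num) (by omega)
    calc 2 ^ n ≤ 2 ^ 2 := Nat.pow_le_pow_right (by norm_num) (by omega)
      _ = 4 := by norm_num
  exact small S hneg hp ((Finite.card_subtype_le _).trans h4)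

/-- if `S` has a regular element and all proper linked subgroups are of elementary type then `S`
is of elementary type -/
theorem elem_of_regular (hS : Stmt_SRGX) (S : QStruct) [Finite S.G] (hneg : S.neg = 1)
    (hr : HasReg S ⊤)
    (hU : ∀ (U : Subgroup S.G) (h4 : Lsub S U), U ≠ ⊤ →
      ElemType (ESL.PRODRECX.sub S hneg U h4)) : ElemType S := by
  obtain ⟨x, -, hx⟩ := hr
  have hx' : ∀ w v, S.q x w = S.zero → ∃ z, S.q x z = S.q w v := by
    intro w v hw
    obtain ⟨z, -, hz⟩ := hx w (Subgroup.mem_top w) hw v (Subgroup.mem_top v)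
    exact ⟨z, hz⟩
  rcases struct_thm hS S hneg x hx' with h | h | h | ⟨p, c, hc, hc1, hc2⟩
  · apply ElemType.L0
    have hs : Subsingleton S.G := ⟨fun a b => by rw [h a, h b]⟩
    exact Nat.card_unique
  · exact elem_of_ed S hneg hU (Or.inl h)
  · exact elem_of_ed S hneg hU (Or.inr h)
  · rcases rk1 S hneg hc hc1 hc2 with h | h | ⟨hnd, h2⟩ | ⟨U, h4, hc3, h5⟩
    · exact elem_of_ed S hneg hU (Or.inl h)
    · exact elem_of_ed S hneg hU (Or.inr h)
    · by_cases h8 : 8 ≤ Nat.card S.G
      · exact ElemType.loc S inferInstance h8 hnd h2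
      · have hp1 : p ≠ 1 := by
          rintro rfl
          obtain ⟨y, hy⟩ := hc2
          apply hc
          rw [← hy, S.qs2, S.q_one]
        exact elem_of_ed S hneg hU (card_four S hneg h8 hp1)
    · have hUt : U ≠ ⊤ := by
        rintro rfl
        rw [Subgroup.card_top] at hc3
        exact lt_irrefl _ hc3
      exact elem_of_ed S hneg hU (h5 (hU U h4 hUt))

/-- **hereditarily regular structures are of elementary type** -/
theorem elem_of_hreg (hS : Stmt_SRGX) : ∀ (n : ℕ) (S : QStruct), Finite S.G → Nat.card S.G = n →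
    S.neg = 1 → HReg S → ElemType S := by
  intro n
  induction n using Nat.strong_induction_on with
  | _ n ih =>
    intro S hf hn hneg hR
    refine elem_of_regular hS S hneg (hR ⊤ (lsub_top S)) ?_
    intro U h4 hU
    have hc : Nat.card U < Nat.card S.G := by
      refine lt_of_le_of_ne (Subgroup.card_le_card_group U) fun e => hU ?_
      exact Subgroup.eq_top_of_card_eq U e
    have hfU : Finite (ESL.PRODRECX.sub S hneg U h4).G := (inferInstance : Finite U)
    exact ih (Nat.card U) (by rw [← hn]; exact hc) _ hfU rfl rfl ((emb_sub S hneg U h4).hreg hR)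

/-- a minimal structure which is not of elementary type has no regular element -/
theorem elem_of_smaller (hS : Stmt_SRGX) (S : QStruct) [Finite S.G] (hneg : S.neg = 1)
    (hr : HasReg S ⊤)
    (hT : ∀ T : QStruct, Finite T.G → T.neg = 1 → Nat.card T.G < Nat.card S.G → ElemType T) :
    ElemType S := by
  refine elem_of_regular hS S hneg hr ?_
  intro U h4 hU
  have hc : Nat.card U < Nat.card S.G := by
    refine lt_of_le_of_ne (Subgroup.card_le_card_group U) fun e => hU ?_
    exact Subgroup.eq_top_of_card_eq U e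
  exact hT _ (inferInstance : Finite U) rfl hc

end Pool.Agent.REG10
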