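import Pool.Agent.REG10.FN

/-!
# REG10: structures of elementary type (`-1 = 1`) have a regular element
-/

set_option autoImplicit false

namespace Pool.Agent.REG10

open QS

/-- `x` is a regular element -/
def RegE (S : QStruct) (x : S.G) : Prop :=
  ∀ w v, S.q x w = S.zero → ∃ z, S.q x z = S.q w v

theorem regE_iff (S : QStruct) : (∃ x, RegE S x) ↔ HasReg S ⊤ := by
  constructor
  · rintro ⟨x, hx⟩
    refine ⟨x, Subgroup.mem_top x, fun w _ hw v _ => ?_⟩
    obtain ⟨z, hz⟩ := hx w v hw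
    exact ⟨z, Subgroup.mem_top z, hz⟩
  · rintro ⟨x, -, hx⟩
    refine ⟨x, fun w v hw => ?_⟩
    obtain ⟨z, -, hz⟩ := hx w (Subgroup.mem_top w) hw v (Subgroup.mem_top v)
    exact ⟨z, hz⟩

theorem iso_zero' {S T : QStruct} {φ : S.G ≃* T.G}
    (h : ∀ a b c d, S.q a b = S.q c d ↔ T.q (φ a) (φ b) = T.q (φ c) (φ d)) (a b : S.G) :
    S.q a b = S.zero ↔ T.q (φ a) (φ b) = T.zero := by
  have h1 := h a b 1 1
  rwa [S.q_one, map_one, T.q_one] at h1

theorem regE_iso {S T : QStruct} (hi : Iso S T) {x : S.G} (hx : RegE S x) : ∃ y, RegE T y := by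
  obtain ⟨φ, -, h⟩ := hi
  refine ⟨φ x, fun w v hw => ?_⟩
  have hw' : S.q x (φ.symm w) = S.zero := by
    rw [iso_zero' h, MulEquiv.apply_symm_apply]; exact hw
  obtain ⟨z, hz⟩ := hx (φ.symm w) (φ.symm v) hw'
  refine ⟨φ z, ?_⟩
  have := (h _ _ _ _).1 hz
  rwa [MulEquiv.apply_symm_apply, MulEquiv.apply_symm_apply] at this

theorem regE_zero {S : QStruct} (h : ∀ a b, S.q a b = S.zero) : RegE S 1 :=
  fun w v _ => ⟨1, by rw [h, h]⟩

theorem regE_prod {A B : QStruct} {x : A.G} {y : B.G} (hx : RegE A x) (hy : RegE B y) :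
    RegE (QS.prod A B) ((x, y) : A.G × B.G) := by
  rintro ⟨w, w'⟩ ⟨v, v'⟩ hw
  have h1 : A.q x w = A.zero := congrArg Prod.fst hw
  have h2 : B.q y w' = B.zero := congrArg Prod.snd hw
  obtain ⟨z, hz⟩ := hx w v h1
  obtain ⟨z', hz'⟩ := hy w' v' h2
  exact ⟨(z, z'), Prod.ext hz hz'⟩

/-- the new element of a group extension is rigid -/
theorem regE_ext (T : QStruct) (hT : T.neg = 1) :
    RegE (ext T) ((1, Multiplicative.ofAdd 1) : T.G × Multiplicative (ZMod 2)) := by
  have hq0 : ∀ b : T.G, T.q 1 b = T.zero := fun b => by rw [T.qs2, T.q_one]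
  rintro ⟨w, ω⟩ ⟨v, ν⟩ hw
  have hw' : extMap T (1, Multiplicative.ofAdd 1) (w, ω) = (T.zero, 1) :=
    congrArg Subtype.val hw
  rcases two_cases ω with rfl | rfl
  · rw [extMap_x_one] at hw'
    have h1 : w = 1 := congrArg Prod.snd hw'
    subst h1
    rcases two_cases ν with rfl | rfl
    · refine ⟨(1, 1), Subtype.ext ?_⟩
      show extMap T (1, Multiplicative.ofAdd 1) (1, 1) = extMap T (1, 1) (v, 1)
      rw [extMap_x_one, extMap_one_one, T.q_one, hq0]
    · refine ⟨(1, 1), Subtype.ext ?_⟩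
      show extMap T (1, Multiplicative.ofAdd 1) (1, 1) = extMap T (1, 1) (v, Multiplicative.ofAdd 1)
      rw [extMap_x_one, extMap_one_x, T.q_one, hq0]
  · rw [extMap_x_x] at hw'
    have h1 : T.neg * 1 * w = 1 := congrArg Prod.snd hw'
    rw [hT, one_mul, one_mul] at h1
    subst h1
    exact ⟨(v, ν), rfl⟩

/-- two quaternions -/
theorem regE_two {S : QStruct} (h : Nat.card S.Q = 2) : ∃ x, RegE S x := by
  obtain ⟨a, b, hab, hu⟩ := Nat.card_eq_two_iff.1 h
  have hall : ∀ β : S.Q, β = a ∨ β = b := by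
    intro β
    have : β ∈ ({a, b} : Set S.Q) := by rw [hu]; trivial
    simpa using this
  -- the nonzero quaternion
  obtain ⟨c, hc⟩ : ∃ c : S.Q, ∀ β : S.Q, β = S.zero ∨ β = c := by
    rcases hall S.zero with h0 | h0
    · exact ⟨b, fun β => by rw [h0]; exact hall β⟩
    · exact ⟨a, fun β => by rw [h0]; exact (hall β).symm⟩
  obtain ⟨x, y, hxy⟩ := S.surj c
  refine ⟨x, fun w v _ => ?_⟩
  rcases hc (S.q w v) with h1 | h1
  · exact ⟨1, by rw [S.q_one, h1]⟩
  · exact ⟨y, by rw [hxy, h1]⟩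

/-- structures of elementary type with `-1 = 1` have a regular element -/
theorem regE_of_elem {S : QStruct} (hE : ElemType S) : S.neg = 1 → ∃ x, RegE S x := by
  induction hE with
  | L0 S h =>
    intro _
    have hs : Subsingleton S.G := (Nat.card_eq_one_iff_unique.1 h).1
    exact ⟨1, regE_zero fun a b => by rw [Subsingleton.elim b 1, S.q_one]⟩
  | L10 S h h1 h2 => exact fun _ => ⟨1, regE_zero h2⟩
  | L11 S h h1 h2 => exact fun h' => absurd h' h1
  | L1 S h h1 h2 => exact fun h' => absurd h' h1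
  | loc S hf h h1 h2 => exact fun _ => regE_two h2
  | prod A B _ _ hA hB =>
    intro h'
    obtain ⟨x, hx⟩ := hA (congrArg Prod.fst h')
    obtain ⟨y, hy⟩ := hB (congrArg Prod.snd h')
    exact ⟨_, regE_prod hx hy⟩
  | ext T _ _ =>
    intro h'
    exact ⟨_, regE_ext T (congrArg Prod.fst h')⟩
  | iso S T hi _ hS =>
    intro h'
    have hn : S.neg = 1 := by
      obtain ⟨φ, h1, -⟩ := hi
      rw [h'] at h1
      exact φ.injective (h1.trans (map_one φ).symm)
    obtain ⟨x, hx⟩ := hS hn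
    exact regE_iso hi hx

/-- the conjecture for `-1 = 1` is the existence of regular elements -/
theorem etc_iff (hS : Stmt_SRGX) :
    (∀ S : QStruct, Finite S.G → S.neg = 1 → ElemType S) ↔
      ∀ S : QStruct, Finite S.G → S.neg = 1 → ∃ x, RegE S x := by
  constructor
  · intro h S hf hneg
    exact regE_of_elem (h S hf hneg) hneg
  · intro h
    have key : ∀ (n : ℕ) (S : QStruct), Finite S.G → Nat.card S.G = n → S.neg = 1 →
        ElemType S := by
      intro n
      induction n using Nat.strong_induction_on with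
      | _ n ih =>
        intro S hf hn hneg
        refine elem_of_smaller hS S hneg ((regE_iff S).1 (h S hf hneg)) ?_
        intro T hT hTn hc
        exact ih _ (by omega) T hT rfl hTn
    exact fun S hf hneg => key _ S hf rfl hneg

end Pool.Agent.REG10
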