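import Pool.Agent.REG10.Stmts

/-!
REG10, module ATO: every functional is the sum of an orthogonal set of atoms, and everything
below it is a partial sum.
-/

set_option autoImplicit false

namespace Pool.Agent.REG10

open Module CommonSlot Pool.Agent.GTW
open scoped BigOperators

namespace ATO_

section
variable {V X C : Type} [AddCommGroup V] [Module (ZMod 2) V] [AddCommGroup X] [Module (ZMod 2) X]
  [AddCommGroup C] [Module (ZMod 2) C]

/-- the size of `k X` -/
noncomputable def sz (β : X →ₗ[ZMod 2] V →ₗ[ZMod 2] C) (k : Du C) : ℕ :=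
  Set.ncard (LX β k : Set (Du V))

theorem finDu [Finite V] : Finite (Du V) :=
  Finite.of_injective (fun f : Du V => (f : V → ZMod 2)) DFunLike.coe_injective

theorem sz_le [Finite V] (β : X →ₗ[ZMod 2] V →ₗ[ZMod 2] C) (t : V) (hO : Ord β t) (l k : Du C)
    (h : LE β t l k) : sz β l ≤ sz β k := by
  have : Finite (Du V) := finDu
  exact Set.ncard_le_ncard (hO.LX_le l k h) (Set.toFinite _)

theorem KK_of_LX (β : X →ₗ[ZMod 2] V →ₗ[ZMod 2] C) (l k : Du C) (h : LX β l = LX β k) :
    KK β l = KK β k := by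
  have key : ∀ m : Du C, ∀ y, y ∈ KK β m ↔ ∀ φ ∈ LX β m, φ y = 0 := by
    intro m y
    rw [mem_KK]
    constructor
    · intro hy φ hφ
      rw [mem_LX] at hφ
      obtain ⟨a, ha⟩ := hφ
      rw [← ha y]
      exact hy a
    · intro hy a
      have h1 : (β.compr₂ m) a ∈ LX β m := by
        unfold LX
        exact LinearMap.mem_range_self _ _
      exact hy _ h1
  ext y
  rw [key l y, key k y, h]

theorem sz_lt [Finite V] (β : X →ₗ[ZMod 2] V →ₗ[ZMod 2] C) (t : V) (hO : Ord β t) (l k : Du C)
    (h : LE β t l k) (hne : l ≠ k) : sz β l < sz β k := by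
  have : Finite (Du V) := finDu
  have h1 : LX β l ≤ LX β k := hO.LX_le l k h
  have h2 : LX β l ≠ LX β k := by
    intro h3
    exact hne (hO.eq_of l k h (KK_of_LX β l k h3).symm)
  have h3 : (LX β l : Set (Du V)) ⊂ (LX β k : Set (Du V)) := by
    rw [SetLike.coe_ssubset_coe]
    exact lt_of_le_of_ne h1 h2
  exact Set.ncard_lt_ncard h3 (Set.toFinite _)

/-- the property proved by induction -/
def PP (β : X →ₗ[ZMod 2] V →ₗ[ZMod 2] C) (t : V) (k : Du C) : Prop :=
  ∃ S, OSA β t S ∧ ∑ r ∈ S, r = k ∧ ∀ o, LE β t o k → ∃ T ⊆ S, ∑ r ∈ T, r = o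

theorem le_zero (β : X →ₗ[ZMod 2] V →ₗ[ZMod 2] C) (t : V) (hF : FR β t) (o : Du C)
    (h : LE β t o 0) : o = 0 := by
  obtain ⟨y, hy⟩ := h
  ext c
  obtain ⟨a, ha⟩ := hF.surj c
  rw [← ha, ← hy a]
  rfl

theorem mem_le (β : X →ₗ[ZMod 2] V →ₗ[ZMod 2] C) (t : V) (hB : Osb β t) (S : Finset (Du C))
    (hS : OSA β t S) (r : Du C) (hr : r ∈ S) : LE β t r (∑ s ∈ S, s) := by
  have h := hB.le S hS {r} (Finset.singleton_subset_iff.mpr hr)
  rwa [Finset.sum_singleton] at h

end

section
variable {V X C : Type} [AddCommGroup V] [Module (ZMod 2) V] [Finite V]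
  [AddCommGroup X] [Module (ZMod 2) X] [Finite X] [AddCommGroup C] [Module (ZMod 2) C] [Finite C]

theorem ds_step (hFIV : Stmt_FIV) (hGLU : Stmt_GLU) (β : X →ₗ[ZMod 2] V →ₗ[ZMod 2] C) (t : V)
    (hF : FR β t) (hO : Ord β t) (hB : Osb β t) (k : Du C)
    (ih : ∀ k', sz β k' < sz β k → PP β t k') (l : Du C) (hl : LE β t l k) (hne : l ≠ k) :
    DS β l (k + l) := by
  classical
  have hlt := sz_lt β t hO l k hl hne
  obtain ⟨S, hS, hsum, -⟩ := ih l hlt
  have hpair : ∀ r ∈ S, ∀ s ∈ S, r ≠ s → ∀ o, LE β t o (r + s) →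
      o = 0 ∨ o = r ∨ o = s ∨ o = r + s := by
    intro r hr s hs hrs o ho
    have hsub : ({r, s} : Finset (Du C)) ⊆ S := by
      intro u hu
      rw [Finset.mem_insert, Finset.mem_singleton] at hu
      rcases hu with hu | hu
      · rw [hu]; exact hr
      · rw [hu]; exact hs
    have hp : OSA β t {r, s} := hB.sub S hS _ hsub
    have hsp : ∑ u ∈ ({r, s} : Finset (Du C)), u = r + s := Finset.sum_pair hrs
    have hle : LE β t (r + s) l := by
      have h := hB.le S hS {r, s} hsub
      rwa [hsp, hsum] at h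
    have hlt2 : sz β (r + s) < sz β k := lt_of_le_of_lt (sz_le β t hO _ _ hle) hlt
    obtain ⟨T, hT, hTs, hTo⟩ := ih (r + s) hlt2
    obtain ⟨T', hT', hT's⟩ := hTo o ho
    have hTsub : T ⊆ {r, s} := by
      intro u hu
      apply hFIV V X C β t hF {r, s} hp u (hT.1 u hu)
      rw [hsp, ← hTs]
      exact mem_le β t hB T hT u hu
    have h3 : T' ⊆ {r, s} := fun u hu => hTsub (hT' hu)
    by_cases h1 : r ∈ T'
    · by_cases h2 : s ∈ T'
      · right; right; right
        have h4 : T' = {r, s} := by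
          apply Finset.Subset.antisymm h3
          intro u hu
          rw [Finset.mem_insert, Finset.mem_singleton] at hu
          rcases hu with hu | hu
          · rw [hu]; exact h1
          · rw [hu]; exact h2
        rw [← hT's, h4, hsp]
      · right; left
        have h4 : T' = {r} := by
          apply Finset.Subset.antisymm
          · intro u hu
            have h5 := h3 hu
            rw [Finset.mem_insert, Finset.mem_singleton] at h5
            rcases h5 with h5 | h5
            · rw [h5]; exact Finset.mem_singleton_self _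
            · rw [h5] at hu; exact absurd hu h2
          · exact Finset.singleton_subset_iff.mpr h1
        rw [← hT's, h4, Finset.sum_singleton]
    · by_cases h2 : s ∈ T'
      · right; right; left
        have h4 : T' = {s} := by
          apply Finset.Subset.antisymm
          · intro u hu
            have h5 := h3 hu
            rw [Finset.mem_insert, Finset.mem_singleton] at h5
            rcases h5 with h5 | h5
            · rw [h5] at hu; exact absurd hu h1
            · rw [h5]; exact Finset.mem_singleton_self _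
          · exact Finset.singleton_subset_iff.mpr h2
        rw [← hT's, h4, Finset.sum_singleton]
      · left
        have h4 : T' = ∅ := by
          apply Finset.eq_empty_of_forall_notMem
          intro u hu
          have h5 := h3 hu
          rw [Finset.mem_insert, Finset.mem_singleton] at h5
          rcases h5 with h5 | h5
          · rw [h5] at hu; exact h1 hu
          · rw [h5] at hu; exact h2 hu
        rw [← hT's, h4, Finset.sum_empty]
  have h5 : l + (k + l) = k := by
    rw [add_comm k l, ← add_assoc, ZModModule.add_self l, zero_add]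
  have h6 := hGLU V X C β t hF S hS hpair (k + l) (by rw [hsum, h5]; exact hl)
  rwa [hsum] at h6

theorem main (hFIV : Stmt_FIV) (hGLU : Stmt_GLU) (β : X →ₗ[ZMod 2] V →ₗ[ZMod 2] C) (t : V)
    (hF : FR β t) (hO : Ord β t) (hP : Spl β t) (hB : Osb β t) :
    ∀ n : ℕ, ∀ k, sz β k = n → PP β t k := by
  classical
  intro n
  induction n using Nat.strong_induction_on with
  | _ n ih0 =>
  intro k hk
  have ih : ∀ k', sz β k' < sz β k → PP β t k' := fun k' hk' => ih0 _ (hk ▸ hk') k' rfl
  by_cases hk0 : k = 0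
  · refine ⟨∅, hB.empty, ?_, ?_⟩
    · rw [hk0, Finset.sum_empty]
    · intro o ho
      rw [hk0] at ho
      refine ⟨∅, Finset.Subset.refl _, ?_⟩
      rw [Finset.sum_empty, le_zero β t hF o ho]
  by_cases hat : Atom β t k
  · refine ⟨{k}, hB.single k hat, Finset.sum_singleton _ _, ?_⟩
    intro o ho
    rcases hat.2 o ho with h | h
    · exact ⟨∅, Finset.empty_subset _, by rw [Finset.sum_empty, h]⟩
    · exact ⟨{k}, Finset.Subset.refl _, by rw [Finset.sum_singleton, h]⟩
  -- a proper element below `k`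
  have hex : ∃ l, LE β t l k ∧ l ≠ 0 ∧ l ≠ k := by
    by_contra hcon
    push Not at hcon
    apply hat
    refine ⟨hk0, ?_⟩
    intro l hl
    by_cases h : l = 0
    · left; exact h
    · right; exact hcon l hl h
  obtain ⟨l, hl, hl0, hlk⟩ := hex
  have hm : LE β t (k + l) k := hO.add_le k l k (hO.refl k) hl
  have hmk : k + l ≠ k := by
    intro h
    exact hl0 (add_eq_left.mp h)
  obtain ⟨S, hS, hSs, -⟩ := ih l (sz_lt β t hO l k hl hlk)
  obtain ⟨S', hS', hS's, -⟩ := ih (k + l) (sz_lt β t hO (k + l) k hm hmk)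
  have hds := ds_step hFIV hGLU β t hF hO hB k ih l hl hlk
  have h2 : ∀ x : Du C, x + (k + x) = k := by
    intro x
    rw [add_comm k x, ← add_assoc, ZModModule.add_self x, zero_add]
  have hU := hB.union S S' hS hS' (by rw [hSs, hS's]; exact hds)
  have hUs : ∑ r ∈ S ∪ S', r = k := by
    rw [Finset.sum_union hU.1, hSs, hS's, h2]
  refine ⟨S ∪ S', hU.2, hUs, ?_⟩
  intro o ho
  by_cases hok : o = k
  · exact ⟨S ∪ S', Finset.Subset.refl _, by rw [hUs, hok]⟩
  obtain ⟨T, hT, hTs, -⟩ := ih o (sz_lt β t hO o k ho hok)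
  refine ⟨T, ?_, hTs⟩
  intro r hr
  have hro : LE β t r o := by
    have h := mem_le β t hB T hT r hr
    rwa [hTs] at h
  have hds2 := ds_step hFIV hGLU β t hF hO hB k ih o ho hok
  have hrk : LE β t r k := by
    have h := hP.le o (k + o) hds2 r hro
    rwa [h2] at h
  exact hFIV V X C β t hF (S ∪ S') hU.2 r (hT.1 r hr) (by rw [hUs]; exact hrk)

end

end ATO_

theorem ato_proof (hORD : Stmt_ORD) (hSPL : Stmt_SPL) (hOSB : Stmt_OSB) (hFIV : Stmt_FIV)
    (hGLU : Stmt_GLU) : Stmt_ATO := by
  intro V X C _ _ _ _ _ _ _ _ _ β t hF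
  have hO := hORD V X C β t hF
  have hP := hSPL V X C β t hF
  have hB := hOSB V X C β t hF
  have hall : ∀ k, ATO_.PP β t k := fun k => ATO_.main hFIV hGLU β t hF hO hP hB _ k rfl
  refine ⟨?_, ?_⟩
  · intro k
    obtain ⟨S, hS, hs, -⟩ := hall k
    exact ⟨S, hS, hs⟩
  · intro S hS o ho
    obtain ⟨S', hS', hs', hall'⟩ := hall (∑ r ∈ S, r)
    obtain ⟨T, hT, hTs⟩ := hall' o ho
    refine ⟨T, ?_, hTs⟩
    intro r hr
    have hr' := hT hr
    apply hFIV V X C β t hF S hS r (hS'.1 r hr')
    rw [← hs']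
    exact ATO_.mem_le β t hB S' hS' r hr'

end Pool.Agent.REG10
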