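import Pool.Agent.REG10.Stmts

set_option autoImplicit false

namespace Pool.Agent.REG10

open Module CommonSlot Pool.Agent.GTW
open scoped BigOperators

namespace CLS_

variable {V X C : Type} [AddCommGroup V] [Module (ZMod 2) V] [AddCommGroup X] [Module (ZMod 2) X]
  [AddCommGroup C] [Module (ZMod 2) C]

theorem eqv_symm {β : X →ₗ[ZMod 2] V →ₗ[ZMod 2] C} {r s : Du C} (h : Eqv β r s) : Eqv β s r := by
  rcases h with h | ⟨φ, h0, h1, h2⟩
  · exact Or.inl h.symm
  · exact Or.inr ⟨φ, h0, h2, h1⟩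

theorem eqv_refl (β : X →ₗ[ZMod 2] V →ₗ[ZMod 2] C) (r : Du C) : Eqv β r r := Or.inl rfl

/-- the main claim: `r₁` is not a sum of atoms which are not equivalent to it -/
theorem main (β : X →ₗ[ZMod 2] V →ₗ[ZMod 2] C) (t : V) (hsurj : ∀ c, ∃ a, β a t = c)
    (hKK : ∀ S : Finset (Du C), OSA β t S → ∀ y, y ∈ KK β (∑ r ∈ S, r) ↔ ∀ r ∈ S, y ∈ KK β r)
    (hN : ∀ r s, Atom β t r → Atom β t s → r ≠ s → ∀ φ ∈ LX β r, φ ∈ LX β s → φ ≠ 0 →
      Atom β t (r + s) ∧ φ ∈ LX β (r + s))
    (hT : ∀ r s s', Atom β t r → Atom β t s → Atom β t s' → r ≠ s → r ≠ s' → ∀ φ ∈ LX β r,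
      φ ∈ LX β s → φ ≠ 0 → ∀ φ' ∈ LX β r, φ' ∈ LX β s' → φ' ≠ 0 → φ = φ')
    (hP : ∀ S : Finset (Du C), (∀ r ∈ S, Atom β t r) →
      (∀ r ∈ S, ∀ s ∈ S, Eqv β r s → r = s) → OSA β t S)
    (r₁ : Du C) (h1 : Atom β t r₁) :
    ∀ n : ℕ, ∀ T : Finset (Du C), T.card = n → (∀ s ∈ T, Atom β t s ∧ ¬ Eqv β r₁ s) →
      ∑ s ∈ T, s = r₁ → False := by
  classical
  intro n
  induction n using Nat.strong_induction_on with
  | _ n ih =>
    intro T hcard hT1 hsum
    by_cases hpw : ∀ r ∈ T, ∀ s ∈ T, Eqv β r s → r = s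
    · have hr1T : r₁ ∉ T := fun h => (hT1 r₁ h).2 (eqv_refl β r₁)
      have hOSA : OSA β t (insert r₁ T) := by
        apply hP
        · intro r hr
          rcases Finset.mem_insert.1 hr with h | h
          · rw [h]; exact h1
          · exact (hT1 r h).1
        · intro r hr s hs he
          rcases Finset.mem_insert.1 hr with h | h
          · rcases Finset.mem_insert.1 hs with h' | h'
            · rw [h, h']
            · exact absurd (h ▸ he) (hT1 s h').2
          · rcases Finset.mem_insert.1 hs with h' | h'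
            · exact absurd (h' ▸ (eqv_symm he)) (hT1 r h).2
            · exact hpw r h s h' he
      have hz : ∑ r ∈ insert r₁ T, r = 0 := by
        rw [Finset.sum_insert hr1T, hsum]
        exact ZModModule.add_self r₁
      have hk := (hKK (insert r₁ T) hOSA t).1
        (by rw [hz, mem_KK]; intro a; exact LinearMap.zero_apply _) r₁ (Finset.mem_insert_self _ _)
      rw [mem_KK] at hk
      apply h1.1
      apply LinearMap.ext
      intro c
      obtain ⟨a, ha⟩ := hsurj c
      rw [← ha, hk a, LinearMap.zero_apply]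
    · push Not at hpw
      obtain ⟨s, hs, s', hs', he, hne⟩ := hpw
      have hφ : ∃ φ, φ ≠ 0 ∧ φ ∈ LX β s ∧ φ ∈ LX β s' := by
        rcases he with h | h
        · exact absurd h hne
        · exact h
      obtain ⟨φ, hφ0, hφs, hφs'⟩ := hφ
      obtain ⟨hat, hφss⟩ := hN s s' (hT1 s hs).1 (hT1 s' hs').1 hne φ hφs hφs' hφ0
      have hnss : s + s' ≠ s := by
        intro h
        exact (hT1 s' hs').1.1 (by simpa using h)
      have hnE : ¬ Eqv β r₁ (s + s') := by
        intro h
        apply (hT1 s hs).2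
        by_cases hr : r₁ = s + s'
        · exact Or.inr ⟨φ, hφ0, hr ▸ hφss, hφs⟩
        · rcases h with h | ⟨φ₁, h0, hl, hl'⟩
          · exact absurd h hr
          · have := hT (s + s') s r₁ hat (hT1 s hs).1 h1 hnss (Ne.symm hr) φ hφss hφs hφ0
              φ₁ hl' hl h0
            exact Or.inr ⟨φ, hφ0, this ▸ hl, hφs⟩
      have hs'e : s' ∈ T.erase s := Finset.mem_erase.2 ⟨Ne.symm hne, hs'⟩
      have e1 : ∑ x ∈ T.erase s, x + s = r₁ := by
        rw [Finset.sum_erase_add T _ hs]; exact hsum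
      have e2 : ∑ x ∈ (T.erase s).erase s', x + s' = ∑ x ∈ T.erase s, x :=
        Finset.sum_erase_add _ _ hs'e
      have e3 : ∑ x ∈ (T.erase s).erase s', x + (s + s') = r₁ := by
        rw [← e1, ← e2]; abel
      have c1 : (T.erase s).card + 1 = T.card := Finset.card_erase_add_one hs
      have c2 : ((T.erase s).erase s').card + 1 = (T.erase s).card :=
        Finset.card_erase_add_one hs'e
      have hsub : ∀ x ∈ (T.erase s).erase s', x ∈ T := fun x hx =>
        Finset.mem_of_mem_erase (Finset.mem_of_mem_erase hx)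
      by_cases hin : s + s' ∈ (T.erase s).erase s'
      · have e4 : ∑ x ∈ ((T.erase s).erase s').erase (s + s'), x + (s + s')
            = ∑ x ∈ (T.erase s).erase s', x := Finset.sum_erase_add _ _ hin
        have c3 := Finset.card_erase_add_one hin
        refine ih (((T.erase s).erase s').erase (s + s')).card (by omega) _ rfl ?_ ?_
        · intro x hx
          exact hT1 x (hsub x (Finset.mem_of_mem_erase hx))
        · rw [← e3, ← e4, add_assoc, ZModModule.add_self, add_zero]
      · have c3 := Finset.card_insert_of_notMem hin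
        refine ih (insert (s + s') ((T.erase s).erase s')).card (by omega) _ rfl ?_ ?_
        · intro x hx
          rcases Finset.mem_insert.1 hx with h | h
          · rw [h]; exact ⟨hat, hnE⟩
          · exact hT1 x (hsub x h)
        · rw [Finset.sum_insert hin, add_comm]; exact e3

end CLS_

theorem cls_proof (hORD : Stmt_ORD) (hOSB : Stmt_OSB) (hATO : Stmt_ATO) (hNIN : Stmt_NIN)
    (hTEN : Stmt_TEN) (hPIA : Stmt_PIA) : Stmt_CLS := by
  classical
  intro V X C _ _ _ _ _ _ _ _ _ β t hF hC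
  have hO := hORD V X C β t hF
  have hB := hOSB V X C β t hF
  have hN := hNIN V X C β t hF
  have hT := hTEN V X C β t hF
  have hP := hPIA V X C β t hF
  have : Finite (Du C) := Finite.of_injective (fun f : Du C => (f : C → ZMod 2))
    DFunLike.coe_injective
  have : Fintype (Du C) := Fintype.ofFinite _
  have : Module.Finite (ZMod 2) C := Module.Finite.of_finite
  -- an atom
  obtain ⟨c0, hc0⟩ := exists_ne (0 : C)
  obtain ⟨l, hl⟩ : ∃ l : Du C, l c0 ≠ 0 := by
    by_contra h
    push Not at h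
    exact hc0 ((Module.forall_dual_apply_eq_zero_iff (ZMod 2) c0).1 h)
  obtain ⟨S, hS, hSl⟩ := (hATO V X C β t hF).1 l
  have hSne : S.Nonempty := by
    rw [Finset.nonempty_iff_ne_empty]
    intro h
    rw [h, Finset.sum_empty] at hSl
    apply hl
    rw [← hSl, LinearMap.zero_apply]
  obtain ⟨r₁, hr₁⟩ := hSne
  have h1 : Atom β t r₁ := hS.1 r₁ hr₁
  -- separation
  let A : Finset (Du C) := Finset.univ.filter (fun s => Atom β t s ∧ ¬ Eqv β r₁ s)
  have hA : ∀ s, s ∈ A ↔ Atom β t s ∧ ¬ Eqv β r₁ s := by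
    intro s
    simp [A]
  have hnot : r₁ ∉ Submodule.span (ZMod 2) (A : Set (Du C)) := by
    intro hmem
    rw [Submodule.mem_span_finset'] at hmem
    obtain ⟨f, hf⟩ := hmem
    let T : Finset (Du C) := A.filter (fun s => ∃ h : s ∈ A, f ⟨s, h⟩ = 1)
    have hsum : ∑ s ∈ T, s = r₁ := by
      rw [← hf, Finset.sum_filter, ← Finset.sum_coe_sort A (fun s => if (∃ h : s ∈ A, f ⟨s, h⟩ = 1) then s else 0)]
      apply Finset.sum_congr rfl
      intro s _
      rcases zm (f s) with h | h
      · rw [if_neg, h, zero_smul]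
        rintro ⟨h', h''⟩
        have : f ⟨s.1, h'⟩ = f s := rfl
        rw [this, h] at h''
        exact absurd h'' (by decide)
      · rw [if_pos ⟨s.2, h⟩, h, one_smul]
    exact CLS_.main β t hF.surj hB.KK hN hT hP r₁ h1 T.card T rfl
      (fun s hs => (hA s).1 (Finset.mem_filter.1 hs).1) hsum
  obtain ⟨c, hc1, hcA⟩ : ∃ c : C, r₁ c = 1 ∧ ∀ s ∈ A, s c = 0 := by
    obtain ⟨g, hg1, hg2⟩ := Submodule.exists_le_ker_of_notMem hnot
    obtain ⟨c, hc⟩ := (Module.evalEquiv (ZMod 2) C).surjective g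
    have hev : ∀ s : Du C, g s = s c := by
      intro s
      rw [← hc]
      rfl
    refine ⟨c, ?_, ?_⟩
    · rcases zm (r₁ c) with h | h
      · exact absurd ((hev r₁).trans h) hg1
      · exact h
    · intro s hs
      rw [← hev]
      exact hg2 (Submodule.subset_span (Finset.mem_coe.2 hs))
  have hc0' : c ≠ 0 := by
    intro h
    rw [h, map_zero] at hc1
    exact absurd hc1 (by decide)
  have hkey : ∀ s, Atom β t s → s c = 1 → Eqv β r₁ s := by
    intro s hs hsc
    by_contra hE
    have := hcA s ((hA s).2 ⟨hs, hE⟩)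
    rw [hsc] at this
    exact absurd this (by decide)
  by_cases hex : ∃ s₀, Atom β t s₀ ∧ r₁ ≠ s₀ ∧ Eqv β r₁ s₀
  · obtain ⟨s₀, hs₀, hne, hE⟩ := hex
    rcases hE with h | ⟨φ, h0, hφ1, hφ2⟩
    · exact absurd h hne
    · refine ⟨c, φ, hc0', h0, ?_⟩
      intro s hs hsc
      by_cases hrs : r₁ = s
      · exact hrs ▸ hφ1
      · rcases hkey s hs hsc with h | ⟨ψ, hψ0, hψ1, hψ2⟩
        · exact absurd h hrs
        · have := hT r₁ s₀ s h1 hs₀ hs hne hrs φ hφ1 hφ2 h0 ψ hψ1 hψ2 hψ0
          rw [this]; exact hψ2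
  · push Not at hex
    obtain ⟨φ, hφ, hφt⟩ := hO.ne r₁ h1.1
    refine ⟨c, φ, hc0', ?_, ?_⟩
    · intro h
      rw [h, LinearMap.zero_apply] at hφt
      exact absurd hφt (by decide)
    · intro s hs hsc
      have hE := hkey s hs hsc
      by_cases hrs : r₁ = s
      · exact hrs ▸ hφ
      · exact absurd hE (hex s hs hrs)

end Pool.Agent.REG10
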