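import Pool.Agent.REG10.Stmts

/-!
REG10, module DIC: note 1659 (3), the dichotomy.
-/

set_option autoImplicit false

namespace Pool.Agent.REG10

open Module CommonSlot Pool.Agent.GTW
open scoped BigOperators

namespace DIC_

theorem core (hORD : Stmt_ORD) (hSGN : Stmt_SGN) (V X C : Type) [AddCommGroup V]
    [Module (ZMod 2) V] [Finite V] [AddCommGroup X] [Module (ZMod 2) X] [Finite X]
    [AddCommGroup C] [Module (ZMod 2) C] [Finite C]
    (β : X →ₗ[ZMod 2] V →ₗ[ZMod 2] C) (t : V) (hF : FR β t) (s k : Du C) (hs : Atom β t s)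
    (hn : ¬ LE β t s k) (φ : Du V) (hk : φ ∈ LX β k) (hφs : φ ∈ LX β s) (hφ : φ ≠ 0) :
    φ t = 1 ∧ (∀ n ∈ NN β k, (∀ v, s (β n v) = 0) ∨ ∀ v, s (β n v) = φ v) ∧
    ∃ n ∈ NN β k, ∀ v, s (β n v) = φ v := by
  have hO := hORD V X C β t hF
  obtain ⟨a, ha⟩ := (mem_LX β k φ).1 hk
  -- not every `s n` vanishes
  have hex : ∃ n ∈ NN β k, ¬ ∀ v, s (β n v) = 0 := by
    by_contra hcon
    push Not at hcon
    exact hn (hO.le_of_NN s k (fun n hnk => (mem_NN β s n).2 (hcon n hnk)))
  -- translates
  have htr : ∀ n ∈ NN β k, ∀ v, k (β (a + n) v) = φ v := by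
    intro n hnk v
    rw [map_add, LinearMap.add_apply, map_add, (mem_NN β k n).1 hnk v, add_zero, ha v]
  have key : ∀ a', (∀ v, k (β a' v) = φ v) → ∀ v, s (β a' v) = φ t → φ v = φ t := by
    intro a' ha' v hv
    rw [← ha' v]
    exact hSGN V X C β t hF s hs φ hφs k a' v ha' hv
  have hadd : ∀ n v, s (β (a + n) v) = s (β a v) + s (β n v) := by
    intro n v
    rw [map_add, LinearMap.add_apply, map_add]
  have ht : φ t = 1 := by
    by_contra h1
    have h0 : φ t = 0 := zm_ne_one h1
    have hall : ∀ a', (∀ v, k (β a' v) = φ v) → ∀ v, s (β a' v) = φ v := by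
      intro a' ha'
      have h2 : s.comp (β a') = φ := by
        apply fun_eq_of_ker hφ
        intro v hv
        have h3 := key a' ha' v (by rw [h0]; exact hv)
        rw [h3, h0]
      intro v
      exact LinearMap.congr_fun h2 v
    obtain ⟨n, hnk, hns⟩ := hex
    apply hns
    intro v
    have e1 := hall a ha v
    have e2 := hall (a + n) (htr n hnk) v
    rw [hadd n v, e1] at e2
    exact left_eq_add.1 e2.symm
  have hpair : ∀ a', (∀ v, k (β a' v) = φ v) →
      (∀ v, s (β a' v) = 0) ∨ ∀ v, s (β a' v) = φ v := by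
    intro a' ha'
    have h2 : ∀ v, φ v = 0 → (s.comp (β a')) v = 0 := by
      intro v hv
      by_contra h3
      have h4 : s (β a' v) = 1 := zm_ne_zero h3
      have h5 := key a' ha' v (by rw [ht]; exact h4)
      rw [hv, ht] at h5
      exact zero_ne_one h5
    rcases fun_mem_pair h2 with h | h
    · left
      intro v
      exact LinearMap.congr_fun h v
    · right
      intro v
      exact LinearMap.congr_fun h v
  have hdi : ∀ n ∈ NN β k, (∀ v, s (β n v) = 0) ∨ ∀ v, s (β n v) = φ v := by
    intro n hnk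
    rcases hpair a ha with h1 | h1 <;> rcases hpair (a + n) (htr n hnk) with h2 | h2
    · left
      intro v
      have := h2 v
      rw [hadd n v, h1 v, zero_add] at this
      exact this
    · right
      intro v
      have := h2 v
      rw [hadd n v, h1 v, zero_add] at this
      exact this
    · right
      intro v
      have := h2 v
      rw [hadd n v, h1 v] at this
      exact (eq_of_add_eq_zero' this).symm
    · left
      intro v
      have := h2 v
      rw [hadd n v, h1 v] at this
      exact left_eq_add.1 this.symm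
  refine ⟨ht, hdi, ?_⟩
  obtain ⟨n, hnk, hns⟩ := hex
  rcases hdi n hnk with h | h
  · exact absurd h hns
  · exact ⟨n, hnk, h⟩

end DIC_

theorem dic_proof (hORD : Stmt_ORD) (hSGN : Stmt_SGN) : Stmt_DIC := by
  intro V X C _ _ _ _ _ _ _ _ _ β t hF s k hs hn φ hk hφs hφ
  obtain ⟨h1, h2, h3⟩ := DIC_.core hORD hSGN V X C β t hF s k hs hn φ hk hφs hφ
  refine ⟨h1, ?_, h2, h3⟩
  intro φ' hk' hs'
  by_cases h0 : φ' = 0
  · exact Or.inl h0
  · right
    obtain ⟨_, _, n, hnk, hns⟩ := DIC_.core hORD hSGN V X C β t hF s k hs hn φ' hk' hs' h0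
    rcases h2 n hnk with h | h
    · exfalso
      apply h0
      ext v
      rw [← hns v, h v, LinearMap.zero_apply]
    · ext v
      rw [← hns v, h v]

end Pool.Agent.REG10
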