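import Pool.Agent.REG10.Stmts

/-!
REG10, module EIG (helper8): step (8) of note 1659, problem MP_d26ff6_al.
-/

set_option autoImplicit false

namespace Pool.Agent.REG10

open Module CommonSlot Pool.Agent.GTW
open scoped BigOperators

namespace EIG_

section
variable {V X C : Type} [AddCommGroup V] [Module (ZMod 2) V]
  [AddCommGroup X] [Module (ZMod 2) X] [AddCommGroup C] [Module (ZMod 2) C]
  {β : X →ₗ[ZMod 2] V →ₗ[ZMod 2] C} {t : V}

theorem add_add_cancel' {M : Type} [AddCommGroup M] [Module (ZMod 2) M] (a b : M) :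
    a + b + b = a := by
  rw [add_assoc, ZModModule.add_self, add_zero]

open scoped Classical in
theorem not_mem_sub (OS : Osb β t) {S J : Finset (Du C)} (hS : OSA β t S) (hJ : J ⊆ S)
    {f : Du C → Du V} (hf : ∀ r ∈ S, f r ∈ LX β r) {r0 : Du C} (hr0 : r0 ∈ S) (hr0J : r0 ∉ J)
    (hne : f r0 ≠ 0) : ∑ r ∈ S, f r ∉ LX β (∑ r ∈ J, r) := by
  intro h
  obtain ⟨g, hg, hgs⟩ := (OS.LX J (OS.sub S hS J hJ) _).1 h
  have key := hS.2 (fun r => f r + if r ∈ J then g r else 0) ?_ ?_ r0 hr0
  · simp only [hr0J, if_false, add_zero] at key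
    exact hne key
  · intro r hr
    by_cases hrJ : r ∈ J
    · simp only [hrJ, if_true]
      exact (LX β r).add_mem (hf r hr) (hg r hrJ)
    · simp only [hrJ, if_false, add_zero]
      exact hf r hr
  · rw [Finset.sum_add_distrib, Finset.sum_ite_mem, Finset.inter_eq_right.2 hJ, hgs]
    exact ZModModule.add_self _

end

end EIG_

theorem eig_proof (hORD : Stmt_ORD) (hSPL : Stmt_SPL) (hOSB : Stmt_OSB) (hDIC : Stmt_DIC)
    (hFIV : Stmt_FIV) (hGLU : Stmt_GLU) (hATO : Stmt_ATO) : Stmt_EIG := by
  classical
  intro V X C _ _ _ _ _ _ _ _ _ β t hF s k hs hsk φ hφk hφs hφ0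
  have O := hORD V X C β t hF
  have SP := hSPL V X C β t hF
  have OS := hOSB V X C β t hF
  have D := hDIC V X C β t hF
  have FV := hFIV V X C β t hF
  have hGL := hGLU V X C β t hF
  have AT := hATO V X C β t hF
  obtain ⟨S, hS, rfl⟩ := AT.1 k
  obtain ⟨f, hf, hfs⟩ := (OS.LX S hS φ).1 hφk
  obtain ⟨hφt, hφu, -⟩ := D s _ hs hsk φ hφk hφs hφ0
  have hle1 : ∀ r ∈ S, LE β t r (∑ x ∈ S, x) := fun r hr => by
    have := OS.le S hS {r} (Finset.singleton_subset_iff.2 hr)
    rwa [Finset.sum_singleton] at this
  have hsne : ∀ r ∈ S, r ≠ s := fun r hr h => hsk (h ▸ hle1 r hr)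
  have hDS : ∀ J ⊆ S, ∀ r0 ∈ S, r0 ∉ J → f r0 ≠ 0 → DS β s (∑ r ∈ J, r) := by
    intro J hJ r0 hr0 hr0J hne
    rw [SP.iff, Submodule.eq_bot_iff]
    intro ψ hψ
    obtain ⟨h1, h2⟩ := Submodule.mem_inf.1 hψ
    have h3 : ψ ∈ LX β (∑ r ∈ S, r) := O.LX_le _ _ (OS.le S hS J hJ) h2
    rcases hφu ψ h3 h1 with h | h
    · exact h
    · exfalso
      rw [h, ← hfs] at h2
      exact EIG_.not_mem_sub OS hS hJ hf hr0 hr0J hne h2
  obtain ⟨I, hIdef⟩ : ∃ I, I = S.filter (fun r => f r ≠ 0) := ⟨_, rfl⟩
  have hIS : I ⊆ S := by rw [hIdef]; exact Finset.filter_subset _ _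
  have hI0 : ∀ r ∈ I, f r ≠ 0 := fun r hr => by
    rw [hIdef] at hr
    exact (Finset.mem_filter.1 hr).2
  have hI : ∑ r ∈ I, f r = φ := by
    rw [hIdef, Finset.sum_filter_ne_zero]
    exact hfs
  have hJmem : ∀ J ⊆ S, ∑ x ∈ J, f x ∈ LX β (∑ x ∈ J, x) := fun J hJ =>
    (OS.LX _ (OS.sub S hS _ hJ) _).2 ⟨f, fun x hx => hf x (hJ hx), rfl⟩
  have hval : ∀ r ∈ I, f r t = 1 := by
    intro r hr
    have hrS := hIS hr
    have hr0 := hI0 r hr
    have hJ : I.erase r ⊆ S := (Finset.erase_subset _ _).trans hIS
    have hrJ : r ∉ I.erase r := fun h => (Finset.mem_erase.1 h).1 rfl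
    have hds := hDS (I.erase r) hJ r hrS hrJ hr0
    obtain ⟨hsJ, hins⟩ := OS.ins _ (OS.sub S hS _ hJ) s hs hds
    have hnle : ¬ LE β t r (s + ∑ x ∈ I.erase r, x) := by
      intro h
      have h' := FV _ hins r (hS.1 r hrS) (by rw [Finset.sum_insert hsJ]; exact h)
      rcases Finset.mem_insert.1 h' with h'' | h''
      · exact hsne r hrS h''
      · exact hrJ h''
    have hsum : f r + ∑ x ∈ I.erase r, f x = φ := by
      rw [Finset.add_sum_erase _ _ hr]
      exact hI
    have hmem : f r ∈ LX β (s + ∑ x ∈ I.erase r, x) := by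
      rw [O.orth_LX _ _ (SP.orth _ _ hds)]
      have h1 : f r = φ + ∑ x ∈ I.erase r, f x := by
        rw [← hsum, EIG_.add_add_cancel']
      rw [h1]
      exact Submodule.add_mem_sup hφs (hJmem _ hJ)
    exact (D r _ (hS.1 r hrS) hnle (f r) hmem (hf r hrS) hr0).1
  have huniq : ∀ r1 ∈ I, ∀ r2 ∈ I, r1 = r2 := by
    intro r1 h1 r2 h2
    by_contra hne
    have h1S := hIS h1
    have h2S := hIS h2
    obtain ⟨J, hJdef⟩ : ∃ J, J = (I.erase r1).erase r2 := ⟨_, rfl⟩
    have hJS : J ⊆ S := by
      rw [hJdef]
      exact (Finset.erase_subset _ _).trans ((Finset.erase_subset _ _).trans hIS)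
    have hr1J : r1 ∉ J := by
      rw [hJdef]
      intro h
      exact (Finset.mem_erase.1 (Finset.mem_erase.1 h).2).1 rfl
    have hr2J : r2 ∉ J := by
      rw [hJdef]
      intro h
      exact (Finset.mem_erase.1 h).1 rfl
    have hP : ({r1, r2} : Finset (Du C)) ⊆ S := by
      intro x hx
      rcases Finset.mem_insert.1 hx with h | h
      · rw [h]; exact h1S
      · rw [Finset.mem_singleton.1 h]; exact h2S
    have hdis : Disjoint ({r1, r2} : Finset (Du C)) J := by
      rw [Finset.disjoint_left]
      intro x hx hxJ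
      rcases Finset.mem_insert.1 hx with h | h
      · rw [h] at hxJ; exact hr1J hxJ
      · rw [Finset.mem_singleton.1 h] at hxJ; exact hr2J hxJ
    have hds := hDS J hJS r1 h1S hr1J (hI0 r1 h1)
    have hsum12 : ∑ x ∈ ({r1, r2} : Finset (Du C)), x = r1 + r2 := Finset.sum_pair hne
    have hdsP : DS β (r1 + r2) (∑ x ∈ J, x) := by
      have := OS.ds S hS _ hP J hJS hdis
      rwa [hsum12] at this
    have hbotP := (SP.iff _ _).1 hdsP
    have hl12 : f r1 + f r2 ∈ LX β (r1 + r2) := by
      have := hJmem _ hP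
      rwa [hsum12, Finset.sum_pair hne] at this
    have hle12 : LE β t (r1 + r2) (∑ x ∈ S, x) := by
      have := OS.le S hS _ hP
      rwa [hsum12] at this
    have htot : f r1 + f r2 + ∑ x ∈ J, f x = φ := by
      rw [hJdef, add_assoc, Finset.add_sum_erase _ _ (Finset.mem_erase.2 ⟨fun h => hne h.symm, h2⟩),
        Finset.add_sum_erase _ _ h1]
      exact hI
    have horthm : LX β (s + ∑ x ∈ J, x) = LX β s ⊔ LX β (∑ x ∈ J, x) :=
      O.orth_LX _ _ (SP.orth _ _ hds)
    have hkey : ∀ ψ ∈ LX β (r1 + r2), ψ ∈ LX β (s + ∑ x ∈ J, x) → ψ = 0 ∨ ψ = f r1 + f r2 := by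
      intro ψ hψ1 hψ2
      rw [horthm] at hψ2
      obtain ⟨σ, hσ, κ, hκ, hsk'⟩ := Submodule.mem_sup.1 hψ2
      have hψS : ψ ∈ LX β (∑ x ∈ S, x) := O.LX_le _ _ hle12 hψ1
      have hκS : κ ∈ LX β (∑ x ∈ S, x) := O.LX_le _ _ (OS.le S hS J hJS) hκ
      have hσe : σ = ψ + κ := by rw [← hsk', EIG_.add_add_cancel']
      have hσS : σ ∈ LX β (∑ x ∈ S, x) := by
        rw [hσe]
        exact Submodule.add_mem _ hψS hκS
      rcases hφu σ hσS hσ with h | h
      · left
        have hψκ : ψ = κ := by rw [← hsk', h, zero_add]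
        have : ψ ∈ LX β (r1 + r2) ⊓ LX β (∑ x ∈ J, x) := ⟨hψ1, by rw [hψκ]; exact hκ⟩
        rw [hbotP] at this
        exact (Submodule.mem_bot _).1 this
      · right
        have he : ψ + (f r1 + f r2) = κ + ∑ x ∈ J, f x := by
          have e1 : f r1 + f r2 = φ + ∑ x ∈ J, f x := by
            rw [← htot, EIG_.add_add_cancel']
          rw [e1, ← hsk', h]
          have e2 : φ + κ + (φ + ∑ x ∈ J, f x) = (κ + ∑ x ∈ J, f x) + (φ + φ) := by abel
          rw [e2, ZModModule.add_self, add_zero]
        have hm : ψ + (f r1 + f r2) ∈ LX β (r1 + r2) ⊓ LX β (∑ x ∈ J, x) :=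
          ⟨Submodule.add_mem _ hψ1 hl12, by
            rw [he]
            exact Submodule.add_mem _ hκ (hJmem _ hJS)⟩
        rw [hbotP] at hm
        have hz := (Submodule.mem_bot _).1 hm
        calc ψ = ψ + (f r1 + f r2) + (f r1 + f r2) := (EIG_.add_add_cancel' _ _).symm
          _ = f r1 + f r2 := by rw [hz, zero_add]
    have hLE : LE β t (r1 + r2) (r1 + r2 + (s + ∑ x ∈ J, x)) := by
      rw [O.orth_iff]
      intro ψ h1' h2'
      rcases hkey ψ h1' h2' with h | h
      · rw [h, LinearMap.zero_apply]
      · rw [h, LinearMap.add_apply, hval r1 h1, hval r2 h2]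
        exact ZModModule.add_self _
    have hOP := OS.sub S hS _ hP
    have hDSlm : DS β (r1 + r2) (s + ∑ x ∈ J, x) := by
      have h3 := hGL ({r1, r2} : Finset (Du C)) hOP ?_ (s + ∑ x ∈ J, x) (by rw [hsum12]; exact hLE)
      · rwa [hsum12] at h3
      · have hT : ∀ T ⊆ ({r1, r2} : Finset (Du C)), ∑ r ∈ T, r = 0 ∨ ∑ r ∈ T, r = r1 ∨
            ∑ r ∈ T, r = r2 ∨ ∑ r ∈ T, r = r1 + r2 := by
          intro T hT
          by_cases a1 : r1 ∈ T
          · by_cases a2 : r2 ∈ T
            · have : T = {r1, r2} := by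
                apply Finset.Subset.antisymm hT
                intro x hx
                rcases Finset.mem_insert.1 hx with h | h
                · rw [h]; exact a1
                · rw [Finset.mem_singleton.1 h]; exact a2
              rw [this, hsum12]
              exact Or.inr (Or.inr (Or.inr rfl))
            · have : T = {r1} := by
                apply Finset.Subset.antisymm
                · intro x hx
                  rcases Finset.mem_insert.1 (hT hx) with h | h
                  · rw [h]; exact Finset.mem_singleton_self _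
                  · rw [Finset.mem_singleton.1 h] at hx; exact absurd hx a2
                · intro x hx
                  rw [Finset.mem_singleton.1 hx]; exact a1
              rw [this, Finset.sum_singleton]
              exact Or.inr (Or.inl rfl)
          · by_cases a2 : r2 ∈ T
            · have : T = {r2} := by
                apply Finset.Subset.antisymm
                · intro x hx
                  rcases Finset.mem_insert.1 (hT hx) with h | h
                  · rw [h] at hx; exact absurd hx a1
                  · exact h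
                · intro x hx
                  rw [Finset.mem_singleton.1 hx]; exact a2
              rw [this, Finset.sum_singleton]
              exact Or.inr (Or.inr (Or.inl rfl))
            · have : T = ∅ := by
                rw [Finset.eq_empty_iff_forall_notMem]
                intro x hx
                rcases Finset.mem_insert.1 (hT hx) with h | h
                · rw [h] at hx; exact a1 hx
                · rw [Finset.mem_singleton.1 h] at hx; exact a2 hx
              rw [this, Finset.sum_empty]
              exact Or.inl rfl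
        intro r hr s' hs' hrs o ho
        have hrs' : r + s' = r1 + r2 := by
          rcases Finset.mem_insert.1 hr with h | h
          · rcases Finset.mem_insert.1 hs' with h' | h'
            · exact absurd (h.trans h'.symm) hrs
            · rw [h, Finset.mem_singleton.1 h']
          · rcases Finset.mem_insert.1 hs' with h' | h'
            · rw [Finset.mem_singleton.1 h, h', add_comm]
            · exact absurd ((Finset.mem_singleton.1 h).trans (Finset.mem_singleton.1 h').symm) hrs
        have ho' : LE β t o (∑ r ∈ ({r1, r2} : Finset (Du C)), r) := by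
          rw [hsum12, ← hrs']; exact ho
        obtain ⟨T, hTs, hTo⟩ := AT.2 _ hOP o ho'
        have h5 := hT T hTs
        rw [hTo] at h5
        rw [hrs']
        rcases Finset.mem_insert.1 hr with h | h
        · rcases Finset.mem_insert.1 hs' with h' | h'
          · exact absurd (h.trans h'.symm) hrs
          · rw [h, Finset.mem_singleton.1 h']; exact h5
        · rcases Finset.mem_insert.1 hs' with h' | h'
          · rw [Finset.mem_singleton.1 h, h']
            rcases h5 with h5 | h5 | h5 | h5
            · exact Or.inl h5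
            · exact Or.inr (Or.inr (Or.inl h5))
            · exact Or.inr (Or.inl h5)
            · exact Or.inr (Or.inr (Or.inr h5))
          · exact absurd ((Finset.mem_singleton.1 h).trans (Finset.mem_singleton.1 h').symm) hrs
    have hbot := (SP.iff _ _).1 hDSlm
    have hin : f r1 + f r2 ∈ LX β (r1 + r2) ⊓ LX β (s + ∑ x ∈ J, x) := by
      refine ⟨hl12, ?_⟩
      rw [horthm]
      have e1 : f r1 + f r2 = φ + ∑ x ∈ J, f x := by
        rw [← htot, EIG_.add_add_cancel']
      rw [e1]
      exact Submodule.add_mem_sup hφs (hJmem _ hJS)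
    rw [hbot] at hin
    have hz := (Submodule.mem_bot _).1 hin
    have heq : f r1 = f r2 := by
      calc f r1 = f r1 + f r2 + f r2 := (EIG_.add_add_cancel' _ _).symm
        _ = f r2 := by rw [hz, zero_add]
    have hds12 : DS β r1 r2 := by
      have := OS.ds S hS {r1} (Finset.singleton_subset_iff.2 h1S) {r2}
        (Finset.singleton_subset_iff.2 h2S) (by
          rw [Finset.disjoint_singleton]
          exact hne)
      rwa [Finset.sum_singleton, Finset.sum_singleton] at this
    have hb := (SP.iff _ _).1 hds12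
    have : f r1 ∈ LX β r1 ⊓ LX β r2 := ⟨hf r1 h1S, by rw [heq]; exact hf r2 h2S⟩
    rw [hb] at this
    exact hI0 r1 h1 ((Submodule.mem_bot _).1 this)
  have hIne : I.Nonempty := by
    rw [Finset.nonempty_iff_ne_empty]
    intro h
    rw [h, Finset.sum_empty] at hI
    exact hφ0 hI.symm
  obtain ⟨r, hr⟩ := hIne
  have hIr : I = {r} := by
    apply Finset.Subset.antisymm
    · intro x hx
      exact Finset.mem_singleton.2 (huniq x hx r hr)
    · exact Finset.singleton_subset_iff.2 hr
  have hφr : f r = φ := by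
    rw [← hI, hIr, Finset.sum_singleton]
  refine ⟨r, hS.1 r (hIS hr), hle1 r (hIS hr), ?_, ?_⟩
  · rw [← hφr]
    exact hf r (hIS hr)
  · intro r' hr'a hr'le hφr'
    by_contra hne
    have hr'S := FV S hS r' hr'a hr'le
    have hds : DS β r' r := by
      have := OS.ds S hS {r'} (Finset.singleton_subset_iff.2 hr'S) {r}
        (Finset.singleton_subset_iff.2 (hIS hr)) (by
          rw [Finset.disjoint_singleton]
          exact hne)
      rwa [Finset.sum_singleton, Finset.sum_singleton] at this
    have hb := (SP.iff _ _).1 hds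
    have hm : φ ∈ LX β r' ⊓ LX β r := ⟨hφr', by rw [← hφr]; exact hf r (hIS hr)⟩
    rw [hb] at hm
    exact hφ0 ((Submodule.mem_bot _).1 hm)

end Pool.Agent.REG10
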