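import Pool.Agent.REG10.Stmts

/-!
REG10, module ENA: Theorem A.
-/

set_option autoImplicit false

namespace Pool.Agent.REG10

open Module CommonSlot Pool.Agent.GTW
open scoped BigOperators

theorem ena_proof (_hORD : Stmt_ORD) (hOSB : Stmt_OSB) (hATO : Stmt_ATO) (hCLS : Stmt_CLS) :
    Stmt_ENA := by
  intro V X C _ _ _ _ _ _ _ _ _ β t hF hn
  obtain ⟨c, φ, hc, hφ, hs⟩ := hCLS V X C β t hF hn
  refine ⟨c, φ, hc, hφ, ?_⟩
  intro v hv
  by_contra hno
  have hnot : c ∉ LinearMap.range (β.flip v) := by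
    rintro ⟨a, ha⟩
    exact hno ⟨a, by rw [← ha, LinearMap.flip_apply]⟩
  obtain ⟨l, hlc, hl⟩ := Submodule.exists_le_ker_of_notMem hnot
  obtain ⟨S, hS, hsum⟩ := (hATO V X C β t hF).1 l
  have hvK : v ∈ KK β (∑ r ∈ S, r) := by
    rw [hsum, mem_KK]
    intro a
    have h1 : β.flip v a ∈ LinearMap.ker l := hl (LinearMap.mem_range_self _ a)
    rw [LinearMap.mem_ker, LinearMap.flip_apply] at h1
    exact h1
  have hvr := (hOSB V X C β t hF).KK S hS v |>.1 hvK
  apply hlc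
  rw [← hsum, LinearMap.sum_apply]
  apply Finset.sum_eq_zero
  intro r hr
  rcases CommonSlot.zm (r c) with h0 | h1
  · exact h0
  · exfalso
    have h2 := hs r (hS.1 r hr) h1
    rw [mem_LX] at h2
    obtain ⟨a, ha⟩ := h2
    have h3 := (mem_KK β r v).1 (hvr r hr) a
    rw [ha v, hv] at h3
    exact one_ne_zero h3

end Pool.Agent.REG10
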