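import Pool.Agent.REG10.Stmts

set_option autoImplicit false

namespace Pool.Agent.REG10

open Module CommonSlot Pool.Agent.GTW
open scoped BigOperators

namespace FIV_

theorem add_self' {M : Type} [AddCommGroup M] [Module (ZMod 2) M] (x : M) : x + x = 0 :=
  ZModModule.add_self x

open scoped Classical in
theorem main {V X C : Type} [AddCommGroup V] [Module (ZMod 2) V]
    [AddCommGroup X] [Module (ZMod 2) X] [AddCommGroup C] [Module (ZMod 2) C]
    (β : X →ₗ[ZMod 2] V →ₗ[ZMod 2] C) (t : V) (hF : FR β t) (hO : Ord β t) (hS : Spl β t)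
    (hB : Osb β t)
    (hD : ∀ s k, Atom β t s → ¬ LE β t s k →
      ∀ φ ∈ LX β k, φ ∈ LX β s → φ ≠ 0 →
      φ t = 1 ∧ (∀ φ' ∈ LX β k, φ' ∈ LX β s → φ' = 0 ∨ φ' = φ) ∧
      (∀ n ∈ NN β k, (∀ v, s (β n v) = 0) ∨ ∀ v, s (β n v) = φ v) ∧
      ∃ n ∈ NN β k, ∀ v, s (β n v) = φ v)
    (hFo : ∀ r s k, Atom β t r → Atom β t s → r ≠ s → LE β t r k → LE β t s k → DS β r s) :
    ∀ n : ℕ, ∀ S : Finset (Du C), S.card = n → OSA β t S → ∀ o, Atom β t o →
      LE β t o (∑ r ∈ S, r) → o ∈ S := by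
  intro n
  induction n with
  | zero =>
    intro S hcard _ o ho hle
    exfalso
    have hS0 : S = ∅ := Finset.card_eq_zero.mp hcard
    rw [hS0, Finset.sum_empty] at hle
    obtain ⟨y, hy⟩ := hle
    apply ho.1
    apply LinearMap.ext
    intro c
    obtain ⟨a, ha⟩ := hF.surj c
    have h1 := hy a
    rw [ha] at h1
    rw [← h1]
    rfl
  | succ n ih =>
    intro S hcard hOS o ho hle
    by_contra hoS
    have hne : S.Nonempty := by
      rw [← Finset.card_pos, hcard]
      exact Nat.succ_pos n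
    obtain ⟨r1, hr1⟩ := hne
    have hk : (∑ r ∈ S, r) = r1 + ∑ r ∈ S.erase r1, r :=
      (Finset.add_sum_erase S (fun r => r) hr1).symm
    set k1 : Du C := ∑ r ∈ S.erase r1, r with hk1
    have hcard' : (S.erase r1).card = n := by
      rw [Finset.card_erase_of_mem hr1, hcard]
      rfl
    have hsub : S.erase r1 ⊆ S := Finset.erase_subset r1 S
    have hOS' : OSA β t (S.erase r1) := hB.sub S hOS _ hsub
    have hnot : ¬ LE β t o k1 := by
      intro h
      exact hoS (hsub (ih (S.erase r1) hcard' hOS' o ho h))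
    have hAr1 : Atom β t r1 := hOS.1 r1 hr1
    have hle1 : LE β t r1 (∑ r ∈ S, r) := by
      have h := hB.le S hOS {r1} (Finset.singleton_subset_iff.mpr hr1)
      rw [Finset.sum_singleton] at h
      exact h
    have hor : o ≠ r1 := by
      intro h
      exact hoS (h ▸ hr1)
    have hDS : DS β o r1 := hFo o r1 _ ho hAr1 hor hle hle1
    -- l = o + r1, m = k1 + o
    have hsum : (o + r1) + (k1 + o) = ∑ r ∈ S, r := by
      rw [hk]
      have h := add_self' o
      calc (o + r1) + (k1 + o) = (o + o) + (r1 + k1) := by abel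
        _ = r1 + k1 := by rw [h, zero_add]
    have horth : LE β t (o + r1) ((o + r1) + (k1 + o)) := by
      rw [hsum]
      exact hO.add_le o r1 _ hle hle1
    have hvan := (hO.orth_iff (o + r1) (k1 + o)).mp horth
    have hLXl : LX β (o + r1) = LX β o ⊔ LX β r1 := hO.orth_LX o r1 (hS.orth o r1 hDS)
    have hol : LX β o ≤ LX β (o + r1) := by
      rw [hLXl]
      exact le_sup_left
    by_cases hd : DS β k1 o
    · have hLXm : LX β (k1 + o) = LX β k1 ⊔ LX β o := hO.orth_LX k1 o (hS.orth k1 o hd)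
      obtain ⟨φ, hφ, hφt⟩ := hO.ne o ho.1
      have h0 := hvan φ (hol hφ) (by rw [hLXm]; exact (le_sup_right : LX β o ≤ _) hφ)
      rw [h0] at hφt
      exact zero_ne_one hφt
    · have hnb : ¬ (LX β k1 ⊓ LX β o = ⊥) := fun h => hd ((hS.iff k1 o).mpr h)
      obtain ⟨φ, hφ, hφ0⟩ := Submodule.exists_mem_ne_zero_of_ne_bot hnb
      obtain ⟨hφk, hφo⟩ := Submodule.mem_inf.mp hφ
      obtain ⟨h1, _, _, n1, hn1, hn1'⟩ := hD o k1 ho hnot φ hφk hφo hφ0
      have hm : φ ∈ LX β (k1 + o) := by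
        rw [mem_LX]
        refine ⟨n1, fun v => ?_⟩
        rw [LinearMap.add_apply, (mem_NN β k1 n1).mp hn1 v, zero_add]
        exact hn1' v
      have h0 := hvan φ (hol hφo) hm
      rw [h0] at h1
      exact zero_ne_one h1

end FIV_

theorem fiv_proof (hORD : Stmt_ORD) (hSPL : Stmt_SPL) (hOSB : Stmt_OSB) (hDIC : Stmt_DIC)
    (hFOU : Stmt_FOU) : Stmt_FIV := by
  intro V X C _ _ _ _ _ _ _ _ _ β t hF S hS o ho hle
  exact FIV_.main β t hF (hORD V X C β t hF) (hSPL V X C β t hF) (hOSB V X C β t hF)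
    (hDIC V X C β t hF) (hFOU V X C β t hF) S.card S rfl hS o ho hle

end Pool.Agent.REG10
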