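import Pool.Agent.REG10.Stmts

/-!
REG10, module FOU: step (4) of the theorem on regular elements.
-/

set_option autoImplicit false

namespace Pool.Agent.REG10

open Module CommonSlot Pool.Agent.GTW
open scoped BigOperators

namespace FOU_

variable {V X C : Type} [AddCommGroup V] [Module (ZMod 2) V] [AddCommGroup X] [Module (ZMod 2) X]
  [AddCommGroup C] [Module (ZMod 2) C]

theorem value_one (β : X →ₗ[ZMod 2] V →ₗ[ZMod 2] C) (t : V) (hO : Ord β t) (k o : Du C)
    (hle : LE β t o k) (φ : Du V) (hφ : φ ∈ LX β o) (ht : φ t = 1) (a : X)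
    (ha : ∀ v, k (β a v) = φ v) : o (β a t) = 1 := by
  obtain ⟨y, hy, hy'⟩ := hO.wit o k hle
  obtain ⟨b, hb⟩ := (mem_LX β o φ).1 hφ
  calc o (β a t) = k (β a y) := (hy a).symm
    _ = φ y := ha y
    _ = o (β b y) := (hb y).symm
    _ = o (β b t) := hy' b
    _ = φ t := hb t
    _ = 1 := ht

end FOU_

theorem fou_proof (hORD : Stmt_ORD) (hSPL : Stmt_SPL) (hDIC : Stmt_DIC) : Stmt_FOU := by
  intro V X C _ _ _ _ _ _ _ _ _ β t hF r s k hr hs hrs hrk hsk
  have hO := hORD V X C β t hF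
  have hS := hSPL V X C β t hF
  have hnle : ¬ LE β t s r := by
    intro h
    rcases hr.2 s h with h0 | h1
    · exact hs.1 h0
    · exact hrs h1.symm
  by_contra hds
  have hne : LX β r ⊓ LX β s ≠ ⊥ := fun h => hds ((hS.iff r s).2 h)
  obtain ⟨φ, hφ, hφ0⟩ := Submodule.exists_mem_ne_zero_of_ne_bot hne
  obtain ⟨hφr, hφs⟩ := Submodule.mem_inf.1 hφ
  obtain ⟨ht, -, -, n, hn, hsn⟩ := hDIC V X C β t hF s r hs hnle φ hφr hφs hφ0
  have hφo : φ ∈ LX β (r + s) := by
    rw [mem_LX]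
    refine ⟨n, fun v => ?_⟩
    rw [LinearMap.add_apply, (mem_NN β r n).1 hn v, hsn v, zero_add]
  obtain ⟨a, ha⟩ := (mem_LX β k φ).1 (hO.LX_le r k hrk hφr)
  have h1 := FOU_.value_one β t hO k r hrk φ hφr ht a ha
  have h2 := FOU_.value_one β t hO k s hsk φ hφs ht a ha
  have h3 := FOU_.value_one β t hO k (r + s) (hO.add_le r s k hrk hsk) φ hφo ht a ha
  rw [LinearMap.add_apply, h1, h2] at h3
  exact absurd h3 (by decide)

end Pool.Agent.REG10
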