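import Pool.Agent.REG10.Stmts

/-!
REG10, module GLA: note 1659 (6) for one atom.
-/

set_option autoImplicit false

namespace Pool.Agent.REG10

open Module CommonSlot Pool.Agent.GTW
open scoped BigOperators

theorem gla_proof (hORD : Stmt_ORD) (hSPL : Stmt_SPL) (hDIC : Stmt_DIC) : Stmt_GLA := by
  intro V X C _ _ _ _ _ _ _ _ _ β t hF s m hs hle
  have hO := hORD V X C β t hF
  have hS := hSPL V X C β t hF
  have horth := (hO.orth_iff s m).1 hle
  have hn : ¬ LE β t s m := by
    intro h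
    obtain ⟨φ, hφ, h1⟩ := hO.ne s hs.1
    have h0 := horth φ hφ (hO.LX_le s m h hφ)
    rw [h0] at h1
    exact zero_ne_one h1
  rw [hS.iff, Submodule.eq_bot_iff]
  intro φ hφ
  obtain ⟨h1, h2⟩ := Submodule.mem_inf.1 hφ
  by_contra hne
  have h3 := (hDIC V X C β t hF s m hs hn φ h2 h1 hne).1
  have h0 := horth φ h1 h2
  rw [h0] at h3
  exact zero_ne_one h3

end Pool.Agent.REG10
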