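import Pool.Agent.REG10.Stmts

/-!
REG10, module GLB: note 1659 (6) for two atoms.
-/

set_option autoImplicit false

namespace Pool.Agent.REG10

open Module CommonSlot Pool.Agent.GTW
open scoped BigOperators

namespace GLB_

theorem two {V : Type} [AddCommGroup V] [Module (ZMod 2) V] (f₁ f₂ : Du V)
    (h₁ : f₁ ≠ 0) (h₂ : f₂ ≠ 0) : ∃ v, f₁ v = 1 ∧ f₂ v = 1 := by
  by_contra hc
  push Not at hc
  obtain ⟨v0, hv0⟩ : ∃ v0, f₁ v0 ≠ 0 := by
    by_contra hc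
    push Not at hc
    exact h₁ (LinearMap.ext hc)
  have hv1 : f₁ v0 = 1 := zm_ne_zero hv0
  have hv2 : f₂ v0 = 0 := zm_ne_one (hc v0 hv1)
  apply h₂
  ext v
  rcases zm (f₁ v) with h | h
  · have h3 : f₁ (v + v0) = 1 := by rw [map_add, h, hv1, zero_add]
    have h4 := zm_ne_one (hc _ h3)
    rw [map_add, hv2, add_zero] at h4
    exact h4
  · exact zm_ne_one (hc v h)

theorem three {V : Type} [AddCommGroup V] [Module (ZMod 2) V] (f₁ f₂ f₃ : Du V)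
    (h₁ : f₁ ≠ 0) (h₂ : f₂ ≠ 0) (h₃ : f₃ ≠ 0) (h : f₁ + f₂ + f₃ ≠ 0) :
    ∃ v, f₁ v = 1 ∧ f₂ v = 1 ∧ f₃ v = 1 := by
  by_contra hc
  push Not at hc
  obtain ⟨v0, hv1, hv2⟩ := two f₁ f₂ h₁ h₂
  have hv3 : f₃ v0 = 0 := zm_ne_one (hc v0 hv1 hv2)
  have key : ∀ v, (f₁ + f₂) v = 0 → f₃ v = 0 := by
    intro v hv
    rw [LinearMap.add_apply] at hv
    have he : f₁ v = f₂ v := eq_of_add_eq_zero' hv
    rcases zm (f₁ v) with h4 | h4
    · have h5 : f₂ v = 0 := by rw [← he, h4]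
      have h6 := zm_ne_one (hc (v + v0) (by rw [map_add, h4, hv1, zero_add])
        (by rw [map_add, h5, hv2, zero_add]))
      rw [map_add, hv3, add_zero] at h6
      exact h6
    · exact zm_ne_one (hc v h4 (by rw [← he, h4]))
  rcases fun_mem_pair key with h4 | h4
  · exact h₃ h4
  · apply h
    rw [h4]
    exact ZModModule.add_self _

end GLB_

theorem glb_proof (hORD : Stmt_ORD) (hSPL : Stmt_SPL) (hGLA : Stmt_GLA) : Stmt_GLB := by
  intro V X C _ _ _ _ _ _ _ _ _ β t hF s₁ s₂ m hs₁ hs₂ hds hpair hle φ₁ hφ₁ φ₂ hφ₂ ht₁ ht₂ hφm huniq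
  have hO := hORD V X C β t hF
  have hS := hSPL V X C β t hF
  -- independence of `s₁ X` and `s₂ X`
  have hind : ∀ ψ, ψ ∈ LX β s₁ → ψ ∈ LX β s₂ → ψ = 0 := by
    intro ψ h1 h2
    have h3 := (hS.iff s₁ s₂).1 hds
    rw [Submodule.eq_bot_iff] at h3
    exact h3 ψ (Submodule.mem_inf.2 ⟨h1, h2⟩)
  have hor := hS.orth s₁ s₂ hds
  have hKl := hO.orth_KK s₁ s₂ hor
  have hLl := hO.orth_LX s₁ s₂ hor
  have ez : ∀ z : Du C, z + z = 0 := fun z => ZModModule.add_self z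
  have ev : ∀ z : Du V, z + z = 0 := fun z => ZModModule.add_self z
  -- `sᵢ` and `m` are separated
  obtain ⟨u, hu, u', hu', huu⟩ := (hO.le_iff (s₁ + s₂) (s₁ + s₂ + m)).1 hle
  have hu'm : u' ∈ KK β m := by
    have : s₁ + s₂ + m + (s₁ + s₂) = m := by
      calc s₁ + s₂ + m + (s₁ + s₂) = (s₁ + s₁) + (s₂ + s₂) + m := by abel
        _ = m := by rw [ez, ez, zero_add, zero_add]
    rwa [this] at hu'
  rw [hKl] at hu
  obtain ⟨hu1, hu2⟩ := Submodule.mem_inf.1 hu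
  have hsep : ∀ s, u ∈ KK β s → LE β t s (s + m) := by
    intro s hus
    refine (hO.le_iff s (s + m)).2 ⟨u, hus, u', ?_, huu⟩
    have : s + m + s = m := by
      calc s + m + s = (s + s) + m := by abel
        _ = m := by rw [ez, zero_add]
    rwa [this]
  have hd1 : DS β s₁ m := hGLA V X C β t hF s₁ m hs₁ (hsep s₁ hu1)
  have h1l : LX β s₁ ≤ LX β (s₁ + s₂) := by rw [hLl]; exact le_sup_left
  have h2l : LX β s₂ ≤ LX β (s₁ + s₂) := by rw [hLl]; exact le_sup_right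
  -- the element `a`
  obtain ⟨ψ₁, hψ₁, hψ0, hψne⟩ := hF.rho s₁ hs₁.1 φ₁
  obtain ⟨a₁, ha₁⟩ := (mem_LX β s₁ ψ₁).1 hψ₁
  obtain ⟨b₁, hb₁⟩ := (mem_LX β m (φ₁ + φ₂)).1 hφm
  obtain ⟨a₂, ha21, ha2m⟩ := hS.onto s₁ m hd1 a₁ b₁
  obtain ⟨a, ha1, ham, ha3⟩ : ∃ a, (∀ v, s₁ (β a v) = ψ₁ v) ∧ (∀ v, m (β a v) = (φ₁ + φ₂) v) ∧
      ¬ ∀ v, s₂ (β a v) = 0 := by
    by_cases h0 : ∀ v, s₂ (β a₂ v) = 0
    · by_cases h1 : ∃ n, n ∈ NN β s₁ ∧ n ∈ NN β m ∧ ¬ n ∈ NN β s₂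
      · obtain ⟨n, hn1, hnm, hn2⟩ := h1
        refine ⟨a₂ + n, ?_, ?_, ?_⟩
        · intro v
          rw [map_add, LinearMap.add_apply, map_add, (mem_NN β s₁ n).1 hn1 v, add_zero, ha21, ha₁]
        · intro v
          rw [map_add, LinearMap.add_apply, map_add, (mem_NN β m n).1 hnm v, add_zero, ha2m, hb₁]
        · intro hc
          apply hn2
          rw [mem_NN]
          intro v
          have := hc v
          rw [map_add, LinearMap.add_apply, map_add, h0 v, zero_add] at this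
          exact this
      · exfalso
        push Not at h1
        have h2 : LE β t s₂ (s₁ + m) := by
          apply hO.le_of_NN
          rw [hS.NNadd s₁ m hd1]
          intro n hn
          exact h1 n (Submodule.mem_inf.1 hn).1 (Submodule.mem_inf.1 hn).2
        obtain ⟨ψ, hψ, hψn0, hψn⟩ := hF.rho s₂ hs₂.1 φ₂
        have h3 := hO.LX_le s₂ (s₁ + m) h2 hψ
        rw [hO.orth_LX s₁ m (hS.orth s₁ m hd1)] at h3
        obtain ⟨σ, hσ, μ, hμ, hσμ⟩ := Submodule.mem_sup.1 h3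
        have h4 : μ = ψ + σ := by
          rw [← hσμ]
          calc μ = (σ + σ) + μ := by rw [ev, zero_add]
            _ = σ + μ + σ := by abel
        have h5 : μ ∈ LX β (s₁ + s₂) := by
          rw [h4]
          exact (LX β (s₁ + s₂)).add_mem (h2l hψ) (h1l hσ)
        rcases huniq μ h5 hμ with h6 | h6
        · rw [h6] at h4
          have h7 : ψ = σ := eq_of_add_eq_zero' h4.symm
          apply hψn0
          apply hind ψ _ hψ
          rw [h7]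
          exact hσ
        · apply hψn
          have h7 : ψ + φ₂ = σ + φ₁ := by
            have h8 : ψ + σ = φ₁ + φ₂ := by rw [← h4, h6]
            calc ψ + φ₂ = ψ + (σ + σ) + φ₂ := by rw [ev, add_zero]
              _ = (ψ + σ) + σ + φ₂ := by abel
              _ = (φ₁ + φ₂) + σ + φ₂ := by rw [h8]
              _ = σ + φ₁ + (φ₂ + φ₂) := by abel
              _ = σ + φ₁ := by rw [ev, add_zero]
          have h9 : ψ + φ₂ = 0 := by
            apply hind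
            · rw [h7]
              exact (LX β s₁).add_mem hσ hφ₁
            · exact (LX β s₂).add_mem hψ hφ₂
          exact eq_of_add_eq_zero' h9
    · refine ⟨a₂, ?_, ?_, h0⟩
      · intro v
        rw [ha21, ha₁]
      · intro v
        rw [ha2m, hb₁]
  -- the functional `s₂ a`
  let f₃ : Du V := s₂.comp (β a)
  have hf₃ : ∀ v, f₃ v = s₂ (β a v) := fun v => rfl
  have hf₃m : f₃ ∈ LX β s₂ := (mem_LX β s₂ f₃).2 ⟨a, fun v => rfl⟩
  have hf₃0 : f₃ ≠ 0 := by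
    intro h
    apply ha3
    intro v
    rw [← hf₃, h]
    rfl
  have hφ0 : φ₁ + φ₂ ≠ 0 := by
    intro h
    have h1 : φ₁ = φ₂ := eq_of_add_eq_zero' h
    have h2 : φ₁ = 0 := hind φ₁ hφ₁ (by rw [h1]; exact hφ₂)
    rw [h2] at ht₁
    exact zero_ne_one ht₁
  have hsum : (φ₁ + φ₂) + ψ₁ + f₃ ≠ 0 := by
    intro h
    have h1 : φ₁ + ψ₁ = φ₂ + f₃ := by
      apply eq_of_add_eq_zero'
      rw [← h]
      abel
    have h2 : φ₁ + ψ₁ = 0 := by
      apply hind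
      · exact (LX β s₁).add_mem hφ₁ hψ₁
      · rw [h1]
        exact (LX β s₂).add_mem hφ₂ hf₃m
    exact hψne (eq_of_add_eq_zero' h2).symm
  obtain ⟨v, hv1, hv2, hv3⟩ := GLB_.three (φ₁ + φ₂) ψ₁ f₃ hφ0 hψ0 hf₃0 hsum
  have hbm : m (β a v) = 1 := by rw [ham, hv1]
  have hb1 : s₁ (β a v) = 1 := by rw [ha1, hv2]
  have hb2 : s₂ (β a v) = 1 := by rw [← hf₃, hv3]
  obtain ⟨c₁, hc₁⟩ := (mem_LX β s₁ φ₁).1 hφ₁
  obtain ⟨c₂, hc₂⟩ := (mem_LX β s₂ φ₂).1 hφ₂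
  obtain ⟨a₀, ha01, ha02⟩ := hS.onto s₁ s₂ hds c₁ c₂
  obtain ⟨n, hn, hnb⟩ := hO.val (s₁ + s₂) a₀ (β a v) (by
    intro o ho
    rcases hpair o ho with rfl | rfl | rfl | rfl
    · rfl
    · rw [hb1, ha01, hc₁, ht₁]
    · rw [hb2, ha02, hc₂, ht₂]
    · rw [LinearMap.add_apply, LinearMap.add_apply, hb1, hb2, ha01, ha02, hc₁, hc₂, ht₁, ht₂])
  have hsg := hF.sg m (s₁ + s₂) a (a₀ + n) (by
    intro w
    have h0 : β (a₀ + n) w = β a₀ w + β n w := by
      rw [map_add β]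
      rfl
    have h1 : (s₁ + s₂) (β (a₀ + n) w) = (s₁ + s₂) (β a₀ w) + (s₁ + s₂) (β n w) := by
      rw [h0, map_add (s₁ + s₂)]
    rw [ham, h1, (mem_NN β (s₁ + s₂) n).1 hn w, add_zero,
      LinearMap.add_apply, LinearMap.add_apply, ha01, ha02, hc₁, hc₂]) v t hnb.symm
  rw [hbm, LinearMap.add_apply, hb1, hb2] at hsg
  exact absurd hsg (by decide)

end Pool.Agent.REG10
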