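import Pool.Agent.REG10.Stmts

/-!
REG10, module GLU: two orthogonal functionals, one of them a sum of atoms, are separated.
-/

set_option autoImplicit false

namespace Pool.Agent.REG10

open Module CommonSlot Pool.Agent.GTW
open scoped BigOperators

namespace GLU_

section
variable {V X C : Type} [AddCommGroup V] [Module (ZMod 2) V] [AddCommGroup X] [Module (ZMod 2) X]
  [AddCommGroup C] [Module (ZMod 2) C]

theorem le_sub (β : X →ₗ[ZMod 2] V →ₗ[ZMod 2] C) (t : V) (hO : Ord β t) (l l' m : Du C)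
    (hl : LE β t l' l) (h : LE β t l (l + m)) : LE β t l' (l' + m) := by
  rw [hO.le_iff] at h ⊢
  obtain ⟨u, hu, u', hu', huu⟩ := h
  refine ⟨u, hO.KK_le l' l hl hu, u', ?_, huu⟩
  have e1 : l + m + l = m := by
    rw [add_comm l m, add_assoc, ZModModule.add_self, add_zero]
  have e2 : l' + m + l' = m := by
    rw [add_comm l' m, add_assoc, ZModModule.add_self, add_zero]
  rw [e2]
  rw [e1] at hu'
  exact hu'

theorem sep_zero (β : X →ₗ[ZMod 2] V →ₗ[ZMod 2] C) (t : V) (hS : Spl β t) (l m : Du C)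
    (h : DS β l m) (φ : Du V) (h1 : φ ∈ LX β l) (h2 : φ ∈ LX β m) : φ = 0 := by
  have h3 := (hS.iff l m).mp h
  have h4 : φ ∈ LX β l ⊓ LX β m := ⟨h1, h2⟩
  rw [h3] at h4
  exact (Submodule.mem_bot (ZMod 2)).mp h4

end

section
variable {V X C : Type} [AddCommGroup V] [Module (ZMod 2) V] [Finite V]
  [AddCommGroup X] [Module (ZMod 2) X] [Finite X] [AddCommGroup C] [Module (ZMod 2) C] [Finite C]

open scoped Classical in
/-- the data at one element `r` of `S` -/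
theorem comp (hDIC : Stmt_DIC) (β : X →ₗ[ZMod 2] V →ₗ[ZMod 2] C) (t : V)
    (hF : FR β t) (hO : Ord β t) (hS : Spl β t) (hB : Osb β t) (S : Finset (Du C))
    (hA : OSA β t S) (m : Du C) (hm : LE β t (∑ r ∈ S, r) (∑ r ∈ S, r + m))
    (r : Du C) (hr : r ∈ S) (hDS : DS β (∑ s ∈ S.erase r, s) m) (φ : Du V) (f : Du C → Du V)
    (hf : ∀ s ∈ S, f s ∈ LX β s) (hsum : ∑ s ∈ S, f s = φ) (hφ : φ ∈ LX β m) (hne : φ ≠ 0) :
    f r ≠ 0 ∧ f r ∈ LX β (∑ s ∈ S.erase r, s + m) ∧ (f r) t = 1 ∧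
      ∀ φ' ∈ LX β (∑ s ∈ S.erase r, s + m), φ' ∈ LX β r → φ' = 0 ∨ φ' = f r := by
  have hsub : S.erase r ⊆ S := Finset.erase_subset r S
  have hsplit : f r + ∑ s ∈ S.erase r, f s = φ := by
    rw [← hsum]
    exact Finset.add_sum_erase S f hr
  have hrest : ∑ s ∈ S.erase r, f s ∈ LX β (∑ s ∈ S.erase r, s) := by
    rw [hB.LX _ (hB.sub S hA _ hsub)]
    exact ⟨f, fun s hs => hf s (hsub hs), rfl⟩
  have h1 : f r ≠ 0 := by
    intro h0
    rw [h0, zero_add] at hsplit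
    apply hne
    apply sep_zero β t hS _ m hDS φ _ hφ
    rw [← hsplit]
    exact hrest
  have hfr : f r = φ + ∑ s ∈ S.erase r, f s := by
    rw [← hsplit, add_assoc, ZModModule.add_self, add_zero]
  have horth := hS.orth _ _ hDS
  have h2 : f r ∈ LX β (∑ s ∈ S.erase r, s + m) := by
    rw [hO.orth_LX _ _ horth, hfr, add_comm φ]
    exact Submodule.add_mem_sup hrest hφ
  have hsr : r + ∑ s ∈ S.erase r, s = ∑ s ∈ S, s := Finset.add_sum_erase S (fun s => s) hr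
  have h3 : ¬ LE β t r (∑ s ∈ S.erase r, s + m) := by
    intro hle
    obtain ⟨y, hy1, hy2⟩ := hO.wit _ _ hle
    have hyK : y ∈ KK β (∑ s ∈ S, s + m) := by
      rw [mem_KK]
      intro a
      have e1 : ∑ s ∈ S, s + m = r + (∑ s ∈ S.erase r, s + m) := by
        rw [← hsr, add_assoc]
      rw [e1, LinearMap.add_apply, hy1 a, hy2 a, ZModModule.add_self]
    rw [hO.orth_KK _ _ hm] at hyK
    have hyr : y ∈ KK β r := (hB.KK S hA y).mp hyK.1 r hr
    rw [mem_KK] at hyr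
    apply (hA.1 r hr).1
    ext c
    obtain ⟨a, ha⟩ := hF.surj c
    rw [← ha, ← hy2 a, hyr a]
    rfl
  obtain ⟨h4, h5, -, -⟩ := hDIC V X C β t hF r _ (hA.1 r hr) h3 (f r) h2 (hf r hr) h1
  exact ⟨h1, h2, h4, h5⟩

open scoped Classical in
theorem main (hDIC : Stmt_DIC) (hGLB : Stmt_GLB) (β : X →ₗ[ZMod 2] V →ₗ[ZMod 2] C) (t : V)
    (hF : FR β t) (hO : Ord β t) (hS : Spl β t) (hB : Osb β t) :
    ∀ (n : ℕ) (S : Finset (Du C)), S.card = n → OSA β t S →
    (∀ r ∈ S, ∀ s ∈ S, r ≠ s → ∀ o, LE β t o (r + s) → o = 0 ∨ o = r ∨ o = s ∨ o = r + s) →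
    ∀ m, LE β t (∑ r ∈ S, r) (∑ r ∈ S, r + m) → DS β (∑ r ∈ S, r) m := by
  intro n
  induction n using Nat.strong_induction_on with
  | _ n ih =>
  intro S hcard hA hpair m hm
  by_contra hcon
  -- proper subsets
  have hsubDS : ∀ T, T ⊂ S → DS β (∑ r ∈ T, r) m := by
    intro T hT
    have hTS : T ⊆ S := hT.1
    apply ih T.card (by rw [← hcard]; exact Finset.card_lt_card hT) T rfl (hB.sub S hA T hTS)
    · intro r hr s hs
      exact hpair r (hTS hr) s (hTS hs)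
    · exact le_sub β t hO _ _ m (hB.le S hA T hTS) hm
  have herase : ∀ r ∈ S, DS β (∑ s ∈ S.erase r, s) m := fun r hr =>
    hsubDS _ (Finset.erase_ssubset hr)
  -- a nonzero functional
  have hex : ∃ φ : Du V, φ ∈ LX β (∑ r ∈ S, r) ∧ φ ∈ LX β m ∧ φ ≠ 0 := by
    rw [hS.iff] at hcon
    by_contra hno
    apply hcon
    rw [eq_bot_iff]
    rintro φ ⟨h1, h2⟩
    rw [Submodule.mem_bot]
    by_contra h3
    exact hno ⟨φ, h1, h2, h3⟩
  obtain ⟨φ, hφ1, hφ2, hφ0⟩ := hex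
  obtain ⟨f, hf, hsum⟩ := (hB.LX S hA φ).mp hφ1
  -- uniqueness
  have huniq : ∀ ψ ∈ LX β (∑ r ∈ S, r), ψ ∈ LX β m → ψ = 0 ∨ ψ = φ := by
    intro ψ hψ1 hψ2
    by_cases hψ0 : ψ = 0
    · left; exact hψ0
    · right
      obtain ⟨g, hg, hgsum⟩ := (hB.LX S hA ψ).mp hψ1
      rw [← hsum, ← hgsum]
      apply Finset.sum_congr rfl
      intro r hr
      obtain ⟨-, -, -, hu⟩ := comp hDIC β t hF hO hS hB S hA m hm r hr (herase r hr) φ f hf
        hsum hφ2 hφ0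
      obtain ⟨hg0, hg1, -, -⟩ := comp hDIC β t hF hO hS hB S hA m hm r hr (herase r hr) ψ g hg
        hgsum hψ2 hψ0
      rcases hu (g r) hg1 (hg r hr) with h | h
      · exact absurd h hg0
      · exact h
  have hφt : φ t = 0 := (hO.orth_iff _ _).mp hm φ hφ1 hφ2
  have hft : ∀ r ∈ S, (f r) t = 1 := fun r hr =>
    (comp hDIC β t hF hO hS hB S hA m hm r hr (herase r hr) φ f hf hsum hφ2 hφ0).2.2.1
  -- two elements
  have hne : S.Nonempty := by
    rw [Finset.nonempty_iff_ne_empty]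
    intro h0
    rw [h0, Finset.sum_empty] at hsum
    exact hφ0 hsum.symm
  obtain ⟨r₁, hr₁⟩ := hne
  have hne2 : (S.erase r₁).Nonempty := by
    rw [Finset.nonempty_iff_ne_empty]
    intro h0
    have h1 : f r₁ + ∑ s ∈ S.erase r₁, f s = φ := by
      rw [← hsum]
      exact Finset.add_sum_erase S f hr₁
    rw [h0, Finset.sum_empty, add_zero] at h1
    have h2 := hft r₁ hr₁
    rw [h1, hφt] at h2
    exact zero_ne_one h2
  obtain ⟨r₂, hr₂'⟩ := hne2
  have hr₂ : r₂ ∈ S := Finset.mem_of_mem_erase hr₂'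
  have hr21 : r₂ ≠ r₁ := Finset.ne_of_mem_erase hr₂'
  have hr12 : r₁ ≠ r₂ := hr21.symm
  set T : Finset (Du C) := (S.erase r₁).erase r₂ with hTdef
  have hTS : T ⊆ S := (Finset.erase_subset _ _).trans (Finset.erase_subset _ _)
  have hTss : T ⊂ S := lt_of_le_of_lt (Finset.erase_subset _ _) (Finset.erase_ssubset hr₁)
  have hDST := hsubDS T hTss
  have horthT := hS.orth _ _ hDST
  have hLXT : LX β (∑ r ∈ T, r + m) = LX β (∑ r ∈ T, r) ⊔ LX β m := hO.orth_LX _ _ horthT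
  have hpsub : ({r₁, r₂} : Finset (Du C)) ⊆ S := by
    intro u hu
    rw [Finset.mem_insert, Finset.mem_singleton] at hu
    rcases hu with hu | hu
    · rw [hu]; exact hr₁
    · rw [hu]; exact hr₂
  have hpsum : ∑ u ∈ ({r₁, r₂} : Finset (Du C)), u = r₁ + r₂ := Finset.sum_pair hr12
  have hpT : Disjoint ({r₁, r₂} : Finset (Du C)) T := by
    rw [Finset.disjoint_left]
    intro u hu huT
    rw [Finset.mem_insert, Finset.mem_singleton] at hu
    rw [hTdef, Finset.mem_erase, Finset.mem_erase] at huT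
    rcases hu with hu | hu
    · exact huT.2.1 hu
    · exact huT.1 hu
  have hDS2 : DS β (r₁ + r₂) (∑ r ∈ T, r) := by
    have h := hB.ds S hA _ hpsub T hTS hpT
    rwa [hpsum] at h
  have hDS12 : DS β r₁ r₂ := by
    have h := hB.ds S hA {r₁} (Finset.singleton_subset_iff.mpr hr₁) {r₂}
      (Finset.singleton_subset_iff.mpr hr₂) (Finset.disjoint_singleton.mpr hr12)
    rwa [Finset.sum_singleton, Finset.sum_singleton] at h
  have hfT : ∑ s ∈ T, f s ∈ LX β (∑ r ∈ T, r) := by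
    rw [hB.LX _ (hB.sub S hA T hTS)]
    exact ⟨f, fun s hs => hf s (hTS hs), rfl⟩
  have hfp : f r₁ + f r₂ ∈ LX β (r₁ + r₂) := by
    have h : f r₁ + f r₂ ∈ LX β (∑ u ∈ ({r₁, r₂} : Finset (Du C)), u) := by
      rw [hB.LX _ (hB.sub S hA _ hpsub)]
      exact ⟨f, fun s hs => hf s (hpsub hs), Finset.sum_pair hr12⟩
    rwa [hpsum] at h
  have hsplit : f r₁ + f r₂ + ∑ s ∈ T, f s = φ := by
    rw [← hsum, ← Finset.add_sum_erase S f hr₁, ← Finset.add_sum_erase (S.erase r₁) f hr₂',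
      add_assoc]
  have hsplit2 : f r₁ + f r₂ = φ + ∑ s ∈ T, f s := by
    rw [← hsplit, add_assoc _ (∑ s ∈ T, f s), ZModModule.add_self, add_zero]
  have hle1 : LX β (r₁ + r₂) ≤ LX β (∑ r ∈ S, r) := by
    have h := hO.LX_le _ _ (hB.le S hA _ hpsub)
    rwa [hpsum] at h
  have hle2 : LX β (∑ r ∈ T, r) ≤ LX β (∑ r ∈ S, r) := hO.LX_le _ _ (hB.le S hA T hTS)
  have hint : ∀ ψ ∈ LX β (r₁ + r₂), ψ ∈ LX β (∑ r ∈ T, r + m) → ψ = 0 ∨ ψ = f r₁ + f r₂ := by
    intro ψ hψ1 hψ2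
    rw [hLXT, Submodule.mem_sup] at hψ2
    obtain ⟨σ, hσ, μ, hμ, hσμ⟩ := hψ2
    have hμ' : μ = ψ + σ := by
      rw [← hσμ, add_comm σ μ, add_assoc, ZModModule.add_self, add_zero]
    have hμl : μ ∈ LX β (∑ r ∈ S, r) := by
      rw [hμ']
      exact Submodule.add_mem _ (hle1 hψ1) (hle2 hσ)
    rcases huniq μ hμl hμ with h | h
    · left
      rw [h, add_zero] at hσμ
      apply sep_zero β t hS _ _ hDS2 ψ hψ1
      rw [← hσμ]
      exact hσ
    · right
      have h1 : ψ + (f r₁ + f r₂) = σ + ∑ s ∈ T, f s := by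
        have e : ψ + σ = f r₁ + f r₂ + ∑ s ∈ T, f s := by rw [hsplit, ← h, hμ']
        have e2 : ψ = f r₁ + f r₂ + ∑ s ∈ T, f s + σ := by
          rw [← e, add_assoc, ZModModule.add_self, add_zero]
        rw [e2]
        have e3 : f r₁ + f r₂ + ∑ s ∈ T, f s + σ + (f r₁ + f r₂)
            = (f r₁ + f r₂ + (f r₁ + f r₂)) + (σ + ∑ s ∈ T, f s) := by abel
        rw [e3, ZModModule.add_self, zero_add]
      have h2 : ψ + (f r₁ + f r₂) = 0 := by
        apply sep_zero β t hS _ _ hDS2 _ (Submodule.add_mem _ hψ1 hfp)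
        rw [h1]
        exact Submodule.add_mem _ hσ hfT
      calc ψ = ψ + (f r₁ + f r₂) + (f r₁ + f r₂) := by
            rw [add_assoc, ZModModule.add_self, add_zero]
        _ = f r₁ + f r₂ := by rw [h2, zero_add]
  have hmem : f r₁ + f r₂ ∈ LX β (∑ r ∈ T, r + m) := by
    rw [hsplit2, hLXT, add_comm φ]
    exact Submodule.add_mem_sup hfT hφ2
  have hLE : LE β t (r₁ + r₂) (r₁ + r₂ + (∑ r ∈ T, r + m)) := by
    rw [hO.orth_iff]
    intro ψ h1 h2
    rcases hint ψ h1 h2 with h | h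
    · rw [h]; rfl
    · rw [h, LinearMap.add_apply, hft r₁ hr₁, hft r₂ hr₂]
      exact ZModModule.add_self _
  exact hGLB V X C β t hF r₁ r₂ (∑ r ∈ T, r + m) (hA.1 r₁ hr₁) (hA.1 r₂ hr₂) hDS12
    (hpair r₁ hr₁ r₂ hr₂ hr12) hLE (f r₁) (hf r₁ hr₁) (f r₂) (hf r₂ hr₂) (hft r₁ hr₁)
    (hft r₂ hr₂) hmem hint

end

end GLU_

theorem glu_proof (hORD : Stmt_ORD) (hSPL : Stmt_SPL) (hOSB : Stmt_OSB) (hDIC : Stmt_DIC)
    (_hGLA : Stmt_GLA) (hGLB : Stmt_GLB) : Stmt_GLU := by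
  intro V X C _ _ _ _ _ _ _ _ _ β t hF S hA hpair m hm
  exact GLU_.main hDIC hGLB β t hF (hORD V X C β t hF) (hSPL V X C β t hF)
    (hOSB V X C β t hF) S.card S rfl hA hpair m hm

end Pool.Agent.REG10
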