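import Pool.Agent.REG10.Stmts

/-! NIN: the sum of two equivalent atoms is an atom. -/

set_option autoImplicit false

namespace Pool.Agent.REG10

open Module CommonSlot Pool.Agent.GTW
open scoped BigOperators

namespace NIN_

/-- if `f` takes on `N` only the values `0` and `φ`, then `ker f ∩ N` has codimension at most
one in `N` -/
theorem fin_le {X D : Type} [AddCommGroup X] [Module (ZMod 2) X] [Finite X] [AddCommGroup D]
    [Module (ZMod 2) D] (f : X →ₗ[ZMod 2] D) (N : Submodule (ZMod 2) X) (φ : D)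
    (h : ∀ n ∈ N, f n = 0 ∨ f n = φ) :
    finrank (ZMod 2) N ≤ finrank (ZMod 2) (N ⊓ LinearMap.ker f : Submodule (ZMod 2) X) + 1 := by
  have h1 := (f.domRestrict N).finrank_range_add_finrank_ker
  have h2 : Submodule.map N.subtype (LinearMap.ker (f.domRestrict N)) = N ⊓ LinearMap.ker f := by
    ext a
    rw [Submodule.mem_map, Submodule.mem_inf, LinearMap.mem_ker]
    constructor
    · rintro ⟨b, hb, rfl⟩
      exact ⟨b.2, hb⟩
    · rintro ⟨ha, hb⟩
      exact ⟨⟨a, ha⟩, hb, rfl⟩
  have h3 : finrank (ZMod 2) (LinearMap.ker (f.domRestrict N)) =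
      finrank (ZMod 2) (N ⊓ LinearMap.ker f : Submodule (ZMod 2) X) := by
    rw [← h2]
    exact (Submodule.finrank_map_subtype_eq _ _).symm
  have h4 : LinearMap.range (f.domRestrict N) ≤ Submodule.span (ZMod 2) {φ} := by
    rintro _ ⟨n, rfl⟩
    rcases h n.1 n.2 with h' | h'
    · rw [LinearMap.domRestrict_apply, h']
      exact Submodule.zero_mem _
    · rw [LinearMap.domRestrict_apply, h']
      exact Submodule.mem_span_singleton_self φ
  have h5 : finrank (ZMod 2) (LinearMap.range (f.domRestrict N)) ≤ 1 :=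
    (Submodule.finrank_mono h4).trans (by
      have := finrank_span_finset_le_card (R := ZMod 2) ({φ} : Finset D)
      rwa [Finset.coe_singleton, Finset.card_singleton] at this)
  omega

end NIN_

open NIN_ in
theorem nin_proof (hORD : Stmt_ORD) (hSPL : Stmt_SPL) (hOSB : Stmt_OSB) (hDIC : Stmt_DIC)
    (hFIV : Stmt_FIV) (hATO : Stmt_ATO) (hEIG : Stmt_EIG) : Stmt_NIN := by
  intro V X C _ _ _ _ _ _ _ _ _ β t hF r s hr hs hrs φ hφr hφs hφ
  classical
  have O := hORD V X C β t hF
  have P := hSPL V X C β t hF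
  have B := hOSB V X C β t hF
  have D := hDIC V X C β t hF
  have nsr : ¬ LE β t s r := by
    intro h
    rcases hr.2 s h with h | h
    · exact hs.1 h
    · exact hrs h.symm
  obtain ⟨ht, -, hN1, n1, hn1, hn1'⟩ := D s r hs nsr φ hφr hφs hφ
  have hφo : φ ∈ LX β (r + s) := by
    rw [mem_LX]
    refine ⟨n1, fun v => ?_⟩
    rw [LinearMap.add_apply, (mem_NN β r n1).1 hn1 v, zero_add, hn1' v]
  refine ⟨?_, hφo⟩
  have nro : ¬ LE β t r (r + s) := by
    intro h
    have := (O.orth_iff r s).1 h φ hφr hφs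
    rw [ht] at this
    exact one_ne_zero this
  have nso : ¬ LE β t s (r + s) := by
    intro h
    rw [add_comm] at h
    have := (O.orth_iff s r).1 h φ hφs hφr
    rw [ht] at this
    exact one_ne_zero this
  obtain ⟨o1, ho1, ho1le, ho1φ, ho1u⟩ := hEIG V X C β t hF r (r + s) hr nro φ hφo hφr hφ
  obtain ⟨T, hT, hTs⟩ := (hATO V X C β t hF).1 (r + s)
  have ho1T : o1 ∈ T := hFIV V X C β t hF T hT o1 ho1 (by rw [hTs]; exact ho1le)
  -- the claim
  have key : ∀ o2 ∈ T, o2 = o1 := by
    intro o2 ho2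
    by_contra hne
    have hao2 : Atom β t o2 := hT.1 o2 ho2
    have ho2le : LE β t o2 (r + s) := by
      have := B.le T hT {o2} (Finset.singleton_subset_iff.2 ho2)
      rwa [Finset.sum_singleton, hTs] at this
    have hφo2 : φ ∉ LX β o2 := fun h => hne (ho1u o2 hao2 ho2le h)
    have hLo2 : LX β o2 ≤ LX β (r + s) := O.LX_le _ _ ho2le
    have ds1 : DS β r o2 := by
      rw [P.iff, eq_bot_iff]
      intro ψ hψ
      rw [Submodule.mem_inf] at hψ
      rcases (D r (r + s) hr nro φ hφo hφr hφ).2.1 ψ (hLo2 hψ.2) hψ.1 with h | h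
      · rw [h]; exact Submodule.zero_mem _
      · rw [h] at hψ
        exact absurd hψ.2 hφo2
    have sne : s ∉ ({r, o2} : Finset (Du C)) := by
      rw [Finset.mem_insert, Finset.mem_singleton]
      rintro (h | h)
      · exact hrs h.symm
      · subst h
        exact nso ho2le
    obtain ⟨hpair, hro2⟩ := B.pair r o2 hr hao2 ds1
    have hsum2 : ∑ x ∈ ({r, o2} : Finset (Du C)), x = r + o2 := Finset.sum_pair hro2
    have nsk : ¬ LE β t s (r + o2) := by
      intro h
      apply sne
      apply hFIV V X C β t hF {r, o2} hpair s hs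
      rw [hsum2]
      exact h
    have hφk : φ ∈ LX β (r + o2) := O.LX_le _ _ (P.orth r o2 ds1) hφr
    obtain ⟨-, hu2, hN2, n2, hn2, hn2'⟩ := D s (r + o2) hs nsk φ hφk hφs hφ
    -- (i)
    have i1 : finrank (ZMod 2) (NN β (s + (r + o2))) ≤
        finrank (ZMod 2) (NN β (s + (r + o2)) ⊓ NN β s : Submodule (ZMod 2) X) + 1 := by
      apply fin_le (β.compr₂ s) (NN β (s + (r + o2))) φ
      intro n hn
      have h1 : ∀ v, (r + o2) (β n v) = s (β n v) := by
        intro v
        have := (mem_NN β _ n).1 hn v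
        rw [LinearMap.add_apply] at this
        exact (eq_of_add_eq_zero' this).symm
      have h2 : (β.compr₂ s) n ∈ LX β (r + o2) := by
        rw [mem_LX]
        exact ⟨n, h1⟩
      have h3 : (β.compr₂ s) n ∈ LX β s := ⟨n, rfl⟩
      exact hu2 _ h2 h3
    have i2 : (NN β (s + (r + o2)) ⊓ NN β s : Submodule (ZMod 2) X) ≤
        NN β (r + o2) ⊓ NN β s := by
      intro n hn
      rw [Submodule.mem_inf] at hn ⊢
      refine ⟨?_, hn.2⟩
      rw [mem_NN]
      intro v
      have h1 := (mem_NN β _ n).1 hn.1 v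
      rw [LinearMap.add_apply, (mem_NN β _ n).1 hn.2 v, zero_add] at h1
      exact h1
    have i3 : (NN β (r + o2) ⊓ NN β s : Submodule (ZMod 2) X) < NN β (r + o2) := by
      refine lt_of_le_of_ne inf_le_left ?_
      intro h
      have h1 : n2 ∈ NN β s := by
        have : n2 ∈ (NN β (r + o2) ⊓ NN β s : Submodule (ZMod 2) X) := by rw [h]; exact hn2
        exact (Submodule.mem_inf.1 this).2
      apply hφ
      ext v
      rw [← hn2' v, (mem_NN β s n2).1 h1 v]
      rfl
    have j1 := Submodule.finrank_mono i2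
    have j2 := Submodule.finrank_lt_finrank_of_lt i3
    -- (iii)
    have hcomp : ∑ x ∈ T.erase o2, x + o2 = r + s := by
      rw [← hTs]
      exact Finset.sum_erase_add T (fun x => x) ho2
    have ds2 : DS β (∑ x ∈ T.erase o2, x) o2 := by
      have := B.ds T hT (T.erase o2) (Finset.erase_subset _ _) {o2}
        (Finset.singleton_subset_iff.2 ho2)
        (by rw [Finset.disjoint_singleton_right]; exact Finset.notMem_erase _ _)
      rwa [Finset.sum_singleton] at this
    have ho' : ∑ x ∈ T.erase o2, x = s + (r + o2) := by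
      have h1 : ∑ x ∈ T.erase o2, x = r + s + o2 := by
        rw [← hcomp, add_assoc, ZModModule.add_self, add_zero]
      rw [h1]
      abel
    rw [ho'] at ds2
    have hso : s + (r + o2) + o2 = r + s := by
      rw [← ho']
      exact hcomp
    have k1 := Submodule.finrank_sup_add_finrank_inf_eq (NN β (s + (r + o2))) (NN β o2)
    rw [P.NNsup _ _ ds2, ← P.NNadd _ _ ds2, hso, finrank_top] at k1
    have k2 := Submodule.finrank_sup_add_finrank_inf_eq (NN β r) (NN β o2)
    rw [P.NNsup _ _ ds1, ← P.NNadd _ _ ds1, finrank_top] at k2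
    -- (v)
    have l1 : finrank (ZMod 2) (NN β r) ≤
        finrank (ZMod 2) (NN β r ⊓ NN β s : Submodule (ZMod 2) X) + 1 := by
      apply fin_le (β.compr₂ s) (NN β r) φ
      intro n hn
      rcases hN1 n hn with h | h
      · left; exact LinearMap.ext h
      · right; exact LinearMap.ext h
    have l2 : (NN β r ⊓ NN β s : Submodule (ZMod 2) X) ≤ NN β (r + s) := by
      intro n hn
      rw [Submodule.mem_inf] at hn
      rw [mem_NN]
      intro v
      rw [LinearMap.add_apply, (mem_NN β _ n).1 hn.1 v, (mem_NN β _ n).1 hn.2 v, add_zero]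
    have l3 := Submodule.finrank_mono l2
    -- (vi)
    have m1 : NN β o2 < ⊤ := by
      rw [lt_top_iff_ne_top]
      intro h
      obtain ⟨ψ, hψ, hψt⟩ := O.ne o2 hao2.1
      obtain ⟨a, ha⟩ := (mem_LX β o2 ψ).1 hψ
      have h1 : a ∈ NN β o2 := by rw [h]; exact Submodule.mem_top
      have h2 := (mem_NN β o2 a).1 h1 t
      rw [ha t, hψt] at h2
      exact one_ne_zero h2
    have m2 := Submodule.finrank_lt_finrank_of_lt m1
    rw [finrank_top] at m2
    omega
  have hT1 : T = {o1} := by
    rw [Finset.eq_singleton_iff_unique_mem]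
    exact ⟨ho1T, key⟩
  rw [hT1, Finset.sum_singleton] at hTs
  rw [← hTs]
  exact ho1

end Pool.Agent.REG10
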