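import Pool.Agent.REG10.Stmts

/-!
REG10, module OSB: basic facts on orthogonal sets of atoms.
-/

set_option autoImplicit false

namespace Pool.Agent.REG10

open Module CommonSlot Pool.Agent.GTW
open scoped BigOperators

namespace OSB_

section basic
variable {V X C : Type} [AddCommGroup V] [Module (ZMod 2) V] [AddCommGroup X] [Module (ZMod 2) X]
  [AddCommGroup C] [Module (ZMod 2) C]
  {β : X →ₗ[ZMod 2] V →ₗ[ZMod 2] C} {t : V}

theorem dd {M : Type} [AddCommGroup M] [Module (ZMod 2) M] (x : M) : x + x = 0 :=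
  ZModModule.add_self x

theorem eq_of_add {M : Type} [AddCommGroup M] [Module (ZMod 2) M] {x y : M} (h : x + y = 0) :
    x = y := by
  have h1 : x + y + y = y := by rw [h, zero_add]
  rw [add_assoc, dd, add_zero] at h1
  exact h1

theorem osa_sub {S S' : Finset (Du C)} (h : OSA β t S) (hs : S' ⊆ S) : OSA β t S' := by
  classical
  refine ⟨fun r hr => h.1 r (hs hr), ?_⟩
  intro f hf h0 r hr
  have key := h.2 (fun r => if r ∈ S' then f r else 0) ?_ ?_ r (hs hr)
  · simpa only [if_pos hr] using key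
  · intro s _
    by_cases h1 : s ∈ S'
    · simp only [if_pos h1]
      exact hf s h1
    · simp only [if_neg h1]
      exact Submodule.zero_mem _
  · refine (Finset.sum_subset hs ?_).symm.trans ((Finset.sum_congr rfl ?_).trans h0)
    · intro s _ hs'
      exact if_neg hs'
    · intro s hs'
      exact if_pos hs'

theorem ind {S S' S'' : Finset (Du C)} (h : OSA β t S) (h1 : S' ⊆ S) (h2 : S'' ⊆ S)
    (hd : Disjoint S' S'') (f' f'' : Du C → Du V) (hf' : ∀ r ∈ S', f' r ∈ LX β r)
    (hf'' : ∀ r ∈ S'', f'' r ∈ LX β r) (he : ∑ r ∈ S', f' r = ∑ r ∈ S'', f'' r) :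
    (∀ r ∈ S', f' r = 0) ∧ ∀ r ∈ S'', f'' r = 0 := by
  classical
  have h3 : OSA β t (S' ∪ S'') := osa_sub h (Finset.union_subset h1 h2)
  have e1 : ∑ r ∈ S', (if r ∈ S' then f' r else f'' r) = ∑ r ∈ S', f' r :=
    Finset.sum_congr rfl (fun s hs => if_pos hs)
  have e2 : ∑ r ∈ S'', (if r ∈ S' then f' r else f'' r) = ∑ r ∈ S'', f'' r :=
    Finset.sum_congr rfl (fun s hs => if_neg (fun hs' => Finset.disjoint_left.1 hd hs' hs))
  have key := h3.2 (fun r => if r ∈ S' then f' r else f'' r) ?_ ?_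
  · constructor
    · intro r hr
      have := key r (Finset.mem_union_left _ hr)
      simpa only [if_pos hr] using this
    · intro r hr
      have h4 : r ∉ S' := fun hs' => Finset.disjoint_left.1 hd hs' hr
      have := key r (Finset.mem_union_right _ hr)
      simpa only [if_neg h4] using this
  · intro r hr
    by_cases h4 : r ∈ S'
    · simp only [if_pos h4]
      exact hf' r h4
    · simp only [if_neg h4]
      exact hf'' r ((Finset.mem_union.1 hr).resolve_left h4)
  · rw [Finset.sum_union hd, e1, e2, he]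
    exact dd _

theorem LX_zero (φ : Du V) : φ ∈ LX β (0 : Du C) ↔ φ = 0 := by
  rw [mem_LX]
  constructor
  · rintro ⟨a, ha⟩
    apply LinearMap.ext
    intro v
    rw [← ha v]
    rfl
  · rintro rfl
    exact ⟨0, fun v => rfl⟩

theorem KK_zero (y : V) : y ∈ KK β (0 : Du C) := by
  rw [mem_KK]
  intro a
  rfl

theorem NN_zero (a : X) : a ∈ NN β (0 : Du C) := by
  rw [mem_NN]
  intro v
  rfl

/-- the four properties proved together by induction -/
structure Four (β : X →ₗ[ZMod 2] V →ₗ[ZMod 2] C) (S : Finset (Du C)) : Prop where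
  KK : ∀ y, y ∈ KK β (∑ r ∈ S, r) ↔ ∀ r ∈ S, y ∈ KK β r
  NN : ∀ a, a ∈ NN β (∑ r ∈ S, r) ↔ ∀ r ∈ S, a ∈ NN β r
  LX : ∀ φ, φ ∈ LX β (∑ r ∈ S, r) ↔
    ∃ f : Du C → Du V, (∀ r ∈ S, f r ∈ LX β r) ∧ ∑ r ∈ S, f r = φ
  onto : ∀ g : Du C → X, ∃ a, ∀ r ∈ S, ∀ v, r (β a v) = r (β (g r) v)

theorem four_empty : Four β (∅ : Finset (Du C)) := by
  refine ⟨?_, ?_, ?_, ?_⟩
  · intro y
    rw [Finset.sum_empty]
    exact ⟨fun _ r hr => absurd hr (Finset.notMem_empty r), fun _ => KK_zero y⟩
  · intro a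
    rw [Finset.sum_empty]
    exact ⟨fun _ r hr => absurd hr (Finset.notMem_empty r), fun _ => NN_zero a⟩
  · intro φ
    rw [Finset.sum_empty, LX_zero]
    constructor
    · rintro rfl
      exact ⟨fun _ => 0, fun r hr => absurd hr (Finset.notMem_empty r), Finset.sum_empty⟩
    · rintro ⟨f, _, h⟩
      rw [← h, Finset.sum_empty]
  · intro g
    exact ⟨0, fun r hr => absurd hr (Finset.notMem_empty r)⟩

theorem four_insert (hO : Ord β t) (hP : Spl β t) (r : Du C) (S : Finset (Du C)) [DecidableEq (Du C)]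
    (hr : r ∉ S) (ih : Four β S) (h : OSA β t (insert r S)) : Four β (insert r S) := by
  have hrS : S ⊆ insert r S := Finset.subset_insert r S
  have hrr : ({r} : Finset (Du C)) ⊆ insert r S :=
    Finset.singleton_subset_iff.2 (Finset.mem_insert_self r S)
  have hds : DS β r (∑ s ∈ S, s) := by
    rw [hP.iff, eq_bot_iff]
    rintro φ ⟨h1, h2⟩
    obtain ⟨f, hf, hs⟩ := (ih.LX φ).1 h2
    have key := ind h hrr hrS (Finset.disjoint_singleton_left.2 hr) (fun _ => φ) f ?_ hf ?_
    · exact (Submodule.mem_bot _).2 (key.1 r (Finset.mem_singleton_self r))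
    · intro s hs'
      rw [Finset.mem_singleton.1 hs']
      exact h1
    · rw [Finset.sum_singleton, hs]
  have hor : LE β t r (r + ∑ s ∈ S, s) := hP.orth _ _ hds
  refine ⟨?_, ?_, ?_, ?_⟩
  · intro y
    rw [Finset.sum_insert hr, hO.orth_KK _ _ hor, Submodule.mem_inf, ih.KK]
    constructor
    · rintro ⟨h1, h2⟩ s hs
      rcases Finset.mem_insert.1 hs with rfl | hs
      · exact h1
      · exact h2 s hs
    · intro h1
      exact ⟨h1 r (Finset.mem_insert_self r S), fun s hs => h1 s (hrS hs)⟩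
  · intro y
    rw [Finset.sum_insert hr, hP.NNadd _ _ hds, Submodule.mem_inf, ih.NN]
    constructor
    · rintro ⟨h1, h2⟩ s hs
      rcases Finset.mem_insert.1 hs with rfl | hs
      · exact h1
      · exact h2 s hs
    · intro h1
      exact ⟨h1 r (Finset.mem_insert_self r S), fun s hs => h1 s (hrS hs)⟩
  · intro φ
    rw [Finset.sum_insert hr, hO.orth_LX _ _ hor, Submodule.mem_sup]
    constructor
    · rintro ⟨a, ha, b, hb, hab⟩
      obtain ⟨f, hf, hs⟩ := (ih.LX b).1 hb
      refine ⟨fun s => if s = r then a else f s, ?_, ?_⟩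
      · intro s hs'
        rcases Finset.mem_insert.1 hs' with rfl | hs'
        · simp only [if_true]
          exact ha
        · have : s ≠ r := fun he => hr (he ▸ hs')
          simp only [if_neg this]
          exact hf s hs'
      · rw [Finset.sum_insert hr, if_pos rfl, ← hab, ← hs]
        congr 1
        apply Finset.sum_congr rfl
        intro s hs'
        exact if_neg (fun he : s = r => hr (he ▸ hs'))
    · rintro ⟨f, hf, hs⟩
      refine ⟨f r, hf r (Finset.mem_insert_self r S), ∑ s ∈ S, f s,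
        (ih.LX _).2 ⟨f, fun s hs => hf s (hrS hs), rfl⟩, ?_⟩
      rw [← hs, Finset.sum_insert hr]
  · intro g
    obtain ⟨b, hb⟩ := ih.onto g
    obtain ⟨c, hc1, hc2⟩ := hP.onto _ _ hds (g r) b
    refine ⟨c, ?_⟩
    have h1 : c + b ∈ NN β (∑ s ∈ S, s) := by
      rw [mem_NN]
      intro v
      rw [map_add, LinearMap.add_apply, map_add, hc2 v]
      exact dd _
    rw [ih.NN] at h1
    intro s hs v
    rcases Finset.mem_insert.1 hs with rfl | hs
    · exact hc1 v
    · have h2 := (mem_NN _ _ _).1 (h1 s hs) v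
      rw [map_add, LinearMap.add_apply, map_add] at h2
      rw [eq_of_add h2]
      exact hb s hs v

theorem four (hO : Ord β t) (hP : Spl β t) (S : Finset (Du C)) (h : OSA β t S) : Four β S := by
  classical
  induction S using Finset.induction_on with
  | empty => exact four_empty
  | insert r S hr ih =>
    exact four_insert hO hP r S hr (ih (osa_sub h (Finset.subset_insert r S))) h

theorem ds (hO : Ord β t) (hP : Spl β t) (S : Finset (Du C)) (h : OSA β t S) (S' : Finset (Du C))
    (h1 : S' ⊆ S) (S'' : Finset (Du C)) (h2 : S'' ⊆ S) (hd : Disjoint S' S'') :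
    DS β (∑ r ∈ S', r) (∑ r ∈ S'', r) := by
  rw [hP.iff, eq_bot_iff]
  rintro φ ⟨g1, g2⟩
  obtain ⟨f, hf, hs⟩ := ((four hO hP S' (osa_sub h h1)).LX φ).1 g1
  obtain ⟨f', hf', hs'⟩ := ((four hO hP S'' (osa_sub h h2)).LX φ).1 g2
  have key := ind h h1 h2 hd f f' hf hf' (hs.trans hs'.symm)
  rw [Submodule.mem_bot, ← hs]
  exact Finset.sum_eq_zero key.1

theorem le (hO : Ord β t) (hP : Spl β t) (S : Finset (Du C)) (h : OSA β t S) (S' : Finset (Du C))
    (h1 : S' ⊆ S) : LE β t (∑ r ∈ S', r) (∑ r ∈ S, r) := by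
  classical
  have h2 := hP.orth _ _ (ds hO hP S h S' h1 (S \ S') Finset.sdiff_subset
    Finset.disjoint_sdiff)
  have h3 : ∑ r ∈ S', r + ∑ r ∈ S \ S', r = ∑ r ∈ S, r := by
    rw [add_comm]
    exact Finset.sum_sdiff h1
  rw [h3] at h2
  exact h2

theorem mem_sum (hO : Ord β t) (hP : Spl β t) (S : Finset (Du C)) (h : OSA β t S) (r : Du C)
    (hr : r ∈ S) (φ : Du V) (hφ : φ ∈ LX β r) : φ ∈ LX β (∑ r ∈ S, r) := by
  have h1 := le hO hP S h {r} (Finset.singleton_subset_iff.2 hr)
  rw [Finset.sum_singleton] at h1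
  exact hO.LX_le _ _ h1 hφ

theorem atom_ne (hO : Ord β t) {r : Du C} (hr : Atom β t r) : ∃ φ ∈ LX β r, φ ≠ 0 := by
  obtain ⟨φ, h1, h2⟩ := hO.ne r hr.1
  refine ⟨φ, h1, ?_⟩
  rintro rfl
  rw [LinearMap.zero_apply] at h2
  exact zero_ne_one h2

theorem union (hO : Ord β t) (hP : Spl β t) [DecidableEq (Du C)] (S S' : Finset (Du C))
    (h : OSA β t S) (h' : OSA β t S')
    (hd : DS β (∑ r ∈ S, r) (∑ r ∈ S', r)) : Disjoint S S' ∧ OSA β t (S ∪ S') := by
  rw [hP.iff] at hd
  have hD : Disjoint S S' := by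
    rw [Finset.disjoint_left]
    intro r hr hr'
    obtain ⟨φ, h1, h2⟩ := atom_ne hO (h.1 r hr)
    apply h2
    have : φ ∈ LX β (∑ r ∈ S, r) ⊓ LX β (∑ r ∈ S', r) :=
      ⟨mem_sum hO hP S h r hr φ h1, mem_sum hO hP S' h' r hr' φ h1⟩
    rw [hd] at this
    exact (Submodule.mem_bot _).1 this
  refine ⟨hD, ?_, ?_⟩
  · intro r hr
    rcases Finset.mem_union.1 hr with hr | hr
    · exact h.1 r hr
    · exact h'.1 r hr
  · intro f hf h0
    rw [Finset.sum_union hD] at h0
    have h1 : ∑ r ∈ S, f r ∈ LX β (∑ r ∈ S, r) :=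
      ((four hO hP S h).LX _).2 ⟨f, fun r hr => hf r (Finset.mem_union_left _ hr), rfl⟩
    have h2 : ∑ r ∈ S', f r ∈ LX β (∑ r ∈ S', r) :=
      ((four hO hP S' h').LX _).2 ⟨f, fun r hr => hf r (Finset.mem_union_right _ hr), rfl⟩
    have he := eq_of_add h0
    have h3 : ∑ r ∈ S, f r ∈ LX β (∑ r ∈ S, r) ⊓ LX β (∑ r ∈ S', r) :=
      ⟨h1, by rw [he]; exact h2⟩
    rw [hd, Submodule.mem_bot] at h3
    have h4 : ∑ r ∈ S', f r = 0 := by rw [← he, h3]
    intro r hr
    rcases Finset.mem_union.1 hr with hr | hr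
    · exact h.2 f (fun r hr => hf r (Finset.mem_union_left _ hr)) h3 r hr
    · exact h'.2 f (fun r hr => hf r (Finset.mem_union_right _ hr)) h4 r hr

theorem single (r : Du C) (hr : Atom β t r) : OSA β t {r} := by
  constructor
  · intro s hs
    rw [Finset.mem_singleton.1 hs]
    exact hr
  · intro f _ h0 s hs
    rw [Finset.sum_singleton] at h0
    rw [Finset.mem_singleton.1 hs]
    exact h0

theorem ins (hO : Ord β t) (hP : Spl β t) [DecidableEq (Du C)] (S : Finset (Du C))
    (h : OSA β t S) (r : Du C) (hr : Atom β t r)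
    (hd : DS β r (∑ s ∈ S, s)) : r ∉ S ∧ OSA β t (insert r S) := by
  have key := union hO hP {r} S (single r hr) h (by rw [Finset.sum_singleton]; exact hd)
  refine ⟨Finset.disjoint_singleton_left.1 key.1, ?_⟩
  rw [Finset.insert_eq]
  exact key.2

end basic

end OSB_

open OSB_ in
theorem osb_proof (hORD : Stmt_ORD) (hSPL : Stmt_SPL) : Stmt_OSB := by
  classical
  intro V X C _ _ _ _ _ _ _ _ _ β t hFR
  have hO : Ord β t := hORD V X C β t hFR
  have hP : Spl β t := hSPL V X C β t hFR
  refine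
    { empty := ?_
      single := fun r hr => single r hr
      pair := ?_
      sub := fun S h S' hs => osa_sub h hs
      KK := fun S h => (four hO hP S h).KK
      NN := fun S h => (four hO hP S h).NN
      LX := fun S h => (four hO hP S h).LX
      onto := fun S h => (four hO hP S h).onto
      le := fun S h S' hs => le hO hP S h S' hs
      ds := fun S h S' h1 S'' h2 hd => ds hO hP S h S' h1 S'' h2 hd
      ins := ?_
      union := ?_ }
  · exact ⟨fun r hr => absurd hr (Finset.notMem_empty r),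
      fun f _ _ r hr => absurd hr (Finset.notMem_empty r)⟩
  · intro r s hr hs hd
    have key := ins hO hP (S := {s}) (single s hs) r hr (by rw [Finset.sum_singleton]; exact hd)
    exact ⟨key.2, fun he => key.1 (Finset.mem_singleton.2 he)⟩
  · intro S h r hr hd
    exact ins hO hP S h r hr hd
  · intro S S' h h' hd
    exact union hO hP S S' h h' hd

end Pool.Agent.REG10
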