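import Pool.Agent.REG10.Stmts

set_option autoImplicit false

namespace Pool.Agent.REG10

open Module CommonSlot Pool.Agent.GTW
open scoped BigOperators

theorem pia_proof (_hORD : Stmt_ORD) (hSPL : Stmt_SPL) (hOSB : Stmt_OSB) (_hDIC : Stmt_DIC)
    (hFIV : Stmt_FIV) (hEIG : Stmt_EIG) : Stmt_PIA := by
  classical
  intro V X C _ _ _ _ _ _ _ _ _ β t hF S
  have hS := hSPL V X C β t hF
  have hB := hOSB V X C β t hF
  induction S using Finset.induction_on with
  | empty =>
    intro _ _
    exact hB.empty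
  | insert r S hr ih =>
    intro hat hpw
    have hOS : OSA β t S := ih (fun x hx => hat x (Finset.mem_insert_of_mem hx))
      (fun x hx y hy h => hpw x (Finset.mem_insert_of_mem hx) y (Finset.mem_insert_of_mem hy) h)
    have hrat : Atom β t r := hat r (Finset.mem_insert_self r S)
    have hnle : ¬ LE β t r (∑ x ∈ S, x) := fun h => hr (hFIV V X C β t hF S hOS r hrat h)
    have hDS : DS β r (∑ x ∈ S, x) := by
      rw [hS.iff]
      by_contra hbot
      obtain ⟨φ, hm, hφ0⟩ := Submodule.exists_mem_ne_zero_of_ne_bot hbot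
      obtain ⟨r', hr', hle', hφr', _⟩ :=
        hEIG V X C β t hF r (∑ x ∈ S, x) hrat hnle φ hm.2 hm.1 hφ0
      have hr'S : r' ∈ S := hFIV V X C β t hF S hOS r' hr' hle'
      have hEq : r = r' := hpw r (Finset.mem_insert_self r S) r' (Finset.mem_insert_of_mem hr'S)
        (Or.inr ⟨φ, hφ0, hm.1, hφr'⟩)
      exact hr (hEq ▸ hr'S)
    exact (hB.ins S hOS r hrat hDS).2

end Pool.Agent.REG10
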