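import Pool.Agent.REG10.SStmts

/-!
REG10S SBAS: basic facts on a regular element (set-valued).
-/

set_option autoImplicit false

namespace Pool.Agent.REG10

open Module CommonSlot
open Pool.Agent.Helper58.PLine (QData)
open scoped BigOperators

namespace SBAS_

section
variable {V Q : Type} [AddCommGroup V] [Module (ZMod 2) V] {S : QData V Q} {x : V}

theorem ker_le (hx : SRg S x) (u : V) (hu : S.q x u = S.z) : u ∈ SW S x :=
  mem_SW.2 fun v => hx u v hu

theorem mem (hx : SRg S x) (s : V) (h : ta S x s ∈ SC S x) : s ∈ SW S x := by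
  obtain ⟨w, hw, he⟩ := mem_SC.1 h
  have h1 : S.q x (s + w) = S.z := by
    rw [← ta_eq_zero, map_add, he, ZModModule.add_self]
  have h2 := ker_le hx _ h1
  have h3 : s = (s + w) + w := by rw [add_assoc, ZModModule.add_self, add_zero]
  rw [h3]
  exact (SW S x).add_mem h2 hw

theorem b (hS : Stmt_SSTR) (he : S.e = 0) (hx : SRg S x) (w v z : V)
    (h1 : S.q (x + w) v = S.z) (h2 : S.q w z = S.z) : InQ S x v z := by
  have h : S.q x v = S.q w v := Pool.Agent.ETCP.q_eq' h1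
  obtain ⟨a, g, ha, hg, hag⟩ := hS V Q S he x v w v z h h2
  rw [add_comm z a, add_comm v g] at hag
  have i1 : InQ S x (a + z) (g + v) := inq_of_zero hag
  have i2 : InQ S x a (g + v) := hx a _ ha
  have i3 : InQ S x z (g + v) := InQ.of_add_left i1 i2
  have i4 : InQ S x z g := (hx g z hg).symm
  exact (InQ.of_add i3 i4).symm

theorem c (hS : Stmt_SSTR) (he : S.e = 0) (hx : SRg S x) (w : V) (hw : w ∈ SW S x) (w' : V)
    (hw' : w' ∈ SW S x) : vl S x w w' ∈ SC S x := by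
  obtain ⟨z, hz1, hz2⟩ := (SW_in hw w').link_x
  have hzx : S.q (x + w) z = S.z := Pool.Agent.ETCP.q_eq'_iff.1 (hz2.trans hz1.symm)
  have hzw : S.q w (w' + z) = S.z := Pool.Agent.ETCP.q_eq_iff.1 hz1.symm
  refine mem_SC.2 ⟨z, mem_SW.2 fun v => ?_, (vl_eq hz2.symm).symm⟩
  obtain ⟨s, hs1, hs2⟩ := (SW_in hw v).link_x
  have hsx : S.q (x + w) s = S.z := Pool.Agent.ETCP.q_eq'_iff.1 (hs2.trans hs1.symm)
  have hsw : S.q w (s + v) = S.z := Pool.Agent.ETCP.q_eq_iff.1 hs1
  have j1 : InQ S x z (s + v) := b hS he hx w z (s + v) hzx hsw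
  have j2 : InQ S x s (w' + z) := b hS he hx w s (w' + z) hsx hzw
  have j3 : InQ S x s w' := (SW_in hw' s).symm
  have j4 : InQ S x s z := InQ.of_add j2 j3
  exact InQ.of_add j1 j4.symm

end

end SBAS_

theorem sbas_proof (hSSTR : Stmt_SSTR) : Stmt_SBAS := by
  intro V Q _ _ S x he hx
  refine ⟨?_, ?_, ?_, ?_, ?_, ?_, ?_⟩
  · exact fun u hu => SBAS_.ker_le hx u hu
  · exact mem_SW.2 fun v => inq_x v
  · exact fun s hs => SBAS_.mem hx s hs
  · exact fun w hw v => (SW_in hw v).link_x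
  · exact fun w _ v z h1 h2 => SBAS_.b hSSTR he hx w v z h1 h2
  · exact fun w hw w' hw' => SBAS_.c hSSTR he hx w hw w' hw'
  · intro C' hC a ha v
    obtain ⟨s, hs1, hs2⟩ := (ha v).1.link_x
    refine ⟨s, SBAS_.mem hx s ?_, hs1⟩
    rw [← vl_eq hs2.symm]
    exact hC (ha v).2

end Pool.Agent.REG10
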