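import Pool.Agent.REG10.SStmts

set_option autoImplicit false

namespace Pool.Agent.REG10

open Module CommonSlot
open Pool.Agent.Helper58.PLine (QData)
open scoped BigOperators

theorem schd_proof (hSCHW : Stmt_SCHW) : Stmt_SCHD := by
  intro V Q _ _ _ S x he hR _ hW
  obtain ⟨k, ⟨C⟩⟩ := hSCHW V Q S x he hR
  have hU : ∀ u, S.q x u = S.z → u ∈ SW S x := fun u hu => mem_SW.2 fun v => hR u v hu
  have hC : ∀ c ∈ SC S x, c = 0 := by
    rintro c hc
    obtain ⟨w, hw, rfl⟩ := mem_SC.1 hc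
    exact ta_eq_zero.2 (hW w hw)
  let χ' : Fin k → (V →ₗ[ZMod 2] ZMod 2) := fun i =>
    (C.χ i).comp (LinearMap.id + ∑ j, C.P j)
  have hχ : ∀ i v, χ' i v = C.χ i (v + ∑ j, C.P j v) := by
    intro i v
    simp only [χ', LinearMap.comp_apply, LinearMap.add_apply, LinearMap.id_apply,
      LinearMap.sum_apply]
  have hχW : ∀ i, ∀ w ∈ SW S x, χ' i w = C.χ i w := by
    intro i w hw
    rw [hχ, Finset.sum_eq_zero fun j _ => C.PW j w hw, add_zero]
  refine ⟨k, ⟨⟨C.P, χ', C.PP, C.orth, ?_, ?_, ?_, ?_, ?_, C.ne⟩⟩⟩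
  · intro v
    exact hW _ (C.sumW v)
  · intro i u hu
    exact C.PW i u (hU u hu)
  · intro i j v
    rw [hχ]
    have h1 : ∑ l, C.P l (C.P j v) = C.P j v := by
      rw [Finset.sum_eq_single j (fun l _ hl => C.orth l j hl v)
        (fun h => absurd (Finset.mem_univ j) h), C.PP]
    rw [h1, ZModModule.add_self, map_zero]
  · intro i u v hu
    have huW := hU u hu
    have h1 := hC _ (C.eig i u huW v)
    obtain ⟨z, hz, hz'⟩ := (SW_in huW (C.P i v)).exists
    rw [hz', ← map_smul, ← map_add] at h1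
    have h2 : ta S x z = ta S x (C.χ i u • C.P i v) := by
      have h3 := h1
      rw [map_add] at h3
      have h4 := congrArg (fun t => t + ta S x (C.χ i u • C.P i v)) h3
      rw [add_assoc, ZModModule.add_self, add_zero, zero_add] at h4
      exact h4
    rw [hz, hχW i u huW]
    exact ta_eq_iff.1 h2
  · intro i j hij
    obtain ⟨w, hw, h1, h2⟩ := C.sep i j hij
    exact ⟨w, hW w hw, by rw [hχW i w hw, h1], by rw [hχW j w hw, h2]⟩

end Pool.Agent.REG10
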