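import Pool.Agent.REG10.SStmts
import Pool.Agent.REG10.CHW

/-! SCHW: decomposition of `V / W` by characters, set-valued (adapted from `REG10/CHW.lean`). -/

set_option autoImplicit false

namespace Pool.Agent.REG10

open Module CommonSlot
open Pool.Agent.Helper58.PLine (QData)
open scoped BigOperators

open CHW_ in
theorem schw_proof (hSBAS : Stmt_SBAS) : Stmt_SCHW := by
  intro V Q' _ _ _ S x he0 hR
  classical
  have hB := hSBAS V Q' S x he0 hR
  set W := SW S x with hW
  set C := SC S x with hC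
  let B : Type := BX S x
  let T := V ⧸ W
  let mk : V →ₗ[ZMod 2] T := W.mkQ
  let pC : B →ₗ[ZMod 2] (B ⧸ C) := C.mkQ
  let qx : V →ₗ[ZMod 2] B := ta S x
  -- the maps `v ↦ q(w, v)`, `w ∈ W`
  let qw : W → (V →ₗ[ZMod 2] B) := fun w =>
    { toFun := fun v => vl S x w v
      map_add' := fun v v' => SW_vl_add w.2 v v'
      map_smul' := fun c v => vl_smul c }
  have pC0 : ∀ b, pC b = 0 ↔ b ∈ C := fun b => by
    rw [← LinearMap.mem_ker, Submodule.ker_mkQ]
  have mk0 : ∀ v, mk v = 0 ↔ v ∈ W := fun v => by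
    rw [← LinearMap.mem_ker, Submodule.ker_mkQ]
  have hker : LinearMap.ker (pC.comp qx) = W := by
    ext v
    rw [LinearMap.mem_ker, LinearMap.comp_apply, pC0]
    constructor
    · intro h; exact hB.mem v h
    · intro h; exact ⟨v, h, rfl⟩
  -- `τ`
  let τ : T →ₗ[ZMod 2] (B ⧸ C) := W.liftQ (pC.comp qx) hker.ge
  have hτ : ∀ v, τ (mk v) = pC (qx v) := fun v => W.liftQ_apply (pC.comp qx) v
  have τinj : Function.Injective τ := by
    rw [← LinearMap.ker_eq_bot]
    exact Submodule.ker_liftQ_eq_bot _ _ _ hker.le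
  have mksurj : Function.Surjective mk := W.mkQ_surjective
  -- the operators
  have hE : ∀ u : W, ∃ E : T →ₗ[ZMod 2] T, ∀ v, τ (E (mk v)) = pC (qw u v) := by
    intro u
    have h1 : ∀ v, (pC.comp (qw u)) v ∈ LinearMap.range τ := by
      intro v
      obtain ⟨s, _, hs⟩ := hB.a u u.2 v
      refine ⟨mk s, ?_⟩
      rw [hτ]
      show pC (ta S x s) = pC (vl S x u v)
      rw [vl_eq hs.symm]
    let f : V →ₗ[ZMod 2] LinearMap.range τ := (pC.comp (qw u)).codRestrict _ h1
    have hf : W ≤ LinearMap.ker f := by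
      intro w hw
      rw [LinearMap.mem_ker]
      apply Subtype.ext
      exact (pC0 _).2 (hB.c u u.2 w hw)
    let g : T →ₗ[ZMod 2] LinearMap.range τ := W.liftQ f hf
    refine ⟨(LinearEquiv.ofInjective τ τinj).symm.toLinearMap.comp g, ?_⟩
    intro v
    have h2 : ∀ y : LinearMap.range τ, τ ((LinearEquiv.ofInjective τ τinj).symm y) = y := by
      intro y
      have := (LinearEquiv.ofInjective τ τinj).apply_symm_apply y
      exact congrArg Subtype.val this
    rw [LinearMap.comp_apply]
    exact (h2 _).trans rfl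
  choose E hE using hE
  have ext : ∀ F G : T →ₗ[ZMod 2] T, (∀ v, τ (F (mk v)) = τ (G (mk v))) → F = G := by
    intro F G h
    ext v
    exact τinj (h v)
  have Eadd : ∀ u u', E (u + u') = E u + E u' := by
    intro u u'
    apply ext
    intro v
    rw [hE, LinearMap.add_apply, map_add, hE, hE, ← map_add]
    show pC (vl S x ((u : V) + u') v) = pC (vl S x u v + vl S x u' v)
    rw [SW_vl_add_left u.2 u'.2]
  have Eidem : ∀ u, E u * E u = E u := by
    intro u
    apply ext
    intro v
    obtain ⟨s, hs1, hs2⟩ := hB.a u u.2 v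
    have h0 : qw u v = qx s := vl_eq hs2.symm
    have h0' : qw u s = qx s := by
      show vl S x u s = ta S x s
      exact vl_eq (hs1.trans hs2.symm)
    have h1 : E u (mk v) = mk s := by
      apply τinj
      rw [hE, hτ, h0]
    rw [Module.End.mul_apply, h1, hE, hτ, h0']
  have Ecomm : ∀ u u', E u * E u' = E u' * E u := by
    intro u u'
    have h1 := Eidem (u + u')
    rw [Eadd] at h1
    have h2 : (E u + E u') * (E u + E u') = E u + E u' + (E u * E u' + E u' * E u) := by
      rw [mul_add, add_mul, add_mul, Eidem, Eidem]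
      abel
    rw [h2] at h1
    have h3 : E u * E u' + E u' * E u = 0 := by
      have := add_left_cancel (h1.trans (add_zero (E u + E u')).symm)
      exact this
    have h4 : ∀ A A' : T →ₗ[ZMod 2] T, A + A' = 0 → A = A' := by
      intro A A' h
      ext t
      have := congrArg (fun F => F (mk t)) h
      exact eq_of_add_eq_zero' this
    exact h4 _ _ h3
  -- the commutative ring
  let xU : W := ⟨x, hB.self⟩
  let A := Algebra.adjoin (ZMod 2) (Set.range E)
  have hcomm : ∀ a ∈ Set.range E, ∀ b ∈ Set.range E, a * b = b * a := by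
    rintro _ ⟨u, rfl⟩ _ ⟨u', rfl⟩
    exact Ecomm u u'
  let _ : CommRing A := Algebra.adjoinCommRingOfComm (ZMod 2) hcomm
  let e : W → A := fun u => ⟨E u, Algebra.subset_adjoin ⟨u, rfl⟩⟩
  have he : ∀ u, e u * e u = e u := fun u => Subtype.ext (Eidem u)
  let _ : Fintype W := Fintype.ofFinite W
  let Q : (W → ZMod 2) → (T →ₗ[ZMod 2] T) := fun χ => (Pr e χ : A)
  have Qmul : ∀ χ u t, E u (Q χ t) = χ u • Q χ t := by
    intro χ u t
    have h1 := congrArg (fun a : A => (a : T →ₗ[ZMod 2] T) t) (Pr_mul e he χ u)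
    have h2 : ((e u * Pr e χ : A) : T →ₗ[ZMod 2] T) t = E u (Q χ t) := rfl
    have h3 : ((algebraMap (ZMod 2) A (χ u) * Pr e χ : A) : T →ₗ[ZMod 2] T) t =
        χ u • Q χ t := by
      rcases zm (χ u) with h | h
      · rw [h, map_zero, zero_mul, zero_smul]; rfl
      · rw [h, map_one, one_mul, one_smul]
    rw [← h2, ← h3]
    exact h1
  have Qne : ∀ χ χ', χ ≠ χ' → ∀ t, Q χ (Q χ' t) = 0 := by
    intro χ χ' h t
    have h1 := congrArg (fun a : A => (a : T →ₗ[ZMod 2] T) t) (Pr_ne e he χ χ' h)
    exact h1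
  have Qsq : ∀ χ t, Q χ (Q χ t) = Q χ t := by
    intro χ t
    have h1 := congrArg (fun a : A => (a : T →ₗ[ZMod 2] T) t) (Pr_sq e he χ)
    exact h1
  have Qsum : ∀ t, ∑ χ, Q χ t = t := by
    intro t
    have h1 := congrArg (fun a : A => (a : T →ₗ[ZMod 2] T) t) (Pr_sum e)
    have h2 : ((∑ χ, Pr e χ : A) : T →ₗ[ZMod 2] T) t = ∑ χ, Q χ t := by
      rw [AddSubmonoidClass.coe_finsetSum, LinearMap.sum_apply]
    rw [← h2]
    exact h1
  -- the index set
  let I : Type := {χ : W → ZMod 2 // Q χ ≠ 0}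
  let eq : Fin (Fintype.card I) ≃ I := (Fintype.equivFin I).symm
  have chadd : ∀ χ : I, ∀ u u', χ.1 (u + u') = χ.1 u + χ.1 u' := by
    rintro ⟨χ, hχ⟩ u u'
    obtain ⟨t, ht⟩ : ∃ t, Q χ t ≠ 0 := by
      by_contra h
      push Not at h
      exact hχ (LinearMap.ext h)
    have h1 : (χ (u + u') + (χ u + χ u')) • Q χ t = 0 := by
      rw [add_smul, add_smul, ← Qmul, ← Qmul, ← Qmul, Eadd, LinearMap.add_apply]
      exact ZModModule.add_self _
    rcases zm (χ (u + u') + (χ u + χ u')) with h | h
    · exact eq_of_add_eq_zero' h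
    · rw [h, one_smul] at h1
      exact absurd h1 ht
  have chx : ∀ χ : I, χ.1 xU = 1 := by
    rintro ⟨χ, hχ⟩
    obtain ⟨t, ht⟩ : ∃ t, Q χ t ≠ 0 := by
      by_contra h
      push Not at h
      exact hχ (LinearMap.ext h)
    have h1 : ∀ t, E xU t = t := by
      intro t
      obtain ⟨v, rfl⟩ := mksurj t
      apply τinj
      rw [hE, hτ]
      show pC (vl S x x v) = pC (ta S x v)
      rw [vl_x]
    have h2 := Qmul χ xU t
    rw [h1] at h2
    rcases zm (χ xU) with h | h
    · rw [h, zero_smul] at h2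
      exact absurd h2 ht
    · exact h
  -- section
  obtain ⟨s, hs⟩ := LinearMap.exists_rightInverse_of_surjective mk
    (LinearMap.range_eq_top.2 mksurj)
  have hs' : ∀ t, mk (s t) = t := fun t => congrArg (fun F => F t) hs
  let pU : V →ₗ[ZMod 2] W := (LinearMap.id + s.comp mk).codRestrict W (by
    intro v
    have h0 : (LinearMap.id + s.comp mk : V →ₗ[ZMod 2] V) v ∈ W := by
      rw [← mk0, LinearMap.add_apply, map_add, LinearMap.comp_apply, hs', LinearMap.id_apply]
      exact ZModModule.add_self _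
    exact h0)
  have pUu : ∀ u (hu : u ∈ W), pU u = ⟨u, hu⟩ := by
    intro u hu
    apply Subtype.ext
    show u + s (mk u) = u
    rw [(mk0 u).2 hu, map_zero, add_zero]
  let ch : I → (W →ₗ[ZMod 2] ZMod 2) := fun χ =>
    { toFun := χ.1
      map_add' := chadd χ
      map_smul' := by
        intro c u
        rcases zm c with h | h
        · rw [h, zero_smul, RingHom.id_apply, zero_smul]
          have := chadd χ 0 0
          rw [add_zero, zz] at this
          exact this
        · rw [h, one_smul, RingHom.id_apply, one_smul] }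
  refine ⟨Fintype.card I, ⟨{
    P := fun i => s.comp ((Q (eq i).1).comp mk)
    χ := fun i => (ch (eq i)).comp pU
    PP := ?_
    orth := ?_
    sumW := ?_
    PW := ?_
    eig := ?_
    sep := ?_
    ne := ?_ }⟩⟩
  · intro i v
    simp only [LinearMap.comp_apply]
    rw [hs', Qsq]
  · intro i j h v
    simp only [LinearMap.comp_apply]
    rw [hs', Qne _ _ (fun h' => h (eq.injective (Subtype.ext h'))), map_zero]
  · intro v
    rw [← hW, ← mk0, map_add, map_sum]
    simp only [LinearMap.comp_apply, hs']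
    have h1 : ∑ i, Q (eq i).1 (mk v) = mk v := by
      rw [Equiv.sum_comp eq (fun χ : I => Q χ.1 (mk v))]
      have h2 : ∑ χ : I, Q χ.1 (mk v) = ∑ χ ∈ Finset.univ.filter (fun χ => Q χ ≠ 0),
          Q χ (mk v) := by
        symm
        exact Finset.sum_subtype _ (by intro χ; simp) (fun χ => Q χ (mk v))
      rw [h2, Finset.sum_filter_of_ne]
      · exact Qsum _
      · intro χ _ h h'
        rw [h'] at h
        exact h rfl
    rw [h1]
    exact ZModModule.add_self _
  · intro i u hu
    simp only [LinearMap.comp_apply]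
    rw [(mk0 u).2 hu, map_zero, map_zero]
  · intro i u hu v
    rw [← hC, ← pC0, map_add, map_smul]
    simp only [LinearMap.comp_apply]
    have e1 : pC (ta S x (s (Q (eq i).1 (mk v)))) = τ (Q (eq i).1 (mk v)) := by
      rw [← hs' (Q (eq i).1 (mk v)), hτ, hs']
    have e2 : pC (vl S x u (s (Q (eq i).1 (mk v)))) =
        τ (E ⟨u, hu⟩ (Q (eq i).1 (mk v))) := by
      rw [← hs' (Q (eq i).1 (mk v)), hE, hs']
      rfl
    rw [pUu u hu, e1, e2, Qmul, map_smul]
    exact ZModModule.add_self _
  · intro i j hij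
    have h1 : (eq i).1 ≠ (eq j).1 := fun h' => hij (eq.injective (Subtype.ext h'))
    obtain ⟨u, hu⟩ := Function.ne_iff.1 h1
    have key : ∃ u : W, (eq i).1 u = 1 ∧ (eq j).1 u = 0 := by
      rcases zm ((eq i).1 u) with a | a <;> rcases zm ((eq j).1 u) with b | b
      · exact absurd (a.trans b.symm) hu
      · refine ⟨u + xU, ?_, ?_⟩
        · rw [chadd, a, chx]; decide
        · rw [chadd, b, chx]; decide
      · exact ⟨u, a, b⟩
      · exact absurd (a.trans b.symm) hu
    obtain ⟨u, hu1, hu2⟩ := key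
    refine ⟨u, u.2, ?_, ?_⟩
    · rw [LinearMap.comp_apply, pUu u u.2]
      exact hu1
    · rw [LinearMap.comp_apply, pUu u u.2]
      exact hu2
  · intro i
    have hne := (eq i).2
    obtain ⟨t, ht⟩ : ∃ t, Q (eq i).1 t ≠ 0 := by
      by_contra h
      push Not at h
      exact hne (LinearMap.ext h)
    obtain ⟨v, rfl⟩ := mksurj t
    refine ⟨v, ?_⟩
    intro h
    apply ht
    have h1 : s (Q (eq i).1 (mk v)) = 0 := h
    rw [← hs' (Q (eq i).1 (mk v)), h1, map_zero]

end Pool.Agent.REG10
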