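import Pool.Agent.REG10.SStmts

/-!
REG10, module SCLO: the set of the vectors `(χ_i(u))_i` is closed under products, set-valued.
-/

set_option autoImplicit false

namespace Pool.Agent.REG10

open Module CommonSlot
open Pool.Agent.Helper58.PLine (QData)
open scoped BigOperators

namespace SCLO_

section
variable {V Q : Type} [AddCommGroup V] [Module (ZMod 2) V] {S : QData V Q} {x : V} {k : ℕ}

theorem eo' {M : Type} [AddCommGroup M] [Module (ZMod 2) M] {a b : M} (h : a + b = 0) : a = b :=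
  Pool.Agent.ETCP.eo h

/-- `q u v = q x (Σ χ_i(u) P_i v)` for `u ∈ V_x` -/
theorem q_u (hiso : SIso S x) (C : SCD S x k) {u : V} (hu : S.q x u = S.z) (v : V) :
    S.q u v = S.q x (∑ i, C.χ i u • C.P i v) := by
  have h1 : S.q u (v + ∑ i, C.P i v) = S.z := hiso _ _ hu (C.sumU v)
  have h2 : S.q u v = S.q u (∑ i, C.P i v) := Pool.Agent.ETCP.q_eq h1
  have h3 : ∀ i, InQ S x u (C.P i v) := fun i => ⟨_, C.eig i u v hu⟩
  have h4 : InQ S x u (∑ i, C.P i v) := inq_sum _ _ _ fun i _ => h3 i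
  have h5 : vl S x u (∑ i, C.P i v) = ta S x (∑ i, C.χ i u • C.P i v) := by
    rw [vl_sum _ _ _ fun i _ => h3 i, map_sum]
    exact Finset.sum_congr rfl fun i _ => vl_eq (C.eig i u v hu)
  obtain ⟨z, hz, hz'⟩ := h4.exists
  rw [h2, hz, ← ta_eq_iff, ← hz', h5]

theorem P_sum (C : SCD S x k) (c : Fin k → ZMod 2) (v : V) (j : Fin k) :
    C.P j (∑ l, c l • C.P l v) = c j • C.P j v := by
  rw [map_sum, Finset.sum_eq_single j]
  · rw [map_smul, C.PP]
  · intro i _ hij
    rw [map_smul, C.orth j i (Ne.symm hij), smul_zero]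
  · intro hj
    exact absurd (Finset.mem_univ j) hj

/-- a vector with all components different from zero -/
theorem exists_full (C : SCD S x k) : ∃ v, ∀ i, C.P i v ≠ 0 := by
  choose v hv using C.ne
  refine ⟨∑ i, C.P i (v i), fun j h => hv j ?_⟩
  rw [map_sum, Finset.sum_eq_single j] at h
  · rw [C.PP] at h
    exact h
  · intro i _ hij
    rw [C.orth j i (Ne.symm hij)]
  · intro hj
    exact absurd (Finset.mem_univ j) hj

theorem indep (C : SCD S x k) {v : V} (hv : ∀ i, C.P i v ≠ 0) (a b : Fin k → ZMod 2)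
    (h : ta S x (∑ i, a i • C.P i v) = ta S x (∑ i, b i • C.P i v)) (j : Fin k) :
    a j = b j := by
  have h1 : ta S x (∑ i, (a i + b i) • C.P i v) = 0 := by
    have : ∑ i, (a i + b i) • C.P i v = ∑ i, a i • C.P i v + ∑ i, b i • C.P i v := by
      rw [← Finset.sum_add_distrib]
      exact Finset.sum_congr rfl fun i _ => add_smul _ _ _
    rw [this, map_add, h, ZModModule.add_self]
  have h2 := C.PU j _ (ta_eq_zero.1 h1)
  rw [P_sum C (fun i => a i + b i)] at h2
  rcases smul_eq_zero.1 h2 with h3 | h3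
  · exact eo' h3
  · exact absurd h3 (hv j)

/-- the basic construction -/
theorem basic (hiso : SIso S x) (C : SCD S x k) {v u : V} (hu : S.q x u = S.z) :
    ∃ u₁, S.q x u₁ = S.z ∧ InQ S x v (∑ i, C.χ i u • C.P i v) ∧
      ta S x (∑ i, C.χ i u₁ • C.P i v) =
      vl S x v (∑ i, C.χ i u • C.P i v) + ta S x (∑ i, C.χ i u • C.P i v) := by
  have hc : S.q v u = S.q x (∑ i, C.χ i u • C.P i v) := by
    rw [S.symm, q_u hiso C hu]
  obtain ⟨s, hs1, hs2⟩ := qlink hc
  generalize (∑ i, C.χ i u • C.P i v) = z₀ at hc hs2 ⊢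
  have hU : S.q x (s + z₀) = S.z := by
    rw [← Pool.Agent.ETCP.q_eq_iff.1 (show S.q x s = S.q x z₀ by rw [hs2, hc])]
  have hq := q_u hiso C hU v
  have i1 : InQ S x v s := ⟨z₀, by rw [hs1, hc]⟩
  have i2 : InQ S x v (s + z₀) := InQ.symm ⟨_, hq⟩
  have i3 : InQ S x v z₀ := i2.of_add i1
  refine ⟨s + z₀, hU, i3, ?_⟩
  have h1 : vl S x v s = ta S x z₀ := vl_eq (by rw [hs1, hc])
  have h2 : vl S x v (s + z₀) = vl S x v s + vl S x v z₀ := vl_add i1 i3
  have h3 : vl S x v (s + z₀) = ta S x (∑ i, C.χ i (s + z₀) • C.P i v) := by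
    rw [vl_symm i2]
    exact vl_eq hq
  rw [← h3, h2, h1, add_comm]

end

end SCLO_

open SCLO_ in
theorem sclo_proof (_hSSCA : Stmt_SSCA) : Stmt_SCLO := by
  intro V Q _ _ _ S x k he hrg hiso C u w hu hw
  obtain ⟨v, hv⟩ := exists_full C
  obtain ⟨u₁, hu₁, i1, h1⟩ := basic hiso C (v := v) hu
  obtain ⟨u₂, hu₂, i2, h2⟩ := basic hiso C (v := v + w) hu
  have hP : ∀ i, C.P i (v + w) = C.P i v := fun i => by
    rw [map_add, C.PU i w hw, add_zero]
  simp only [hP] at h2 i2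
  refine ⟨u₁ + u₂, Pool.Agent.ETCP.C.add hu₁ hu₂, ?_⟩
  apply indep C hv (fun i => C.χ i (u₁ + u₂)) (fun i => C.χ i u * C.χ i w)
  have h3 : ta S x (∑ i, C.χ i (u₁ + u₂) • C.P i v) =
      ta S x (∑ i, C.χ i u₁ • C.P i v) + ta S x (∑ i, C.χ i u₂ • C.P i v) := by
    rw [← map_add, ← Finset.sum_add_distrib]
    congr 1
    exact Finset.sum_congr rfl fun i _ => by rw [map_add, add_smul]
  have h5 : S.q w (∑ i, C.χ i u • C.P i v) =
      S.q x (∑ i, C.χ i w • C.P i (∑ l, C.χ l u • C.P l v)) := q_u hiso C hw _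
  have h4 : ∑ i, C.χ i w • C.P i (∑ l, C.χ l u • C.P l v) =
      ∑ i, (C.χ i u * C.χ i w) • C.P i v :=
    Finset.sum_congr rfl fun i _ => by
      rw [P_sum C (fun l => C.χ l u), smul_smul, mul_comm]
  rw [h4] at h5
  have i4 : InQ S x w (∑ i, C.χ i u • C.P i v) := ⟨_, h5⟩
  have h6 : vl S x (v + w) (∑ i, C.χ i u • C.P i v) =
      vl S x v (∑ i, C.χ i u • C.P i v) + vl S x w (∑ i, C.χ i u • C.P i v) :=
    vl_add_left i1 i4
  rw [h3, h1, h2, h6, vl_eq h5]
  generalize vl S x v (∑ i, C.χ i u • C.P i v) = A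
  generalize ta S x (∑ i, C.χ i u • C.P i v) = D
  generalize ta S x (∑ i, (C.χ i u * C.χ i w) • C.P i v) = E
  have hA := ZModModule.add_self A
  have hD := ZModModule.add_self D
  calc A + D + (A + E + D) = (A + A) + (D + D) + E := by abel
    _ = E := by rw [hA, hD, zero_add, zero_add]

end Pool.Agent.REG10
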