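import Pool.Agent.REG10.SStmts

/-!
REG10 SCMP: values inside one component (set-valued).
-/

set_option autoImplicit false

namespace Pool.Agent.REG10

open Module CommonSlot
open Pool.Agent.Helper58.PLine (QData)
open scoped BigOperators

namespace SCMP_

theorem eq_of_add {M : Type} [AddCommGroup M] [Module (ZMod 2) M] {a b : M} (h : a + b = 0) :
    a = b := by
  have h2 : a + b + b = b := by rw [h, zero_add]
  rwa [add_assoc, ZModModule.add_self, add_zero] at h2

variable {V Q : Type} [AddCommGroup V] [Module (ZMod 2) V] {S : QData V Q} {x : V} {k : ℕ}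

/-- for `u ∈ V_x`: `q(u, P_i v)` is `χ_i(u) τ(P_i v)` -/
theorem inq_P (C : SCD S x k) {u : V} (hu : S.q x u = S.z) (i : Fin k) (v : V) :
    InQ S x u (C.P i v) := ⟨_, C.eig i u v hu⟩

theorem vl_P (C : SCD S x k) {u : V} (hu : S.q x u = S.z) (i : Fin k) (v : V) :
    vl S x u (C.P i v) = C.χ i u • ta S x (C.P i v) := by
  rw [vl_eq (C.eig i u v hu), map_smul]

/-- `q u v = Σ χ_i(u) τ(P_i v)` for `u ∈ V_x` -/
theorem vl_u (hrg : SRg S x) (hiso : SIso S x) (C : SCD S x k) {u : V} (hu : S.q x u = S.z)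
    (v : V) : vl S x u v = ∑ i, C.χ i u • ta S x (C.P i v) := by
  have h0 : vl S x u (v + ∑ i, C.P i v) = 0 := vl_of_zero (hiso _ _ hu (C.sumU v))
  have hI : InQ S x u (∑ i, C.P i v) := hrg _ _ hu
  rw [vl_add (hrg _ _ hu) hI, vl_sum _ _ _ fun i _ => hrg _ _ hu] at h0
  rw [eq_of_add h0]
  exact Finset.sum_congr rfl fun i _ => vl_P C hu i v

/-- `τ v = Σ τ(P_i v)` -/
theorem tau_sum (C : SCD S x k) (v : V) : ta S x v = ∑ i, ta S x (C.P i v) := by
  have h1 : ta S x (v + ∑ i, C.P i v) = 0 := ta_eq_zero.2 (C.sumU v)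
  rw [map_add, map_sum] at h1
  exact eq_of_add h1

theorem q_xx (he : S.e = 0) : S.q x x = S.z := Pool.Agent.ETCP.C.self he x

/-- `χ_i(x) τ(P_i v) = τ(P_i v)` -/
theorem chi_x (he : S.e = 0) (C : SCD S x k) (i : Fin k) (v : V) :
    C.χ i x • ta S x (C.P i v) = ta S x (C.P i v) := by
  rw [← vl_P C (q_xx he) i v, vl_x]

end SCMP_

open SCMP_ in
theorem scmp_proof : Stmt_SCMP := by
  intro V Q _ _ _ S x k he hrg hiso C i y y' z hz
  -- `u` with `q (P y) u = c = q x u`
  obtain ⟨u, hu1, hu2⟩ := qlink hz.symm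
  have hIy : InQ S x (C.P i y) (C.P i y') := ⟨z, hz.symm⟩
  have hyv : vl S x (C.P i y) (C.P i y') = ta S x z := vl_eq hz.symm
  have hIu : InQ S x (C.P i y) u := ⟨z, by rw [hu1, hz]⟩
  have hyu : vl S x (C.P i y) u = ta S x z := vl_eq (by rw [hu1, hz])
  have hxu : ta S x u = ta S x z := ta_eq_iff.2 (by rw [hu2, hz])
  -- `τ (P_j u) = 0` for `j ≠ i`
  have key : ∀ j, j ≠ i → ta S x (C.P j u) = 0 := by
    intro j hji
    obtain ⟨w, hw, hwi, hwj⟩ := C.sep i j (Ne.symm hji)
    have hxw : S.q x (x + w) = S.z := by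
      rw [← ta_eq_zero, map_add, ta_eq_zero.2 (q_xx he), ta_eq_zero.2 hw, add_zero]
    -- `q (P y + (x + w)) (P y') = q x z`
    have hI1 : InQ S x (x + w) (C.P i y') := hrg _ _ hxw
    have h1 : S.q (C.P i y + (x + w)) (C.P i y') = S.q x z := by
      rw [← vl_inj (hIy.add_left hI1) (inq_x z), vl_x, vl_add_left hIy hI1,
        vl_add_left (inq_x _) (inq_P C hw i y'), vl_x, vl_P C hw i y', hwi, one_smul,
        ZModModule.add_self, add_zero, hyv]
    obtain ⟨u', hu1', hu2'⟩ := qlink h1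
    rw [h1] at hu1' hu2'
    have hxu' : ta S x u' = ta S x z := ta_eq_iff.2 hu2'
    -- `u + u' ∈ V_x`
    have hu0 : S.q x (u + u') = S.z := by
      rw [← ta_eq_zero, map_add, hxu, hxu', ZModModule.add_self]
    have hI2 : InQ S x (x + w) u' := hrg _ _ hxw
    have hI3 : InQ S x (x + w) u := hrg _ _ hxw
    have hI4 : InQ S x (C.P i y + (x + w)) u' := ⟨z, hu1'⟩
    have hI5 : InQ S x (C.P i y) u' := by
      rw [add_comm] at hI4
      exact hI4.of_add_left hI2
    have e2 : vl S x (x + w) u = vl S x (x + w) u' := by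
      have h0 : vl S x (x + w) (u + u') = 0 := vl_of_zero (hiso _ _ hxw hu0)
      rw [vl_add hI3 hI2] at h0
      exact eq_of_add h0
    have e3 : vl S x (C.P i y) u' + vl S x (x + w) u' = ta S x z := by
      rw [← vl_add_left hI5 hI2, vl_eq hu1']
    have e1 : vl S x (x + w) u = vl S x (C.P i y) (u + u') := by
      rw [vl_add hIu hI5, hyu, ← e3, e2, add_comm (vl S x (C.P i y) u') (vl S x (x + w) u'),
        add_assoc, ZModModule.add_self, add_zero]
    have e5 : vl S x (C.P i y) (u + u') = C.χ i (u + u') • ta S x (C.P i y) := by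
      rw [← vl_P C hu0 i y, vl_symm (inq_P C hu0 i y)]
    have e6 : vl S x (x + w) u = ∑ l, (C.χ l x + C.χ l w) • ta S x (C.P l u) := by
      rw [vl_u hrg hiso C hxw u]
      exact Finset.sum_congr rfl fun l _ => by rw [map_add]
    have e7 : S.q x (∑ l, (C.χ l x + C.χ l w) • C.P l u + C.χ i (u + u') • C.P i y) = S.z := by
      rw [← ta_eq_zero, map_add, map_sum, map_smul, ← e5, ← e1, e6]
      have : ∑ l, ta S x ((C.χ l x + C.χ l w) • C.P l u) =
          ∑ l, (C.χ l x + C.χ l w) • ta S x (C.P l u) :=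
        Finset.sum_congr rfl fun l _ => by rw [map_smul]
      rw [this, ZModModule.add_self]
    have e8 := C.PU j _ e7
    rw [map_add, map_sum, map_smul, C.orth j i hji, smul_zero, add_zero,
      Finset.sum_eq_single j] at e8
    · rw [map_smul, C.PP, hwj, add_zero] at e8
      have e9 := congrArg (ta S x) e8
      rw [map_smul, map_zero, chi_x he] at e9
      exact e9
    · intro l _ hlj
      rw [map_smul, C.orth j l (Ne.symm hlj), smul_zero]
    · intro hj
      exact absurd (Finset.mem_univ j) hj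
  refine ⟨u, ?_⟩
  rw [← hz]
  apply ta_eq_iff.1
  rw [← hxu, tau_sum C u, Finset.sum_eq_single i]
  · intro l _ hli
    exact key l hli
  · intro hi
    exact absurd (Finset.mem_univ i) hi

end Pool.Agent.REG10
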