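import Pool.Agent.REG10.SStmts

/-!
REG10, module SDGR: the elements represented by a 2-fold Pfister form, set-valued.
-/

set_option autoImplicit false

namespace Pool.Agent.REG10

open Module CommonSlot
open Pool.Agent.Helper58.PLine (QData)
open scoped BigOperators

namespace SDGR_

open Pool.Agent.ETCP (C q_eq q_eq')

variable {V Q : Type} [AddCommGroup V] [Module (ZMod 2) V]

/-- `z` is represented by the ternary form -/
def D (S : QData V Q) (z a b : V) : Prop := C S (z + a) (a + b)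

variable {S : QData V Q}

theorem c1 (a b : V) : a + b + b = a := by rw [add_assoc, ZModModule.add_self, add_zero]

theorem c2 (a b : V) : a + (a + b) = b := by rw [← add_assoc, ZModModule.add_self, zero_add]

/-- swapping the last two -/
theorem D.swap (he : S.e = 0) {z a b : V} (h : D S z a b) : D S z b a := by
  have h1 : C S (z + a + (a + b)) (a + b) := C.add' h (C.self he (a + b))
  refine h1.of_eq ?_ (add_comm a b)
  rw [add_assoc z, c2 a b]

theorem asc' (hA : Stmt_SASC) (he : S.e = 0) (z a b c d : V) (h₁ : D S z a d)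
    (h₂ : D S d b c) : ∃ g, D S g a b ∧ D S z g c := by
  obtain ⟨g, h, h'⟩ := hA V Q S he z a b c d h₁ h₂
  refine ⟨g, h, ?_⟩
  have h2 : D S z c g := by
    have h3 : C S (z + c) (g + c) := h'
    exact h3.of_eq rfl (add_comm g c)
  exact h2.swap he

end SDGR_

open SDGR_ in
open Pool.Agent.ETCP (C q_eq q_eq') in
theorem sdgr_proof (hSASC : Stmt_SASC) : Stmt_SDGR := by
  intro V Q _ _ S he x w v₁ v₂ h₁ h₂
  have k₁ : C S v₁ w := C.symm h₁
  have k₂ : C S v₂ (x + w) := C.symm h₂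
  -- step 1
  obtain ⟨b₁, hb, hb'⟩ := asc' hSASC he (v₁ + v₂) v₂ w x (v₂ + w)
    (k₁.of_eq (c1 v₁ v₂).symm (c2 v₂ w).symm)
    (k₂.of_eq (c1 v₂ w).symm (add_comm x w))
  -- step 2
  obtain ⟨a₁, ha, ha'⟩ := asc' hSASC he b₁ w 0 (x + w) v₂ (hb.swap he)
    (k₂.of_eq (add_zero v₂).symm (zero_add (x + w)).symm)
  -- step 3
  obtain ⟨b₂, hc, hc'⟩ := asc' hSASC he (v₁ + v₂) x (x + w) a₁ b₁ (hb'.swap he) (ha'.swap he)
  have e₃ : S.q b₂ w = S.q x w := by
    apply q_eq'
    exact hc.of_eq rfl (c2 x w)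
  -- step 4
  obtain ⟨y, hd, hd'⟩ := asc' hSASC he (v₁ + v₂) b₂ w 0 a₁ hc' ha
  refine ⟨y, b₂ + w, ?_, ?_⟩
  · have f1 : S.q y (b₂ + w) = S.q b₂ (b₂ + w) := q_eq' hd
    have f2 : S.q b₂ (b₂ + w) = S.q b₂ w := by
      apply q_eq
      exact (C.self he b₂).of_eq rfl (c1 b₂ w).symm
    rw [f1, f2, e₃]
  · have hd2 : D S (v₁ + v₂) 0 y := hd'.swap he
    exact (C.of_eq hd2 (add_zero _) (zero_add _)).symm

end Pool.Agent.REG10
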