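import Pool.Agent.REG10.SStmts

/-!
REG10: SFUW.  Every element is a sum of three full elements (set-valued version).
-/

set_option autoImplicit false

namespace Pool.Agent.REG10

open Module CommonSlot
open Pool.Agent.Helper58.PLine (QData)
open scoped BigOperators

namespace SFUW_

variable {V Q : Type} [AddCommGroup V] [Module (ZMod 2) V] {S : QData V Q} {x : V} {k : ℕ}

theorem aab (a b : V) : a + (a + b) = b := by
  rw [← add_assoc, ZModModule.add_self, zero_add]

theorem abb (a b : V) : a + b + b = a := by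
  rw [add_assoc, ZModModule.add_self, add_zero]

/-- different components are orthogonal modulo `Q_x` -/
theorem orth (hB : SBas S x) (C : SCW S x k) {i j : Fin k} (hij : i ≠ j) (v z : V) :
    InQ S x (C.P i v) (C.P j z) := by
  obtain ⟨w, hw, hi, hj⟩ := C.sep i j hij
  obtain ⟨s, hs1, hs2⟩ := hB.a w hw (C.P i v)
  obtain ⟨s', hs1', hs2'⟩ := hB.a w hw (C.P j z)
  have e1 := C.eig i w hw v
  rw [hi, one_smul, vl_eq (S := S) (x := x) hs2.symm, ← map_add] at e1
  have e2 := C.eig j w hw z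
  rw [hj, zero_smul, add_zero, vl_eq (S := S) (x := x) hs2'.symm] at e2
  have hw1 : s + C.P i v ∈ SW S x := hB.mem _ e1
  have hs' : s' ∈ SW S x := hB.mem _ e2
  have h3 : S.q (x + w) s = S.z := Pool.Agent.ETCP.q_eq'_iff.1 (hs2.trans hs1.symm)
  have h4 : S.q w (C.P j z + s') = S.z := Pool.Agent.ETCP.q_eq_iff.1 hs1'.symm
  have h5 : InQ S x s (C.P j z + s') := hB.b w hw s _ h3 h4
  have h6 : InQ S x s s' := (SW_in hs' s).symm
  have h7 : InQ S x s (C.P j z) := by
    have := h5.add h6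
    rwa [abb] at this
  have h8 := h7.add_left (SW_in hw1 (C.P j z))
  rwa [aab] at h8

theorem PPz {C : SCW S x k} {i : Fin k} {v : V} (h : C.P i v ≠ 0) : C.P i v ∉ SW S x := by
  intro hm
  apply h
  rw [← C.PP i v, C.PW i _ hm]

/-- the image of `P_i` contains two different nonzero elements -/
theorem two (he : S.e = 0) (hB : SBas S x) (C : SCW S x k) (i : Fin k) :
    ∃ a b, C.P i a ≠ 0 ∧ C.P i b ≠ 0 ∧ C.P i a + C.P i b ≠ 0 := by
  obtain ⟨v, hv⟩ := C.ne i
  have h1 := PPz hv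
  rw [mem_SW] at h1
  push Not at h1
  obtain ⟨v', hv'⟩ := h1
  have h2 : ¬ InQ S x (C.P i v) (C.P i v') := by
    intro h3
    apply hv'
    have h4 : InQ S x (C.P i v) (∑ j, C.P j v') := by
      refine inq_sum _ _ _ fun j _ => ?_
      by_cases hj : i = j
      · rw [← hj]; exact h3
      · exact orth hB C hj v v'
    have h5 : InQ S x (C.P i v) (v' + ∑ j, C.P j v') := (SW_in (C.sumW v') _).symm
    have := h5.add h4
    rwa [abb] at this
  refine ⟨v, v', hv, ?_, ?_⟩
  · intro h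
    rw [h] at h2
    exact h2 (inq_zero _)
  · intro h
    rw [← eq_of_add_eq_zero' h] at h2
    exact h2 (inq_self he _)

theorem pick (he : S.e = 0) (hB : SBas S x) (C : SCW S x k) (i : Fin k) (y : V) :
    ∃ b₁ b₂, C.P i b₁ ≠ 0 ∧ C.P i b₂ ≠ 0 ∧ C.P i y + C.P i b₁ + C.P i b₂ ≠ 0 := by
  by_cases h : C.P i y = 0
  · obtain ⟨a, b, ha, hb, hab⟩ := two he hB C i
    exact ⟨a, b, ha, hb, by rw [h, zero_add]; exact hab⟩
  · exact ⟨y, y, h, h, by rw [abb]; exact h⟩

theorem P_sum (C : SCW S x k) (b : Fin k → V) (i : Fin k) :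
    C.P i (∑ j, C.P j (b j)) = C.P i (b i) := by
  rw [map_sum, Finset.sum_eq_single i]
  · exact C.PP i _
  · intro j _ hj
    exact C.orth i j (Ne.symm hj) _
  · intro h
    exact absurd (Finset.mem_univ i) h

theorem P_sum' (C : SCW S x k) (ε : Fin k → ZMod 2) (y : V) (i : Fin k) :
    C.P i (∑ j, ε j • C.P j y) = ε i • C.P i y := by
  rw [map_sum, Finset.sum_eq_single i]
  · rw [map_smul, C.PP i]
  · intro j _ hj
    rw [map_smul, C.orth i j (Ne.symm hj), smul_zero]
  · intro h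
    exact absurd (Finset.mem_univ i) h

/-- expansion of `q(s, y)` -/
theorem expand (C : SCW S x k) {s : V} (hs : s ∈ SW S x) (y : V) :
    vl S x s y = vl S x s (y + ∑ j, C.P j y) + ∑ j, vl S x s (C.P j y) := by
  have h : y = (y + ∑ j, C.P j y) + ∑ j, C.P j y := (abb _ _).symm
  conv_lhs => rw [h]
  rw [SW_vl_add hs, vl_sum _ _ _ fun j _ => SW_in hs _]

theorem full (hB : SBas S x) (C : SCW S x k) {y : V} (hy : ∀ i, C.P i y ≠ 0) : SFull S x y := by
  intro s hs hsy
  -- the sum over the characters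
  have h1 : ∑ j, (vl S x s (C.P j y) + C.χ j s • ta S x (C.P j y)) ∈ SC S x :=
    Submodule.sum_mem _ fun j _ => C.eig j s hs y
  have h2 : vl S x s (y + ∑ j, C.P j y) ∈ SC S x := hB.c s hs _ (C.sumW y)
  have h3 : ta S x (∑ j, C.χ j s • C.P j y) ∈ SC S x := by
    have e : ta S x (∑ j, C.χ j s • C.P j y) = vl S x s y + (vl S x s (y + ∑ j, C.P j y)
        + ∑ j, (vl S x s (C.P j y) + C.χ j s • ta S x (C.P j y))) := by
      rw [Finset.sum_add_distrib, expand C hs y, map_sum]
      simp only [map_smul]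
      rw [← add_assoc (vl S x s (y + ∑ j, C.P j y)), ← add_assoc, ZModModule.add_self, zero_add]
    rw [e]
    exact Submodule.add_mem _ hsy (Submodule.add_mem _ h2 h1)
  have h4 := hB.mem _ h3
  have h5 : ∀ i, C.χ i s = 0 := by
    intro i
    have h6 := C.PW i _ h4
    rw [P_sum'] at h6
    rcases zm (C.χ i s) with h | h
    · exact h
    · rw [h, one_smul] at h6
      exact absurd h6 (hy i)
  rw [mem_SQI]
  intro v
  refine ⟨SW_in hs v, ?_⟩
  rw [expand C hs v]
  refine Submodule.add_mem _ (hB.c s hs _ (C.sumW v)) (Submodule.sum_mem _ fun j _ => ?_)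
  have := C.eig j s hs v
  rwa [h5 j, zero_smul, add_zero] at this

end SFUW_

open SFUW_ in
theorem sfuw_proof (hSBAS : Stmt_SBAS) (hSCHW : Stmt_SCHW) : Stmt_SFUW := by
  intro V Q _ _ _ S x he hR y
  have hB := hSBAS V Q S x he hR
  obtain ⟨k, ⟨C⟩⟩ := hSCHW V Q S x he hR
  choose b₁ b₂ h₁ h₂ h₃ using fun i => pick he hB C i y
  refine ⟨∑ j, C.P j (b₁ j), ∑ j, C.P j (b₂ j), full hB C ?_, full hB C ?_, full hB C ?_⟩
  · intro i
    rw [P_sum]
    exact h₁ i
  · intro i
    rw [P_sum]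
    exact h₂ i
  · intro i
    rw [map_add, map_add, P_sum, P_sum]
    exact h₃ i

end Pool.Agent.REG10
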