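import Pool.Agent.REG10.Stmts

set_option autoImplicit false

namespace Pool.Agent.REG10

open Module CommonSlot Pool.Agent.GTW
open scoped BigOperators

theorem sgn_proof (hORD : Stmt_ORD) : Stmt_SGN := by
  intro V X C _ _ _ _ _ _ _ _ _ β t hF r hr φ hφ m a v hm hv
  obtain ⟨a', ha'⟩ := (mem_LX β r φ).1 hφ
  have hO := hORD V X C β t hF
  obtain ⟨n, hn, hnb⟩ := hO.val r a' (β a v) (by
    intro m' hm'
    rcases hr.2 m' hm' with h | h
    · subst h
      simp
    · subst h
      rw [hv, ha'])
  have hn' := (mem_NN β r n).1 hn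
  have h1 : m (β a v) = r (β a v) := by
    refine hF.sg m r a (a' + n) ?_ v t hnb.symm
    intro v'
    rw [hm v', map_add, LinearMap.add_apply, map_add, hn' v', add_zero, ha']
  rw [h1, hv]

end Pool.Agent.REG10
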