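import Pool.Agent.REG10.SStmts

/-!
REG10, module SGNR: the general theorem, set-valued.
-/

set_option autoImplicit false

namespace Pool.Agent.REG10

theorem sgnr_proof (h1 : Stmt_SSTC) (h2 : Stmt_SRNK) : Stmt_SGNR := by
  intro V Q _ _ _ S x C he hC hs hp
  rcases h1 V Q S x C he hC hs hp with h | ⟨C', hC', hF⟩
  · exact h
  · exact h2 V Q S x C' he hC' hF

end Pool.Agent.REG10
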