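import Pool.Agent.REG10.SStmts

/-!
REG10 SIND: independence of the components (set-valued).
-/

set_option autoImplicit false

namespace Pool.Agent.REG10

open Module CommonSlot
open Pool.Agent.Helper58.PLine (QData)
open scoped BigOperators

namespace SIND_

variable {V Q : Type} [AddCommGroup V] [Module (ZMod 2) V] {S : QData V Q} {x : V} {k : ℕ}

theorem sum_common {ι : Type} (s : Finset ι) (a : V) (f g : ι → V)
    (h : ∀ i ∈ s, S.q a (f i) = S.q x (g i)) :
    S.q a (∑ i ∈ s, f i) = S.q x (∑ i ∈ s, g i) := by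
  classical
  induction s using Finset.induction_on with
  | empty => rw [Finset.sum_empty, Finset.sum_empty, S.q_zero, S.q_zero]
  | insert j s hj ih =>
    rw [Finset.sum_insert hj, Finset.sum_insert hj]
    exact ETC.add_common (h j (Finset.mem_insert_self j s))
      (ih fun i hi => h i (Finset.mem_insert_of_mem hi))

/-- `q u v = Σ χ_i(u) τ(P_i v)` for `u ∈ V_x` -/
theorem q_u (hiso : SIso S x) (C : SCD S x k) {u : V} (hu : S.q x u = S.z) (v : V) :
    S.q u v = S.q x (∑ i, C.χ i u • C.P i v) := by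
  have h1 : S.q u (v + ∑ i, C.P i v) = S.z := hiso _ _ hu (C.sumU v)
  rw [Pool.Agent.ETCP.q_eq h1]
  exact sum_common _ u _ _ fun i _ => C.eig i u v hu

theorem P_sum (C : SCD S x k) (c : Fin k → ZMod 2) (v : V) (j : Fin k) :
    C.P j (∑ l, c l • C.P l v) = c j • C.P j v := by
  rw [map_sum, Finset.sum_eq_single j]
  · rw [map_smul, C.PP]
  · intro i _ hij
    rw [map_smul, C.orth j i (Ne.symm hij), smul_zero]
  · intro hj
    exact absurd (Finset.mem_univ j) hj

/-- half step -/
theorem half (hSTR : Stmt_SSTR) (he : S.e = 0) (hiso : SIso S x) (C : SCD S x k) {v z w : V}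
    (h : S.q v z = S.z) (hw : S.q x w = S.z) : ∃ a g, S.q x a = S.z ∧ S.q x g = S.z ∧
      S.q (z + a) (∑ l, C.χ l w • C.P l v + g) = S.z := by
  apply hSTR V Q S he x (∑ l, C.χ l w • C.P l v) v w z _ h
  rw [S.symm v w, q_u hiso C hw]

/-- full step -/
theorem step (hSTR : Stmt_SSTR) (he : S.e = 0) (hiso : SIso S x) (C : SCD S x k) {v z w : V}
    (h : S.q v z = S.z) (hw : S.q x w = S.z) : ∃ v' z', S.q v' z' = S.z ∧
      (∀ l, C.P l v' = C.χ l w • C.P l v) ∧ ∀ l, C.P l z' = C.χ l w • C.P l z := by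
  obtain ⟨a, g, ha, hg, h1⟩ := half hSTR he hiso C h hw
  obtain ⟨a', g', ha', hg', h2⟩ := half hSTR he hiso C h1 hw
  refine ⟨_, _, h2, ?_, ?_⟩
  · intro l
    rw [map_add, map_add, P_sum, C.PU l g hg, C.PU l a' ha', add_zero, add_zero]
  · intro l
    rw [map_add, P_sum, map_add, C.PU l a ha, add_zero, C.PU l g' hg', add_zero]

/-- iteration -/
theorem iter (hSTR : Stmt_SSTR) (he : S.e = 0) (hiso : SIso S x) (C : SCD S x k) {v z : V}
    (h : S.q v z = S.z) (i : Fin k) (s : Finset (Fin k)) (hs : i ∉ s) :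
    ∃ v' z', S.q v' z' = S.z ∧ C.P i v' = C.P i v ∧ C.P i z' = C.P i z ∧
      ∀ j ∈ s, C.P j v' = 0 ∧ C.P j z' = 0 := by
  classical
  induction s using Finset.induction_on with
  | empty => exact ⟨v, z, h, rfl, rfl, fun j hj => absurd hj (Finset.notMem_empty j)⟩
  | insert j s hj ih =>
    obtain ⟨v', z', h1, h2, h3, h4⟩ := ih fun h5 => hs (Finset.mem_insert_of_mem h5)
    have hij : i ≠ j := fun e => hs (e ▸ Finset.mem_insert_self j s)
    obtain ⟨w, hw, hwi, hwj⟩ := C.sep i j hij
    obtain ⟨v'', z'', h5, h6, h7⟩ := step hSTR he hiso C h1 hw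
    refine ⟨v'', z'', h5, ?_, ?_, ?_⟩
    · rw [h6, hwi, one_smul, h2]
    · rw [h7, hwi, one_smul, h3]
    · intro l hl
      rcases Finset.mem_insert.1 hl with rfl | hl
      · rw [h6, h7, hwj, zero_smul, zero_smul]
        exact ⟨rfl, rfl⟩
      · rw [h6, h7, (h4 l hl).1, (h4 l hl).2, smul_zero]
        exact ⟨rfl, rfl⟩

/-- the case `q v z = 0` -/
theorem zero_case (hSTR : Stmt_SSTR) (he : S.e = 0) (hrg : SRg S x) (hiso : SIso S x)
    (C : SCD S x k) {v z : V} (h : S.q v z = S.z) (i : Fin k) :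
    InQ S x (C.P i v) (C.P i z) := by
  classical
  obtain ⟨v', z', h1, h2, h3, h4⟩ := iter hSTR he hiso C h i (Finset.univ.erase i)
    (Finset.notMem_erase i _)
  have hv : S.q x (v' + C.P i v) = S.z := by
    have := C.sumU v'
    rw [Finset.sum_eq_single i, h2] at this
    · exact this
    · intro j _ hji
      exact (h4 j (Finset.mem_erase.2 ⟨hji, Finset.mem_univ j⟩)).1
    · intro hi
      exact absurd (Finset.mem_univ i) hi
  have hz : S.q x (z' + C.P i z) = S.z := by
    have := C.sumU z'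
    rw [Finset.sum_eq_single i, h3] at this
    · exact this
    · intro j _ hji
      exact (h4 j (Finset.mem_erase.2 ⟨hji, Finset.mem_univ j⟩)).2
    · intro hi
      exact absurd (Finset.mem_univ i) hi
  have ev : v' = (v' + C.P i v) + C.P i v := by
    rw [add_assoc, ZModModule.add_self, add_zero]
  have ez : z' = (z' + C.P i z) + C.P i z := by
    rw [add_assoc, ZModModule.add_self, add_zero]
  rw [ev, ez] at h1
  have h5 : InQ S x (C.P i v) ((z' + C.P i z) + C.P i z) :=
    InQ.of_add_left (inq_of_zero h1) (hrg _ _ hv)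
  exact InQ.of_add h5 (InQ.symm (hrg _ _ hz))

end SIND_

open SIND_ in
theorem sind_proof (hSTR : Stmt_SSTR) : Stmt_SIND := by
  intro V Q _ _ _ S x k he hrg hiso C v z h i
  obtain ⟨u, hu1, hu2⟩ := h.link_x
  have hxx : S.q x x = S.z := Pool.Agent.ETCP.C.self he x
  have h1 : S.q v (z + u) = S.z := Pool.Agent.ETCP.q_eq_iff.1 hu1.symm
  have h2 : S.q (x + v) u = S.z := Pool.Agent.ETCP.q_eq'_iff.1 (hu2.trans hu1.symm)
  have a1 := zero_case hSTR he hrg hiso C h1 i
  have a2 := zero_case hSTR he hrg hiso C h2 i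
  rw [map_add, C.PU i x hxx, zero_add] at a2
  rw [map_add, add_comm] at a1
  exact InQ.of_add a1 a2

end Pool.Agent.REG10
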