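import Pool.Agent.REG10.SStmts

/-!
REG10 SPIR: the property (PI) for regular elements (set-valued version).
-/

set_option autoImplicit false

namespace Pool.Agent.REG10

open Module CommonSlot
open Pool.Agent.Helper58.PLine (QData)
open scoped BigOperators

namespace SPIR_

section
variable {V B X : Type} [AddCommGroup V] [Module (ZMod 2) V] [AddCommGroup B] [Module (ZMod 2) B]
  [AddCommGroup X] [Module (ZMod 2) X]

/-- double orthogonal -/
theorem dbl [Finite X] (β : X →ₗ[ZMod 2] V →ₗ[ZMod 2] B) (k : Du B)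
    (K : Submodule (ZMod 2) V) (hK : ∀ y, (∀ a, k (β a y) = 0) → y ∈ K) (f : Du V)
    (hf : ∀ y ∈ K, f y = 0) : ∃ a, ∀ v, f v = k (β a v) := by
  let F : V →ₗ[ZMod 2] (X →ₗ[ZMod 2] ZMod 2) := (β.compr₂ k).flip
  have hF : ∀ (v : V) (a : X), F v a = k (β a v) := fun v a => rfl
  have h1 : f ∈ (LinearMap.ker F).dualAnnihilator := by
    rw [Submodule.mem_dualAnnihilator]
    intro y hy
    apply hf
    apply hK
    intro a
    have h2 := LinearMap.congr_fun (LinearMap.mem_ker.1 hy) a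
    rw [hF] at h2
    exact h2
  rw [← LinearMap.range_dualMap_eq_dualAnnihilator_ker] at h1
  obtain ⟨G, hG⟩ := h1
  have : Module.Finite (ZMod 2) X := Module.Finite.of_finite
  obtain ⟨a, rfl⟩ := (Module.evalEquiv (ZMod 2) X).surjective G
  refine ⟨a, fun v => ?_⟩
  have h3 := LinearMap.congr_fun hG v
  rw [← h3]
  rfl

end

end SPIR_

theorem spir_proof (hSBAS : Stmt_SBAS) (hSFUW : Stmt_SFUW) : Stmt_SPIR := by
  intro V Q _ _ _ S x he hx C' hC' k l y hy
  have bas := hSBAS V Q S x he hx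
  -- full elements
  have h1 : ∀ y, SFull S x y → (∀ a ∈ SQI S x C', k (vl S x a y) = l (ta S x a)) →
      ∀ a ∈ SQI S x C', l (vl S x a y) = l (ta S x a) := by
    intro y hyf hyk a ha
    have hin : InQ S x a y := (ha y).1
    have hc : vl S x a y ∈ C' := (ha y).2
    obtain ⟨s, hs1, hs2⟩ := hin.symm.link_x
    have hva : vl S x a y = ta S x s := vl_eq (by rw [S.symm, hs2])
    have hvs : vl S x s y = ta S x s := vl_eq (by rw [S.symm s y, hs1, hs2])
    have hts : ta S x s ∈ C' := by rw [← hva]; exact hc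
    have hsW : s ∈ SW S x := bas.mem s (hC'.1 hts)
    have hsC : s ∈ SQI S x (SC S x) := hyf s hsW (by rw [hvs]; exact hC'.1 hts)
    have hs' : s ∈ SQI S x C' := hC'.2 s hsC hts
    have h2 : vl S x (a + s) y = 0 := by
      rw [vl_add_left hin (SW_in hsW y), hva, hvs, ZModModule.add_self]
    have h3 := hyk (a + s) ((SQI S x C').add_mem ha hs')
    rw [h2, map_zero, map_add, map_add] at h3
    have h4 : l (ta S x a) = l (ta S x s) := by
      have h5 : l (ta S x a) + l (ta S x s) = 0 := h3.symm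
      calc l (ta S x a) = l (ta S x a) + (l (ta S x s) + l (ta S x s)) := by
            rw [ZModModule.add_self, add_zero]
        _ = l (ta S x s) := by rw [← add_assoc, h5, zero_add]
    rw [h4, hva]
  -- the subspace `K`
  let K : Submodule (ZMod 2) V :=
    { carrier := {y | ∀ a ∈ SQI S x C', k (vl S x a y) = 0}
      add_mem' := by
        intro u v hu hv a ha
        rw [SW_vl_add (SQI_le_SW ha), map_add, hu a ha, hv a ha, add_zero]
      zero_mem' := by
        intro a _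
        rw [vl_zero, map_zero]
      smul_mem' := by
        intro c u hu a ha
        rw [vl_smul, map_smul, hu a ha, smul_zero] }
  have hKmem : ∀ y, y ∈ K ↔ ∀ a ∈ SQI S x C', k (vl S x a y) = 0 := fun y => Iff.rfl
  let β : SQI S x C' →ₗ[ZMod 2] V →ₗ[ZMod 2] BX S x := (bet S x C').compr₂ C'.subtype
  have hβ : ∀ (a : SQI S x C') (v : V), β a v = vl S x a v := fun a v => rfl
  have hKW : ∀ z : V, ∃ κ ∈ K, ∃ w ∈ SW S x, κ + w = z := by
    intro z
    rw [← Submodule.mem_sup]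
    by_contra hz
    obtain ⟨f, hf1, hf2⟩ := exists_functional hz
    obtain ⟨a, hfa⟩ := SPIR_.dbl β k K
      (fun y hy => (hKmem y).2 fun a ha => hy ⟨a, ha⟩) f
      (fun y hy => hf2 y (Submodule.mem_sup_left hy))
    obtain ⟨s, hs, hs2⟩ := bas.e C' hC'.1 a a.2 z
    apply hf1
    have h6 : vl S x a z = vl S x a s := vl_congr (a.2 z).1 hs2.symm
    rw [hfa, hβ, h6, ← hβ, ← hfa]
    exact hf2 s (Submodule.mem_sup_right hs)
  -- translation by elements of `W`
  have ez : ∀ z : V, z + z = 0 := fun z => ZModModule.add_self z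
  have hfw : ∀ y w, SFull S x y → w ∈ SW S x → SFull S x (y + w) := by
    intro y w hyf hw s hs h
    apply hyf s hs
    have h5 : vl S x s y = vl S x s (y + w) + vl S x s w := by
      rw [SW_vl_add hs, add_assoc, ZModModule.add_self, add_zero]
    rw [h5]
    exact (SC S x).add_mem h (bas.c s hs w hw)
  have hkk : ∀ κ ∈ K, ∀ a ∈ SQI S x C', k (vl S x a (y + κ)) = l (ta S x a) := by
    intro κ hκ a ha
    rw [SW_vl_add (SQI_le_SW ha), map_add, (hKmem κ).1 hκ a ha, add_zero, hy a ha]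
  obtain ⟨y₁, y₂, hy1, hy2, hy3⟩ := hSFUW V Q S x he hx y
  obtain ⟨κ₁, hκ1, w₁, hw1, he1⟩ := hKW (y₁ + y)
  obtain ⟨κ₂, hκ2, w₂, hw2, he2⟩ := hKW (y₂ + y)
  have e1 : y + κ₁ = y₁ + w₁ := by
    have : κ₁ = y₁ + y + w₁ := by rw [← he1, add_assoc, ez, add_zero]
    rw [this]
    calc y + (y₁ + y + w₁) = (y + y) + (y₁ + w₁) := by abel
      _ = y₁ + w₁ := by rw [ez, zero_add]
  have e2 : y + κ₂ = y₂ + w₂ := by
    have : κ₂ = y₂ + y + w₂ := by rw [← he2, add_assoc, ez, add_zero]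
    rw [this]
    calc y + (y₂ + y + w₂) = (y + y) + (y₂ + w₂) := by abel
      _ = y₂ + w₂ := by rw [ez, zero_add]
  have e3 : y + (κ₁ + κ₂) = (y + y₁ + y₂) + (w₁ + w₂) := by
    calc y + (κ₁ + κ₂) = (y + y) + (y + (κ₁ + κ₂)) := by rw [ez, zero_add]
      _ = y + ((y + κ₁) + (y + κ₂)) := by abel
      _ = y + ((y₁ + w₁) + (y₂ + w₂)) := by rw [e1, e2]
      _ = (y + y₁ + y₂) + (w₁ + w₂) := by abel
  have r1 := h1 (y + κ₁) (by rw [e1]; exact hfw _ _ hy1 hw1) (hkk κ₁ hκ1)
  have r2 := h1 (y + κ₂) (by rw [e2]; exact hfw _ _ hy2 hw2) (hkk κ₂ hκ2)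
  have r3 := h1 (y + (κ₁ + κ₂))
    (by rw [e3]; exact hfw _ _ hy3 ((SW S x).add_mem hw1 hw2)) (hkk _ (K.add_mem hκ1 hκ2))
  intro a ha
  have haW : a ∈ SW S x := SQI_le_SW ha
  have e4 : y = (y + κ₁) + ((y + κ₂) + (y + (κ₁ + κ₂))) := by
    calc y = y + ((y + y) + ((κ₁ + κ₁) + (κ₂ + κ₂))) := by rw [ez, ez, ez, add_zero, add_zero, add_zero]
      _ = (y + κ₁) + ((y + κ₂) + (y + (κ₁ + κ₂))) := by abel
  have h6 : l (vl S x a y) = l (vl S x a (y + κ₁)) + (l (vl S x a (y + κ₂)) +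
      l (vl S x a (y + (κ₁ + κ₂)))) := by
    rw [← map_add, ← map_add, ← SW_vl_add haW, ← SW_vl_add haW, ← e4]
  rw [h6, r1 a ha, r2 a ha, r3 a ha, ZModModule.add_self, add_zero]

end Pool.Agent.REG10
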