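import Pool.Agent.REG10.Stmts

/-!
REG10, module SPL: splitting by counting.
-/

set_option autoImplicit false

namespace Pool.Agent.REG10

open Module CommonSlot Pool.Agent.GTW
open scoped BigOperators

namespace SPL_

section
variable {V X C : Type} [AddCommGroup V] [Module (ZMod 2) V] [AddCommGroup X] [Module (ZMod 2) X]
  [AddCommGroup C] [Module (ZMod 2) C]

theorem le_aux (β : X →ₗ[ZMod 2] V →ₗ[ZMod 2] C) (t : V) (l m : Du C) (h : DS β l m)
    (o : Du C) (ho : LE β t o l) : LE β t o (l + m) := by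
  obtain ⟨y, hy⟩ := ho
  have hy' : y ∈ KK β l ⊔ KK β m := by
    have h' : KK β l ⊔ KK β m = ⊤ := h
    rw [h']
    exact Submodule.mem_top
  obtain ⟨u, hu, u', hu', huu⟩ := Submodule.mem_sup.1 hy'
  refine ⟨u', fun a => ?_⟩
  rw [← hy a, ← huu, map_add, map_add, (mem_KK β l u).1 hu a, zero_add, LinearMap.add_apply,
    (mem_KK β m u').1 hu' a, add_zero]

theorem inf_le (β : X →ₗ[ZMod 2] V →ₗ[ZMod 2] C) (l m : Du C) :
    NN β l ⊓ NN β m ≤ NN β (l + m) := by
  intro a ha
  obtain ⟨h1, h2⟩ := Submodule.mem_inf.1 ha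
  rw [mem_NN]
  intro v
  rw [LinearMap.add_apply, (mem_NN β l a).1 h1 v, (mem_NN β m a).1 h2 v, add_zero]

end

end SPL_

theorem spl_proof (hORD : Stmt_ORD) : Stmt_SPL := by
  intro V X C _ _ _ _ _ _ _ _ _ β t hF
  have hO := hORD V X C β t hF
  have hiff : ∀ l m, DS β l m ↔ LX β l ⊓ LX β m = ⊥ := by
    intro l m
    constructor
    · intro h
      rw [Submodule.eq_bot_iff]
      intro φ hφ
      obtain ⟨h1, h2⟩ := Submodule.mem_inf.1 hφ
      have h3 : KK β l ⊔ KK β m ≤ LinearMap.ker φ := by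
        apply sup_le
        · intro y hy
          exact (hO.LX_iff l φ).1 h1 y hy
        · intro y hy
          exact (hO.LX_iff m φ).1 h2 y hy
      have h' : KK β l ⊔ KK β m = ⊤ := h
      rw [h'] at h3
      exact LinearMap.ker_eq_top.1 (top_le_iff.1 h3)
    · intro h
      by_contra hne
      have hlt : KK β l ⊔ KK β m < ⊤ := lt_top_iff_ne_top.2 hne
      obtain ⟨f, hf, hle⟩ := Submodule.exists_le_ker_of_lt_top _ hlt
      apply hf
      have h1 : f ∈ LX β l := (hO.LX_iff l f).2 (fun y hy => hle (Submodule.mem_sup_left hy))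
      have h2 : f ∈ LX β m := (hO.LX_iff m f).2 (fun y hy => hle (Submodule.mem_sup_right hy))
      have h3 : f ∈ LX β l ⊓ LX β m := Submodule.mem_inf.2 ⟨h1, h2⟩
      rw [h] at h3
      exact (Submodule.mem_bot _).1 h3
  have horth : ∀ l m, DS β l m → LE β t l (l + m) := fun l m h =>
    SPL_.le_aux β t l m h l (hO.refl l)
  have hcount : ∀ l m, DS β l m → NN β l ⊔ NN β m = ⊤ ∧ NN β (l + m) = NN β l ⊓ NN β m := by
    intro l m h
    have hle := horth l m h
    have e1 := hO.orth_LX l m hle
    have e2 := (hiff l m).1 h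
    have r1 : finrank (ZMod 2) (LX β l) + finrank (ZMod 2) (NN β l) = finrank (ZMod 2) X :=
      LinearMap.finrank_range_add_finrank_ker (β.compr₂ l)
    have r2 : finrank (ZMod 2) (LX β m) + finrank (ZMod 2) (NN β m) = finrank (ZMod 2) X :=
      LinearMap.finrank_range_add_finrank_ker (β.compr₂ m)
    have r3 : finrank (ZMod 2) (LX β (l + m)) + finrank (ZMod 2) (NN β (l + m)) =
        finrank (ZMod 2) X :=
      LinearMap.finrank_range_add_finrank_ker (β.compr₂ (l + m))
    have r4 := Submodule.finrank_sup_add_finrank_inf_eq (LX β l) (LX β m)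
    have r5 := Submodule.finrank_sup_add_finrank_inf_eq (NN β l) (NN β m)
    rw [e2, finrank_bot, ← e1, add_zero] at r4
    have r6 : finrank (ZMod 2) (NN β l ⊔ NN β m : Submodule (ZMod 2) X) ≤
        finrank (ZMod 2) X := Submodule.finrank_le _
    have r7 : finrank (ZMod 2) (NN β l ⊓ NN β m : Submodule (ZMod 2) X) ≤
        finrank (ZMod 2) (NN β (l + m)) := Submodule.finrank_mono (SPL_.inf_le β l m)
    constructor
    · apply Submodule.eq_top_of_finrank_eq
      omega
    · symm
      apply Submodule.eq_of_le_of_finrank_eq (SPL_.inf_le β l m)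
      omega
  refine ⟨hiff, horth, fun l m h => (hcount l m h).1, fun l m h => (hcount l m h).2, ?_,
    fun l m h o ho => SPL_.le_aux β t l m h o ho⟩
  intro l m h a b
  have h1 : a + b ∈ NN β l ⊔ NN β m := by
    rw [(hcount l m h).1]
    exact Submodule.mem_top
  obtain ⟨n, hn, n', hn', hnn⟩ := Submodule.mem_sup.1 h1
  have h2 : a + n = b + n' := by
    apply eq_of_add_eq_zero'
    have h3 : a + n + (b + n') = (a + b) + (n + n') := by abel
    rw [h3, hnn, ZModModule.add_self]
  refine ⟨a + n, fun v => ?_, fun v => ?_⟩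
  · rw [map_add, LinearMap.add_apply, map_add, (mem_NN β l n).1 hn v, add_zero]
  · rw [h2, map_add, LinearMap.add_apply, map_add, (mem_NN β m n').1 hn' v, add_zero]

end Pool.Agent.REG10
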