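import Pool.Agent.REG10.SStmts

/-! SRFF: the decomposition of a structure with a regular element `x`, `V_x` totally isotropic,
set-valued version. -/

set_option autoImplicit false

namespace Pool.Agent.REG10

open Module CommonSlot
open Pool.Agent.Helper58.PLine (QData)
open scoped BigOperators

namespace SRFF_

section
variable {V Q : Type} [AddCommGroup V] [Module (ZMod 2) V]
  {S : QData V Q} {x : V} {k : ℕ} (C : SCD S x k)
  (xs : Fin k → V) (β : Fin k → Fin k → (V →ₗ[ZMod 2] ZMod 2))

theorem zaddself (v : V) : S.q v 0 = S.z := S.q_zero v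

theorem cadd {a b c : V} (h : S.q a b = S.z) (h' : S.q a c = S.z) : S.q a (b + c) = S.z :=
  (S.add a b c).1 (by rw [h, h'])

theorem cadd_left {a b c : V} (h : S.q a c = S.z) (h' : S.q b c = S.z) : S.q (a + b) c = S.z := by
  rw [S.symm] at h h' ⊢
  exact cadd h h'

theorem csmul {a b : V} (c : ZMod 2) (h : S.q a b = S.z) : S.q a (c • b) = S.z := by
  rcases CommonSlot.zm c with rfl | rfl
  · rw [zero_smul]; exact S.q_zero a
  · rwa [one_smul]

theorem csum {ι : Type} (s : Finset ι) (a : V) (f : ι → V) (h : ∀ i ∈ s, S.q a (f i) = S.z) :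
    S.q a (∑ i ∈ s, f i) = S.z := by
  classical
  induction s using Finset.induction_on with
  | empty => rw [Finset.sum_empty]; exact S.q_zero a
  | insert j s hj ih =>
    rw [Finset.sum_insert hj]
    exact cadd (h j (Finset.mem_insert_self j s)) (ih fun i hi => h i (Finset.mem_insert_of_mem hi))

/-- the coefficient `m_i` -/
noncomputable def m (i : Fin k) : V →ₗ[ZMod 2] ZMod 2 := C.χ i + ∑ j, β i j

theorem m_apply (i : Fin k) (v : V) : m C β i v = C.χ i v + ∑ j, β i j v := by
  simp [m]

/-- the part of `p_i` in `V_x` -/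
noncomputable def Ax (i : Fin k) : V →ₗ[ZMod 2] V :=
  (m C β i).smulRight (xs i) + ∑ j, (β j i).smulRight (xs j)

theorem Ax_apply (i : Fin k) (v : V) :
    Ax C xs β i v = m C β i v • xs i + ∑ j, β j i v • xs j := by
  simp [Ax]

/-- the projections -/
noncomputable def p (i : Fin k) : V →ₗ[ZMod 2] V := C.P i + Ax C xs β i

theorem p_apply (i : Fin k) (v : V) : p C xs β i v = C.P i v + Ax C xs β i v := by
  simp [p]

variable {C xs β}
variable (hx : ∀ i, S.q x (xs i) = S.z) (hχ : ∀ i j, C.χ i (xs j) = if i = j then 1 else 0)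
  (hβP : ∀ i j v, β i j (C.P j v) = β i j v) (hβ0 : ∀ i, β i i = 0)

include hx in
theorem Ax_U (i : Fin k) (v : V) : S.q x (Ax C xs β i v) = S.z := by
  rw [Ax_apply]
  exact cadd (csmul _ (hx i)) (csum _ _ _ fun j _ => csmul _ (hx j))

include hχ in
theorem χ_Ax (i j : Fin k) (v : V) :
    C.χ i (Ax C xs β j v) = (if i = j then m C β j v else 0) + β i j v := by
  rw [Ax_apply, map_add, map_smul, hχ, map_sum]
  have h1 : ∑ l, C.χ i (β l j v • xs l) = β i j v := by
    rw [Finset.sum_eq_single i]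
    · rw [map_smul, hχ, if_pos rfl, smul_eq_mul, mul_one]
    · intro l _ hl
      rw [map_smul, hχ, if_neg (Ne.symm hl), smul_zero]
    · intro h
      exact absurd (Finset.mem_univ i) h
  rw [h1]
  split_ifs with h
  · rw [smul_eq_mul, mul_one]
  · rw [smul_zero]

include hx in
theorem P_p (i j : Fin k) (v : V) : C.P i (p C xs β j v) = if i = j then C.P j v else 0 := by
  rw [p_apply, map_add, C.PU i _ (Ax_U hx j v), add_zero]
  split_ifs with h
  · rw [h, C.PP]
  · exact C.orth i j h v

include hχ in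
theorem χ_p (i j : Fin k) (v : V) :
    C.χ i (p C xs β j v) = (if i = j then m C β j v else 0) + β i j v := by
  rw [p_apply, map_add, C.χP, zero_add, χ_Ax hχ]

include hx hβP in
theorem β_p (i l j : Fin k) (v : V) :
    β i l (p C xs β j v) = if l = j then β i j v else 0 := by
  rw [← hβP i l, P_p hx]
  split_ifs with h
  · rw [h, hβP]
  · rw [map_zero]

theorem zz (a : ZMod 2) : a + a = 0 := by revert a; decide

include hx hχ hβP hβ0 in
theorem m_p (i j : Fin k) (v : V) :
    m C β i (p C xs β j v) = if i = j then m C β j v else 0 := by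
  rw [m_apply, χ_p hχ]
  have h1 : ∑ l, β i l (p C xs β j v) = β i j v := by
    rw [Finset.sum_eq_single j]
    · rw [β_p hx hβP, if_pos rfl]
    · intro l _ hl
      rw [β_p hx hβP, if_neg hl]
    · intro h
      exact absurd (Finset.mem_univ j) h
  rw [h1, add_assoc, zz, add_zero]

include hx hχ hβP hβ0 in
theorem Ax_p (i j : Fin k) (v : V) :
    Ax C xs β i (p C xs β j v) = if i = j then Ax C xs β j v else 0 := by
  rw [Ax_apply, m_p hx hχ hβP hβ0]
  split_ifs with h
  · rw [Ax_apply, h]
    congr 1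
    refine Finset.sum_congr rfl fun l _ => ?_
    rw [β_p hx hβP, if_pos rfl]
  · rw [zero_smul, zero_add]
    refine Finset.sum_eq_zero fun l _ => ?_
    rw [β_p hx hβP, if_neg h, zero_smul]

include hx hχ hβP hβ0 in
theorem p_p (i j : Fin k) (v : V) :
    p C xs β i (p C xs β j v) = if i = j then p C xs β j v else 0 := by
  rw [p_apply C xs β i, P_p hx, Ax_p hx hχ hβP hβ0]
  split_ifs with h
  · rw [p_apply]
  · rw [add_zero]

variable (hI : SIso S x)

/-- values on `V_x × P_i V` -/
theorem eig_in (C : SCD S x k) (i : Fin k) {u : V} (v : V) (hu : S.q x u = S.z) :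
    InQ S x u (C.P i v) ∧ vl S x u (C.P i v) = C.χ i u • ta S x (C.P i v) := by
  have h := C.eig i u v hu
  refine ⟨⟨_, h⟩, ?_⟩
  rw [vl_eq h, map_smul]

include hx hI in
/-- values on `p_j V × p_i V` -/
theorem q_pp (i j : Fin k) (v w : V) (h : InQ S x (C.P j v) (C.P i w)) :
    InQ S x (p C xs β j v) (p C xs β i w) ∧
    vl S x (p C xs β j v) (p C xs β i w) =
    vl S x (C.P j v) (C.P i w) + (C.χ i (Ax C xs β j v) • ta S x (C.P i w) +
      C.χ j (Ax C xs β i w) • ta S x (C.P j v)) := by
  obtain ⟨a1, a2⟩ := eig_in C i w (Ax_U (C := C) (β := β) hx j v)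
  obtain ⟨b1, b2⟩ := eig_in C j v (Ax_U (C := C) (β := β) hx i w)
  have c0 := hI _ _ (Ax_U (C := C) (β := β) hx j v) (Ax_U (C := C) (β := β) hx i w)
  have c1 : InQ S x (Ax C xs β j v) (Ax C xs β i w) := inq_of_zero c0
  have c2 : vl S x (Ax C xs β j v) (Ax C xs β i w) = 0 := vl_of_zero c0
  have d1 : InQ S x (C.P j v) (C.P i w + Ax C xs β i w) := h.add b1.symm
  have d2 : InQ S x (Ax C xs β j v) (C.P i w + Ax C xs β i w) := a1.add c1
  rw [p_apply, p_apply]
  refine ⟨d1.add_left d2, ?_⟩
  rw [vl_add_left d1 d2, vl_add h b1.symm, vl_add a1 c1, c2, add_zero, a2,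
    ← vl_symm b1, b2]
  abel

variable (hα : ∀ i j v z, i ≠ j →
  S.q (C.P i v) (C.P j z) = S.q x (β i j z • C.P i v + β j i v • C.P j z))

include hx hχ hI hα in
theorem q_ne (i j : Fin k) (h : i ≠ j) (v w : V) :
    S.q (p C xs β j v) (p C xs β i w) = S.z := by
  have e := hα j i v w (Ne.symm h)
  have e1 : InQ S x (C.P j v) (C.P i w) := ⟨_, e⟩
  obtain ⟨a1, a2⟩ := q_pp (β := β) hx hI i j v w e1
  refine (vl_eq_zero a1).1 ?_
  rw [a2, vl_eq e, χ_Ax hχ, χ_Ax hχ, if_neg h, if_neg (Ne.symm h), zero_add, zero_add,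
    map_add, map_smul, map_smul]
  have h1 : ∀ a b : BX S x, a + b + (b + a) = 0 := by
    intro a b
    rw [add_comm b a, ZModModule.add_self]
  exact h1 _ _

include hx hχ hI in
theorem rad (v w : V) : S.q (v + ∑ j, p C xs β j v) w = S.z := by
  set r := v + ∑ j, p C xs β j v with hr
  have e1 : r = (v + ∑ j, C.P j v) + ∑ j, Ax C xs β j v := by
    rw [hr, add_assoc, ← Finset.sum_add_distrib]
    rfl
  have hrU : S.q x r = S.z := by
    rw [e1]
    exact cadd (C.sumU v) (csum _ _ _ fun j _ => Ax_U hx j v)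
  have hrχ : ∀ i, C.χ i r = 0 := by
    intro i
    rw [hr, map_add, map_sum]
    have h1 : ∑ j, C.χ i (p C xs β j v) = m C β i v + ∑ j, β i j v := by
      rw [Finset.sum_congr rfl fun j _ => χ_p hχ i j v, Finset.sum_add_distrib]
      congr 1
      rw [Finset.sum_ite_eq Finset.univ i (fun j => m C β j v), if_pos (Finset.mem_univ i)]
    rw [h1, m_apply]
    have h2 : ∀ a b : ZMod 2, a + (a + b + b) = 0 := by decide
    exact h2 _ _
  have e2 : w = (w + ∑ j, C.P j w) + ∑ j, C.P j w := by
    rw [add_assoc, ZModModule.add_self, add_zero]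
  rw [e2]
  refine cadd (hI _ _ hrU (C.sumU w)) (csum _ _ _ fun j _ => ?_)
  rw [C.eig j _ _ hrU, hrχ, zero_smul, S.q_zero]

include hx hχ hI hα in
theorem q_perp (j : Fin k) (v w : V) :
    S.q (p C xs β j v) (w + p C xs β j w) = S.z := by
  classical
  have h1 : S.q (p C xs β j v) (w + ∑ i, p C xs β i w) = S.z := by
    rw [S.symm]
    exact rad hx hχ hI w _
  have h2 : S.q (p C xs β j v) (∑ i ∈ Finset.univ.erase j, p C xs β i w) = S.z :=
    csum _ _ _ fun i hi => q_ne hx hχ hI hα i j (Finset.ne_of_mem_erase hi) v w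
  have h3 := cadd h1 h2
  have h4 : w + ∑ i, p C xs β i w + ∑ i ∈ Finset.univ.erase j, p C xs β i w =
      w + p C xs β j w := by
    rw [← Finset.add_sum_erase Finset.univ (fun i => p C xs β i w) (Finset.mem_univ j),
      ← add_assoc, add_assoc (w + p C xs β j w), ZModModule.add_self, add_zero]
  rwa [h4] at h3

include hx hχ hI hα in
theorem q_right (j : Fin k) (v w : V) :
    S.q (p C xs β j v) w = S.q (p C xs β j v) (p C xs β j w) :=
  (S.add _ _ _).2 (q_perp hx hχ hI hα j v w)

include hx hχ hI hα in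
theorem q_sum (v w : V) (h0 : InQ S x v w)
    (h : ∀ i, InQ S x (p C xs β i v) (p C xs β i w)) :
    vl S x v w = ∑ i, vl S x (p C xs β i v) (p C xs β i w) := by
  have h1 : S.q (v + ∑ i, p C xs β i v) w = S.z := rad hx hχ hI v w
  have h2 : S.q v w = S.q (∑ i, p C xs β i v) w := by
    rw [S.symm v, S.symm _ w]
    refine (S.add _ _ _).2 ?_
    rw [S.symm]; exact h1
  have h3 : ∀ i, InQ S x (p C xs β i v) w := fun i =>
    (h i).congr (q_right hx hχ hI hα i v w).symm
  rw [vl_congr h0 h2, vl_sum_left _ _ _ fun i _ => h3 i]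
  exact Finset.sum_congr rfl fun i _ => vl_congr (h3 i) (q_right hx hχ hI hα i v w)

theorem indep (C : SCD S x k) (z : Fin k → V) (h : S.q x (∑ i, C.P i (z i)) = S.z) (j : Fin k) :
    C.P j (z j) = 0 := by
  have h1 := C.PU j _ h
  rw [map_sum, Finset.sum_eq_single j] at h1
  · rwa [C.PP] at h1
  · intro i _ hi
    exact C.orth j i (Ne.symm hi) _
  · intro h
    exact absurd (Finset.mem_univ j) h

end

end SRFF_

open SRFF_ in
theorem srff_proof (hSCA : Stmt_SSCA) (hCMP : Stmt_SCMP) (hIND : Stmt_SIND) (hALL : Stmt_SALL) :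
    Stmt_SRFF := by
  intro V Q _ _ _ S x k he hN hR hI C
  classical
  obtain ⟨α, hαP, hα⟩ := hSCA V Q S x k he hR hI C
  have hxs : ∀ j, ∃ u, S.q x u = S.z ∧ ∀ i, C.χ i u = if i = j then 1 else 0 := fun j =>
    hALL V Q S x k he hR hI C fun i => if i = j then 1 else 0
  choose xs hx hχ' using hxs
  have hχ : ∀ i j, C.χ i (xs j) = if i = j then 1 else 0 := fun i j => hχ' j i
  set β : Fin k → Fin k → (V →ₗ[ZMod 2] ZMod 2) := fun i j => if i = j then 0 else α i j with hβ
  have hβ0 : ∀ i, β i i = 0 := fun i => by simp [hβ]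
  have hβne : ∀ i j, i ≠ j → β i j = α i j := fun i j h => by simp [hβ, h]
  have hβP : ∀ i j v, β i j (C.P j v) = β i j v := by
    intro i j v
    by_cases h : i = j
    · rw [h, hβ0]; rfl
    · rw [hβne i j h, hαP]
  have hβα : ∀ i j v z, i ≠ j →
      S.q (C.P i v) (C.P j z) = S.q x (β i j z • C.P i v + β j i v • C.P j z) := by
    intro i j v z h
    rw [hβne i j h, hβne j i (Ne.symm h)]
    exact hα i j v z h
  have hpp := p_p (C := C) (xs := xs) (β := β) hx hχ hβP hβ0
  refine ⟨k, {
    p := p C xs β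
    idem := fun j v => by rw [hpp, if_pos rfl]
    orth := fun i j h v => by rw [hpp, if_neg h]
    perp := ?_
    rad := ?_
    ind := ?_
    nd := ?_
    ne := ?_ }, ?_⟩
  · intro j v w
    exact q_perp hx hχ hI hβα j v w
  · intro v w
    exact rad hx hχ hI v w
  · intro v w hvw j
    have hvw' : S.q v w = S.z := hvw
    have h0 : InQ S x v w := inq_of_zero hvw'
    have h1 : ∀ i, ∃ z, InQ S x (p C xs β i v) (p C xs β i w) ∧
        vl S x (p C xs β i v) (p C xs β i w) = ta S x (C.P i z) := by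
      intro i
      have hin := hIND V Q S x k he hR hI C v w h0 i
      obtain ⟨w', hw'⟩ := hin
      obtain ⟨z', hz'⟩ := hCMP V Q S x k he hR hI C i v w w' hw'.symm
      obtain ⟨a1, a2⟩ := q_pp (β := β) hx hI i i v w ⟨w', hw'⟩
      refine ⟨z' + (C.χ i (Ax C xs β i v) • w + C.χ i (Ax C xs β i w) • v), a1, ?_⟩
      rw [a2, vl_eq hz'.symm]
      simp only [map_add, map_smul]
    choose z hz using h1
    have h2 : S.q x (∑ i, C.P i (z i)) = S.z := by
      rw [← ta_eq_zero, map_sum, Finset.sum_congr rfl fun i _ => (hz i).2.symm,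
        ← q_sum hx hχ hI hβα v w h0 fun i => (hz i).1]
      exact vl_of_zero hvw'
    have h3 := indep C z h2 j
    refine (vl_eq_zero (hz j).1).1 ?_
    rw [(hz j).2, h3, map_zero]
  · intro j v h
    apply hN
    intro w
    rw [q_right hx hχ hI hβα]
    exact h w
  · intro j
    refine ⟨xs j, ?_⟩
    intro h
    have h1 := χ_p (C := C) (xs := xs) (β := β) hχ j j (xs j)
    rw [h, map_zero, if_pos rfl, m_apply, hχ, if_pos rfl] at h1
    have h2 : ∀ l, β j l (xs j) = 0 := by
      intro l
      rw [← hβP, C.PU l _ (hx j), map_zero]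
    rw [Finset.sum_eq_zero fun l _ => h2 l, h2] at h1
    exact absurd h1 (by decide)
  · intro j
    right
    have h0 : ∀ l i, β i l (xs j) = 0 := by
      intro l i
      rw [← hβP, C.PU l _ (hx j), map_zero]
    have hpx : p C xs β j (xs j) = xs j := by
      rw [p_apply, C.PU j _ (hx j), zero_add, Ax_apply, m_apply, hχ, if_pos rfl,
        Finset.sum_eq_zero fun l _ => h0 l j, add_zero, one_smul,
        Finset.sum_eq_zero fun l _ => by rw [h0 j l, zero_smul], add_zero]
    refine ⟨xs j, hpx, ?_, ?_⟩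
    · intro h
      have h1 := hχ j j
      rw [h, map_zero, if_pos rfl] at h1
      exact absurd h1 (by decide)
    · intro v hv
      have hv' : S.q (xs j) (p C xs β j v) = S.z := hv
      rw [p_apply] at hv'
      have hv2 := cadd hv' (hI _ _ (hx j) (Ax_U (C := C) (β := β) hx j v))
      rw [add_assoc, ZModModule.add_self, add_zero, C.eig j _ _ (hx j), hχ, if_pos rfl,
        one_smul] at hv2
      have h1 : C.P j v = 0 := by
        have := C.PU j _ hv2
        rwa [C.PP] at this
      have h2 : ∀ l, β l j v = 0 := by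
        intro l
        rw [← hβP, h1, map_zero]
      show p C xs β j v = 0 ∨ p C xs β j v = xs j
      rw [p_apply, h1, zero_add, Ax_apply,
        Finset.sum_eq_zero fun l _ => by rw [h2 l, zero_smul], add_zero]
      rcases CommonSlot.zm (m C β j v) with h3 | h3
      · left; rw [h3, zero_smul]
      · right; rw [h3, one_smul]

end Pool.Agent.REG10
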