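import Pool.Agent.REG10.SStmts

/-!
REG10S, module SRGX: the theorem on regular elements, set-valued.
-/

set_option autoImplicit false

namespace Pool.Agent.REG10

open Module CommonSlot
open Pool.Agent.Helper58.PLine (QData)
open scoped BigOperators

theorem srgx_proof (hSBAS : Stmt_SBAS) (hSWUX : Stmt_SWUX) (hSPIR : Stmt_SPIR)
    (hSGNR : Stmt_SGNR) (hSCHD : Stmt_SCHD) (hSRFF : Stmt_SRFF) : Stmt_SRGX := by
  intro V Q _ _ _ S x he hnd hrg
  have hB := hSBAS V Q S x he hrg
  by_cases hC : SC S x = ⊥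
  · left
    have hW : ∀ w ∈ SW S x, S.q x w = S.z := by
      intro w hw
      have h1 : ta S x w ∈ SC S x := mem_SC.2 ⟨w, hw, rfl⟩
      rw [hC, Submodule.mem_bot] at h1
      exact ta_eq_zero.1 h1
    have hI : SIso S x := by
      intro u w hu hw
      have h1 := hB.c u (hB.ker_le u hu) w (hB.ker_le w hw)
      rw [hC, Submodule.mem_bot] at h1
      exact (vl_eq_zero (SW_in (hB.ker_le u hu) w)).1 h1
    obtain ⟨k, ⟨D⟩⟩ := hSCHD V Q S x he hrg hI hW
    exact hSRFF V Q S x k he hnd hrg hI D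
  · right
    refine hSGNR V Q S x (SC S x) he hC ?_ ?_
    · intro c hc
      obtain ⟨w, hw, rfl⟩ := mem_SC.1 hc
      obtain ⟨u, hu, hwu⟩ := hSWUX V Q S x he hrg w hw
      refine ⟨w + u, hwu, ?_⟩
      rw [map_add, ta_eq_zero.2 hu, add_zero]
    · intro C' hC' _
      exact hSPIR V Q S x he hrg C' hC'

end Pool.Agent.REG10
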