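import Pool.Agent.REG10.SStmts

/-!
REG10, module SRNK: rank one element by saturation, set-valued.
-/

set_option autoImplicit false

namespace Pool.Agent.REG10

open Module CommonSlot
open Pool.Agent.Helper58.PLine (QData)
open scoped BigOperators

theorem srnk_proof (hENA : Stmt_ENA) : Stmt_SRNK := by
  intro V Q _ _ _ S x C' _ hC hF
  have hn : Nontrivial C' := by
    rw [Submodule.nontrivial_iff_ne_bot]
    exact hC
  have : Finite (BX S x) := Finite.of_surjective _ (Submodule.mkQ_surjective (S.ann x))
  have : Finite C' := Finite.of_injective (fun c : C' => (c : BX S x)) Subtype.coe_injective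
  obtain ⟨c, φ, hc, hφ, hs⟩ := hENA V (SQI S x C') C' (bet S x C') x hF hn
  obtain ⟨z, hz⟩ := ta_surj (S := S) (x := x) (c : BX S x)
  have hcc : S.q x z ≠ S.z := by
    intro h
    apply hc
    apply Subtype.ext
    rw [← hz]
    exact ta_eq_zero.2 h
  have hl : ∀ v, Pool.Agent.ETCR.N S (S.q x z) v → φ v = 0 := by
    intro v hv
    rcases CommonSlot.zm (φ v) with h0 | h1
    · exact h0
    · obtain ⟨a, ha⟩ := hs v h1
      exfalso
      have h2 : vl S x a v = ta S x z := by
        rw [hz, ← bet_val, ha]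
      obtain ⟨w, hw1, hw2⟩ := (a.2 v).1.exists
      rw [hw2, ta_eq_iff] at h2
      apply hv a
      rw [S.symm, hw1, h2]
  obtain ⟨t, ht⟩ := Pool.Agent.ETCR.sat_N (S := S) φ hl
  refine ⟨t, S.q x z, hcc, ?_, ?_⟩
  · intro v
    rw [S.symm]
    rcases CommonSlot.zm (φ v) with h0 | h1
    · left
      exact (ht v).2 h0
    · right
      exact (ht v).1 h1
  · obtain ⟨v, hv⟩ : ∃ v, φ v ≠ 0 := by
      by_contra hno
      push Not at hno
      exact hφ (LinearMap.ext hno)
    have hv1 : φ v = 1 := by
      rcases CommonSlot.zm (φ v) with h0 | h1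
      · exact absurd h0 hv
      · exact h1
    refine ⟨v, ?_⟩
    rw [S.symm]
    exact (ht v).1 hv1

end Pool.Agent.REG10
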