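import Pool.Agent.REG10.SStmts

/-!
REG10S, module SSCA: cross terms are scalar (set-valued version of Pool/Agent/GTW/SCA.lean).
-/

set_option autoImplicit false

namespace Pool.Agent.REG10

open Module CommonSlot
open Pool.Agent.Helper58.PLine (QData)
open scoped BigOperators

namespace SSCA_

theorem zm_ne_zero' {a : ZMod 2} (h : a ≠ 0) : a = 1 := by
  rcases CommonSlot.zm a with rfl | rfl
  · exact absurd rfl h
  · rfl

theorem scal {V Z B : Type} [AddCommGroup V] [Module (ZMod 2) V] [AddCommGroup Z]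
    [Module (ZMod 2) Z] [AddCommGroup B] [Module (ZMod 2) B]
    (t : V →ₗ[ZMod 2] B) (t' : Z →ₗ[ZMod 2] B) (f : V →ₗ[ZMod 2] Z →ₗ[ZMod 2] B)
    (hd : ∀ v z, t v + t' z = 0 → t v = 0)
    (hf : ∀ v z, ∃ c d : ZMod 2, f v z = c • t v + d • t' z) (v0 : V) (hv0 : t v0 ≠ 0) :
    ∃ α : Z →ₗ[ZMod 2] ZMod 2, ∀ v z (c d : ZMod 2), f v z = c • t v + d • t' z →
      c • t v = α z • t v := by
  have hT : ∀ v, t v ∈ LinearMap.range t' → t v = 0 := by
    rintro v ⟨z, hz⟩
    apply hd v z
    rw [hz, ZModModule.add_self]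
  obtain ⟨m, hm⟩ : ∃ m : B →ₗ[ZMod 2] (B ⧸ LinearMap.range t'), ∀ b,
      m b = 0 ↔ b ∈ LinearMap.range t' :=
    ⟨(LinearMap.range t').mkQ, fun b => by
      rw [Submodule.mkQ_apply, Submodule.Quotient.mk_eq_zero]⟩
  have hmt' : ∀ z, m (t' z) = 0 := fun z => (hm _).2 ⟨z, rfl⟩
  have hm0 : m (t v0) ≠ 0 := fun h => hv0 (hT v0 ((hm _).1 h))
  obtain ⟨l, hl⟩ : ∃ l : (B ⧸ LinearMap.range t') →ₗ[ZMod 2] ZMod 2, l (m (t v0)) ≠ 0 := by
    by_contra hcon
    push Not at hcon
    exact hm0 ((Module.forall_dual_apply_eq_zero_iff (ZMod 2) (m (t v0))).1 hcon)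
  have hl1 : l (m (t v0)) = 1 := zm_ne_zero' hl
  refine ⟨l ∘ₗ m ∘ₗ f v0, ?_⟩
  intro v z c d h
  obtain ⟨c0, d0, h0⟩ := hf v0 z
  have hα : (l ∘ₗ m ∘ₗ f v0) z = c0 := by
    show l (m (f v0 z)) = c0
    rw [h0, map_add, map_smul, map_smul, hmt', smul_zero, add_zero, map_smul, hl1]
    simp
  rw [hα]
  obtain ⟨c1, d1, h1⟩ := hf (v + v0) z
  rw [map_add, LinearMap.add_apply, h, h0, map_add] at h1
  have h2 : m (t ((c + c1) • v + (c0 + c1) • v0)) = 0 := by
    have h3 := congrArg m h1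
    simp only [map_add, map_smul, hmt', smul_zero, add_zero, smul_add] at h3
    rw [map_add, map_smul, map_smul, add_smul, add_smul, map_add, map_add, map_add, map_smul,
      map_smul, map_smul, map_smul]
    have h4 : c • m (t v) + c1 • m (t v) + (c0 • m (t v0) + c1 • m (t v0)) =
        (c • m (t v) + c0 • m (t v0)) + (c1 • m (t v) + c1 • m (t v0)) := by abel
    rw [h4, h3, ZModModule.add_self]
  have h5 : t ((c + c1) • v + (c0 + c1) • v0) = 0 := hT _ ((hm _).1 h2)
  rw [map_add, map_smul, map_smul] at h5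
  rcases CommonSlot.zm c with rfl | rfl <;> rcases CommonSlot.zm c0 with rfl | rfl
  · rfl
  · rcases CommonSlot.zm c1 with rfl | rfl
    · exfalso
      apply hv0
      simpa using h5
    · have h6 : t v = 0 := by
        have e : (1 : ZMod 2) + 1 = 0 := by decide
        rw [e] at h5
        simpa using h5
      rw [h6, smul_zero, smul_zero]
  · rcases CommonSlot.zm c1 with rfl | rfl
    · have h6 : t v = 0 := by
        simpa using h5
      rw [h6, smul_zero, smul_zero]
    · exfalso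
      apply hv0
      have e : (1 : ZMod 2) + 1 = 0 := by decide
      rw [e] at h5
      simpa using h5
  · rfl

end SSCA_

theorem ssca_proof (hSTR : Stmt_SSTR) : Stmt_SSCA := by
  intro V Q _ _ _ S x k he _ hI C
  have hine : ∀ i u v, S.q x u = S.z →
      InQ S x u (C.P i v) ∧ vl S x u (C.P i v) = C.χ i u • ta S x (C.P i v) := by
    intro i u v hu
    have h := C.eig i u v hu
    exact ⟨⟨_, h⟩, by rw [vl_eq h, map_smul]⟩
  have key : ∀ i j, i ≠ j → ∀ v z, InQ S x (C.P i v) (C.P j z) ∧ ∃ c d : ZMod 2,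
      vl S x (C.P i v) (C.P j z) = c • ta S x (C.P i v) + d • ta S x (C.P j z) := by
    intro i j hij v z
    obtain ⟨w, hw, hi, hj⟩ := C.sep i j hij
    have h1 : S.q x (C.P i v) = S.q w (C.P i v) := by
      rw [C.eig i w v hw, hi, one_smul]
    have h2 : S.q w (C.P j z) = S.z := by
      rw [C.eig j w z hw, hj, zero_smul, S.q_zero]
    obtain ⟨a, g, ha, hg, h3⟩ := hSTR V Q S he x (C.P i v) w (C.P i v) (C.P j z) h1 h2
    obtain ⟨ia, va⟩ := hine i a v ha
    obtain ⟨ig, vg⟩ := hine j g z hg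
    have hag : S.q a g = S.z := hI a g ha hg
    have iag : InQ S x a g := inq_of_zero hag
    have ia' : InQ S x a (C.P i v + g) := ia.add iag
    have i3 : InQ S x (a + C.P j z) (C.P i v + g) := by
      rw [add_comm a]; exact inq_of_zero h3
    have i4 : InQ S x (C.P j z) (C.P i v + g) := i3.of_add_left ia'
    have i5 : InQ S x (C.P j z) (C.P i v) := by
      have h := i4
      rw [add_comm] at h
      exact h.of_add ig.symm
    refine ⟨i5.symm, C.χ i a, C.χ j g, ?_⟩
    have e1 : vl S x (C.P j z + a) (C.P i v + g) = 0 := vl_of_zero h3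
    rw [vl_add_left i4 ia', vl_add i5 ig.symm, vl_add ia iag, va, vl_of_zero hag, add_zero,
      vl_symm ig.symm, vg, vl_symm i5] at e1
    have e2 : vl S x (C.P i v) (C.P j z) +
        (C.χ i a • ta S x (C.P i v) + C.χ j g • ta S x (C.P j z)) = 0 := by
      rw [← e1]; abel
    rw [← ZModModule.sub_eq_add, sub_eq_zero] at e2
    exact e2
  have hd : ∀ i j, i ≠ j → ∀ v z, ta S x (C.P i v) + ta S x (C.P j z) = 0 →
      ta S x (C.P i v) = 0 := by
    intro i j hij v z h
    rw [← map_add] at h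
    have h1 := C.PU i _ (ta_eq_zero.1 h)
    rw [map_add, C.PP, C.orth i j hij, add_zero] at h1
    rw [h1, map_zero]
  have main : ∀ i j, ∃ α : V →ₗ[ZMod 2] ZMod 2, i ≠ j → ∀ v z (c d : ZMod 2),
      vl S x (C.P i v) (C.P j z) = c • ta S x (C.P i v) + d • ta S x (C.P j z) →
      c • ta S x (C.P i v) = α z • ta S x (C.P i v) := by
    intro i j
    by_cases hij : i = j
    · exact ⟨0, fun h => absurd hij h⟩
    · obtain ⟨v0, hv0⟩ := C.ne i
      have hv0' : ta S x (C.P i v0) ≠ 0 := by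
        intro h
        apply hv0
        have h1 := C.PU i _ (ta_eq_zero.1 h)
        rwa [C.PP] at h1
      have hb : ∀ v z, InQ S x (C.P i v) (C.P j z) := fun v z => (key i j hij v z).1
      obtain ⟨f, hf⟩ : ∃ f : V →ₗ[ZMod 2] V →ₗ[ZMod 2] BX S x,
          ∀ v z, f v z = vl S x (C.P i v) (C.P j z) := by
        refine ⟨LinearMap.mk₂ (ZMod 2) (fun v z => vl S x (C.P i v) (C.P j z)) ?_ ?_ ?_ ?_,
          fun v z => rfl⟩
        · intro v v' z
          rw [map_add, vl_add_left (hb v z) (hb v' z)]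
        · intro c v z
          rw [map_smul, vl_smul_left]
        · intro v z z'
          rw [map_add, vl_add (hb v z) (hb v z')]
        · intro c v z
          rw [map_smul, vl_smul]
      obtain ⟨α, hα⟩ := SSCA_.scal (ta S x ∘ₗ C.P i) (ta S x ∘ₗ C.P j) f
        (hd i j hij) (fun v z => by
          obtain ⟨c, d, h⟩ := (key i j hij v z).2
          exact ⟨c, d, by rw [hf]; exact h⟩) v0 hv0'
      exact ⟨α, fun _ v z c d h => hα v z c d (by rw [hf]; exact h)⟩
  choose α hα using main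
  refine ⟨fun i j => α i j ∘ₗ C.P j, ?_, ?_⟩
  · intro i j v
    show α i j (C.P j (C.P j v)) = α i j (C.P j v)
    rw [C.PP]
  · intro i j v z hij
    show S.q (C.P i v) (C.P j z) =
      S.q x (α i j (C.P j z) • C.P i v + α j i (C.P i v) • C.P j z)
    obtain ⟨hin, c, d, h⟩ := key i j hij v z
    have h1 := hα i j hij v (C.P j z) c d (by rw [C.PP]; exact h)
    have h2 := hα j i hij.symm z (C.P i v) d c (by
      rw [C.PP, vl_symm hin.symm, h, add_comm])
    obtain ⟨z', hz', hz''⟩ := hin.exists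
    rw [hz', ← ta_eq_iff, ← hz'', h, h1, h2, map_add, map_smul, map_smul]

end Pool.Agent.REG10
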