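import Pool.Agent.REG10.SStmts

/-!
REG10: SSTC.  A minimal stable subspace (set-valued version).
-/

set_option autoImplicit false

namespace Pool.Agent.REG10

open Module CommonSlot
open Pool.Agent.Helper58.PLine (QData)
open scoped BigOperators

namespace SSTC_

variable {V Q : Type} [AddCommGroup V] [Module (ZMod 2) V] {S : QData V Q} {x : V}

/-- a nonzero stable subspace of minimal cardinality -/
theorem exists_min [Finite V] {C : Submodule (ZMod 2) (BX S x)} (hC : C ≠ ⊥) :
    ∃ C', SStb S x C C' ∧ C' ≠ ⊥ ∧ ∀ C'', SStb S x C C'' → C'' ≠ ⊥ → Nat.card C' ≤ Nat.card C'' := by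
  classical
  have h : ∃ n, ∃ C', SStb S x C C' ∧ C' ≠ ⊥ ∧ Nat.card C' = n :=
    ⟨Nat.card C, C, ⟨le_refl _, fun a ha _ => ha⟩, hC, rfl⟩
  obtain ⟨C', h1, h2, h3⟩ := Nat.find_spec h
  refine ⟨C', h1, h2, fun C'' h4 h5 => ?_⟩
  rw [h3]
  exact Nat.find_min' h ⟨C'', h4, h5, rfl⟩

theorem surj {C C' : Submodule (ZMod 2) (BX S x)} (h : SStb S x C C')
    (hs : ∀ c ∈ C, ∃ a ∈ SQI S x C, ta S x a = c) (c : C') : ∃ a, bet S x C' a x = c := by
  obtain ⟨a, ha, hc⟩ := hs c.1 (h.1 c.2)
  have ha' : a ∈ SQI S x C' := h.2 a ha (by rw [hc]; exact c.2)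
  refine ⟨⟨a, ha'⟩, Subtype.ext ?_⟩
  rw [bet_val]
  exact (SW_vl_x (SQI_le_SW ha')).trans hc

theorem bet_eq_iff {C' : Submodule (ZMod 2) (BX S x)} (a b : SQI S x C') (v v' : V) :
    bet S x C' a v = bet S x C' b v' ↔ S.q a v = S.q b v' := by
  rw [Subtype.ext_iff, bet_val, bet_val]
  exact vl_inj (a.2 v).1 (b.2 v').1

theorem sg (C' : Submodule (ZMod 2) (BX S x)) (k l : Du C') (a b : SQI S x C')
    (h : ∀ v, k (bet S x C' a v) = l (bet S x C' b v)) (v v' : V)
    (h' : bet S x C' a v = bet S x C' b v') : k (bet S x C' a v) = l (bet S x C' a v) := by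
  rw [bet_eq_iff] at h'
  obtain ⟨s, h1, h2⟩ := qlink h'
  have e1 : bet S x C' a s = bet S x C' a v := (bet_eq_iff a a s v).2 h1
  have e2 : bet S x C' b s = bet S x C' a v := (bet_eq_iff b a s v).2 h2
  have := h s
  rwa [e1, e2] at this

theorem pi {C' : Submodule (ZMod 2) (BX S x)} (hp : SPI S x C') (k l : Du C') (y : V)
    (h : ∀ a, k (bet S x C' a y) = l (bet S x C' a x)) (a : SQI S x C') :
    l (bet S x C' a y) = l (bet S x C' a x) := by
  obtain ⟨k', hk⟩ := LinearMap.exists_extend k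
  obtain ⟨l', hl⟩ := LinearMap.exists_extend l
  have hk' : ∀ c : C', k' (c : BX S x) = k c := fun c => by rw [← hk]; rfl
  have hl' : ∀ c : C', l' (c : BX S x) = l c := fun c => by rw [← hl]; rfl
  have hx : ∀ a : SQI S x C', ((bet S x C' a x : C') : BX S x) = ta S x a := fun a => by
    rw [bet_val]; exact SW_vl_x (SQI_le_SW a.2)
  have h1 := hp k' l' y (fun a ha => by
    have := h ⟨a, ha⟩
    rw [← hk', ← hl', hx, bet_val] at this
    exact this) a a.2
  rw [← hl', ← hl', hx, bet_val]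
  exact h1

end SSTC_

open SSTC_ in
theorem sstc_proof : Stmt_SSTC := by
  intro V Q _ _ _ S x C he hC hs hpi
  by_cases hr : SRk1 S
  · exact Or.inl hr
  right
  obtain ⟨C', hst, hne, hmin⟩ := exists_min hC
  refine ⟨C', hne, ⟨surj hst hs, sg C', pi (hpi C' hst hne), ?_⟩⟩
  intro l hl φ
  by_contra hcon
  push Not at hcon
  -- hcon : ∀ ψ ∈ LX, ψ ≠ 0 → ψ = φ
  obtain ⟨c, hc⟩ : ∃ c : C', l c ≠ 0 := by
    by_contra h
    push Not at h
    exact hl (LinearMap.ext h)
  have hc1 : l c = 1 := (zm (l c)).resolve_left hc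
  obtain ⟨a₀, ha₀⟩ := surj hst hs c
  have hmem : ∀ a : SQI S x C', (l.comp (bet S x C' a)) ∈ LX (bet S x C') l := by
    intro a
    rw [mem_LX]
    exact ⟨a, fun v => rfl⟩
  have h0 : l.comp (bet S x C' a₀) = φ := by
    refine hcon _ (hmem a₀) fun h => ?_
    have := LinearMap.congr_fun h x
    rw [LinearMap.comp_apply, ha₀, hc1] at this
    exact one_ne_zero this
  have hφ : φ x = 1 := by rw [← h0, LinearMap.comp_apply, ha₀, hc1]
  -- the subspace C''
  have hstb : SStb S x C ((LinearMap.ker l).map C'.subtype) := by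
    refine ⟨(Submodule.map_subtype_le _ _).trans hst.1, fun a ha hta => ?_⟩
    obtain ⟨c', hc', hce⟩ := hta
    rw [Submodule.subtype_apply] at hce
    have ha' : a ∈ SQI S x C' := hst.2 a ha (by rw [← hce]; exact c'.2)
    have e1 : bet S x C' ⟨a, ha'⟩ x = c' := by
      refine Subtype.ext ?_
      rw [bet_val]
      exact (SW_vl_x (SQI_le_SW ha')).trans hce.symm
    have e2 : l.comp (bet S x C' ⟨a, ha'⟩) = 0 := by
      by_contra h
      have := LinearMap.congr_fun (hcon _ (hmem ⟨a, ha'⟩) h) x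
      rw [LinearMap.comp_apply, e1, hφ, LinearMap.mem_ker.1 hc'] at this
      exact zero_ne_one this
    rw [mem_SQI]
    intro v
    refine ⟨(ha' v).1, ⟨bet S x C' ⟨a, ha'⟩ v, ?_, rfl⟩⟩
    exact LinearMap.mem_ker.2 (LinearMap.congr_fun e2 v)
  have hbot : (LinearMap.ker l).map C'.subtype = ⊥ := by
    by_contra h
    haveI : Finite (BX S x) := Quotient.finite _
    have h1 := hmin _ hstb h
    have h2 : (LinearMap.ker l).map C'.subtype ≤ C' := Submodule.map_subtype_le _ _
    have h3 : (LinearMap.ker l).map C'.subtype = C' := by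
      apply SetLike.coe_injective
      apply Set.eq_of_subset_of_ncard_le h2 _ (Set.toFinite _)
      exact h1
    have h4 : (c : BX S x) ∈ (LinearMap.ker l).map C'.subtype := by rw [h3]; exact c.2
    obtain ⟨c', hc', hce⟩ := h4
    have h5 : c' = c := Subtype.ext hce
    rw [h5] at hc'
    exact hc (LinearMap.mem_ker.1 hc')
  have hker : ∀ c' : C', l c' = 0 → c' = 0 := by
    intro c' h
    have h1 : (c' : BX S x) ∈ (LinearMap.ker l).map C'.subtype := ⟨c', LinearMap.mem_ker.2 h, rfl⟩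
    rw [hbot] at h1
    exact Subtype.ext ((Submodule.mem_bot _).1 h1)
  apply hr
  refine ⟨(a₀ : V), S.q (a₀ : V) x, ?_, ?_, x, rfl⟩
  · intro h
    have h1 : bet S x C' a₀ x = 0 := Subtype.ext (by
      rw [bet_val]; exact vl_of_zero h)
    rw [ha₀] at h1
    rw [h1, map_zero] at hc
    exact hc rfl
  · intro v
    rcases zm (l (bet S x C' a₀ v)) with h | h
    · left
      have h1 := hker _ h
      have h2 : vl S x a₀ v = 0 := by rw [← bet_val, h1]; rfl
      exact (vl_eq_zero (a₀.2 v).1).1 h2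
    · right
      have h1 : bet S x C' a₀ v + c = 0 := hker _ (by
        rw [map_add, h, hc1]; exact ZModModule.add_self _)
      have h2 : bet S x C' a₀ v = bet S x C' a₀ x := by
        rw [ha₀]
        exact eq_of_add_eq_zero' h1
      exact (bet_eq_iff a₀ a₀ v x).1 h2

end Pool.Agent.REG10
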