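import Pool.Agent.REG10.SStmts

/-!
REG10 SSTR: the fundamental consequence of linkage, set-valued version.
-/

set_option autoImplicit false

namespace Pool.Agent.REG10

open Module CommonSlot
open Pool.Agent.Helper58.PLine (QData)
open scoped BigOperators

theorem sstr_proof : Stmt_SSTR := by
  intro V Q _ _ S he x v y s v' h h0
  -- link `x`, `y`
  obtain ⟨s0, h1, h2⟩ := qlink h
  -- `q (s0 + v') y = q x v`
  have h3 : S.q (s0 + v') y = S.q x v := by
    have e1 : S.q (s0 + v') y = S.q s0 y := by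
      apply Pool.Agent.ETCP.q_eq'
      rw [show s0 + v' + s0 = v' by
        rw [add_comm s0, add_assoc, ZModModule.add_self, add_zero]]
      exact Pool.Agent.ETCP.C.symm (S := S) (x := y) (y := v') h0
    rw [e1, S.symm, h2]
  obtain ⟨z, h4, h5⟩ := qlink h3
  rw [h3] at h4 h5
  -- `h1 : q x s0 = q x v`, `h5 : q x z = q x v`
  have c1 : S.q x (z + v) = S.z := Pool.Agent.ETCP.q_eq_iff.1 h5
  have c2 : S.q x (s0 + v) = S.z := Pool.Agent.ETCP.q_eq_iff.1 h1
  have c3 : Pool.Agent.ETCP.C S x (s0 + x + z) := by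
    have := (Pool.Agent.ETCP.C.add (S := S) (x := x) (y := s0 + v) (y' := z + v) c2 c1).add
      (Pool.Agent.ETCP.C.self he x)
    refine this.of_eq rfl ?_
    rw [show s0 + v + (z + v) + x = s0 + x + z + (v + v) by abel, ZModModule.add_self, add_zero]
  -- `C (s0 + v' + x) z`
  have c4 : Pool.Agent.ETCP.C S ((s0 + v') + x) z :=
    Pool.Agent.ETCP.q_eq'_iff.1 (h4.trans h5.symm)
  refine ⟨s0 + x + z, z + v, c3, c1, ?_⟩
  have e1 : v + (z + v) = z := by
    rw [add_comm z, ← add_assoc, ZModModule.add_self, zero_add]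
  have e2 : v' + (s0 + x + z) = (s0 + v') + x + z := by abel
  rw [e1, e2]
  exact c4.add' (Pool.Agent.ETCP.C.self he z)

end Pool.Agent.REG10
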