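import Pool.Agent.REG10.SStmts

/-!
REG10, module SWUX: `W = V_x + X` for a regular element `x` (set-valued version).
-/

set_option autoImplicit false

namespace Pool.Agent.REG10

open Module CommonSlot
open Pool.Agent.Helper58.PLine (QData)
open scoped BigOperators

/-- SWUX: `W = V_x + X`. -/
theorem swux_proof (hSSTR : Stmt_SSTR) (hSBAS : Stmt_SBAS) (hSDGR : Stmt_SDGR)
    (hSFUW : Stmt_SFUW) : Stmt_SWUX := by
  intro V Q _ _ _ S x he hr w hw
  have hB := hSBAS V Q S x he hr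
  obtain ⟨v, _, hv, _, _⟩ := hSFUW V Q S x he hr 0
  obtain ⟨s, hs1, hs2⟩ := hB.a w hw v
  have h1 : S.q w (v + s) = S.z := Pool.Agent.ETCP.q_eq_iff.1 hs1.symm
  have h2 : S.q (x + w) s = S.z := Pool.Agent.ETCP.q_eq'_iff.1 (hs2.trans hs1.symm)
  obtain ⟨y, t, h3, h4⟩ := hSDGR V Q S he x w (v + s) s h1 h2
  have h5 : S.q y v = S.z := by
    rwa [Pool.Agent.Helper58.PLine.add_self_add] at h4
  obtain ⟨a, g, ha, hg, hag⟩ := hSSTR V Q S he x w y t v h3 h5
  have haW := hB.ker_le a ha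
  have hgW := hB.ker_le g hg
  have hwg : w + g ∈ SW S x := (SW S x).add_mem hw hgW
  have hag' : S.q (w + g) (v + a) = S.z := by rw [S.symm]; exact hag
  refine ⟨g, hg, hv (w + g) hwg ?_⟩
  have e1 : vl S x (w + g) (v + a) = 0 := vl_of_zero hag'
  rw [SW_vl_add hwg] at e1
  have e2 : vl S x (w + g) v = vl S x (w + g) a := by
    have := ZModModule.sub_eq_add (vl S x (w + g) v) (vl S x (w + g) a)
    rw [e1] at this
    exact sub_eq_zero.1 this
  rw [e2]
  exact hB.c (w + g) hwg a haW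

end Pool.Agent.REG10
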