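import Pool.Agent.REG10.Stmts

set_option autoImplicit false

namespace Pool.Agent.REG10

open Module CommonSlot Pool.Agent.GTW
open scoped BigOperators

theorem ten_proof (hORD : Stmt_ORD) (hSPL : Stmt_SPL) (hOSB : Stmt_OSB) (hSGN : Stmt_SGN)
    (hDIC : Stmt_DIC) (hFIV : Stmt_FIV) : Stmt_TEN := by
  classical
  intro V X C _ _ _ _ _ _ _ _ _ β t hF r s s' hr hs hs' hrs hrs' φ hφr hφs hφ0 φ' hφ'r hφ's' hφ'0
  have hO := hORD V X C β t hF
  have hS := hSPL V X C β t hF
  have hB := hOSB V X C β t hF
  have nle : ∀ a b : Du C, Atom β t a → Atom β t b → a ≠ b → ¬ LE β t a b := by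
    intro a b ha hb hab hle
    rcases hb.2 a hle with h | h
    · exact ha.1 h
    · exact hab h
  by_cases hss : s = s'
  · subst hss
    have hd := hDIC V X C β t hF r s hr (nle r s hr hs hrs) φ hφs hφr hφ0
    rcases hd.2.1 φ' hφ's' hφ'r with h | h
    · exact absurd h hφ'0
    · exact h.symm
  by_contra hne
  by_cases hbot : LX β s ⊓ LX β s' = ⊥
  · have hDS : DS β s s' := (hS.iff s s').2 hbot
    have hosa := (hB.pair s s' hs hs' hDS).1
    have hnle : ¬ LE β t r (s + s') := by
      intro hle
      have := hFIV V X C β t hF {s, s'} hosa r hr (by rw [Finset.sum_pair hss]; exact hle)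
      rw [Finset.mem_insert, Finset.mem_singleton] at this
      rcases this with h | h
      · exact hrs h
      · exact hrs' h
    have hLX := hO.orth_LX s s' (hS.orth s s' hDS)
    have h1 : φ ∈ LX β (s + s') := by
      rw [hLX]; exact Submodule.mem_sup_left hφs
    have h2 : φ' ∈ LX β (s + s') := by
      rw [hLX]; exact Submodule.mem_sup_right hφ's'
    have hd := hDIC V X C β t hF r (s + s') hr hnle φ h1 hφr hφ0
    rcases hd.2.1 φ' h2 hφ'r with h | h
    · exact hφ'0 h
    · exact hne h.symm
  · obtain ⟨φ'', hm, hφ''0⟩ := Submodule.exists_mem_ne_zero_of_ne_bot hbot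
    have hφ''s : φ'' ∈ LX β s := hm.1
    have hφ''s' : φ'' ∈ LX β s' := hm.2
    have hne'' : φ ≠ φ'' := by
      intro h
      subst h
      have hd := hDIC V X C β t hF r s' hr (nle r s' hr hs' hrs') φ hφ''s' hφr hφ0
      rcases hd.2.1 φ' hφ's' hφ'r with h | h
      · exact hφ'0 h
      · exact hne h.symm
    have hd := hDIC V X C β t hF s r hs (nle s r hs hr (Ne.symm hrs)) φ hφr hφs hφ0
    have hd' := hDIC V X C β t hF s' r hs' (nle s' r hs' hr (Ne.symm hrs')) φ' hφ'r hφ's' hφ'0
    obtain ⟨a, haN, ha⟩ := hd.2.2.2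
    rcases hd'.2.2.1 a haN with h | h
    · have haN' : a ∈ NN β s' := (mem_NN β s' a).2 h
      have hd'' := hDIC V X C β t hF s s' hs (nle s s' hs hs' hss) φ'' hφ''s' hφ''s hφ''0
      rcases hd''.2.2.1 a haN' with h' | h'
      · apply hφ0
        apply LinearMap.ext
        intro v
        rw [← ha v, h' v, LinearMap.zero_apply]
      · apply hne''
        apply LinearMap.ext
        intro v
        rw [← ha v, h' v]
    · apply hne
      have hsum : ∀ v', (s + s') (β a v') = (φ + φ') v' := by
        intro v'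
        rw [LinearMap.add_apply, LinearMap.add_apply, ha v', h v']
      have ht0 : (φ + φ') t = 0 := by
        rw [LinearMap.add_apply, hd.1, hd'.1]
        decide
      have hz : ∀ v, (φ + φ') v = 0 := by
        intro v
        have hr0 : r (β a v) = (φ + φ') t := by
          rw [ht0]
          exact (mem_NN β r a).1 haN v
        have := hSGN V X C β t hF r hr (φ + φ') (Submodule.add_mem _ hφr hφ'r) (s + s') a v hsum hr0
        rw [← hsum v, this, ht0]
      have h3 : φ + φ' = 0 := LinearMap.ext (fun v => by rw [hz v, LinearMap.zero_apply])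
      calc φ = φ + (φ' + φ') := by rw [ZModModule.add_self, add_zero]
        _ = (φ + φ') + φ' := by rw [add_assoc]
        _ = φ' := by rw [h3, zero_add]

end Pool.Agent.REG10
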