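import Pool.Agent.REG10.ORD
import Pool.Agent.REG10.SPL
import Pool.Agent.REG10.OSB
import Pool.Agent.REG10.SGN
import Pool.Agent.REG10.DIC
import Pool.Agent.REG10.FOU
import Pool.Agent.REG10.FIV
import Pool.Agent.REG10.GLA
import Pool.Agent.REG10.GLB
import Pool.Agent.REG10.GLU
import Pool.Agent.REG10.ATO
import Pool.Agent.REG10.EIG
import Pool.Agent.REG10.NIN
import Pool.Agent.REG10.TEN
import Pool.Agent.REG10.PIA
import Pool.Agent.REG10.CLS
import Pool.Agent.REG10.ENA
import Pool.Agent.REG10.SSTR
import Pool.Agent.REG10.SASC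
import Pool.Agent.REG10.SDGR
import Pool.Agent.REG10.SBAS
import Pool.Agent.REG10.SCHW
import Pool.Agent.REG10.SFUW
import Pool.Agent.REG10.SWUX
import Pool.Agent.REG10.SPIR
import Pool.Agent.REG10.SSTC
import Pool.Agent.REG10.SRNK
import Pool.Agent.REG10.SGNR
import Pool.Agent.REG10.SCHD
import Pool.Agent.REG10.SSCA
import Pool.Agent.REG10.SCMP
import Pool.Agent.REG10.SIND
import Pool.Agent.REG10.SCLO
import Pool.Agent.REG10.SALL
import Pool.Agent.REG10.SRFF
import Pool.Agent.REG10.SRGX
import Pool.Agent.REG10.FN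

/-!
# REG10: assembly of the set-valued theorem on regular elements
-/

set_option autoImplicit false

namespace Pool.Agent.REG10

theorem ord : Stmt_ORD := ord_proof
theorem spl : Stmt_SPL := spl_proof ord
theorem osb : Stmt_OSB := osb_proof ord spl
theorem sgn : Stmt_SGN := sgn_proof ord
theorem dic : Stmt_DIC := dic_proof ord sgn
theorem fou : Stmt_FOU := fou_proof ord spl dic
theorem fiv : Stmt_FIV := fiv_proof ord spl osb dic fou
theorem gla : Stmt_GLA := gla_proof ord spl dic
theorem glb : Stmt_GLB := glb_proof ord spl gla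
theorem glu : Stmt_GLU := glu_proof ord spl osb dic gla glb
theorem ato : Stmt_ATO := ato_proof ord spl osb fiv glu
theorem eig : Stmt_EIG := eig_proof ord spl osb dic fiv glu ato
theorem nin : Stmt_NIN := nin_proof ord spl osb dic fiv ato eig
theorem ten : Stmt_TEN := ten_proof ord spl osb sgn dic fiv
theorem pia : Stmt_PIA := pia_proof ord spl osb dic fiv eig
theorem cls : Stmt_CLS := cls_proof ord osb ato nin ten pia
theorem ena : Stmt_ENA := ena_proof ord osb ato cls
theorem sstr : Stmt_SSTR := sstr_proof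
theorem sasc : Stmt_SASC := sasc_proof
theorem sdgr : Stmt_SDGR := sdgr_proof sasc
theorem sbas : Stmt_SBAS := sbas_proof sstr
theorem schw : Stmt_SCHW := schw_proof sbas
theorem sfuw : Stmt_SFUW := sfuw_proof sbas schw
theorem swux : Stmt_SWUX := swux_proof sstr sbas sdgr sfuw
theorem spir : Stmt_SPIR := spir_proof sbas sfuw
theorem sstc : Stmt_SSTC := sstc_proof
theorem srnk : Stmt_SRNK := srnk_proof ena
theorem sgnr : Stmt_SGNR := sgnr_proof sstc srnk
theorem schd : Stmt_SCHD := schd_proof schw
theorem ssca : Stmt_SSCA := ssca_proof sstr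
theorem scmp : Stmt_SCMP := scmp_proof
theorem sind : Stmt_SIND := sind_proof sstr
theorem sclo : Stmt_SCLO := sclo_proof ssca
theorem sall : Stmt_SALL := sall_proof sclo
theorem srff : Stmt_SRFF := srff_proof ssca scmp sind sall
theorem srgx : Stmt_SRGX := srgx_proof sbas swux spir sgnr schd srff

end Pool.Agent.REG10
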