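import Pool.Agent.REG10.Stmts
import Pool.Agent.ETCR.Sat

/-!
REG10, set-valued version of part B: quaternionic data `S` (`-1 = 1`) whose quaternions form only
a set.  All values which occur lie in `Q_x = {q(x, z)}`, which is the space `V / V_x`.
-/

set_option autoImplicit false

namespace Pool.Agent.REG10

open Module CommonSlot
open Pool.Agent.Helper58.PLine (QData)
open scoped BigOperators

section sv
variable {V Q : Type} [AddCommGroup V] [Module (ZMod 2) V]

/-- `Q_x`, as the space `V / V_x` -/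
abbrev BX (S : QData V Q) (x : V) : Type := V ⧸ S.ann x

/-- `v ↦ q(x, v)` -/
abbrev ta (S : QData V Q) (x : V) : V →ₗ[ZMod 2] BX S x := (S.ann x).mkQ

/-- `q(a, b) ∈ Q_x` -/
def InQ (S : QData V Q) (x a b : V) : Prop := ∃ z, S.q a b = S.q x z

open scoped Classical in
/-- the value `q(a, b)` as an element of `V / V_x` if it is in `Q_x`, and `0` otherwise -/
noncomputable def vl (S : QData V Q) (x a b : V) : BX S x :=
  if h : InQ S x a b then ta S x h.choose else 0

variable {S : QData V Q} {x : V}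

theorem ta_eq_iff {z z' : V} : ta S x z = ta S x z' ↔ S.q x z = S.q x z' := by
  rw [S.eq_iff]
  show (S.ann x).mkQ z = (S.ann x).mkQ z' ↔ _
  rw [Submodule.mkQ_apply, Submodule.mkQ_apply, Submodule.Quotient.eq, ZModModule.sub_eq_add]

theorem ta_eq_zero {z : V} : ta S x z = 0 ↔ S.q x z = S.z := by
  rw [show (0 : BX S x) = ta S x 0 from (map_zero _).symm, ta_eq_iff, S.q_zero]

theorem ta_surj (c : BX S x) : ∃ z, ta S x z = c := Submodule.mkQ_surjective _ c

theorem vl_eq {a b z : V} (h : S.q a b = S.q x z) : vl S x a b = ta S x z := by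
  have h' : InQ S x a b := ⟨z, h⟩
  unfold vl
  rw [dif_pos h', ta_eq_iff, ← h'.choose_spec, h]

theorem inq_x (z : V) : InQ S x x z := ⟨z, rfl⟩

theorem vl_x (z : V) : vl S x x z = ta S x z := vl_eq rfl

theorem InQ.exists {a b : V} (h : InQ S x a b) : ∃ z, S.q a b = S.q x z ∧ vl S x a b = ta S x z := by
  obtain ⟨z, hz⟩ := h
  exact ⟨z, hz, vl_eq hz⟩

/-- equal values -/
theorem vl_inj {a b a' b' : V} (h : InQ S x a b) (h' : InQ S x a' b') :
    vl S x a b = vl S x a' b' ↔ S.q a b = S.q a' b' := by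
  obtain ⟨z, hz⟩ := h
  obtain ⟨z', hz'⟩ := h'
  rw [vl_eq hz, vl_eq hz', ta_eq_iff, hz, hz']

theorem InQ.congr {a b a' b' : V} (h : InQ S x a b) (e : S.q a b = S.q a' b') :
    InQ S x a' b' := by
  obtain ⟨z, hz⟩ := h
  exact ⟨z, e.symm.trans hz⟩

theorem vl_congr {a b a' b' : V} (h : InQ S x a b) (e : S.q a b = S.q a' b') :
    vl S x a b = vl S x a' b' := (vl_inj h (h.congr e)).2 e

theorem inq_of_zero {a b : V} (h : S.q a b = S.z) : InQ S x a b := ⟨0, by rw [h, S.q_zero]⟩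

theorem vl_of_zero {a b : V} (h : S.q a b = S.z) : vl S x a b = 0 := by
  rw [vl_eq (z := 0) (by rw [h, S.q_zero]), map_zero]

theorem vl_eq_zero {a b : V} (h : InQ S x a b) : vl S x a b = 0 ↔ S.q a b = S.z := by
  constructor
  · intro e
    obtain ⟨z, hz⟩ := h
    rw [vl_eq hz, ta_eq_zero] at e
    rw [hz, e]
  · exact vl_of_zero

theorem InQ.symm {a b : V} (h : InQ S x a b) : InQ S x b a := by
  obtain ⟨z, hz⟩ := h
  exact ⟨z, by rw [S.symm, hz]⟩

theorem vl_symm {a b : V} (h : InQ S x a b) : vl S x a b = vl S x b a :=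
  vl_congr h (S.symm a b)

theorem InQ.add {a b b' : V} (h : InQ S x a b) (h' : InQ S x a b') : InQ S x a (b + b') := by
  obtain ⟨z, hz⟩ := h
  obtain ⟨z', hz'⟩ := h'
  exact ⟨z + z', ETC.add_common hz hz'⟩

theorem vl_add {a b b' : V} (h : InQ S x a b) (h' : InQ S x a b') :
    vl S x a (b + b') = vl S x a b + vl S x a b' := by
  obtain ⟨z, hz⟩ := h
  obtain ⟨z', hz'⟩ := h'
  rw [vl_eq hz, vl_eq hz', vl_eq (ETC.add_common hz hz'), map_add]

theorem InQ.add_left {a a' b : V} (h : InQ S x a b) (h' : InQ S x a' b) : InQ S x (a + a') b :=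
  (h.symm.add h'.symm).symm

theorem vl_add_left {a a' b : V} (h : InQ S x a b) (h' : InQ S x a' b) :
    vl S x (a + a') b = vl S x a b + vl S x a' b := by
  rw [vl_symm (h.add_left h'), vl_add h.symm h'.symm, vl_symm h.symm, vl_symm h'.symm]

/-- two out of three -/
theorem InQ.of_add {a b b' : V} (h : InQ S x a (b + b')) (h' : InQ S x a b) : InQ S x a b' := by
  have := h.add h'
  rwa [show b + b' + b = b' by rw [add_comm b, add_assoc, ZModModule.add_self, add_zero]] at this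

theorem InQ.of_add_left {a a' b : V} (h : InQ S x (a + a') b) (h' : InQ S x a b) :
    InQ S x a' b := (InQ.of_add h.symm h'.symm).symm

theorem inq_zero (a : V) : InQ S x a 0 := inq_of_zero (S.q_zero a)

theorem vl_zero (a : V) : vl S x a 0 = 0 := vl_of_zero (S.q_zero a)

theorem inq_zero_left (b : V) : InQ S x 0 b := (inq_zero b).symm

theorem vl_zero_left (b : V) : vl S x 0 b = 0 := by rw [vl_symm (inq_zero_left b), vl_zero]

theorem InQ.smul {a b : V} (c : ZMod 2) (h : InQ S x a b) : InQ S x a (c • b) := by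
  rcases CommonSlot.zm c with rfl | rfl
  · rw [zero_smul]; exact inq_zero a
  · rwa [one_smul]

theorem vl_smul {a b : V} (c : ZMod 2) : vl S x a (c • b) = c • vl S x a b := by
  rcases CommonSlot.zm c with rfl | rfl
  · rw [zero_smul, zero_smul, vl_zero]
  · rw [one_smul, one_smul]

theorem InQ.smul_left {a b : V} (c : ZMod 2) (h : InQ S x a b) : InQ S x (c • a) b := by
  rcases CommonSlot.zm c with rfl | rfl
  · rw [zero_smul]; exact inq_zero_left b
  · rwa [one_smul]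

theorem vl_smul_left {a b : V} (c : ZMod 2) : vl S x (c • a) b = c • vl S x a b := by
  rcases CommonSlot.zm c with rfl | rfl
  · rw [zero_smul, zero_smul, vl_zero_left]
  · rw [one_smul, one_smul]

theorem inq_sum {ι : Type} (s : Finset ι) (a : V) (f : ι → V) (h : ∀ i ∈ s, InQ S x a (f i)) :
    InQ S x a (∑ i ∈ s, f i) := by
  classical
  induction s using Finset.induction_on with
  | empty => rw [Finset.sum_empty]; exact inq_zero a
  | insert j s hj ih =>
    rw [Finset.sum_insert hj]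
    exact (h j (Finset.mem_insert_self j s)).add (ih fun i hi => h i (Finset.mem_insert_of_mem hi))

theorem vl_sum {ι : Type} (s : Finset ι) (a : V) (f : ι → V) (h : ∀ i ∈ s, InQ S x a (f i)) :
    vl S x a (∑ i ∈ s, f i) = ∑ i ∈ s, vl S x a (f i) := by
  classical
  induction s using Finset.induction_on with
  | empty => rw [Finset.sum_empty, Finset.sum_empty, vl_zero]
  | insert j s hj ih =>
    rw [Finset.sum_insert hj, Finset.sum_insert hj, vl_add (h j (Finset.mem_insert_self j s))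
      (inq_sum s a f fun i hi => h i (Finset.mem_insert_of_mem hi)),
      ih fun i hi => h i (Finset.mem_insert_of_mem hi)]

theorem inq_sum_left {ι : Type} (s : Finset ι) (b : V) (f : ι → V)
    (h : ∀ i ∈ s, InQ S x (f i) b) : InQ S x (∑ i ∈ s, f i) b :=
  (inq_sum s b f fun i hi => (h i hi).symm).symm

theorem vl_sum_left {ι : Type} (s : Finset ι) (b : V) (f : ι → V)
    (h : ∀ i ∈ s, InQ S x (f i) b) : vl S x (∑ i ∈ s, f i) b = ∑ i ∈ s, vl S x (f i) b := by
  rw [vl_symm (inq_sum_left s b f h), vl_sum s b f fun i hi => (h i hi).symm]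
  exact Finset.sum_congr rfl fun i hi => (vl_symm (h i hi)).symm

theorem vl_self (he : S.e = 0) (a : V) : vl S x a a = 0 :=
  vl_of_zero (Pool.Agent.ETCP.C.self he a)

theorem inq_self (he : S.e = 0) (a : V) : InQ S x a a :=
  inq_of_zero (Pool.Agent.ETCP.C.self he a)

/-- linkage with `x` -/
theorem InQ.link_x {a b : V} (h : InQ S x a b) : ∃ s, S.q a s = S.q a b ∧ S.q x s = S.q a b := by
  obtain ⟨z, hz⟩ := h
  obtain ⟨s, h1, h2⟩ := S.link _ _ _ _ hz
  exact ⟨s, h1.symm, by rw [hz, h2]⟩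

/-- linkage -/
theorem qlink {a b a' b' : V} (h : S.q a b = S.q a' b') :
    ∃ s, S.q a s = S.q a b ∧ S.q a' s = S.q a b := by
  obtain ⟨s, h1, h2⟩ := S.link _ _ _ _ h
  exact ⟨s, h1.symm, by rw [h, h2]⟩

/-! ### Regular elements -/

variable (S x)

/-- `x` is regular: `Q_w ⊆ Q_x` for all `w` with `q(x, w) = 0` -/
def SRg : Prop := ∀ w v, S.q x w = S.z → InQ S x w v

/-- nondegenerate -/
def SNd : Prop := ∀ v, (∀ w, S.q v w = S.z) → v = 0

/-- `V_x` is totally isotropic -/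
def SIso : Prop := ∀ u w, S.q x u = S.z → S.q x w = S.z → S.q u w = S.z

/-- `{a : Q_a ⊆ C}` for a subspace `C` of `Q_x` -/
def SQI (C : Submodule (ZMod 2) (BX S x)) : Submodule (ZMod 2) V where
  carrier := {a | ∀ v, InQ S x a v ∧ vl S x a v ∈ C}
  add_mem' := by
    intro a b ha hb v
    exact ⟨(ha v).1.add_left (hb v).1, by
      rw [vl_add_left (ha v).1 (hb v).1]; exact C.add_mem (ha v).2 (hb v).2⟩
  zero_mem' := by
    intro v
    exact ⟨inq_zero_left v, by rw [vl_zero_left]; exact C.zero_mem⟩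
  smul_mem' := by
    intro c a ha v
    exact ⟨(ha v).1.smul_left c, by rw [vl_smul_left]; exact C.smul_mem c (ha v).2⟩

/-- `W = {w : Q_w ⊆ Q_x}` -/
def SW : Submodule (ZMod 2) V := SQI S x ⊤

/-- `C = q(x, W)` -/
def SC : Submodule (ZMod 2) (BX S x) := (SW S x).map (ta S x)

variable {S x}

theorem mem_SQI {C : Submodule (ZMod 2) (BX S x)} {a : V} :
    a ∈ SQI S x C ↔ ∀ v, InQ S x a v ∧ vl S x a v ∈ C := Iff.rfl

theorem mem_SW {w : V} : w ∈ SW S x ↔ ∀ v, InQ S x w v :=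
  ⟨fun h v => (h v).1, fun h v => ⟨h v, Submodule.mem_top⟩⟩

theorem mem_SC {c : BX S x} : c ∈ SC S x ↔ ∃ w ∈ SW S x, ta S x w = c := Iff.rfl

theorem SQI_le_SW {C : Submodule (ZMod 2) (BX S x)} {a : V} (h : a ∈ SQI S x C) :
    a ∈ SW S x := mem_SW.2 fun v => (h v).1

/-- `vl` is bilinear on `W × V` -/
theorem SW_in {w : V} (h : w ∈ SW S x) (v : V) : InQ S x w v := mem_SW.1 h v

theorem SW_vl_add {w : V} (h : w ∈ SW S x) (v v' : V) :
    vl S x w (v + v') = vl S x w v + vl S x w v' := vl_add (SW_in h v) (SW_in h v')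

theorem SW_vl_add_left {w w' : V} (h : w ∈ SW S x) (h' : w' ∈ SW S x) (v : V) :
    vl S x (w + w') v = vl S x w v + vl S x w' v := vl_add_left (SW_in h v) (SW_in h' v)

/-- for `a` with `Q_a ⊆ Q_x`: `vl a x = q(x, a)` -/
theorem SW_vl_x {w : V} (h : w ∈ SW S x) : vl S x w x = ta S x w := by
  rw [vl_symm (SW_in h x), vl_x]

variable (S x)

/-- the bilinear map `Q_a ⊆ C`: `(a, v) ↦ q(a, v)` -/
noncomputable def bet (C : Submodule (ZMod 2) (BX S x)) : SQI S x C →ₗ[ZMod 2] V →ₗ[ZMod 2] C :=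
  LinearMap.mk₂ (ZMod 2) (fun a v => (⟨vl S x a v, (a.2 v).2⟩ : C))
    (fun a b v => Subtype.ext (vl_add_left (a.2 v).1 (b.2 v).1))
    (fun c _ _ => Subtype.ext (vl_smul_left c))
    (fun a v v' => Subtype.ext (vl_add (a.2 v).1 (a.2 v').1))
    (fun c _ _ => Subtype.ext (vl_smul c))

variable {S x}

theorem bet_val (C : Submodule (ZMod 2) (BX S x)) (a : SQI S x C) (v : V) :
    ((bet S x C a v : C) : BX S x) = vl S x a v := rfl

variable (S x)

/-- `y` is full: `q(s, y) ∈ C`, `s ∈ W` only for `Q_s ⊆ C` -/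
def SFull (y : V) : Prop := ∀ s ∈ SW S x, vl S x s y ∈ SC S x → s ∈ SQI S x (SC S x)

/-- Decomposition of `V / W` by the characters of `W` -/
structure SCW (k : ℕ) where
  P : Fin k → (V →ₗ[ZMod 2] V)
  χ : Fin k → (V →ₗ[ZMod 2] ZMod 2)
  PP : ∀ i v, P i (P i v) = P i v
  orth : ∀ i j, i ≠ j → ∀ v, P i (P j v) = 0
  sumW : ∀ v, v + ∑ i, P i v ∈ SW S x
  PW : ∀ i, ∀ w ∈ SW S x, P i w = 0
  /-- `q(w, P_i v) = χ_i(w) q(x, P_i v)` modulo `C` -/
  eig : ∀ i, ∀ w ∈ SW S x, ∀ v, vl S x w (P i v) + χ i w • ta S x (P i v) ∈ SC S x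
  sep : ∀ i j, i ≠ j → ∃ w ∈ SW S x, χ i w = 1 ∧ χ j w = 0
  ne : ∀ i, ∃ v, P i v ≠ 0

/-- `C'` is stable in `C`: `Q_a ⊆ C'` for all `a` with `Q_a ⊆ C` and `q(x, a) ∈ C'` -/
def SStb (C C' : Submodule (ZMod 2) (BX S x)) : Prop :=
  C' ≤ C ∧ ∀ a ∈ SQI S x C, ta S x a ∈ C' → a ∈ SQI S x C'

/-- the property (PI) for `x` and `C'` (with `X' = {a : Q_a ⊆ C'}`) -/
def SPI (C' : Submodule (ZMod 2) (BX S x)) : Prop :=
  ∀ (k l : Du (BX S x)) (y : V), (∀ a ∈ SQI S x C', k (vl S x a y) = l (ta S x a)) →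
    ∀ a ∈ SQI S x C', l (vl S x a y) = l (ta S x a)

/-- there is an element of rank one -/
def SRk1 (S : QData V Q) : Prop :=
  ∃ (p : V) (c : Q), c ≠ S.z ∧ (∀ v, S.q p v = S.z ∨ S.q p v = c) ∧ ∃ v, S.q p v = c

/-- The structure has a decomposition into local components and components with a rigid
element. -/
def SHasOS (S : QData V Q) : Prop :=
  ∃ (k : ℕ) (C : Pool.Agent.ETG.ZDec (fun v w => S.q v w = S.z) k), C.OS

/-- Decomposition of `V / V_x` by the characters of `V_x` (for `x` regular and `V_x` totally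
isotropic) -/
structure SCD (k : ℕ) where
  P : Fin k → (V →ₗ[ZMod 2] V)
  χ : Fin k → (V →ₗ[ZMod 2] ZMod 2)
  PP : ∀ i v, P i (P i v) = P i v
  orth : ∀ i j, i ≠ j → ∀ v, P i (P j v) = 0
  sumU : ∀ v, S.q x (v + ∑ i, P i v) = S.z
  PU : ∀ i u, S.q x u = S.z → P i u = 0
  χP : ∀ i j v, χ i (P j v) = 0
  eig : ∀ i u v, S.q x u = S.z → S.q u (P i v) = S.q x (χ i u • P i v)
  sep : ∀ i j, i ≠ j → ∃ u, S.q x u = S.z ∧ χ i u = 1 ∧ χ j u = 0
  ne : ∀ i, ∃ v, P i v ≠ 0

end sv

end Pool.Agent.REG10
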