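import Pool.Agent.REG10.Stmts

/-!
REG10, module ASC: associativity of the representation of ternary forms.
-/

set_option autoImplicit false

namespace Pool.Agent.REG10

open Module CommonSlot Pool.Agent.GTW

namespace ASC_

variable {B : Type} [AddCommGroup B] [Module (ZMod 2) B]

theorem dbl (x : B) : x + x = 0 := by
  have h : ((1 : ZMod 2) + 1) • x = 0 := by
    have h1 : (1 : ZMod 2) + 1 = 0 := by decide
    rw [h1, zero_smul]
  rwa [add_smul, one_smul] at h

theorem eqz {x y : B} (h : x + y = 0) : x = y := by
  have h2 := congrArg (· + y) h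
  simp only [add_assoc, dbl y, add_zero, zero_add] at h2
  exact h2

end ASC_

open ASC_

theorem asc_proof : Stmt_ASC := by
  intro V B _ _ _ _ q hq z a b c d h₁ h₂
  have dia : ∀ a, q a a = 0 := fun a => by rw [hq.diag, map_zero]
  have k₁ : q z d = q a z + q a d := by
    apply eqz
    rw [← h₁]
    simp only [map_add, LinearMap.add_apply, dia a, hq.symm a z]
    abel
  have k₂ : q c b + q c d = q b d := by
    apply eqz
    rw [← h₂]
    simp only [map_add, LinearMap.add_apply, dia b, hq.symm c b, hq.symm c d, hq.symm d b]
    abel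
  have e : q (a + b) (d + z) = q (c + z) (d + b) := by
    simp only [map_add, LinearMap.add_apply]
    have k₃ : q c d + q z d + (q c b + q z b) = (q c b + q c d) + (q z d + q z b) := by abel
    rw [k₃, k₂, k₁, hq.symm z b]
    abel
  obtain ⟨r, g₁, g₂⟩ := hq.link _ _ _ _ e
  refine ⟨r + d + b + z, ?_, ?_⟩
  · have s : r + d + b + z + a = r + (d + z) + (a + b) := by abel
    rw [s, hq.symm _ (a + b), map_add (q (a + b)), map_add (q (a + b)), dia (a + b), add_zero,
      g₁, dbl]
  · have s : r + d + b + z + c = r + (d + b) + (c + z) := by abel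
    have s' : z + c = c + z := add_comm _ _
    rw [s, s', map_add (q (c + z)), map_add (q (c + z)), dia (c + z), add_zero, g₂, ← e, dbl]

end Pool.Agent.REG10
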