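import Pool.Agent.REG10.Stmts
import Pool.Agent.GTW.STR

/-!
REG10 BAS: basic facts on a regular element.
-/

set_option autoImplicit false

namespace Pool.Agent.REG10

open Module CommonSlot Pool.Agent.GTW
open scoped BigOperators

namespace BAS_

section
variable {V B : Type} [AddCommGroup V] [Module (ZMod 2) V] [AddCommGroup B] [Module (ZMod 2) B]
  {q : V →ₗ[ZMod 2] V →ₗ[ZMod 2] B} {x : V}

theorem mem (hx : Rg q x) (s : V) (h : q x s ∈ CC q x) : s ∈ WW q x := by
  obtain ⟨w, hw, he⟩ := (mem_CC q x _).1 h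
  have h1 : q x (s + w) = 0 := by rw [map_add, he, ZModModule.add_self]
  have h2 : s + w ∈ WW q x := (mem_WW q x _).2 fun v => hx _ v h1
  have h3 : s = (s + w) + w := by rw [add_assoc, ZModModule.add_self, add_zero]
  rw [h3]
  exact (WW q x).add_mem h2 hw

theorem a (hq : IsLinked q 0) (w : V) (hw : w ∈ WW q x) (v : V) :
    ∃ s, q w s = q w v ∧ q x s = q w v := by
  obtain ⟨z, hz⟩ := (mem_WW q x w).1 hw v
  exact hq.link _ _ _ _ hz.symm

theorem b (hq : IsLinked q 0) (hx : Rg q x) (w v z : V)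
    (h1 : q (x + w) v = 0) (h2 : q w z = 0) : ∃ u, q x u = q v z := by
  have h : q x v = q w v := by
    rw [map_add, LinearMap.add_apply] at h1
    have := eq_of_add_eq_zero' h1
    exact this
  obtain ⟨a, g, ha, hg, he⟩ := str_proof V B q hq x v w v z h h2
  obtain ⟨u1, hu1⟩ := hx g z hg
  obtain ⟨u2, hu2⟩ := hx a v ha
  obtain ⟨u3, hu3⟩ := hx a g ha
  refine ⟨u1 + u2 + u3, ?_⟩
  rw [map_add, map_add, hu1, hu2, hu3]
  rw [map_add, map_add, LinearMap.add_apply, LinearMap.add_apply] at he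
  -- he : q z v + q a v + (q z g + q a g) = 0
  rw [hq.symm v z, hq.symm g z]
  have h5 : q z v = q a v + (q z g + q a g) := by
    apply eq_of_add_eq_zero'
    rw [← add_assoc]
    exact he
  rw [h5]
  abel

theorem c (hq : IsLinked q 0) (hx : Rg q x) (w : V) (hw : w ∈ WW q x) (w' : V)
    (hw' : w' ∈ WW q x) : q w w' ∈ CC q x := by
  obtain ⟨z, hz1, hz2⟩ := a hq w hw w'
  have hzx : q (x + w) z = 0 := by
    rw [map_add, LinearMap.add_apply, hz1, hz2, ZModModule.add_self]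
  have hzw : q w (z + w') = 0 := by rw [map_add, hz1, ZModModule.add_self]
  refine (mem_CC q x _).2 ⟨z, (mem_WW q x _).2 fun v => ?_, hz2⟩
  obtain ⟨s, hs1, hs2⟩ := a hq w hw v
  have hsx : q (x + w) s = 0 := by
    rw [map_add, LinearMap.add_apply, hs1, hs2, ZModModule.add_self]
  have hsw : q w (v + s) = 0 := by rw [map_add, hs1, ZModModule.add_self]
  obtain ⟨u1, hu1⟩ := b hq hx w z (v + s) hzx hsw
  obtain ⟨u2, hu2⟩ := b hq hx w s (z + w') hsx hzw
  obtain ⟨u3, hu3⟩ := (mem_WW q x w').1 hw' s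
  refine ⟨u1 + (u2 + u3), ?_⟩
  rw [map_add, map_add, hu1, hu2, hu3, map_add, map_add, hq.symm w' s, add_assoc (q s z),
    ZModModule.add_self, add_zero, hq.symm s z, add_assoc, ZModModule.add_self, add_zero]

end

end BAS_

theorem bas_proof : Stmt_BAS := by
  intro V B _ _ _ _ q x hq hx
  refine ⟨?_, ?_, ?_, ?_, ?_, ?_, ?_, ?_, ?_⟩
  · intro u hu
    exact (mem_WW q x u).2 fun v => hx u v hu
  · exact (mem_WW q x x).2 fun v => ⟨v, rfl⟩
  · intro c hc
    obtain ⟨w, _, he⟩ := (mem_CC q x c).1 hc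
    exact ⟨w, he⟩
  · intro C' hC a ha
    refine (mem_WW q x a).2 fun v => ?_
    obtain ⟨w, _, he⟩ := (mem_CC q x _).1 (hC (ha v))
    exact ⟨w, he⟩
  · exact fun s hs => BAS_.mem hx s hs
  · exact fun w hw v => BAS_.a hq w hw v
  · exact fun w _ v z h1 h2 => BAS_.b hq hx w v z h1 h2
  · exact fun w hw w' hw' => BAS_.c hq hx w hw w' hw'
  · intro C' hC a ha v
    obtain ⟨w, _, he⟩ := (mem_CC q x _).1 (hC (ha v))
    obtain ⟨s, hs1, hs2⟩ := hq.link _ _ _ _ he.symm
    refine ⟨s, BAS_.mem hx s ?_, hs1⟩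
    rw [hs2]
    exact hC (ha v)

end Pool.Agent.REG10
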