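import Pool.Agent.REG10.Stmts

/-!
REG10, module DGR: the elements represented by a 2-fold Pfister form.
-/

set_option autoImplicit false

namespace Pool.Agent.REG10

open Module CommonSlot Pool.Agent.GTW

namespace DGR_

variable {V B : Type} [AddCommGroup V] [Module (ZMod 2) V] [AddCommGroup B] [Module (ZMod 2) B]

/-- the symmetric expression `q(z,a) + q(z,b) + q(a,b)` -/
def TT (q : V →ₗ[ZMod 2] V →ₗ[ZMod 2] B) (z a b : V) : B := q z a + q z b + q a b

variable {q : V →ₗ[ZMod 2] V →ₗ[ZMod 2] B}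

theorem dia (hq : IsLinked q 0) (a : V) : q a a = 0 := by
  rw [hq.diag, map_zero]

theorem tt_zab (hq : IsLinked q 0) (z a b : V) : q (z + a) (a + b) = TT q z a b := by
  simp only [TT, map_add, LinearMap.add_apply, dia hq a]
  abel

theorem tt_zcg (hq : IsLinked q 0) (z g c : V) : q (z + c) (g + c) = TT q z g c := by
  simp only [TT, map_add, LinearMap.add_apply, dia hq c, hq.symm c g]
  abel

theorem tt_swap (hq : IsLinked q 0) (z a b : V) : TT q z a b = TT q a z b := by
  simp only [TT, hq.symm a z]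
  abel

theorem tt_swap' (hq : IsLinked q 0) (z a b : V) : TT q z a b = TT q z b a := by
  simp only [TT, hq.symm b a]
  abel

theorem asc' (hA : Stmt_ASC) (hq : IsLinked q 0) (z a b c d : V) (h₁ : TT q z a d = 0)
    (h₂ : TT q d b c = 0) : ∃ g, TT q g a b = 0 ∧ TT q z g c = 0 := by
  obtain ⟨g, h, h'⟩ := hA V B q hq z a b c d (by rw [tt_zab hq]; exact h₁)
    (by rw [tt_zab hq]; exact h₂)
  refine ⟨g, ?_, ?_⟩
  · rw [← tt_zab hq]; exact h
  · rw [← tt_zcg hq]; exact h'

end DGR_

open DGR_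

theorem dgr_proof (hASC : Stmt_ASC) : Stmt_DGR := by
  intro V B _ _ _ _ q hq x w v₁ v₂ h₁ h₂
  have e₂ : q x v₂ = q w v₂ := by
    rw [map_add, LinearMap.add_apply] at h₂
    exact eq_of_add_eq_zero' h₂
  -- step 1
  obtain ⟨b₁, hb, hb'⟩ := asc' hASC hq (v₁ + v₂) v₂ w x (v₂ + w)
    (by
      simp only [TT, map_add, LinearMap.add_apply, dia hq v₂, hq.symm v₁ w, h₁]
      rw [add_zero, zero_add, ← add_assoc, ZModModule.add_self, zero_add,
        ZModModule.add_self])
    (by
      simp only [TT, map_add, LinearMap.add_apply, dia hq w, hq.symm v₂ x, hq.symm v₂ w, e₂]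
      rw [add_zero, ← add_assoc, ZModModule.add_self, zero_add, ZModModule.add_self])
  -- step 2
  obtain ⟨a₁, ha, ha'⟩ := asc' hASC hq b₁ w 0 (x + w) v₂
    (by rw [tt_swap' hq]; exact hb)
    (by
      simp only [TT, map_add, map_zero, LinearMap.zero_apply, hq.symm v₂ x, hq.symm v₂ w, e₂]
      rw [ZModModule.add_self, zero_add, zero_add])
  -- step 3
  obtain ⟨b₂, hc, hc'⟩ := asc' hASC hq (v₁ + v₂) x (x + w) a₁ b₁
    (by rw [tt_swap' hq]; exact hb')
    (by rw [tt_swap' hq]; exact ha')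
  have e₃ : q b₂ w = q x w := by
    simp only [TT, map_add, dia hq x] at hc
    apply eq_of_add_eq_zero'
    rw [← hc, zero_add, ← add_assoc (q b₂ x), ZModModule.add_self, zero_add]
  -- step 4
  obtain ⟨y, hd, hd'⟩ := asc' hASC hq (v₁ + v₂) b₂ w 0 a₁ hc'
    (by
      simp only [TT, map_zero, add_zero] at ha ⊢
      exact ha)
  refine ⟨y, b₂ + w, ?_, ?_⟩
  · simp only [TT] at hd
    rw [map_add, ← e₃]
    exact (eq_of_add_eq_zero' hd).symm
  · simp only [TT, map_zero, add_zero] at hd'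
    rw [hq.symm]
    exact hd'

end Pool.Agent.REG10
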