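import Pool.Agent.GTW.Defs
import Pool.Agent.ETC.Saturation

/-!
REG10: a regular element gives a rank one element (`-1 = 1`, abstract structures, all `Iⁿ`),
problem MP_d26ff6_al, note 1659.  Recipes: /team-store/MP_d26ff6_REG10.md
-/

set_option autoImplicit false

namespace Pool.Agent.REG10

open Module CommonSlot Pool.Agent.GTW
open scoped BigOperators

/-! ## Part A: the abstract framework: a bilinear map `β : X × V → C` and an element `t` of `V` -/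

/-- functionals -/
abbrev Du (M : Type) [AddCommGroup M] [Module (ZMod 2) M] : Type := M →ₗ[ZMod 2] ZMod 2

section fr
variable {V X C : Type} [AddCommGroup V] [Module (ZMod 2) V] [AddCommGroup X] [Module (ZMod 2) X]
  [AddCommGroup C] [Module (ZMod 2) C]

/-- `K_l = {y : l(β(a, y)) = 0 for all a}` -/
def KK (β : X →ₗ[ZMod 2] V →ₗ[ZMod 2] C) (l : Du C) : Submodule (ZMod 2) V :=
  LinearMap.ker (β.compr₂ l).flip

/-- `N_l = {a : l(β(a, v)) = 0 for all v}` -/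
def NN (β : X →ₗ[ZMod 2] V →ₗ[ZMod 2] C) (l : Du C) : Submodule (ZMod 2) X :=
  LinearMap.ker (β.compr₂ l)

/-- `l X`: the functionals `v ↦ l(β(a, v))` on `V` -/
def LX (β : X →ₗ[ZMod 2] V →ₗ[ZMod 2] C) (l : Du C) : Submodule (ZMod 2) (Du V) :=
  LinearMap.range (β.compr₂ l)

theorem mem_KK (β : X →ₗ[ZMod 2] V →ₗ[ZMod 2] C) (l : Du C) (y : V) :
    y ∈ KK β l ↔ ∀ a, l (β a y) = 0 := by
  unfold KK
  rw [LinearMap.mem_ker, LinearMap.ext_iff]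
  rfl

theorem mem_NN (β : X →ₗ[ZMod 2] V →ₗ[ZMod 2] C) (l : Du C) (a : X) :
    a ∈ NN β l ↔ ∀ v, l (β a v) = 0 := by
  unfold NN
  rw [LinearMap.mem_ker, LinearMap.ext_iff]
  rfl

theorem mem_LX (β : X →ₗ[ZMod 2] V →ₗ[ZMod 2] C) (l : Du C) (φ : Du V) :
    φ ∈ LX β l ↔ ∃ a, ∀ v, l (β a v) = φ v := by
  unfold LX
  rw [LinearMap.mem_range]
  constructor
  · rintro ⟨a, rfl⟩
    exact ⟨a, fun v => rfl⟩
  · rintro ⟨a, h⟩
    exact ⟨a, LinearMap.ext h⟩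

/-- The framework. -/
structure FR (β : X →ₗ[ZMod 2] V →ₗ[ZMod 2] C) (t : V) : Prop where
  /-- `β(X, t) = C` -/
  surj : ∀ c, ∃ a, β a t = c
  /-- (SG) sign: if `k(β(a, ·)) = l(β(b, ·))` then `k = l` on `Q_a ∩ Q_b` -/
  sg : ∀ (k l : Du C) (a b : X), (∀ v, k (β a v) = l (β b v)) →
    ∀ v v', β a v = β b v' → k (β a v) = l (β a v)
  /-- (PI) -/
  pi : ∀ (k l : Du C) (y : V), (∀ a, k (β a y) = l (β a t)) → ∀ a, l (β a y) = l (β a t)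
  /-- `dim l X ≥ 2` for `l ≠ 0` -/
  rho : ∀ l : Du C, l ≠ 0 → ∀ φ : Du V, ∃ ψ ∈ LX β l, ψ ≠ 0 ∧ ψ ≠ φ

/-- `l ≤ k` -/
def LE (β : X →ₗ[ZMod 2] V →ₗ[ZMod 2] C) (t : V) (l k : Du C) : Prop :=
  ∃ y, ∀ a, k (β a y) = l (β a t)

/-- atom for the relation `≤` -/
def Atom (β : X →ₗ[ZMod 2] V →ₗ[ZMod 2] C) (t : V) (s : Du C) : Prop :=
  s ≠ 0 ∧ ∀ l, LE β t l s → l = 0 ∨ l = s

/-- `l` and `m` are separated: `V = K_l + K_m` -/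
def DS (β : X →ₗ[ZMod 2] V →ₗ[ZMod 2] C) (l m : Du C) : Prop := KK β l ⊔ KK β m = ⊤

/-- orthogonal set of atoms: the subspaces `r X` (`r ∈ S`) are independent -/
def OSA (β : X →ₗ[ZMod 2] V →ₗ[ZMod 2] C) (t : V) (S : Finset (Du C)) : Prop :=
  (∀ r ∈ S, Atom β t r) ∧ ∀ f : Du C → Du V, (∀ r ∈ S, f r ∈ LX β r) →
    ∑ r ∈ S, f r = 0 → ∀ r ∈ S, f r = 0

/-- `r ~ s` for atoms -/
def Eqv (β : X →ₗ[ZMod 2] V →ₗ[ZMod 2] C) (r s : Du C) : Prop :=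
  r = s ∨ ∃ φ, φ ≠ 0 ∧ φ ∈ LX β r ∧ φ ∈ LX β s

end fr

/-! ## Part B: regular elements -/

section rg
variable {V B : Type} [AddCommGroup V] [Module (ZMod 2) V] [AddCommGroup B] [Module (ZMod 2) B]

/-- `{a : Q_a ⊆ C}` -/
def QI (q : V →ₗ[ZMod 2] V →ₗ[ZMod 2] B) (C : Submodule (ZMod 2) B) : Submodule (ZMod 2) V where
  carrier := {a | ∀ v, q a v ∈ C}
  add_mem' := by
    intro a b ha hb v
    rw [map_add, LinearMap.add_apply]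
    exact C.add_mem (ha v) (hb v)
  zero_mem' := by
    intro v
    rw [map_zero, LinearMap.zero_apply]
    exact C.zero_mem
  smul_mem' := by
    intro c a ha v
    rw [map_smul, LinearMap.smul_apply]
    exact C.smul_mem c (ha v)

theorem mem_QI (q : V →ₗ[ZMod 2] V →ₗ[ZMod 2] B) (C : Submodule (ZMod 2) B) (a : V) :
    a ∈ QI q C ↔ ∀ v, q a v ∈ C := Iff.rfl

/-- `W = {w : Q_w ⊆ Q_x}` -/
def WW (q : V →ₗ[ZMod 2] V →ₗ[ZMod 2] B) (x : V) : Submodule (ZMod 2) V :=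
  QI q (LinearMap.range (q x))

theorem mem_WW (q : V →ₗ[ZMod 2] V →ₗ[ZMod 2] B) (x w : V) :
    w ∈ WW q x ↔ ∀ v, ∃ z, q x z = q w v := Iff.rfl

/-- `C = q(x, W)` -/
def CC (q : V →ₗ[ZMod 2] V →ₗ[ZMod 2] B) (x : V) : Submodule (ZMod 2) B := (WW q x).map (q x)

theorem mem_CC (q : V →ₗ[ZMod 2] V →ₗ[ZMod 2] B) (x : V) (c : B) :
    c ∈ CC q x ↔ ∃ w ∈ WW q x, q x w = c := Iff.rfl

/-- `y` is full: `q(s, y) ∈ C`, `s ∈ W` only for `Q_s ⊆ C` -/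
def FullW (q : V →ₗ[ZMod 2] V →ₗ[ZMod 2] B) (x y : V) : Prop :=
  ∀ s ∈ WW q x, q s y ∈ CC q x → s ∈ QI q (CC q x)

/-- Decomposition of `V / W` by the characters of `W` -/
structure CW (q : V →ₗ[ZMod 2] V →ₗ[ZMod 2] B) (x : V) (k : ℕ) where
  P : Fin k → (V →ₗ[ZMod 2] V)
  χ : Fin k → (V →ₗ[ZMod 2] ZMod 2)
  PP : ∀ i v, P i (P i v) = P i v
  orth : ∀ i j, i ≠ j → ∀ v, P i (P j v) = 0
  sumW : ∀ v, v + ∑ i, P i v ∈ WW q x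
  PW : ∀ i, ∀ w ∈ WW q x, P i w = 0
  /-- `q(w, P_i v) = χ_i(w) q(x, P_i v)` modulo `C` -/
  eig : ∀ i, ∀ w ∈ WW q x, ∀ v, q w (P i v) + χ i w • q x (P i v) ∈ CC q x
  sep : ∀ i j, i ≠ j → ∃ w ∈ WW q x, χ i w = 1 ∧ χ j w = 0
  ne : ∀ i, ∃ v, P i v ≠ 0

/-- `C'` is stable in `C`: `Q_a ⊆ C'` for all `a` with `Q_a ⊆ C` and `q(x, a) ∈ C'` -/
def Stb (q : V →ₗ[ZMod 2] V →ₗ[ZMod 2] B) (x : V) (C C' : Submodule (ZMod 2) B) : Prop :=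
  C' ≤ C ∧ ∀ a ∈ QI q C, q x a ∈ C' → a ∈ QI q C'

/-- the property (PI) for `x` and `C'` (with `X' = {a : Q_a ⊆ C'}`) -/
def PIp (q : V →ₗ[ZMod 2] V →ₗ[ZMod 2] B) (x : V) (C' : Submodule (ZMod 2) B) : Prop :=
  ∀ (k l : Du B) (y : V), (∀ a ∈ QI q C', k (q a y) = l (q a x)) →
    ∀ a ∈ QI q C', l (q a y) = l (q a x)

/-- there is an element of rank one -/
def Rk1 (q : V →ₗ[ZMod 2] V →ₗ[ZMod 2] B) : Prop :=
  ∃ (p : V) (c : B), c ≠ 0 ∧ (∀ v, q p v = 0 ∨ q p v = c) ∧ ∃ v, q p v = c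

end rg

end Pool.Agent.REG10
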