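import Pool.Agent.REG10.Stmts

/-!
REG10, module FUW: every element is a sum of three full elements.
-/

set_option autoImplicit false

namespace Pool.Agent.REG10

open Module CommonSlot Pool.Agent.GTW
open scoped BigOperators

namespace FUW_

variable {V B : Type} [AddCommGroup V] [Module (ZMod 2) V] [AddCommGroup B] [Module (ZMod 2) B]
variable {q : V →ₗ[ZMod 2] V →ₗ[ZMod 2] B} {x : V} {k : ℕ}

/-- `c` is a value of `q(x, ·)` -/
abbrev Qx (q : V →ₗ[ZMod 2] V →ₗ[ZMod 2] B) (x : V) : Submodule (ZMod 2) B :=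
  LinearMap.range (q x)

theorem val_mem {w : V} (hw : w ∈ WW q x) (v : V) : q w v ∈ Qx q x := hw v

theorem val_mem' (hq : IsLinked q 0) {w : V} (hw : w ∈ WW q x) (v : V) : q v w ∈ Qx q x := by
  rw [hq.symm v w]
  exact hw v

theorem alt (hq : IsLinked q 0) (v : V) : q v v = 0 := by
  rw [hq.diag v, map_zero]

/-- (1) different components are orthogonal modulo `Q_x` -/
theorem orth_mod (hq : IsLinked q 0) (hb : Bas q x) (D : CW q x k) (i j : Fin k) (hij : i ≠ j)
    (v z : V) : q (D.P i v) (D.P j z) ∈ Qx q x := by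
  obtain ⟨w, hw, hi, hj⟩ := D.sep i j hij
  obtain ⟨s, hs1, hs2⟩ := hb.a w hw (D.P i v)
  have hw1 : s + D.P i v ∈ WW q x := by
    apply hb.mem
    rw [map_add, hs2]
    have := D.eig i w hw v
    rw [hi, one_smul] at this
    exact this
  obtain ⟨s', hs1', hs2'⟩ := hb.a w hw (D.P j z)
  have hs'W : s' ∈ WW q x := by
    apply hb.mem
    rw [hs2']
    have := D.eig j w hw z
    rw [hj, zero_smul, add_zero] at this
    exact this
  have h0 : q w (D.P j z + s') = 0 := by
    rw [map_add, hs1', ZModModule.add_self]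
  have h1 : q (x + w) s = 0 := by
    rw [map_add, LinearMap.add_apply, hs2, hs1, ZModModule.add_self]
  obtain ⟨u, hu⟩ := hb.b w hw s (D.P j z + s') h1 h0
  have hA : q s (D.P j z + s') ∈ Qx q x := ⟨u, hu⟩
  have hB : q s s' ∈ Qx q x := val_mem' hq hs'W s
  have hC : q (s + D.P i v) (D.P j z) ∈ Qx q x := val_mem hw1 _
  have e : q (D.P i v) (D.P j z) =
      q s (D.P j z + s') + q s s' + q (s + D.P i v) (D.P j z) := by
    simp only [map_add, LinearMap.add_apply]
    have h2 : ∀ a b c : B, c = a + b + b + (a + c) := by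
      intro a b c
      rw [add_assoc a b b, ZModModule.add_self, add_zero, ← add_assoc, ZModModule.add_self,
        zero_add]
    exact h2 _ _ _
  rw [e]
  exact (Qx q x).add_mem ((Qx q x).add_mem hA hB) hC

/-- (2) two different nonzero elements in the range of `P_i` -/
theorem two (hq : IsLinked q 0) (hb : Bas q x) (D : CW q x k) (i : Fin k) :
    ∃ e₁ e₂, D.P i e₁ = e₁ ∧ D.P i e₂ = e₂ ∧ e₁ ≠ 0 ∧ e₂ ≠ 0 ∧ e₁ ≠ e₂ := by
  obtain ⟨v, hv⟩ := D.ne i
  have hnW : D.P i v ∉ WW q x := by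
    intro h
    apply hv
    rw [← D.PP i v]
    exact D.PW i _ h
  have h1 : ∃ v'', q (D.P i v) v'' ∉ Qx q x := by
    by_contra h
    push Not at h
    exact hnW h
  obtain ⟨v'', hv''⟩ := h1
  have h2 : q (D.P i v) (D.P i v'') ∉ Qx q x := by
    intro h
    apply hv''
    have e : q (D.P i v) v'' =
        q (D.P i v) (v'' + ∑ j, D.P j v'') + ∑ j, q (D.P i v) (D.P j v'') := by
      rw [map_add, map_sum, add_assoc, ZModModule.add_self, add_zero]
    rw [e]
    refine (Qx q x).add_mem (val_mem' hq (D.sumW v'') _) (Submodule.sum_mem _ fun j _ => ?_)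
    by_cases hij : i = j
    · subst hij
      exact h
    · exact orth_mod hq hb D i j hij v v''
  refine ⟨D.P i v, D.P i v'', D.PP i v, D.PP i v'', hv, ?_, ?_⟩
  · intro h
    rw [h, map_zero] at h2
    exact h2 (Submodule.zero_mem _)
  · intro h
    rw [← h, alt hq] at h2
    exact h2 (Submodule.zero_mem _)

theorem three (hq : IsLinked q 0) (hb : Bas q x) (D : CW q x k) (i : Fin k) (a : V) :
    ∃ b₁ b₂, D.P i b₁ = b₁ ∧ D.P i b₂ = b₂ ∧ b₁ ≠ 0 ∧ b₂ ≠ 0 ∧ a + b₁ + b₂ ≠ 0 := by
  obtain ⟨e₁, e₂, h1, h2, h3, h4, h5⟩ := two hq hb D i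
  by_cases ha : a = 0
  · refine ⟨e₁, e₂, h1, h2, h3, h4, ?_⟩
    rw [ha, zero_add]
    intro h
    exact h5 (eq_of_add_eq_zero' h)
  · refine ⟨e₁, e₁, h1, h1, h3, h3, ?_⟩
    rw [add_assoc, ZModModule.add_self, add_zero]
    exact ha

/-- (3) -/
theorem full_of (hb : Bas q x) (D : CW q x k) (y : V) (hy : ∀ i, D.P i y ≠ 0) :
    FullW q x y := by
  intro s hs hsy
  have hsum : ∑ i, q s (D.P i y) ∈ CC q x := by
    have e : ∑ i, q s (D.P i y) = q s (y + ∑ i, D.P i y) + q s y := by
      rw [map_add, map_sum, add_comm (q s y), add_assoc, ZModModule.add_self, add_zero]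
    rw [e]
    exact (CC q x).add_mem (hb.c s hs _ (D.sumW y)) hsy
  have h1 : q x (∑ i, D.χ i s • D.P i y) ∈ CC q x := by
    have e : q x (∑ i, D.χ i s • D.P i y) =
        ∑ i, (q s (D.P i y) + D.χ i s • q x (D.P i y)) + ∑ i, q s (D.P i y) := by
      rw [map_sum, Finset.sum_add_distrib, add_comm (∑ i, q s (D.P i y)), add_assoc,
        ZModModule.add_self, add_zero]
      exact Finset.sum_congr rfl fun i _ => by rw [map_smul]
    rw [e]
    exact (CC q x).add_mem (Submodule.sum_mem _ fun i _ => D.eig i s hs y) hsum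
  have h2 := hb.mem _ h1
  have h3 : ∀ i, D.χ i s = 0 := by
    intro i
    have h4 := D.PW i _ h2
    rw [map_sum, Finset.sum_eq_single i] at h4
    · rw [map_smul, D.PP] at h4
      rcases zm (D.χ i s) with h | h
      · exact h
      · rw [h, one_smul] at h4
        exact absurd h4 (hy i)
    · intro j _ hji
      rw [map_smul, D.orth i j (Ne.symm hji), smul_zero]
    · intro h
      exact absurd (Finset.mem_univ i) h
  intro v
  have e : q s v = q s (v + ∑ i, D.P i v) + ∑ i, q s (D.P i v) := by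
    rw [map_add, map_sum, add_assoc, ZModModule.add_self, add_zero]
  rw [e]
  refine (CC q x).add_mem (hb.c s hs _ (D.sumW v)) (Submodule.sum_mem _ fun i _ => ?_)
  have := D.eig i s hs v
  rw [h3 i, zero_smul, add_zero] at this
  exact this

end FUW_

open FUW_ in
theorem fuw_proof (hBAS : Stmt_BAS) (hCHW : Stmt_CHW) : Stmt_FUW := by
  intro V B _ _ _ _ _ q x hq hx y
  have hb := hBAS V B q x hq hx
  obtain ⟨k, ⟨D⟩⟩ := hCHW V B q x hq hx
  choose b₁ b₂ h1 h2 h3 h4 h5 using fun i => three hq hb D i (D.P i y)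
  have key : ∀ (b : Fin k → V), (∀ i, D.P i (b i) = b i) → ∀ i, D.P i (∑ j, b j) = b i := by
    intro b hbb i
    rw [map_sum, Finset.sum_eq_single i]
    · exact hbb i
    · intro j _ hji
      rw [← hbb j, D.orth i j (Ne.symm hji)]
    · intro h
      exact absurd (Finset.mem_univ i) h
  refine ⟨∑ i, b₁ i, ∑ i, b₂ i, full_of hb D _ ?_, full_of hb D _ ?_, full_of hb D _ ?_⟩
  · intro i
    rw [key b₁ h1 i]
    exact h3 i
  · intro i
    rw [key b₂ h2 i]
    exact h4 i
  · intro i
    rw [map_add, map_add, key b₁ h1 i, key b₂ h2 i]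
    exact h5 i

end Pool.Agent.REG10
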