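import Pool.Agent.Lib_MP_d26ff6_al.Defs
import Pool.Agent.REG10.SAll
import Pool.Agent.REG10.ER

/-!
The elementary type conjecture for finite quaternionic structures with `-1 = 1`: regular elements.

Parked hand-in (claim text of the planned `RegularTheorem`, see departures of helper82):

Proves: Let S=(G,-1,q) be a finite quaternionic structure with -1=1. Call x in G regular if q(w,v)∈q(x,G) for all v in G and all w with q(x,w)=0. (1) If S has a regular element, then |G|=1, or S is a group extension T[t], or a product of two nontrivial structures, or some q(p,·) has exactly one nonzero value. (2) If moreover all linked subgroups U≠G are of elementary type, so is S. (3) If every linked subgroup U (also G) has a regular element in U, S is of elementary type. (4) The Elementary Type Conjecture for -1=1 holds iff every finite S with -1=1 has a regular element.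
Definitions: QStruct: quaternionic structure (QS1-QS4). ElemType: elementary type, closed under isomorphism. Linked S U: QS4 holds inside U. sub: S restricted to U. Regular S U x: x∈U regular inside U (w, v and the values q(x,z) taken in U). IsExt, IsProd (both factors have -1=1, order >=1), HasRankOne: the cases of (1).
Relation: Step on Q1: for all finite structures with -1=1 it reduces the conjecture to the existence of one element with a first-order property, and proves it for all structures that have such elements hereditarily. New to our knowledge. It contains, for -1=1, the case of a common slot (q(x,G)=Q); nearest earlier work: Marshall, Carson-Marshall, Kula; Ware and Berman on rigid elements.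
-/

namespace Pool.Agent.REG10.Final

open QS

/-- `U` is a linked subgroup: (QS4) holds inside `U`. -/
def Linked (S : QStruct) (U : Subgroup S.G) : Prop :=
  ∀ a ∈ U, ∀ b ∈ U, ∀ c ∈ U, ∀ d ∈ U, S.q a b = S.q c d →
    ∃ x ∈ U, S.q a b = S.q a x ∧ S.q c d = S.q c x

/-- `x` is a regular element of the subgroup `U`: `x ∈ U`, and for all `v, w ∈ U` with
`q (x, w) = 0` the quaternion `q (w, v)` is of the form `q (x, z)`, `z ∈ U`. -/
def Regular (S : QStruct) (U : Subgroup S.G) (x : S.G) : Prop :=
  x ∈ U ∧ ∀ w ∈ U, S.q x w = S.zero → ∀ v ∈ U, ∃ z ∈ U, S.q x z = S.q w v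

/-- The structure induced by `S` (with `-1 = 1`) on a linked subgroup `U`: the group is `U`, the
quaternions are the `q (a, b)` with `a, b ∈ U`. -/
def sub (S : QStruct) (hneg : S.neg = 1) (U : Subgroup S.G) (h : Linked S U) : QStruct where
  G := U
  Q := {β : S.Q // ∃ a b : U, S.q a b = β}
  neg := 1
  zero := ⟨S.zero, 1, 1, S.q_one 1⟩
  q := fun a b => ⟨S.q a b, a, b, rfl⟩
  exp_two := fun a => Subtype.ext (S.exp_two a)
  surj := fun ⟨β, a, b, h⟩ => ⟨a, b, Subtype.ext h⟩
  qs1 := fun a => Subtype.ext (by
    have := S.qs1 (a : S.G)
    rw [hneg] at this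
    simpa using this)
  qs2 := fun a b => Subtype.ext (S.qs2 a b)
  qs3 := by
    intro a b c
    rw [Subtype.mk.injEq, Subtype.mk.injEq]
    exact S.qs3 _ _ _
  qs4 := by
    intro a b c d e
    obtain ⟨x, hx, h1, h2⟩ := h a a.2 b b.2 c c.2 d d.2 (congrArg Subtype.val e)
    exact ⟨⟨x, hx⟩, Subtype.ext h1, Subtype.ext h2⟩

/-- `S` is isomorphic to a group extension `T[x]`. -/
def IsExt (S : QStruct) : Prop := ∃ T : QStruct, Iso S (ext T)

/-- `S` is isomorphic to a direct product of two nontrivial structures. -/
def IsProd (S : QStruct) : Prop :=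
  ∃ A B : QStruct, A.neg = 1 ∧ B.neg = 1 ∧ 2 ≤ Nat.card A.G ∧ 2 ≤ Nat.card B.G ∧ Iso (prod A B) S

/-- For some `x` there is exactly one nonzero quaternion of the form `q (x, y)`. -/
def HasRankOne (S : QStruct) : Prop :=
  ∃ (x : S.G) (c : S.Q), c ≠ S.zero ∧ (∀ y, S.q x y = S.zero ∨ S.q x y = c) ∧ ∃ y, S.q x y = c

/-- Regular elements (`-1 = 1`).  (1) A finite structure with a regular element is trivial, a group
extension, a product of two nontrivial structures, or some `q (x, ·)` has exactly one nonzero
value.  (2) It is of elementary type if its proper linked subgroups are of elementary type.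
(3) If every linked subgroup has a regular element then `S` is of elementary type.  (4) The
elementary type conjecture for `-1 = 1` holds if and only if every finite structure with `-1 = 1`
has a regular element. -/
theorem regular_theorem :
    (∀ S : QStruct, Finite S.G → S.neg = 1 → (∃ x, Regular S ⊤ x) →
      Nat.card S.G = 1 ∨ IsExt S ∨ IsProd S ∨ HasRankOne S) ∧
    (∀ (S : QStruct) (hneg : S.neg = 1), Finite S.G → (∃ x, Regular S ⊤ x) →
      (∀ (U : Subgroup S.G) (h : Linked S U), U ≠ ⊤ → ElemType (sub S hneg U h)) →
      ElemType S) ∧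
    (∀ S : QStruct, Finite S.G → S.neg = 1 →
      (∀ U : Subgroup S.G, Linked S U → ∃ x, Regular S U x) → ElemType S) ∧
    ((∀ S : QStruct, Finite S.G → S.neg = 1 → ElemType S) ↔
      ∀ S : QStruct, Finite S.G → S.neg = 1 → ∃ x, Regular S ⊤ x) := by
  have hreg : ∀ S : QStruct, (∃ x, Regular S ⊤ x) ↔ REG10.HasReg S ⊤ := fun S => Iff.rfl
  refine ⟨?_, ?_, ?_, ?_⟩
  · intro S hf hneg hx
    obtain ⟨x, hx⟩ := (REG10.regE_iff S).2 ((hreg S).1 hx)
    rcases REG10.struct_thm REG10.srgx S hneg x hx with h | h
    · left
      have hs : Subsingleton S.G := ⟨fun a b => by rw [h a, h b]⟩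
      exact Nat.card_unique
    · exact Or.inr h
  · intro S hneg hf hx hU
    exact REG10.elem_of_regular REG10.srgx S hneg ((hreg S).1 hx) hU
  · intro S hf hneg hU
    exact REG10.elem_of_hreg REG10.srgx _ S hf rfl hneg hU
  · rw [REG10.etc_iff REG10.srgx]
    constructor
    · intro h S hf hneg
      exact (hreg S).2 ((REG10.regE_iff S).1 (h S hf hneg))
    · intro h S hf hneg
      exact (REG10.regE_iff S).2 ((hreg S).1 (h S hf hneg))

end Pool.Agent.REG10.Final
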