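import Pool.Agent.REG10.Stmts

set_option autoImplicit false

namespace Pool.Agent.REG10

open Module CommonSlot Pool.Agent.GTW
open scoped BigOperators

theorem gnr_proof (hSTC : Stmt_STC) (hRNK : Stmt_RNK) : Stmt_GNR := by
  intro V B _ _ _ _ _ _ q x C hq hC hs hPI
  rcases hSTC V B q x C hq hC hs hPI with h | ⟨C', β, hC', hβ, hFR⟩
  · exact h
  · exact hRNK V B q x C' β hq hC' hβ hFR

end Pool.Agent.REG10
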