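import Pool.Agent.REG10.Stmts

/-!
REG10, module ORD: basic facts on the relation `l ≤ k`.
-/

set_option autoImplicit false

namespace Pool.Agent.REG10

open Module CommonSlot Pool.Agent.GTW
open scoped BigOperators

namespace ORD_

/-- a functional of `V` killed by the common zeros of a subspace of the dual lies in it -/
theorem dbl {V : Type} [AddCommGroup V] [Module (ZMod 2) V] [Finite V]
    (L : Submodule (ZMod 2) (Du V)) (φ : Du V)
    (h : ∀ y, (∀ ψ ∈ L, ψ y = 0) → φ y = 0) : φ ∈ L := by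
  have e : Submodule.dualAnnihilator (Submodule.dualCoannihilator L) = L :=
    Subspace.dualCoannihilator_dualAnnihilator_eq
  rw [← e, Submodule.mem_dualAnnihilator]
  intro y hy
  rw [Submodule.mem_dualCoannihilator] at hy
  exact h y hy

/-- double orthogonal inside `V` -/
theorem dblV {V : Type} [AddCommGroup V] [Module (ZMod 2) V]
    (K : Submodule (ZMod 2) V) (v : V)
    (h : ∀ ψ : Du V, (∀ y ∈ K, ψ y = 0) → ψ v = 0) : v ∈ K := by
  have e : Submodule.dualCoannihilator (Submodule.dualAnnihilator K) = K :=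
    Subspace.dualAnnihilator_dualCoannihilator_eq
  rw [← e, Submodule.mem_dualCoannihilator]
  intro ψ hψ
  rw [Submodule.mem_dualAnnihilator] at hψ
  exact h ψ hψ

/-- representation of functionals by a bilinear form -/
theorem rep {X V : Type} [AddCommGroup V] [Module (ZMod 2) V] [Finite V]
    [AddCommGroup X] [Module (ZMod 2) X] (γ : X →ₗ[ZMod 2] V →ₗ[ZMod 2] ZMod 2)
    (φ : Du V) (h : ∀ y, (∀ a, γ a y = 0) → φ y = 0) : ∃ a, ∀ y, γ a y = φ y := by
  have h1 : φ ∈ LinearMap.range γ := by
    apply dbl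
    intro y hy
    apply h
    intro a
    exact hy (γ a) ⟨a, rfl⟩
  obtain ⟨a, ha⟩ := h1
  exact ⟨a, fun y => by rw [ha]⟩

section
variable {V X C : Type} [AddCommGroup V] [Module (ZMod 2) V] [Finite V]
  [AddCommGroup X] [Module (ZMod 2) X] [Finite X]
  [AddCommGroup C] [Module (ZMod 2) C] [Finite C]
  (β : X →ₗ[ZMod 2] V →ₗ[ZMod 2] C) (t : V)

theorem LX_iff (l : Du C) (φ : Du V) : φ ∈ LX β l ↔ ∀ y ∈ KK β l, φ y = 0 := by
  constructor
  · intro h y hy
    obtain ⟨a, ha⟩ := (mem_LX β l φ).1 h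
    rw [← ha]
    exact (mem_KK β l y).1 hy a
  · intro h
    apply dbl
    intro y hy
    apply h
    rw [mem_KK]
    intro a
    exact hy (β.compr₂ l a) ⟨a, rfl⟩

theorem KK_of_LX (l : Du C) (y : V) (h : ∀ φ ∈ LX β l, φ y = 0) : y ∈ KK β l := by
  rw [mem_KK]
  intro a
  exact h (β.compr₂ l a) ⟨a, rfl⟩

/-- functionals of `X` vanishing on `N_k` are of the form `k y` -/
theorem repX (k : Du C) (ψ : X →ₗ[ZMod 2] ZMod 2) (h : ∀ a ∈ NN β k, ψ a = 0) :
    ∃ y, ∀ a, k (β a y) = ψ a := by
  have := rep (β.compr₂ k).flip ψ (by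
    intro a ha
    apply h
    rw [mem_NN]
    intro v
    exact ha v)
  obtain ⟨y, hy⟩ := this
  exact ⟨y, fun a => hy a⟩

theorem le_of_NN' (l k : Du C) (h : ∀ a ∈ NN β k, l (β a t) = 0) : LE β t l k := by
  obtain ⟨y, hy⟩ := repX β k (l.comp (β.flip t)) (by
    intro a ha
    exact h a ha)
  exact ⟨y, fun a => hy a⟩

end

section
variable {V X C : Type} [AddCommGroup V] [Module (ZMod 2) V] [Finite V]
  [AddCommGroup X] [Module (ZMod 2) X] [Finite X]
  [AddCommGroup C] [Module (ZMod 2) C] [Finite C]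
  {β : X →ₗ[ZMod 2] V →ₗ[ZMod 2] C} {t : V}

theorem add_zero_iff (x y : ZMod 2) (h : x + y = 0) : x = y :=
  CharTwo.add_eq_zero.1 h

theorem KK_le (hF : FR β t) (l k : Du C) (h : LE β t l k) : KK β k ≤ KK β l := by
  obtain ⟨y, hy⟩ := h
  intro r hr
  rw [mem_KK] at hr ⊢
  have h1 : ∀ a, l (β a y) = l (β a t) := hF.pi k l y hy
  have h2 : ∀ a, l (β a (y + r)) = l (β a t) := by
    apply hF.pi k l (y + r)
    intro a
    rw [map_add, map_add, hr a, add_zero, hy a]
  intro a
  have h3 := h2 a
  rw [map_add, map_add, h1 a] at h3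
  exact left_eq_add.1 h3.symm

theorem LX_le (hF : FR β t) (l k : Du C) (h : LE β t l k) : LX β l ≤ LX β k := by
  intro φ hφ
  rw [LX_iff] at hφ ⊢
  intro y hy
  exact hφ y (KK_le hF l k h hy)

theorem le_iff (hF : FR β t) (l k : Du C) :
    LE β t l k ↔ ∃ u ∈ KK β l, ∃ u' ∈ KK β (k + l), u + u' = t := by
  constructor
  · rintro ⟨y, hy⟩
    have h1 : ∀ a, l (β a y) = l (β a t) := hF.pi k l y hy
    refine ⟨y + t, ?_, y, ?_, ?_⟩
    · rw [mem_KK]
      intro a
      rw [map_add, map_add, h1 a]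
      exact CharTwo.add_self_eq_zero _
    · rw [mem_KK]
      intro a
      rw [LinearMap.add_apply, hy a, h1 a]
      exact CharTwo.add_self_eq_zero _
    · rw [add_right_comm, ZModModule.add_self, zero_add]
  · rintro ⟨u, hu, u', hu', rfl⟩
    rw [mem_KK] at hu hu'
    refine ⟨u', fun a => ?_⟩
    have h1 := hu' a
    rw [LinearMap.add_apply] at h1
    rw [map_add, map_add, hu a, zero_add]
    exact CharTwo.add_eq_zero.1 h1

theorem add_add_self (l m : Du C) : l + m + l = m := by
  rw [add_right_comm, ZModModule.add_self, zero_add]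

theorem add_add_self' (l m : Du C) : l + m + m = l := by
  rw [add_assoc, ZModModule.add_self, add_zero]

theorem orth_iff' (hF : FR β t) (l m : Du C) :
    LE β t l (l + m) ↔ ∃ u ∈ KK β l, ∃ u' ∈ KK β m, u + u' = t := by
  rw [le_iff hF, add_add_self]

theorem orth_symm (hF : FR β t) (l m : Du C) (h : LE β t l (l + m)) : LE β t m (l + m) := by
  obtain ⟨u, hu, u', hu', e⟩ := (orth_iff' hF l m).1 h
  rw [le_iff hF, add_add_self']
  exact ⟨u', hu', u, hu, by rw [add_comm]; exact e⟩

theorem orth_iff (hF : FR β t) (l m : Du C) :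
    LE β t l (l + m) ↔ ∀ φ, φ ∈ LX β l → φ ∈ LX β m → φ t = 0 := by
  rw [orth_iff' hF]
  constructor
  · rintro ⟨u, hu, u', hu', rfl⟩ φ h1 h2
    rw [LX_iff] at h1 h2
    rw [map_add, h1 u hu, h2 u' hu', add_zero]
  · intro h
    have h1 : t ∈ KK β l ⊔ KK β m := by
      apply dblV
      intro ψ hψ
      apply h ψ
      · rw [LX_iff]
        intro y hy
        exact hψ y (Submodule.mem_sup_left hy)
      · rw [LX_iff]
        intro y hy
        exact hψ y (Submodule.mem_sup_right hy)
    exact Submodule.mem_sup.1 h1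

theorem orth_KK (hF : FR β t) (l m : Du C) (h : LE β t l (l + m)) :
    KK β (l + m) = KK β l ⊓ KK β m := by
  apply le_antisymm
  · exact le_inf (KK_le hF _ _ h) (KK_le hF _ _ (orth_symm hF l m h))
  · rintro y ⟨h1, h2⟩
    rw [SetLike.mem_coe, mem_KK] at h1 h2
    rw [mem_KK]
    intro a
    rw [LinearMap.add_apply, h1 a, h2 a, add_zero]

theorem orth_LX (hF : FR β t) (l m : Du C) (h : LE β t l (l + m)) :
    LX β (l + m) = LX β l ⊔ LX β m := by
  apply le_antisymm
  · intro φ hφ
    apply dbl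
    intro y hy
    rw [LX_iff] at hφ
    apply hφ
    rw [orth_KK hF l m h]
    exact ⟨KK_of_LX β l y (fun ψ hψ => hy ψ (Submodule.mem_sup_left hψ)),
      KK_of_LX β m y (fun ψ hψ => hy ψ (Submodule.mem_sup_right hψ))⟩
  · exact sup_le (LX_le hF _ _ h) (LX_le hF _ _ (orth_symm hF l m h))

theorem eq_of (hF : FR β t) (l k : Du C) (h : LE β t l k) (e : KK β k = KK β l) : l = k := by
  obtain ⟨u, hu, u', hu', rfl⟩ := (le_iff hF l k).1 h
  have hu2 := hu
  rw [← e] at hu2
  rw [mem_KK] at hu hu' hu2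
  apply LinearMap.ext
  intro c
  obtain ⟨a, rfl⟩ := hF.surj c
  rw [map_add, map_add, map_add, hu a, hu2 a, zero_add, zero_add]
  have h1 := hu' a
  rw [LinearMap.add_apply] at h1
  exact (CharTwo.add_eq_zero.1 h1).symm

end

end ORD_

theorem ord_proof : Stmt_ORD := by
  intro V X C _ _ _ _ _ _ _ _ _ β t hF
  exact
    { zero_le := fun k => ⟨0, fun a => by rw [map_zero, map_zero, LinearMap.zero_apply]⟩
      refl := fun k => ⟨t, fun a => rfl⟩
      add_le := by
        rintro l l' k ⟨y, hy⟩ ⟨y', hy'⟩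
        exact ⟨y + y', fun a => by rw [map_add, map_add, hy a, hy' a, LinearMap.add_apply]⟩
      wit := by
        rintro l k ⟨y, hy⟩
        exact ⟨y, hy, hF.pi k l y hy⟩
      LX_iff := ORD_.LX_iff β
      KK_le := ORD_.KK_le hF
      LX_le := ORD_.LX_le hF
      eq_of := ORD_.eq_of hF
      le_iff := ORD_.le_iff hF
      orth_symm := ORD_.orth_symm hF
      orth_iff := ORD_.orth_iff hF
      orth_KK := ORD_.orth_KK hF
      orth_LX := ORD_.orth_LX hF
      le_of_NN := by
        intro l k h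
        apply ORD_.le_of_NN'
        intro a ha
        exact (mem_NN β l a).1 (h ha) t
      ne := by
        intro l hl
        have h1 : ∃ c, l c ≠ 0 := by
          by_contra hc
          push Not at hc
          exact hl (LinearMap.ext hc)
        obtain ⟨c, hc⟩ := h1
        obtain ⟨a, rfl⟩ := hF.surj c
        refine ⟨β.compr₂ l a, ⟨a, rfl⟩, ?_⟩
        rcases CommonSlot.zm (l (β a t)) with h | h
        · exact absurd h hc
        · exact h
      val := by
        intro k a b h
        have h1 : b + β a t ∈ (NN β k).map (β.flip t) := by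
          apply ORD_.dblV
          intro m hm
          have h2 : LE β t m k := by
            apply ORD_.le_of_NN'
            intro n hn
            exact hm (β.flip t n) ⟨n, hn, rfl⟩
          rw [map_add, h m h2]
          exact CharTwo.add_self_eq_zero _
        obtain ⟨n, hn, e⟩ := h1
        refine ⟨n, hn, ?_⟩
        have e' : β n t = b + β a t := e
        rw [map_add, LinearMap.add_apply, e', add_left_comm, ZModModule.add_self, add_zero] }

end Pool.Agent.REG10
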