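import Pool.Agent.REG10.Stmts

/-!
REG10 PIR: the property (PI) for regular elements.
-/

set_option autoImplicit false

namespace Pool.Agent.REG10

open Module CommonSlot Pool.Agent.GTW
open scoped BigOperators

namespace PIR_

section
variable {V B : Type} [AddCommGroup V] [Module (ZMod 2) V] [AddCommGroup B] [Module (ZMod 2) B]

/-- double orthogonal -/
theorem dbl [Finite V] (q : V →ₗ[ZMod 2] V →ₗ[ZMod 2] B) (X : Submodule (ZMod 2) V) (k : Du B)
    (K : Submodule (ZMod 2) V) (hK : ∀ y, (∀ a ∈ X, k (q a y) = 0) → y ∈ K) (f : Du V)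
    (hf : ∀ y ∈ K, f y = 0) : ∃ a ∈ X, ∀ v, f v = k (q a v) := by
  let F : V →ₗ[ZMod 2] (X →ₗ[ZMod 2] ZMod 2) := ((q.compr₂ k).domRestrict X).flip
  have hF : ∀ (v : V) (a : X), F v a = k (q a v) := fun v a => rfl
  have h1 : f ∈ (LinearMap.ker F).dualAnnihilator := by
    rw [Submodule.mem_dualAnnihilator]
    intro y hy
    apply hf
    apply hK
    intro a ha
    have h2 := LinearMap.congr_fun (LinearMap.mem_ker.1 hy) (⟨a, ha⟩ : X)
    rw [hF] at h2
    exact h2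
  rw [← LinearMap.range_dualMap_eq_dualAnnihilator_ker] at h1
  obtain ⟨G, hG⟩ := h1
  have : Module.Finite (ZMod 2) V := Module.Finite.of_finite
  have : Module.Finite (ZMod 2) X := Module.Finite.of_finite
  obtain ⟨a, rfl⟩ := (Module.evalEquiv (ZMod 2) X).surjective G
  refine ⟨a, a.2, fun v => ?_⟩
  have h3 := LinearMap.congr_fun hG v
  rw [← h3]
  rfl

end

end PIR_

theorem pir_proof (hBAS : Stmt_BAS) (hFUW : Stmt_FUW) : Stmt_PIR := by
  intro V B _ _ _ _ _ _ q x hq hx C' hC' k l y hy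
  have bas := hBAS V B q x hq hx
  -- full elements
  have h1 : ∀ y, FullW q x y → (∀ a ∈ QI q C', k (q a y) = l (q a x)) →
      ∀ a ∈ QI q C', l (q a y) = l (q a x) := by
    intro y hyf hyk a ha
    have hc : q a y ∈ C' := (mem_QI q C' a).1 ha y
    obtain ⟨v, hv⟩ := bas.CC_le _ (hC'.1 hc)
    obtain ⟨s, hs1, hs2⟩ := hq.link y a x v (by rw [hv, hq.symm y a])
    rw [hq.symm y a] at hs1 hs2
    have hsW : s ∈ WW q x := bas.mem s (by rw [hs2]; exact hC'.1 hc)
    have hsC : s ∈ QI q (CC q x) := hyf s hsW (by rw [hq.symm s y, hs1]; exact hC'.1 hc)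
    have hs' : s ∈ QI q C' := hC'.2 s hsC (by rw [hs2]; exact hc)
    have h2 : q (a + s) y = 0 := by
      rw [map_add, LinearMap.add_apply, hq.symm s y, hs1, ZModModule.add_self]
    have h3 := hyk (a + s) ((QI q C').add_mem ha hs')
    rw [h2, map_zero, map_add, LinearMap.add_apply, map_add] at h3
    have h4 : l (q a x) = l (q s x) := eq_of_add_eq_zero' h3.symm
    rw [h4, hq.symm s x, hs2]
  -- the subspace `K`
  let K : Submodule (ZMod 2) V :=
    { carrier := {y | ∀ a ∈ QI q C', k (q a y) = 0}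
      add_mem' := by
        intro u v hu hv a ha
        rw [map_add, map_add, hu a ha, hv a ha, add_zero]
      zero_mem' := by
        intro a _
        rw [map_zero, map_zero]
      smul_mem' := by
        intro c u hu a ha
        rw [map_smul, map_smul, hu a ha, smul_zero] }
  have hKmem : ∀ y, y ∈ K ↔ ∀ a ∈ QI q C', k (q a y) = 0 := fun y => Iff.rfl
  have hKW : ∀ z : V, ∃ κ ∈ K, ∃ w ∈ WW q x, κ + w = z := by
    intro z
    rw [← Submodule.mem_sup]
    by_contra hz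
    obtain ⟨f, hf1, hf2⟩ := exists_functional hz
    obtain ⟨a, ha, hfa⟩ := PIR_.dbl q (QI q C') k K (fun y hy => (hKmem y).2 hy) f
      (fun y hy => hf2 y (Submodule.mem_sup_left hy))
    obtain ⟨s, hs, hs2⟩ := bas.e C' hC'.1 a ha z
    apply hf1
    rw [hfa, ← hs2, ← hfa]
    exact hf2 s (Submodule.mem_sup_right hs)
  -- translation by elements of `W`
  have hfw : ∀ y w, FullW q x y → w ∈ WW q x → FullW q x (y + w) := by
    intro y w hyf hw s hs h
    apply hyf s hs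
    have h5 : q s y = q s (y + w) + q s w := by
      rw [map_add, add_assoc, ZModModule.add_self, add_zero]
    rw [h5]
    exact (CC q x).add_mem h (bas.c s hs w hw)
  have hkk : ∀ κ ∈ K, ∀ a ∈ QI q C', k (q a (y + κ)) = l (q a x) := by
    intro κ hκ a ha
    rw [map_add, map_add, (hKmem κ).1 hκ a ha, add_zero, hy a ha]
  obtain ⟨y₁, y₂, hy1, hy2, hy3⟩ := hFUW V B q x hq hx y
  obtain ⟨κ₁, hκ1, w₁, hw1, he1⟩ := hKW (y₁ + y)
  obtain ⟨κ₂, hκ2, w₂, hw2, he2⟩ := hKW (y₂ + y)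
  have ez : ∀ z : V, z + z = 0 := fun z => ZModModule.add_self z
  have e1 : y + κ₁ = y₁ + w₁ := by
    have : κ₁ = y₁ + y + w₁ := by rw [← he1, add_assoc, ez, add_zero]
    rw [this]
    calc y + (y₁ + y + w₁) = (y + y) + (y₁ + w₁) := by abel
      _ = y₁ + w₁ := by rw [ez, zero_add]
  have e2 : y + κ₂ = y₂ + w₂ := by
    have : κ₂ = y₂ + y + w₂ := by rw [← he2, add_assoc, ez, add_zero]
    rw [this]
    calc y + (y₂ + y + w₂) = (y + y) + (y₂ + w₂) := by abel
      _ = y₂ + w₂ := by rw [ez, zero_add]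
  have e3 : y + (κ₁ + κ₂) = (y + y₁ + y₂) + (w₁ + w₂) := by
    calc y + (κ₁ + κ₂) = (y + y) + (y + (κ₁ + κ₂)) := by rw [ez, zero_add]
      _ = y + ((y + κ₁) + (y + κ₂)) := by abel
      _ = y + ((y₁ + w₁) + (y₂ + w₂)) := by rw [e1, e2]
      _ = (y + y₁ + y₂) + (w₁ + w₂) := by abel
  have r1 := h1 (y + κ₁) (by rw [e1]; exact hfw _ _ hy1 hw1) (hkk κ₁ hκ1)
  have r2 := h1 (y + κ₂) (by rw [e2]; exact hfw _ _ hy2 hw2) (hkk κ₂ hκ2)
  have r3 := h1 (y + (κ₁ + κ₂))
    (by rw [e3]; exact hfw _ _ hy3 ((WW q x).add_mem hw1 hw2)) (hkk _ (K.add_mem hκ1 hκ2))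
  intro a ha
  have e4 : y = (y + κ₁) + ((y + κ₂) + (y + (κ₁ + κ₂))) := by
    calc y = y + ((y + y) + ((κ₁ + κ₁) + (κ₂ + κ₂))) := by rw [ez, ez, ez, add_zero, add_zero, add_zero]
      _ = (y + κ₁) + ((y + κ₂) + (y + (κ₁ + κ₂))) := by abel
  have h6 : l (q a y) = l (q a (y + κ₁)) + (l (q a (y + κ₂)) + l (q a (y + (κ₁ + κ₂)))) := by
    rw [← map_add, ← map_add, ← map_add, ← map_add, ← e4]
  rw [h6, r1 a ha, r2 a ha, r3 a ha, ZModModule.add_self, add_zero]

end Pool.Agent.REG10
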