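import Pool.Agent.REG10.Stmts
import Pool.Agent.GTW.All

/-!
REG10, module RGX: the theorem on regular elements (problem MP_d26ff6_al).
-/

set_option autoImplicit false

namespace Pool.Agent.REG10

open Module CommonSlot Pool.Agent.GTW
open scoped BigOperators

/-- RGX: a regular element gives an orthogonal decomposition or an element of rank one. -/
theorem rgx_proof (hBAS : Stmt_BAS) (hWUX : Stmt_WUX) (hPIR : Stmt_PIR) (hGNR : Stmt_GNR) :
    Stmt_RGX := by
  intro V B _ _ _ _ _ _ q x hq hnd hreg
  have bas := hBAS V B q x hq hreg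
  by_cases hC : CC q x = ⊥
  · left
    refine Pool.Agent.GTW.rft V B q x hq hnd hreg ?_
    intro u w hu hw
    have h := bas.c u (bas.ker_le u hu) w (bas.ker_le w hw)
    rw [hC] at h
    exact (Submodule.mem_bot _).1 h
  · right
    refine hGNR V B q x (CC q x) hq hC ?_ (fun C' hC' _ => hPIR V B q x hq hreg C' hC')
    intro c hc
    obtain ⟨w, hw, rfl⟩ := (mem_CC q x c).1 hc
    obtain ⟨u, hu, hwu⟩ := hWUX V B q x hq hreg w hw
    refine ⟨w + u, hwu, ?_⟩
    rw [map_add, hu, add_zero]

end Pool.Agent.REG10
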