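import Pool.Agent.ETCR.Fin

/-!
# REG10: structures with a rank one element, relative version (helper50's note RK1, Lean of
helper29, relative form: helper82)
-/

set_option autoImplicit false
set_option linter.unusedSimpArgs false
set_option linter.unnecessarySeqFocus false
set_option linter.unusedSectionVars false
set_option linter.unusedVariables false

namespace Pool.Agent.REG10

open QS
open Pool.Agent.ETCR
open Pool.Agent.Helper58.PLine (QData)
open Pool.Agent.ETCP
open ETC (D)

/-- `U` is a linked subgroup: (QS4) holds inside `U`. -/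
def Lsub (S : QStruct) (U : Subgroup S.G) : Prop :=
  ∀ a ∈ U, ∀ b ∈ U, ∀ c ∈ U, ∀ d ∈ U, S.q a b = S.q c d →
    ∃ x ∈ U, S.q a b = S.q a x ∧ S.q c d = S.q c x

/-- the commutative case -/
theorem case2r (S : QStruct) [Finite S.G] (hneg : S.neg = 1)
    (hnd : ∀ a, (∀ b, S.q a b = S.zero) → a = 1)
    {c : S.Q} {s : Additive S.G} {f : Additive S.G →ₗ[ZMod 2] ZMod 2}
    (X : One (ETC.toData S) s c f)
    (hcomm : ∀ t t', XC (ETC.toData S) c t → XC (ETC.toData S) c t' → C (ETC.toData S) t t') :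
    ∃ (U : Subgroup S.G) (h4 : Lsub S U), Nat.card U < Nat.card S.G ∧
      (ElemType (ESL.PRODRECX.sub S hneg U h4) → (∃ T : QStruct, Iso S (ext T)) ∨ Decomp S) := by
  have hfin : Finite (Additive S.G) := (inferInstance : Finite S.G)
  have := Fintype.ofFinite (Additive S.G)
  have hW : ∀ u, f u = 0 → Wp (ETC.toData S) f u → u ∈ X.W0 :=
    fun u hu hw => (X.mem_W0' hcomm).2 ⟨hu, hw⟩
  obtain ⟨g, hgs, hg⟩ := ETC.exists_dual_sep X.s_notMem_W0
  obtain ⟨U, hU⟩ := zspan S (LinearMap.ker g)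
  obtain ⟨HF, hHF⟩ := zspan S (LinearMap.ker f)
  obtain ⟨HW, hHW⟩ := zspan S X.W0
  have h4 : ∀ a ∈ U, ∀ b ∈ U, ∀ c ∈ U, ∀ d ∈ U, S.q a b = S.q c d →
      ∃ x ∈ U, S.q a b = S.q a x ∧ S.q c d = S.q c x := by
    intro a ha b hb c' hc' d hd h
    obtain ⟨x, hx, h1, h2⟩ := X.linkU hW hg hgs (Additive.ofMul a) ((hU a).1 ha)
      (Additive.ofMul b) ((hU b).1 hb) (Additive.ofMul c') ((hU c').1 hc')
      (Additive.ofMul d) ((hU d).1 hd) h
    exact ⟨Additive.toMul x, (hU _).2 hx, h1, h2⟩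
  let T := ESL.PRODRECX.sub S hneg U h4
  have hz := ESL.PRODRECX.sub_zero_iff S hneg U h4
  have hUt : U ≠ ⊤ := by
    intro e
    have : Additive.toMul s ∈ U := by rw [e]; trivial
    have h5 : g s = 0 := (hU _).1 this
    rw [hgs] at h5
    exact one_ne_zero h5
  have hTf : Finite T.G := (inferInstance : Finite U)
  have hTc : Nat.card T.G < Nat.card S.G := by
    have h5 : Nat.card U ≤ Nat.card S.G := Subgroup.card_le_card_group U
    have h6 : Nat.card U ≠ Nat.card S.G := by
      intro e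
      exact hUt (Subgroup.eq_top_of_card_eq U e)
    exact lt_of_le_of_ne h5 h6
  refine ⟨U, h4, hTc, fun hTE => ?_⟩
  -- the subgroups of `T`
  have hmF : ∀ a : U, a ∈ HF.comap U.subtype ↔ f (Additive.ofMul (a : S.G)) = 0 :=
    fun a => hHF a
  have hmW : ∀ a : U, a ∈ HW.comap U.subtype ↔ Additive.ofMul (a : S.G) ∈ X.W0 :=
    fun a => hHW a
  have hgU : ∀ a : U, g (Additive.ofMul (a : S.G)) = 0 := fun a => (hU a).1 a.2
  have f1 : ∀ x, ¬ f x = 0 → f x = 1 := fun x h => (ETC.zm (f x)).resolve_left h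
  have hPt : Pt T (HF.comap U.subtype) (HW.comap U.subtype) := by
    refine ⟨?_, ?_, ?_, ?_, ?_⟩
    · obtain ⟨v, hv⟩ := X.hf
      rcases ETC.zm (g v) with hgv | hgv
      · refine ⟨⟨Additive.toMul v, (hU _).2 hgv⟩, fun e => ?_⟩
        have h5 : f v = 0 := (hmF _).1 e
        rw [hv] at h5
        exact one_ne_zero h5
      · refine ⟨⟨Additive.toMul (v + s), (hU _).2 (by
          show g (v + s) = 0
          rw [map_add, hgv, hgs]; decide)⟩, fun e => ?_⟩
        have h5 : f (v + s) = 0 := (hmF _).1 e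
        rw [map_add, hv, X.fs] at h5
        exact one_ne_zero h5
    · intro a b ha hb
      have ha' := f1 _ (fun e => ha ((hmF a).2 e))
      have hb' := f1 _ (fun e => hb ((hmF b).2 e))
      apply (hmF (a * b)).2
      show f (Additive.ofMul ((show U from a) : S.G) + Additive.ofMul ((show U from b) : S.G)) = 0
      rw [map_add, ha', hb']; decide
    · intro a ha
      exact (hmF a).2 (X.W0_f ((hmW a).1 ha))
    · intro t h ht hh hq
      have ht' := f1 _ (fun e => ht ((hmF t).2 e))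
      apply (hmW h).2
      apply hW _ ((hmF h).1 hh)
      refine ⟨_, ht', C.symm ?_⟩
      exact (hz t h).1 hq
    · intro t w ht hw
      have ht' := f1 _ (fun e => ht ((hmF t).2 e))
      obtain ⟨v, hgv, hv, h1, h2⟩ := X.partner hW hg ht' (hgU t) ((hmW w).1 hw)
      refine ⟨⟨Additive.toMul v, (hU _).2 hgv⟩, fun e => ?_, ?_, ?_⟩
      · have h5 : f v = 0 := (hmF _).1 e
        rw [hv] at h5
        exact one_ne_zero h5
      · exact (hz t ⟨Additive.toMul v, (hU _).2 hgv⟩).2 h1
      · exact (hz w ⟨Additive.toMul v, (hU _).2 hgv⟩).2 h2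
  have hne : HW.comap U.subtype ≠ HF.comap U.subtype := by
    intro e
    have key : ∀ x, g x = 0 → ¬ X.N0 x := by
      intro x hx h0
      have h5 : (⟨Additive.toMul x, (hU _).2 hx⟩ : U) ∈ HF.comap U.subtype :=
        (hmF _).2 (X.N_f h0.1)
      rw [← e, hmW] at h5
      exact (not_Z_iff.2 h5.2) h0.2
    obtain ⟨x, hx⟩ := X.exists_N0 hcomm
    rcases ETC.zm (g x) with h | h
    · exact key x h hx
    · exact key (x + s) (by rw [map_add, h, hgs]; decide) (X.N0_add_s.2 hx)
  obtain ⟨t, ht, htw⟩ : ∃ t : U, t ∉ HF.comap U.subtype ∧ ∀ w ∈ HW.comap U.subtype,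
      T.q t w = T.zero := etf T hTE rfl _ _ hPt hne
  have htf : f (Additive.ofMul (t : S.G)) = 1 := f1 _ (fun e => ht ((hmF t).2 e))
  have Y : Two (ETC.toData S) s c f (Additive.ofMul (t : S.G)) := by
    refine ⟨X, fun u hu hw => X.N_of_Wp hcomm hu hw, htf, ?_⟩
    intro w hw
    have h5 : (⟨Additive.toMul w, (hU _).2 (hg w hw)⟩ : U) ∈ HW.comap U.subtype :=
      (hmW _).2 hw
    exact (hz t ⟨Additive.toMul w, (hU _).2 (hg w hw)⟩).1 (htw _ h5)
  by_cases h0 : ∀ w ∈ X.W0, w = 0
  · left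
    have ht1 : (t : S.G) ≠ 1 := by
      intro e
      rw [e] at htf
      have : f (Additive.ofMul (1 : S.G)) = 0 := map_zero f
      rw [this] at htf
      exact zero_ne_one htf
    apply ext_of_rigid S hneg ht1
    intro x hx
    exact Y.rigid h0 (Additive.ofMul x) hx
  · right
    push Not at h0
    obtain ⟨h1, h2, h3⟩ := Y.decomp (fun x hx => hnd (Additive.toMul x)
      (fun b => hx (Additive.ofMul b)))
    refine decomp_of_sub S hneg h1 h2 h3 ⟨s, Y.s_mem, ?_⟩ h0
    intro e
    have h5 : (0 : Additive S.G) ∈ X.W0 := zero_mem _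
    exact X.s_notMem_W0 (e.symm ▸ h5 : s ∈ X.W0)

/-- **RK1, relative version**: a structure with a rank one element is a group extension, a
product, local, or there is a smaller linked subgroup `U` such that `S` is a group extension or a
product if the structure on `U` is of elementary type. -/
theorem rk1 (S : QStruct) [Finite S.G] (hneg : S.neg = 1)
    {x : S.G} {c : S.Q} (hc : c ≠ S.zero) (hx : ∀ y, S.q x y = S.zero ∨ S.q x y = c)
    (hy : ∃ y, S.q x y = c) :
    (∃ T : QStruct, Iso S (ext T)) ∨ Decomp S ∨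
      ((∀ a, (∀ b, S.q a b = S.zero) → a = 1) ∧ Nat.card S.Q = 2) ∨
      ∃ (U : Subgroup S.G) (h4 : Lsub S U), Nat.card U < Nat.card S.G ∧
        (ElemType (ESL.PRODRECX.sub S hneg U h4) →
          (∃ T : QStruct, Iso S (ext T)) ∨ Decomp S) := by
  obtain ⟨y, hy⟩ := hy
  have hx1 : x ≠ 1 := by
    rintro rfl
    apply hc
    rw [← hy, S.qs2, S.q_one]
  by_cases hnd : ∀ a, (∀ b, S.q a b = S.zero) → a = 1
  swap
  · push Not at hnd
    obtain ⟨r, hr0, hr⟩ := hnd
    right; left
    refine decomp_of_degenerate S hneg hr hr0 hx1 ?_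
    rintro rfl
    exact hc (hy.symm.trans (hr0 y))
  have he : (ETC.toData S).e = 0 := by
    show Additive.ofMul S.neg = 0
    rw [hneg]; rfl
  have hX : XC (ETC.toData S) c (Additive.ofMul x) := fun v => hx (Additive.toMul v)
  by_cases hcomm : ∀ t t', XC (ETC.toData S) c t → XC (ETC.toData S) c t' →
      C (ETC.toData S) t t'
  · obtain ⟨f, X⟩ := XC.one (S := ETC.toData S) he hc hX (v := Additive.ofMul y) hy
    exact Or.inr (Or.inr (Or.inr (case2r S hneg hnd X hcomm)))
  · push Not at hcomm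
    obtain ⟨t, t', ht, ht', hq⟩ := hcomm
    rcases case1 S hneg hnd hc ht ht' hq with h | h
    · exact Or.inr (Or.inl h)
    · exact Or.inr (Or.inr (Or.inl ⟨hnd, h⟩))

end Pool.Agent.REG10
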