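import Pool.Agent.REG10.Stmts

/-!
REG10, module RNK: rank one element by saturation.
-/

set_option autoImplicit false

namespace Pool.Agent.REG10

open Module CommonSlot Pool.Agent.GTW
open scoped BigOperators

theorem rnk_proof (hENA : Stmt_ENA) : Stmt_RNK := by
  intro V B _ _ _ _ _ _ q x C' β hq hC hβ hF
  have hn : Nontrivial C' := by
    rw [Submodule.nontrivial_iff_ne_bot]
    exact hC
  obtain ⟨c, φ, hc, hφ, hs⟩ := hENA V (QI q C') C' β x hF hn
  have hL : ETC.Linked q := by
    intro a b v v' h
    exact (hq.link a v b v' h).imp fun t ht => ht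
  have hL' : ETC.Linked q.flip := by
    intro a b v v' h
    rw [LinearMap.flip_apply, LinearMap.flip_apply, hq.symm v a, hq.symm v' b] at h
    obtain ⟨t, h1, h2⟩ := hq.link a v b v' h
    refine ⟨t, ?_, ?_⟩
    · rw [LinearMap.flip_apply, LinearMap.flip_apply, hq.symm t a, hq.symm v a, h1]
    · rw [LinearMap.flip_apply, LinearMap.flip_apply, hq.symm t b, hq.symm v a, h2]
  obtain ⟨p, hp⟩ := ETC.saturation_two (q := q) (α := φ.smulRight (c : B)) hL hL' (by
    intro v
    rw [LinearMap.smulRight_apply]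
    rcases CommonSlot.zm (φ v) with h0 | h1
    · exact ⟨0, by rw [h0, zero_smul, map_zero]⟩
    · obtain ⟨a, ha⟩ := hs v h1
      refine ⟨(a : V), ?_⟩
      rw [h1, one_smul, hq.symm, ← hβ, ha])
  refine ⟨p, (c : B), fun h => hc (Subtype.ext h), ?_, ?_⟩
  · intro v
    have h := hp v
    rw [LinearMap.smulRight_apply] at h
    rw [hq.symm p v, ← h]
    rcases CommonSlot.zm (φ v) with h0 | h1
    · left; rw [h0, zero_smul]
    · right; rw [h1, one_smul]
  · obtain ⟨v, hv⟩ : ∃ v, φ v ≠ 0 := by
      by_contra hno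
      push Not at hno
      exact hφ (LinearMap.ext hno)
    have hv1 : φ v = 1 := by
      rcases CommonSlot.zm (φ v) with h0 | h1
      · exact absurd h0 hv
      · exact h1
    refine ⟨v, ?_⟩
    have h := hp v
    rw [LinearMap.smulRight_apply, hv1, one_smul] at h
    rw [hq.symm p v, ← h]

end Pool.Agent.REG10
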