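import Pool.Agent.REG10.SStmts

/-!
REG10, module SASC: associativity of the representation of ternary forms, set-valued.
-/

set_option autoImplicit false
set_option linter.unusedSimpArgs false

namespace Pool.Agent.REG10

open Module CommonSlot
open Pool.Agent.Helper58.PLine (QData)
open scoped BigOperators

namespace SASC_

open Pool.Agent.ETCP (C q_eq q_eq' link eo ch2 ch3 ch4 ch5 ch6)

variable {V Q : Type} [AddCommGroup V] [Module (ZMod 2) V]

/-- the statement in shifted variables -/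
theorem core {S : QData V Q} (he : S.e = 0) {A B E D : V} (h₁ : C S A D)
    (h₂ : C S (D + B) (B + E)) :
    ∃ G, C S E G ∧ C S (G + A) (A + B) := by
  have e1 : S.q E (D + B) = S.q B (D + B) :=
    q_eq' (h₂.symm.of_eq (add_comm B E) rfl)
  have e2 : S.q B (D + B) = S.q B D :=
    q_eq ((C.self he B).of_eq rfl (eo (by
      abel_nf <;> simp only [ch2, ch3, ch4, ch5, ch6, add_zero, zero_add])))
  have e3 : S.q (A + B) D = S.q B D :=
    q_eq' (h₁.of_eq (eo (by
      abel_nf <;> simp only [ch2, ch3, ch4, ch5, ch6, add_zero, zero_add])) rfl)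
  obtain ⟨r, g1, g2, g3⟩ := link (e3.trans (e2.symm.trans e1.symm))
  refine ⟨r + D + B, g2.of_eq rfl (eo (by
      abel_nf <;> simp only [ch2, ch3, ch4, ch5, ch6, add_zero, zero_add])), ?_⟩
  have g4 : C S (D + r + (A + B)) (A + B) := (g1.add (C.self he (A + B))).symm
  exact g4.of_eq (eo (by
      abel_nf <;> simp only [ch2, ch3, ch4, ch5, ch6, add_zero, zero_add])) rfl

end SASC_

open SASC_ in
theorem sasc_proof : Stmt_SASC := by
  intro V Q _ _ S he z a b c d h₁ h₂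
  have h₁' : Pool.Agent.ETCP.C S (a + z) (d + z) := by
    have h3 : Pool.Agent.ETCP.C S (a + z) (a + d) :=
      Pool.Agent.ETCP.C.of_eq (S := S) h₁ (add_comm z a) rfl
    exact (h3.add (Pool.Agent.ETCP.C.self he (a + z))).of_eq rfl (Pool.Agent.ETCP.eo (by
      abel_nf <;> simp only [Pool.Agent.ETCP.ch2, Pool.Agent.ETCP.ch3, Pool.Agent.ETCP.ch4,
        Pool.Agent.ETCP.ch5, Pool.Agent.ETCP.ch6, add_zero, zero_add]))
  have h₂' : Pool.Agent.ETCP.C S ((d + z) + (b + z)) ((b + z) + (c + z)) :=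
    Pool.Agent.ETCP.C.of_eq (S := S) h₂ (Pool.Agent.ETCP.eo (by
      abel_nf <;> simp only [Pool.Agent.ETCP.ch2, Pool.Agent.ETCP.ch3, Pool.Agent.ETCP.ch4,
        Pool.Agent.ETCP.ch5, Pool.Agent.ETCP.ch6, add_zero, zero_add])) (Pool.Agent.ETCP.eo (by
      abel_nf <;> simp only [Pool.Agent.ETCP.ch2, Pool.Agent.ETCP.ch3, Pool.Agent.ETCP.ch4,
        Pool.Agent.ETCP.ch5, Pool.Agent.ETCP.ch6, add_zero, zero_add]))
  obtain ⟨G, k1, k2⟩ := core he h₁' h₂'
  refine ⟨G + z, ?_, ?_⟩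
  · exact k2.of_eq (Pool.Agent.ETCP.eo (by
      abel_nf <;> simp only [Pool.Agent.ETCP.ch2, Pool.Agent.ETCP.ch3, Pool.Agent.ETCP.ch4,
        Pool.Agent.ETCP.ch5, Pool.Agent.ETCP.ch6, add_zero, zero_add])) (Pool.Agent.ETCP.eo (by
      abel_nf <;> simp only [Pool.Agent.ETCP.ch2, Pool.Agent.ETCP.ch3, Pool.Agent.ETCP.ch4,
        Pool.Agent.ETCP.ch5, Pool.Agent.ETCP.ch6, add_zero, zero_add]))
  · exact (k1.add (Pool.Agent.ETCP.C.self he (c + z))).of_eq (add_comm c z)
      (Pool.Agent.ETCP.eo (by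
      abel_nf <;> simp only [Pool.Agent.ETCP.ch2, Pool.Agent.ETCP.ch3, Pool.Agent.ETCP.ch4,
        Pool.Agent.ETCP.ch5, Pool.Agent.ETCP.ch6, add_zero, zero_add]))

end Pool.Agent.REG10
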