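import Pool.Agent.REG10.Stmts

/-!
REG10, module STC: a minimal stable subspace.
-/

set_option autoImplicit false

namespace Pool.Agent.REG10

open Module CommonSlot Pool.Agent.GTW
open scoped BigOperators

namespace STC_

variable {V B : Type} [AddCommGroup V] [Module (ZMod 2) V] [AddCommGroup B] [Module (ZMod 2) B]

/-- the restricted bilinear map -/
def bet (q : V →ₗ[ZMod 2] V →ₗ[ZMod 2] B) (C' : Submodule (ZMod 2) B) :
    QI q C' →ₗ[ZMod 2] V →ₗ[ZMod 2] C' :=
  LinearMap.mk₂ (ZMod 2) (fun a v => ⟨q a v, a.2 v⟩)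
    (fun a b v => Subtype.ext (by simp))
    (fun c a v => Subtype.ext (by simp))
    (fun a v w => Subtype.ext (by simp))
    (fun c a v => Subtype.ext (by simp))

theorem bet_coe (q : V →ₗ[ZMod 2] V →ₗ[ZMod 2] B) (C' : Submodule (ZMod 2) B)
    (a : QI q C') (v : V) : ((bet q C' a v : C') : B) = q a v := rfl

/-- kernel of a functional of `C'`, as a subspace of `B` -/
def kr (C' : Submodule (ZMod 2) B) (l : C' →ₗ[ZMod 2] ZMod 2) : Submodule (ZMod 2) B :=
  (LinearMap.ker l).map C'.subtype

theorem mem_kr (C' : Submodule (ZMod 2) B) (l : C' →ₗ[ZMod 2] ZMod 2) (c : C') :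
    (c : B) ∈ kr C' l ↔ l c = 0 := by
  unfold kr
  rw [Submodule.mem_map]
  constructor
  · rintro ⟨y, hy, hyc⟩
    have : y = c := Subtype.ext hyc
    rw [← this]
    exact LinearMap.mem_ker.1 hy
  · intro h
    exact ⟨c, LinearMap.mem_ker.2 h, rfl⟩

theorem kr_le (C' : Submodule (ZMod 2) B) (l : C' →ₗ[ZMod 2] ZMod 2) : kr C' l ≤ C' := by
  unfold kr
  rintro _ ⟨y, _, rfl⟩
  exact y.2

end STC_

open STC_ in
theorem stc_proof : Stmt_STC := by
  intro V B _ _ _ _ _ _ q x C hq hC0 hC hPI
  by_cases hR : Rk1 q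
  · exact Or.inl hR
  right
  have hwf := (wellFounded_lt : WellFounded ((· < ·) : Submodule (ZMod 2) B → _ → Prop))
  obtain ⟨C', ⟨hst, hne⟩, hmin⟩ := hwf.has_min {C' | Stb q x C C' ∧ C' ≠ ⊥}
    ⟨C, ⟨⟨le_refl _, fun a ha _ => ha⟩, hC0⟩⟩
  have hsurj : ∀ c : C', ∃ a : QI q C', bet q C' a x = c := by
    intro c
    obtain ⟨a, ha, hac⟩ := hC c (hst.1 c.2)
    have ha' : a ∈ QI q C' := hst.2 a ha (by rw [hac]; exact c.2)
    refine ⟨⟨a, ha'⟩, Subtype.ext ?_⟩
    rw [bet_coe]
    show q a x = c
    rw [hq.symm a x, hac]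
  refine ⟨C', bet q C', hne, bet_coe q C', ?_⟩
  refine ⟨hsurj, ?_, ?_, ?_⟩
  · intro k l a b hkl v v' hvv
    have h1 : q (a : V) v = q (b : V) v' := congrArg Subtype.val hvv
    obtain ⟨s, hs1, hs2⟩ := hq.link (a : V) v (b : V) v' h1
    have e1 : bet q C' a s = bet q C' a v := Subtype.ext hs1
    have e2 : bet q C' b s = bet q C' a v := Subtype.ext hs2
    rw [← e1, hkl s, e2, e1]
  · intro k l y hkl
    obtain ⟨K, hK⟩ := LinearMap.exists_extend k
    obtain ⟨L, hL⟩ := LinearMap.exists_extend l
    have hK' : ∀ c : C', k c = K c := fun c => by rw [← hK]; rfl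
    have hL' : ∀ c : C', l c = L c := fun c => by rw [← hL]; rfl
    have h := hPI C' hst hne K L y (by
      intro a ha
      have := hkl ⟨a, ha⟩
      rw [hK', hL'] at this
      exact this)
    intro a
    have := h a a.2
    rw [hL', hL']
    exact this
  · intro l hl φ
    by_contra hcon
    push Not at hcon
    -- `l X ⊆ {0, φ}`
    have hc : ∃ c : C', l c = 1 := by
      by_contra h
      push Not at h
      apply hl
      ext c
      exact zm_ne_one (h c)
    obtain ⟨c, hc1⟩ := hc
    have hc0 : c ≠ 0 := by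
      rintro rfl
      rw [map_zero] at hc1
      exact zero_ne_one hc1
    obtain ⟨a₀, ha₀⟩ := hsurj c
    have hlX : ∀ a : QI q C', (∀ v, l (bet q C' a v) = 0) ∨ (bet q C').compr₂ l a = φ := by
      intro a
      by_cases h0 : (bet q C').compr₂ l a = 0
      · left
        intro v
        have := LinearMap.congr_fun h0 v
        exact this
      · right
        exact hcon _ (LinearMap.mem_range.2 ⟨a, rfl⟩) h0
    have hφx : φ x = 1 := by
      rcases hlX a₀ with h | h
      · have := h x
        rw [ha₀, hc1] at this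
        exact absurd this one_ne_zero
      · rw [← h]
        show l (bet q C' a₀ x) = 1
        rw [ha₀, hc1]
    -- the kernel of `l` is stable
    have hstb : Stb q x C (kr C' l) := by
      refine ⟨(kr_le C' l).trans hst.1, ?_⟩
      intro a ha hxa
      have ha' : a ∈ QI q C' := hst.2 a ha (kr_le C' l hxa)
      have h1 : l (bet q C' ⟨a, ha'⟩ x) = 0 := by
        rw [← mem_kr]
        rw [bet_coe]
        show q a x ∈ _
        rw [hq.symm a x]
        exact hxa
      have h2 : ∀ v, l (bet q C' ⟨a, ha'⟩ v) = 0 := by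
        rcases hlX ⟨a, ha'⟩ with h | h
        · exact h
        · exfalso
          rw [← h] at hφx
          have h3 : l (bet q C' ⟨a, ha'⟩ x) = 1 := hφx
          rw [h1] at h3
          exact zero_ne_one h3
      intro v
      have := (mem_kr C' l (bet q C' ⟨a, ha'⟩ v)).2 (h2 v)
      exact this
    have hlt : kr C' l < C' := by
      refine lt_of_le_of_ne (kr_le C' l) ?_
      intro h
      have : (c : B) ∈ kr C' l := by rw [h]; exact c.2
      rw [mem_kr, hc1] at this
      exact one_ne_zero this
    have hbot : kr C' l = ⊥ := by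
      by_contra h
      exact hmin _ ⟨hstb, h⟩ hlt
    apply hR
    refine ⟨a₀, c, fun h => hc0 (Subtype.ext h), ?_, x, ?_⟩
    · intro v
      rcases zm (l (bet q C' a₀ v)) with h | h
      · left
        have h1 := (mem_kr C' l (bet q C' a₀ v)).2 h
        rw [hbot, Submodule.mem_bot] at h1
        exact h1
      · right
        have h1 : l (bet q C' a₀ v + c) = 0 := by
          rw [map_add, h, hc1]
          decide
        have h2 := (mem_kr C' l (bet q C' a₀ v + c)).2 h1
        rw [hbot, Submodule.mem_bot, Submodule.coe_add, bet_coe] at h2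
        exact eq_of_add_eq_zero' h2
    · have := congrArg Subtype.val ha₀
      exact this

end Pool.Agent.REG10
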