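import Pool.Agent.REG10.Defs

/-!
REG10: statements of the modules.  Recipes: /team-store/MP_d26ff6_REG10.md
-/

set_option autoImplicit false

namespace Pool.Agent.REG10

open Module CommonSlot Pool.Agent.GTW
open scoped BigOperators

/-! ## Part A -/

section tools
variable {V X C : Type} [AddCommGroup V] [Module (ZMod 2) V] [AddCommGroup X] [Module (ZMod 2) X]
  [AddCommGroup C] [Module (ZMod 2) C]

/-- basic facts on the relation `≤` (module ORD) -/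
structure Ord (β : X →ₗ[ZMod 2] V →ₗ[ZMod 2] C) (t : V) : Prop where
  zero_le : ∀ k, LE β t 0 k
  refl : ∀ k, LE β t k k
  add_le : ∀ l l' k, LE β t l k → LE β t l' k → LE β t (l + l') k
  wit : ∀ l k, LE β t l k → ∃ y, (∀ a, k (β a y) = l (β a t)) ∧ ∀ a, l (β a y) = l (β a t)
  /-- double orthogonals -/
  LX_iff : ∀ l (φ : Du V), φ ∈ LX β l ↔ ∀ y ∈ KK β l, φ y = 0
  KK_le : ∀ l k, LE β t l k → KK β k ≤ KK β l
  LX_le : ∀ l k, LE β t l k → LX β l ≤ LX β k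
  eq_of : ∀ l k, LE β t l k → KK β k = KK β l → l = k
  le_iff : ∀ l k, LE β t l k ↔ ∃ u ∈ KK β l, ∃ u' ∈ KK β (k + l), u + u' = t
  orth_symm : ∀ l m, LE β t l (l + m) → LE β t m (l + m)
  orth_iff : ∀ l m, LE β t l (l + m) ↔ ∀ φ, φ ∈ LX β l → φ ∈ LX β m → φ t = 0
  orth_KK : ∀ l m, LE β t l (l + m) → KK β (l + m) = KK β l ⊓ KK β m
  orth_LX : ∀ l m, LE β t l (l + m) → LX β (l + m) = LX β l ⊔ LX β m
  /-- `N_k ⊆ N_l` implies `l ≤ k` -/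
  le_of_NN : ∀ l k, NN β k ≤ NN β l → LE β t l k
  /-- `l X` does not vanish at `t` -/
  ne : ∀ l : Du C, l ≠ 0 → ∃ φ ∈ LX β l, φ t = 1
  /-- (VAL) -/
  val : ∀ k a b, (∀ m, LE β t m k → m b = m (β a t)) → ∃ n ∈ NN β k, β (a + n) t = b

/-- basic facts on `DS` (module SPL) -/
structure Spl (β : X →ₗ[ZMod 2] V →ₗ[ZMod 2] C) (t : V) : Prop where
  iff : ∀ l m, DS β l m ↔ LX β l ⊓ LX β m = ⊥
  orth : ∀ l m, DS β l m → LE β t l (l + m)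
  NNsup : ∀ l m, DS β l m → NN β l ⊔ NN β m = ⊤
  NNadd : ∀ l m, DS β l m → NN β (l + m) = NN β l ⊓ NN β m
  onto : ∀ l m, DS β l m → ∀ a b, ∃ c, (∀ v, l (β c v) = l (β a v)) ∧ ∀ v, m (β c v) = m (β b v)
  le : ∀ l m, DS β l m → ∀ o, LE β t o l → LE β t o (l + m)

open scoped Classical in
/-- basic facts on orthogonal sets of atoms (module OSB) -/
structure Osb (β : X →ₗ[ZMod 2] V →ₗ[ZMod 2] C) (t : V) : Prop where
  empty : OSA β t ∅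
  single : ∀ r, Atom β t r → OSA β t {r}
  pair : ∀ r s, Atom β t r → Atom β t s → DS β r s → OSA β t {r, s} ∧ r ≠ s
  sub : ∀ S, OSA β t S → ∀ S' ⊆ S, OSA β t S'
  KK : ∀ S, OSA β t S → ∀ y, y ∈ KK β (∑ r ∈ S, r) ↔ ∀ r ∈ S, y ∈ KK β r
  NN : ∀ S, OSA β t S → ∀ a, a ∈ NN β (∑ r ∈ S, r) ↔ ∀ r ∈ S, a ∈ NN β r
  LX : ∀ S, OSA β t S → ∀ φ, φ ∈ LX β (∑ r ∈ S, r) ↔
    ∃ f : Du C → Du V, (∀ r ∈ S, f r ∈ LX β r) ∧ ∑ r ∈ S, f r = φ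
  onto : ∀ S, OSA β t S → ∀ g : Du C → X, ∃ a, ∀ r ∈ S, ∀ v, r (β a v) = r (β (g r) v)
  le : ∀ S, OSA β t S → ∀ S' ⊆ S, LE β t (∑ r ∈ S', r) (∑ r ∈ S, r)
  ds : ∀ S, OSA β t S → ∀ S' ⊆ S, ∀ S'' ⊆ S, Disjoint S' S'' →
    DS β (∑ r ∈ S', r) (∑ r ∈ S'', r)
  ins : ∀ S, OSA β t S → ∀ r, Atom β t r → DS β r (∑ s ∈ S, s) → r ∉ S ∧ OSA β t (insert r S)
  union : ∀ S S', OSA β t S → OSA β t S' → DS β (∑ r ∈ S, r) (∑ r ∈ S', r) →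
    Disjoint S S' ∧ OSA β t (S ∪ S')

end tools

/-- ORD. Uses nothing. -/
def Stmt_ORD : Prop := ∀ (V X C : Type) [AddCommGroup V] [Module (ZMod 2) V] [Finite V]
  [AddCommGroup X] [Module (ZMod 2) X] [Finite X] [AddCommGroup C] [Module (ZMod 2) C] [Finite C]
  (β : X →ₗ[ZMod 2] V →ₗ[ZMod 2] C) (t : V), FR β t → Ord β t

/-- SPL: splitting by counting. Uses ORD. -/
def Stmt_SPL : Prop := ∀ (V X C : Type) [AddCommGroup V] [Module (ZMod 2) V] [Finite V]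
  [AddCommGroup X] [Module (ZMod 2) X] [Finite X] [AddCommGroup C] [Module (ZMod 2) C] [Finite C]
  (β : X →ₗ[ZMod 2] V →ₗ[ZMod 2] C) (t : V), FR β t → Spl β t

/-- OSB. Uses ORD, SPL. -/
def Stmt_OSB : Prop := ∀ (V X C : Type) [AddCommGroup V] [Module (ZMod 2) V] [Finite V]
  [AddCommGroup X] [Module (ZMod 2) X] [Finite X] [AddCommGroup C] [Module (ZMod 2) C] [Finite C]
  (β : X →ₗ[ZMod 2] V →ₗ[ZMod 2] C) (t : V), FR β t → Osb β t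

/-- SGN: the sign of a pair `(φ, b)` with `φ ∈ r X`, `r` an atom, `r(b) = φ(t)`. Uses ORD. -/
def Stmt_SGN : Prop := ∀ (V X C : Type) [AddCommGroup V] [Module (ZMod 2) V] [Finite V]
  [AddCommGroup X] [Module (ZMod 2) X] [Finite X] [AddCommGroup C] [Module (ZMod 2) C] [Finite C]
  (β : X →ₗ[ZMod 2] V →ₗ[ZMod 2] C) (t : V), FR β t → ∀ r, Atom β t r → ∀ φ ∈ LX β r,
  ∀ (m : Du C) (a : X) (v : V), (∀ v', m (β a v') = φ v') → r (β a v) = φ t →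
    m (β a v) = φ t

/-- DIC: the dichotomy (3). Uses ORD, SGN. -/
def Stmt_DIC : Prop := ∀ (V X C : Type) [AddCommGroup V] [Module (ZMod 2) V] [Finite V]
  [AddCommGroup X] [Module (ZMod 2) X] [Finite X] [AddCommGroup C] [Module (ZMod 2) C] [Finite C]
  (β : X →ₗ[ZMod 2] V →ₗ[ZMod 2] C) (t : V), FR β t → ∀ s k, Atom β t s → ¬ LE β t s k →
  ∀ φ ∈ LX β k, φ ∈ LX β s → φ ≠ 0 →
    φ t = 1 ∧ (∀ φ' ∈ LX β k, φ' ∈ LX β s → φ' = 0 ∨ φ' = φ) ∧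
    (∀ n ∈ NN β k, (∀ v, s (β n v) = 0) ∨ ∀ v, s (β n v) = φ v) ∧
    ∃ n ∈ NN β k, ∀ v, s (β n v) = φ v

/-- FOU: (4). Uses ORD, SPL, DIC. -/
def Stmt_FOU : Prop := ∀ (V X C : Type) [AddCommGroup V] [Module (ZMod 2) V] [Finite V]
  [AddCommGroup X] [Module (ZMod 2) X] [Finite X] [AddCommGroup C] [Module (ZMod 2) C] [Finite C]
  (β : X →ₗ[ZMod 2] V →ₗ[ZMod 2] C) (t : V), FR β t → ∀ r s k, Atom β t r → Atom β t s →
  r ≠ s → LE β t r k → LE β t s k → DS β r s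

/-- FIV: (5). Uses ORD, SPL, OSB, DIC, FOU. -/
def Stmt_FIV : Prop := ∀ (V X C : Type) [AddCommGroup V] [Module (ZMod 2) V] [Finite V]
  [AddCommGroup X] [Module (ZMod 2) X] [Finite X] [AddCommGroup C] [Module (ZMod 2) C] [Finite C]
  (β : X →ₗ[ZMod 2] V →ₗ[ZMod 2] C) (t : V), FR β t → ∀ S, OSA β t S → ∀ o, Atom β t o →
  LE β t o (∑ r ∈ S, r) → o ∈ S

/-- GLA: (6) for one atom. Uses ORD, SPL, DIC. -/
def Stmt_GLA : Prop := ∀ (V X C : Type) [AddCommGroup V] [Module (ZMod 2) V] [Finite V]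
  [AddCommGroup X] [Module (ZMod 2) X] [Finite X] [AddCommGroup C] [Module (ZMod 2) C] [Finite C]
  (β : X →ₗ[ZMod 2] V →ₗ[ZMod 2] C) (t : V), FR β t → ∀ s m, Atom β t s →
  LE β t s (s + m) → DS β s m

/-- GLB: (6) for two atoms. Uses ORD, SPL, GLA. -/
def Stmt_GLB : Prop := ∀ (V X C : Type) [AddCommGroup V] [Module (ZMod 2) V] [Finite V]
  [AddCommGroup X] [Module (ZMod 2) X] [Finite X] [AddCommGroup C] [Module (ZMod 2) C] [Finite C]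
  (β : X →ₗ[ZMod 2] V →ₗ[ZMod 2] C) (t : V), FR β t → ∀ s₁ s₂ m, Atom β t s₁ → Atom β t s₂ →
  DS β s₁ s₂ → (∀ o, LE β t o (s₁ + s₂) → o = 0 ∨ o = s₁ ∨ o = s₂ ∨ o = s₁ + s₂) →
  LE β t (s₁ + s₂) (s₁ + s₂ + m) → ∀ φ₁ ∈ LX β s₁, ∀ φ₂ ∈ LX β s₂, φ₁ t = 1 → φ₂ t = 1 →
  φ₁ + φ₂ ∈ LX β m → (∀ ψ ∈ LX β (s₁ + s₂), ψ ∈ LX β m → ψ = 0 ∨ ψ = φ₁ + φ₂) → False

/-- GLU: (6). Uses ORD, SPL, OSB, DIC, GLA, GLB. -/
def Stmt_GLU : Prop := ∀ (V X C : Type) [AddCommGroup V] [Module (ZMod 2) V] [Finite V]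
  [AddCommGroup X] [Module (ZMod 2) X] [Finite X] [AddCommGroup C] [Module (ZMod 2) C] [Finite C]
  (β : X →ₗ[ZMod 2] V →ₗ[ZMod 2] C) (t : V), FR β t → ∀ S, OSA β t S →
  (∀ r ∈ S, ∀ s ∈ S, r ≠ s → ∀ o, LE β t o (r + s) → o = 0 ∨ o = r ∨ o = s ∨ o = r + s) →
  ∀ m, LE β t (∑ r ∈ S, r) (∑ r ∈ S, r + m) → DS β (∑ r ∈ S, r) m

/-- ATO: (7). Uses ORD, SPL, OSB, FIV, GLU. -/
def Stmt_ATO : Prop := ∀ (V X C : Type) [AddCommGroup V] [Module (ZMod 2) V] [Finite V]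
  [AddCommGroup X] [Module (ZMod 2) X] [Finite X] [AddCommGroup C] [Module (ZMod 2) C] [Finite C]
  (β : X →ₗ[ZMod 2] V →ₗ[ZMod 2] C) (t : V), FR β t →
  (∀ k, ∃ S, OSA β t S ∧ ∑ r ∈ S, r = k) ∧
  ∀ S, OSA β t S → ∀ o, LE β t o (∑ r ∈ S, r) → ∃ T ⊆ S, ∑ r ∈ T, r = o

/-- EIG: (8). Uses ORD, SPL, OSB, DIC, FIV, GLU, ATO. -/
def Stmt_EIG : Prop := ∀ (V X C : Type) [AddCommGroup V] [Module (ZMod 2) V] [Finite V]
  [AddCommGroup X] [Module (ZMod 2) X] [Finite X] [AddCommGroup C] [Module (ZMod 2) C] [Finite C]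
  (β : X →ₗ[ZMod 2] V →ₗ[ZMod 2] C) (t : V), FR β t → ∀ s k, Atom β t s → ¬ LE β t s k →
  ∀ φ ∈ LX β k, φ ∈ LX β s → φ ≠ 0 →
    ∃ r, Atom β t r ∧ LE β t r k ∧ φ ∈ LX β r ∧
      ∀ r', Atom β t r' → LE β t r' k → φ ∈ LX β r' → r' = r

/-- NIN: (9). Uses ORD, SPL, OSB, DIC, FIV, ATO, EIG. -/
def Stmt_NIN : Prop := ∀ (V X C : Type) [AddCommGroup V] [Module (ZMod 2) V] [Finite V]
  [AddCommGroup X] [Module (ZMod 2) X] [Finite X] [AddCommGroup C] [Module (ZMod 2) C] [Finite C]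
  (β : X →ₗ[ZMod 2] V →ₗ[ZMod 2] C) (t : V), FR β t → ∀ r s, Atom β t r → Atom β t s →
  r ≠ s → ∀ φ ∈ LX β r, φ ∈ LX β s → φ ≠ 0 → Atom β t (r + s) ∧ φ ∈ LX β (r + s)

/-- TEN: (10). Uses ORD, SPL, OSB, SGN, DIC, FIV. -/
def Stmt_TEN : Prop := ∀ (V X C : Type) [AddCommGroup V] [Module (ZMod 2) V] [Finite V]
  [AddCommGroup X] [Module (ZMod 2) X] [Finite X] [AddCommGroup C] [Module (ZMod 2) C] [Finite C]
  (β : X →ₗ[ZMod 2] V →ₗ[ZMod 2] C) (t : V), FR β t → ∀ r s s', Atom β t r → Atom β t s →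
  Atom β t s' → r ≠ s → r ≠ s' → ∀ φ ∈ LX β r, φ ∈ LX β s → φ ≠ 0 → ∀ φ' ∈ LX β r,
  φ' ∈ LX β s' → φ' ≠ 0 → φ = φ'

/-- PIA: pairwise inequivalent atoms are orthogonal. Uses ORD, SPL, OSB, DIC, FIV, EIG. -/
def Stmt_PIA : Prop := ∀ (V X C : Type) [AddCommGroup V] [Module (ZMod 2) V] [Finite V]
  [AddCommGroup X] [Module (ZMod 2) X] [Finite X] [AddCommGroup C] [Module (ZMod 2) C] [Finite C]
  (β : X →ₗ[ZMod 2] V →ₗ[ZMod 2] C) (t : V), FR β t → ∀ S : Finset (Du C),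
  (∀ r ∈ S, Atom β t r) → (∀ r ∈ S, ∀ s ∈ S, Eqv β r s → r = s) → OSA β t S

/-- CLS: separation of one class of atoms. Uses ORD, OSB, ATO, NIN, TEN, PIA. -/
def Stmt_CLS : Prop := ∀ (V X C : Type) [AddCommGroup V] [Module (ZMod 2) V] [Finite V]
  [AddCommGroup X] [Module (ZMod 2) X] [Finite X] [AddCommGroup C] [Module (ZMod 2) C] [Finite C]
  (β : X →ₗ[ZMod 2] V →ₗ[ZMod 2] C) (t : V), FR β t → Nontrivial C →
  ∃ (c : C) (φ : Du V), c ≠ 0 ∧ φ ≠ 0 ∧ ∀ s, Atom β t s → s c = 1 → φ ∈ LX β s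

/-- ENA: **Theorem A**. Uses ORD, OSB, ATO, CLS. -/
def Stmt_ENA : Prop := ∀ (V X C : Type) [AddCommGroup V] [Module (ZMod 2) V] [Finite V]
  [AddCommGroup X] [Module (ZMod 2) X] [Finite X] [AddCommGroup C] [Module (ZMod 2) C] [Finite C]
  (β : X →ₗ[ZMod 2] V →ₗ[ZMod 2] C) (t : V), FR β t → Nontrivial C →
  ∃ (c : C) (φ : Du V), c ≠ 0 ∧ φ ≠ 0 ∧ ∀ v, φ v = 1 → ∃ a, β a v = c

/-! ## Part B -/

/-- basic facts on a regular element (module BAS) -/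
structure Bas {V B : Type} [AddCommGroup V] [Module (ZMod 2) V] [AddCommGroup B]
    [Module (ZMod 2) B] (q : V →ₗ[ZMod 2] V →ₗ[ZMod 2] B) (x : V) : Prop where
  ker_le : ∀ u, q x u = 0 → u ∈ WW q x
  self : x ∈ WW q x
  CC_le : ∀ c ∈ CC q x, ∃ v, q x v = c
  QI_le : ∀ C' ≤ CC q x, ∀ a ∈ QI q C', a ∈ WW q x
  mem : ∀ s, q x s ∈ CC q x → s ∈ WW q x
  /-- (a) -/
  a : ∀ w ∈ WW q x, ∀ v, ∃ s, q w s = q w v ∧ q x s = q w v
  /-- (b) -/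
  b : ∀ w ∈ WW q x, ∀ v z, q (x + w) v = 0 → q w z = 0 → ∃ u, q x u = q v z
  /-- (c) -/
  c : ∀ w ∈ WW q x, ∀ w' ∈ WW q x, q w w' ∈ CC q x
  /-- (e) -/
  e : ∀ C' ≤ CC q x, ∀ a ∈ QI q C', ∀ v, ∃ s ∈ WW q x, q a s = q a v

/-- ASC: associativity of the representation of ternary forms. Uses nothing. -/
def Stmt_ASC : Prop := ∀ (V B : Type) [AddCommGroup V] [Module (ZMod 2) V]
  [AddCommGroup B] [Module (ZMod 2) B] (q : V →ₗ[ZMod 2] V →ₗ[ZMod 2] B), IsLinked q 0 →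
  ∀ z a b c d, q (z + a) (a + d) = 0 → q (d + b) (b + c) = 0 →
    ∃ g, q (g + a) (a + b) = 0 ∧ q (z + c) (g + c) = 0

/-- DGR: the elements represented by a 2-fold Pfister form. Uses ASC. -/
def Stmt_DGR : Prop := ∀ (V B : Type) [AddCommGroup V] [Module (ZMod 2) V]
  [AddCommGroup B] [Module (ZMod 2) B] (q : V →ₗ[ZMod 2] V →ₗ[ZMod 2] B), IsLinked q 0 →
  ∀ x w v₁ v₂, q w v₁ = 0 → q (x + w) v₂ = 0 → ∃ y s, q x w = q y s ∧ q y (v₁ + v₂) = 0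

/-- BAS. Uses nothing (`GTW.str_proof` may be imported). -/
def Stmt_BAS : Prop := ∀ (V B : Type) [AddCommGroup V] [Module (ZMod 2) V]
  [AddCommGroup B] [Module (ZMod 2) B] (q : V →ₗ[ZMod 2] V →ₗ[ZMod 2] B) (x : V),
  IsLinked q 0 → Rg q x → Bas q x

/-- CHW: decomposition of `V / W` by characters. Uses BAS. -/
def Stmt_CHW : Prop := ∀ (V B : Type) [AddCommGroup V] [Module (ZMod 2) V] [Finite V]
  [AddCommGroup B] [Module (ZMod 2) B] (q : V →ₗ[ZMod 2] V →ₗ[ZMod 2] B) (x : V),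
  IsLinked q 0 → Rg q x → ∃ k, Nonempty (CW q x k)

/-- FUW: every element is a sum of three full elements. Uses BAS, CHW. -/
def Stmt_FUW : Prop := ∀ (V B : Type) [AddCommGroup V] [Module (ZMod 2) V] [Finite V]
  [AddCommGroup B] [Module (ZMod 2) B] (q : V →ₗ[ZMod 2] V →ₗ[ZMod 2] B) (x : V),
  IsLinked q 0 → Rg q x → ∀ y, ∃ y₁ y₂, FullW q x y₁ ∧ FullW q x y₂ ∧ FullW q x (y + y₁ + y₂)

/-- WUX: `W = V_x + X`. Uses BAS, DGR, FUW (`GTW.str_proof` may be imported). -/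
def Stmt_WUX : Prop := ∀ (V B : Type) [AddCommGroup V] [Module (ZMod 2) V] [Finite V]
  [AddCommGroup B] [Module (ZMod 2) B] (q : V →ₗ[ZMod 2] V →ₗ[ZMod 2] B) (x : V),
  IsLinked q 0 → Rg q x → ∀ w ∈ WW q x, ∃ u, q x u = 0 ∧ w + u ∈ QI q (CC q x)

/-- PIR: the property (PI) for regular elements. Uses BAS, FUW. -/
def Stmt_PIR : Prop := ∀ (V B : Type) [AddCommGroup V] [Module (ZMod 2) V] [Finite V]
  [AddCommGroup B] [Module (ZMod 2) B] [Finite B] (q : V →ₗ[ZMod 2] V →ₗ[ZMod 2] B) (x : V),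
  IsLinked q 0 → Rg q x → ∀ C', Stb q x (CC q x) C' → PIp q x C'

/-- STC: a minimal stable subspace. Uses nothing. -/
def Stmt_STC : Prop := ∀ (V B : Type) [AddCommGroup V] [Module (ZMod 2) V] [Finite V]
  [AddCommGroup B] [Module (ZMod 2) B] [Finite B] (q : V →ₗ[ZMod 2] V →ₗ[ZMod 2] B) (x : V)
  (C : Submodule (ZMod 2) B), IsLinked q 0 → C ≠ ⊥ → (∀ c ∈ C, ∃ a ∈ QI q C, q x a = c) →
  (∀ C', Stb q x C C' → C' ≠ ⊥ → PIp q x C') →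
  Rk1 q ∨ ∃ (C' : Submodule (ZMod 2) B) (β : QI q C' →ₗ[ZMod 2] V →ₗ[ZMod 2] C'), C' ≠ ⊥ ∧
    (∀ a v, ((β a v : C') : B) = q a v) ∧ FR β x

/-- RNK: rank one element by saturation (`ETC.saturation_two`). Uses ENA. -/
def Stmt_RNK : Prop := ∀ (V B : Type) [AddCommGroup V] [Module (ZMod 2) V] [Finite V]
  [AddCommGroup B] [Module (ZMod 2) B] [Finite B] (q : V →ₗ[ZMod 2] V →ₗ[ZMod 2] B) (x : V)
  (C' : Submodule (ZMod 2) B) (β : QI q C' →ₗ[ZMod 2] V →ₗ[ZMod 2] C'), IsLinked q 0 →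
  C' ≠ ⊥ → (∀ a v, ((β a v : C') : B) = q a v) → FR β x → Rk1 q

/-- GNR: **the general theorem** (remark (i) of note 1659). Uses STC, RNK. -/
def Stmt_GNR : Prop := ∀ (V B : Type) [AddCommGroup V] [Module (ZMod 2) V] [Finite V]
  [AddCommGroup B] [Module (ZMod 2) B] [Finite B] (q : V →ₗ[ZMod 2] V →ₗ[ZMod 2] B) (x : V)
  (C : Submodule (ZMod 2) B), IsLinked q 0 → C ≠ ⊥ → (∀ c ∈ C, ∃ a ∈ QI q C, q x a = c) →
  (∀ C', Stb q x C C' → C' ≠ ⊥ → PIp q x C') → Rk1 q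

/-- RGX: **the theorem on regular elements**. Uses BAS, WUX, PIR, GNR (and `GTW.rft`). -/
def Stmt_RGX : Prop := ∀ (V B : Type) [AddCommGroup V] [Module (ZMod 2) V] [Finite V]
  [AddCommGroup B] [Module (ZMod 2) B] [Finite B] (q : V →ₗ[ZMod 2] V →ₗ[ZMod 2] B) (x : V),
  IsLinked q 0 → Nd q → Rg q x → HasOS q ∨ Rk1 q

end Pool.Agent.REG10
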