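import Pool.Agent.REG10.Stmts
import Pool.Agent.GTW.STR

/-!
REG10, module WUX: `W = V_x + X` for a regular element `x`.
-/

set_option autoImplicit false

namespace Pool.Agent.REG10

open Module CommonSlot Pool.Agent.GTW
open scoped BigOperators

/-- WUX: `W = V_x + X`. -/
theorem wux_proof (hBAS : Stmt_BAS) (hDGR : Stmt_DGR) (hFUW : Stmt_FUW) : Stmt_WUX := by
  intro V B _ _ _ _ _ q x hq hr w hw
  have hB := hBAS V B q x hq hr
  obtain ⟨v, _, hv, _, _⟩ := hFUW V B q x hq hr 0
  obtain ⟨s, hs1, hs2⟩ := hB.a w hw v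
  have h1 : q w (v + s) = 0 := by rw [map_add, hs1, ZModModule.add_self]
  have h2 : q (x + w) s = 0 := by
    rw [map_add, LinearMap.add_apply, hs1, hs2, ZModModule.add_self]
  obtain ⟨y, t, h3, h4⟩ := hDGR V B q hq x w (v + s) s h1 h2
  have h5 : q y v = 0 := by
    have e : v + s + s = v := by rw [add_assoc, ZModModule.add_self, add_zero]
    rwa [e] at h4
  obtain ⟨a, g, ha, hg, hag⟩ := str_proof V B q hq x w y t v h3 h5
  have haW := hB.ker_le a ha
  have hgW := hB.ker_le g hg
  have hwg : w + g ∈ WW q x := (WW q x).add_mem hw hgW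
  refine ⟨g, hg, hv (w + g) hwg ?_⟩
  have e1 : q (w + g) (v + a) = 0 := by rw [hq.symm]; exact hag
  rw [map_add] at e1
  have e2 : q (w + g) v = q (w + g) a := by
    have := ZModModule.sub_eq_add (q (w + g) v) (q (w + g) a)
    rw [e1] at this
    exact sub_eq_zero.1 this
  rw [e2]
  exact hB.c (w + g) hwg a haW

end Pool.Agent.REG10
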